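import Mathlib
import Pool.Agent.H985.KP.StmKP
import Pool.Agent.H985.Chow.Typ

/-!
# Maynard-Tao for the polynomials `T ^ 2 + c` over `F_q[X]`, `q` even (helper524): statements

The input is the asymptotic formula with a power saving for the irreducible `a ^ 2 + c` in residue
classes (`S_lc`).  `PS`: the primes of degree at most `z` which do not divide `M`; they are sifted
with Brun-Hooley weights `Vm`, `Vp`.  The weights of Maynard's sieve live on polynomials whose prime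
factors have degree larger than `z` (rough); `z` is a small multiple of `d`.
-/

namespace Pool.Agent.H524.MT

open Polynomial
open scoped Classical
open Pool.Agent.H985.Chow (mob)
open Pool.Agent.H985.KP (PA)
open Pool.Agent.H694.Typ (Mn PU)

/-! ### Residue classes and primes -/

/-- The monic `a` of degree `d` with `a ≡ a₀` modulo `M`. -/
noncomputable def Ac (K : Type) [Field K] [Fintype K] (d : ℕ) (M a₀ : K[X]) : Finset K[X] :=
  (Mn K d).filter (fun a => M ∣ a - a₀)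

/-- The product of the `1 - 1 / |P|` over the primes `P ∣ M`. -/
noncomputable def Pm {K : Type} [Field K] [Fintype K] (M : K[X]) : ℝ :=
  ∏ᶠ P ∈ PA M, (1 - 1 / (Fintype.card K : ℝ) ^ P.natDegree)

/-- **Task LC.**  The primes `a ^ 2 + c` in residue classes.  `θ` and `κ` depend only on `K`. -/
def S_lc : Prop :=
  ∀ (K : Type) [Field K] [Fintype K] [CharP K 2], ∃ κ θ : ℝ, 0 < κ ∧ 0 < θ ∧
    ∀ c : K[X], ¬ IsSquare c → ∃ N : K[X], N.Monic ∧ ∃ d₀ : ℕ, ∀ (M a₀ : K[X]) (d : ℕ),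
      M.Monic → N ∣ M → IsCoprime (a₀ ^ 2 + c) M → d₀ ≤ d → (M.natDegree : ℝ) ≤ θ * d →
      |2 * (d : ℝ) * (((Ac K d M a₀).filter (fun a => Irreducible (a ^ 2 + c))).card : ℝ) -
        (Fintype.card K : ℝ) ^ (d - M.natDegree) / Pm M| ≤ (Fintype.card K : ℝ) ^ ((1 - κ) * d)

/-! ### The sieve weights -/

/-- General weights of level `D` on the primes of degree at most `z`. -/
def GW (K : Type) [Field K] [Fintype K] (z D : ℕ) (U : Finset K[X] → ℝ) : Prop :=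
  (∀ T, |U T| ≤ 1) ∧ ∀ T, U T ≠ 0 → T ⊆ PU K z ∧ ∑ P ∈ T, P.natDegree ≤ D

/-- Brun-Hooley weights in dimension `κ` of level `A z`, with constants `1 / 2` and `2`: a lower
bound sieve `Vm` and an upper bound sieve `Vp`. -/
structure BH (K : Type) [Field K] [Fintype K] (κ z A : ℕ) (Vm Vp : Finset K[X] → ℝ) : Prop where
  gm : GW K z (A * z) Vm
  gp : GW K z (A * z) Vp
  em : Vm ∅ = 1
  ep : Vp ∅ = 1
  lm : ∀ B ⊆ PU K z, B.Nonempty → ∑ T ∈ B.powerset, Vm T ≤ 0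
  lp : ∀ B ⊆ PU K z, 0 ≤ ∑ T ∈ B.powerset, Vp T
  mm : ∀ g : K[X] → ℝ, (∀ P ∈ PU K z, 0 ≤ g P ∧ g P ≤ κ / (Fintype.card K : ℝ) ^ P.natDegree ∧
      g P ≤ 1 / 2) →
    1 / 2 * ∏ P ∈ PU K z, (1 - g P) ≤ ∑ T ∈ (PU K z).powerset, Vm T * ∏ P ∈ T, g P
  mp : ∀ g : K[X] → ℝ, (∀ P ∈ PU K z, 0 ≤ g P ∧ g P ≤ κ / (Fintype.card K : ℝ) ^ P.natDegree ∧
      g P ≤ 1 / 2) →
    ∑ T ∈ (PU K z).powerset, Vp T * ∏ P ∈ T, g P ≤ 2 * ∏ P ∈ PU K z, (1 - g P)

/-- **Task BHK.**  The weights exist (universal in the density `g`). -/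
def S_bhk : Prop :=
  ∀ (K : Type) [Field K] [Fintype K] (κ : ℕ), ∃ A : ℕ, 1 ≤ A ∧ ∀ z : ℕ, 1 ≤ z →
    ∃ Vm Vp : Finset K[X] → ℝ, BH K κ z A Vm Vp

/-! ### The weight functions -/

/-- The primes of degree at most `z` which do not divide `M`. -/
noncomputable def PS (K : Type) [Field K] [Fintype K] (M : K[X]) (z : ℕ) : Finset K[X] :=
  (PU K z).filter (fun P => ¬ P ∣ M)

/-- The local data: `Rt P a` says that the class of `a` modulo `P` is one of the `r P` sifted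
classes. -/
structure Loc {K : Type} [Field K] [Fintype K] (M : K[X]) (Rt : K[X] → K[X] → Prop)
    (r : K[X] → ℕ) (κ : ℕ) : Prop where
  per : ∀ P a u, Rt P (a + P * u) ↔ Rt P a
  num : ∀ P : K[X], P.Monic → Irreducible P → ¬ P ∣ M →
    {c : K[X] | c.degree < P.degree ∧ Rt P c}.ncard = r P
  bd : ∀ P, r P ≤ κ
  big : ∀ P : K[X], P.Monic → Irreducible P → ¬ P ∣ M →
    16 * (κ + 2) ≤ Fintype.card K ^ P.natDegree

/-- The weight of the small primes. -/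
noncomputable def sw {K : Type} [Field K] [Fintype K] (M : K[X]) (Rt : K[X] → K[X] → Prop) (z : ℕ)
    (V : Finset K[X] → ℝ) (a : K[X]) : ℝ :=
  ∑ T ∈ ((PS K M z).filter (fun P => Rt P a)).powerset, V T

/-- The rough weights: the sum of the `φ x` with `a ≡ c x` modulo `E x`. -/
noncomputable def rwt {K : Type} [Field K] {ι : Type} (I : Finset ι) (E c : ι → K[X]) (φ : ι → ℝ)
    (a : K[X]) : ℝ := ∑ x ∈ I.filter (fun x => E x ∣ a - c x), φ x

/-- The hypotheses on the rough weights. -/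
structure RW {K : Type} [Field K] [Fintype K] {ι : Type} (z D : ℕ) (B : ℝ)
    (I : Finset ι) (E c : ι → K[X]) (φ : ι → ℝ) : Prop where
  mon : ∀ x ∈ I, (E x).Monic
  sq : ∀ x ∈ I, Squarefree (E x)
  rough : ∀ x ∈ I, ∀ P ∈ PA (E x), z < P.natDegree
  deg : ∀ x ∈ I, (E x).natDegree ≤ D
  bd1 : ∑ x ∈ I, |φ x| ≤ (Fintype.card K : ℝ) ^ D
  bd2 : ∑ x ∈ I, |φ x| / (Fintype.card K : ℝ) ^ (E x).natDegree ≤ B
  nn : ∀ a, 0 ≤ rwt I E c φ a

/-- The mean value of the rough weights. -/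
noncomputable def QQ {K : Type} [Field K] [Fintype K] {ι : Type} (I : Finset ι) (E : ι → K[X])
    (φ : ι → ℝ) : ℝ := ∑ x ∈ I, φ x / (Fintype.card K : ℝ) ^ (E x).natDegree

/-- The product of the densities. -/
noncomputable def VR {K : Type} [Field K] [Fintype K] (M : K[X]) (z : ℕ) (r : K[X] → ℕ) : ℝ :=
  ∏ P ∈ PS K M z, (1 - (r P : ℝ) / (Fintype.card K : ℝ) ^ P.natDegree)

/-- The small error `q ^ (- z / 2)`. -/
noncomputable def er (K : Type) [Field K] [Fintype K] (z : ℕ) : ℝ :=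
  (Fintype.card K : ℝ) ^ (-(z : ℝ) / 2)

/-- The classes modulo the product of `T`. -/
def cls {K : Type} [Field K] (Rt : K[X] → K[X] → Prop) (T : Finset K[X]) : Set K[X] :=
  {u | u.degree < (∏ P ∈ T, P).degree ∧ ∀ P ∈ T, Rt P u}

/-- A polynomial in three residue classes. -/
noncomputable def crt {K : Type} [Field K] (M a E c Q u : K[X]) : K[X] :=
  if h : ∃ y, M ∣ y - a ∧ E ∣ y - c ∧ Q ∣ y - u then h.choose else 0

/-- **Task EXP.**  The expansion into residue classes. -/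
def S_exp : Prop :=
  ∀ (K : Type) [Field K] [Fintype K] (M : K[X]) (Rt : K[X] → K[X] → Prop)
    (r : K[X] → ℕ) (κ : ℕ), M.Monic → Loc M Rt r κ → ∀ (a₀ : K[X]) (d z D : ℕ) (B : ℝ)
    (V : Finset K[X] → ℝ) (ι : Type) (I : Finset ι) (E c : ι → K[X]) (φ : ι → ℝ),
    M.natDegree ≤ z → RW z D B I E c φ →
    (∀ G : K[X] → ℝ,
      ∑ a ∈ Ac K d M a₀, G a * (sw M Rt z V a * rwt I E c φ a) =
        ∑ x ∈ I, φ x * ∑ S ∈ (PS K M z).powerset, V S * ∑ᶠ u ∈ cls Rt S,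
          ∑ a ∈ Ac K d (M * E x * ∏ P ∈ S, P) (crt M a₀ (E x) (c x) (∏ P ∈ S, P) u), G a) ∧
    (∀ S ⊆ PS K M z, (cls Rt S).Finite ∧ (cls Rt S).ncard = ∏ P ∈ S, r P) ∧
    (∀ x ∈ I, ∀ S ⊆ PS K M z, ∀ u : K[X],
      M ∣ crt M a₀ (E x) (c x) (∏ P ∈ S, P) u - a₀ ∧
      E x ∣ crt M a₀ (E x) (c x) (∏ P ∈ S, P) u - c x ∧
      (∏ P ∈ S, P) ∣ crt M a₀ (E x) (c x) (∏ P ∈ S, P) u - u ∧
      PA (M * E x * ∏ P ∈ S, P) = PA M ∪ PA (E x) ∪ S ∧
      Disjoint (PA M) (PA (E x)) ∧ Disjoint (PA M ∪ PA (E x)) (S : Set K[X]))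

/-- **The main estimate.**  `θ` depends only on `K`. -/
def S_master : Prop :=
  ∀ (K : Type) [Field K] [Fintype K] [CharP K 2], ∃ θ : ℝ, 0 < θ ∧
    ∀ c : K[X], ¬ IsSquare c → ∃ N : K[X], N.Monic ∧
    ∀ (κ : ℕ) (η : ℝ) (M : K[X]) (Rt : K[X] → K[X] → Prop) (r : K[X] → ℕ),
      0 < η → M.Monic → N ∣ M → Loc M Rt r κ →
      (∀ P : K[X], P.Monic → Irreducible P → ¬ P ∣ M → ∀ a, Rt P a → ¬ P ∣ a ^ 2 + c) →
      ∃ d₀ : ℕ, ∀ (a₀ : K[X]) (d z A D : ℕ) (B : ℝ) (Vm Vp : Finset K[X] → ℝ)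
        (ι : Type) (I : Finset ι) (E cc : ι → K[X]) (φ : ι → ℝ),
        IsCoprime (a₀ ^ 2 + c) M → d₀ ≤ d → 1 ≤ A → BH K (κ + 2) z A Vm Vp → η * d ≤ z →
        ((A * z + D : ℕ) : ℝ) ≤ θ * d → RW z D B I E cc φ →
        (∀ x ∈ I, IsCoprime (cc x ^ 2 + c) (E x)) →
        (Fintype.card K : ℝ) ^ d / ((Fintype.card K : ℝ) ^ M.natDegree * Pm M) *
            (VR M z r * QQ I E φ / 4 - (B + 1) * er K z) ≤
          2 * (d : ℝ) * ∑ a ∈ (Ac K d M a₀).filter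
            (fun a => Irreducible (a ^ 2 + c) ∧ ∀ P ∈ PS K M z, ¬ Rt P a), rwt I E cc φ a

/-- **Task MASTER.** -/
def S_tmaster : Prop := S_lc → S_exp → S_master

/-- **Task ONE.**  The upper bound without primes. -/
def S_one : Prop :=
  ∀ (K : Type) [Field K] [Fintype K] (κ : ℕ) (M : K[X]) (Rt : K[X] → K[X] → Prop)
    (r : K[X] → ℕ) (a₀ : K[X]) (d z A D : ℕ) (B : ℝ) (Vm Vp : Finset K[X] → ℝ)
    (ι : Type) (I : Finset ι) (E c : ι → K[X]) (φ : ι → ℝ),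
    M.Monic → Loc M Rt r κ → M.natDegree ≤ z → BH K (κ + 2) z A Vm Vp →
    A * z + D + M.natDegree ≤ d → RW z D B I E c φ →
    0 ≤ QQ I E φ ∧
    ∑ a ∈ (Ac K d M a₀).filter (fun a => ∀ P ∈ PS K M z, ¬ Rt P a), rwt I E c φ a ≤
      (Fintype.card K : ℝ) ^ d / (Fintype.card K : ℝ) ^ M.natDegree * (2 * VR M z r * QQ I E φ)

/-- Task ONE, from EXP. -/
def S_tone : Prop := S_exp → S_one

/-! ### Prime and almost primes -/

/-- **Prime and almost primes.**  `a ^ 2 + c` is irreducible and all prime factors of `G(a)` have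
degree at least `δ d`, for at least `q ^ d / d ^ C` of the monic `a` of degree `d`. -/
def S_apr : Prop :=
  ∀ (K : Type) [Field K] [Fintype K] [CharP K 2] (c : K[X]) (G : K[X][X]), ¬ IsSquare c →
    (∀ P : K[X], Irreducible P → ∃ a : K[X], ¬ P ∣ (a ^ 2 + c) * G.eval a) →
    ∃ (δ : ℝ) (C d₀ : ℕ), 0 < δ ∧ ∀ d : ℕ, d₀ ≤ d →
      (Fintype.card K : ℝ) ^ d / (d : ℝ) ^ C ≤
        (((Mn K d).filter (fun a => Irreducible (a ^ 2 + c) ∧
          ∀ P : K[X], Irreducible P → P ∣ G.eval a → δ * d ≤ P.natDegree)).card : ℝ)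

/-- **Task APR.** -/
def S_tapr : Prop := S_master → S_bhk → S_apr

/-! ### Maynard's weights -/

/-- The monic squarefree polynomials of degree at most `T` whose prime factors have degree larger
than `z`. -/
noncomputable def Rz (K : Type) [Field K] [Fintype K] (z T : ℕ) : Finset K[X] :=
  ((Finset.range (T + 1)).biUnion (fun j => Mn K j)).filter
    (fun r => Squarefree r ∧ ∀ P ∈ PA r, z < P.natDegree)

/-- Euler's function of a squarefree polynomial. -/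
noncomputable def ph {K : Type} [Field K] [Fintype K] (r : K[X]) : ℝ :=
  ∏ᶠ P ∈ PA r, ((Fintype.card K : ℝ) ^ P.natDegree - 1)

/-- The product of the monic irreducible divisors. -/
noncomputable def rd {K : Type} [Field K] (r : K[X]) : K[X] := ∏ᶠ P ∈ PA r, P

/-- Selberg's weights in terms of the diagonal variables `y`. -/
noncomputable def lam {K : Type} [Field K] [Fintype K] {k : ℕ} (R : Fin k → Finset K[X])
    (y : (Fin k → K[X]) → ℝ) (e : Fin k → K[X]) : ℝ :=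
  (∏ j, ((mob (e j) : ℝ) * (Fintype.card K : ℝ) ^ (e j).natDegree)) *
    ∑ r ∈ (Fintype.piFinset R).filter (fun r => ∀ j, e j ∣ r j), y r / ∏ j, ph (r j)

/-- The diagonal form. -/
noncomputable def dia {K : Type} [Field K] [Fintype K] {k : ℕ} (R : Fin k → Finset K[X])
    (y : (Fin k → K[X]) → ℝ) : ℝ := ∑ r ∈ Fintype.piFinset R, y r ^ 2 / ∏ j, ph (r j)

/-- The square of the sum of the weights. -/
noncomputable def wS {K : Type} [Field K] [Fintype K] {k : ℕ} (R : Fin k → Finset K[X])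
    (y : (Fin k → K[X]) → ℝ) (c : Fin k → K[X]) (a : K[X]) : ℝ :=
  (∑ e ∈ (Fintype.piFinset R).filter (fun e => ∀ j, e j ∣ a ^ 2 + c j), lam R y e) ^ 2

/-- A divisor closed family of monic squarefree polynomials. -/
def Dc {K : Type} [Field K] (R : Finset K[X]) : Prop :=
  (∀ r ∈ R, r.Monic ∧ Squarefree r) ∧ ∀ r ∈ R, ∀ s : K[X], s.Monic → s ∣ r → s ∈ R

/-- **Task SELB.**  Selberg's diagonalization. -/
def S_selb : Prop :=
  ∀ (K : Type) [Field K] [Fintype K] (k : ℕ) (R : Fin k → Finset K[X])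
    (y : (Fin k → K[X]) → ℝ), (∀ j, Dc (R j)) →
    ∑ d ∈ Fintype.piFinset R, ∑ e ∈ Fintype.piFinset R,
      lam R y d * lam R y e / ∏ j, (Fintype.card K : ℝ) ^ (rd (d j * e j)).natDegree = dia R y

/-- The restriction to `e i = 1`. -/
noncomputable def yr {K : Type} [Field K] [Fintype K] {k : ℕ} (i : Fin k) (R : Fin k → Finset K[X])
    (y : (Fin k → K[X]) → ℝ) (r : Fin k → K[X]) : ℝ :=
  ∑ s ∈ R i, y (Function.update r i s) / ph s

/-- **Task RES.**  If `a ^ 2 + c i` is irreducible of degree `2 d`, only the `e` with `e i = 1`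
contribute. -/
def S_res : Prop :=
  ∀ (K : Type) [Field K] [Fintype K] (k : ℕ) (i : Fin k) (R : Fin k → Finset K[X])
    (y : (Fin k → K[X]) → ℝ) (c : Fin k → K[X]) (a : K[X]) (T : ℕ), (∀ j, Dc (R j)) →
    (∀ j, ∀ r ∈ R j, r.natDegree ≤ T) → Irreducible (a ^ 2 + c i) → T < (a ^ 2 + c i).natDegree →
    (1 : K[X]) ∈ R i →
    wS R y c a = wS (Function.update R i {1}) (yr i R y) c a

/-- **Task RWM.**  The weights of Maynard's sieve are rough weights.  `R j` is `Rz K z T` or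
`{1}`. -/
def S_rwm : Prop :=
  ∀ (K : Type) [Field K] [Fintype K] [CharP K 2] (k : ℕ) (c : Fin k → K[X]),
    Function.Injective c → ∀ η : ℝ, 0 < η → ∃ d₀ : ℕ, ∀ (d z T : ℕ) (R : Fin k → Finset K[X])
      (y : (Fin k → K[X]) → ℝ), d₀ ≤ d → η * d ≤ z → z ≤ T → T ≤ d →
      (∀ j, R j = Rz K z T ∨ R j = {1}) →
      (∀ r ∈ Fintype.piFinset R, |y r| ≤ 2 * (T + 1)) →
      (∀ r ∈ Fintype.piFinset R, T < ∑ j, (r j).natDegree → y r = 0) →
      ∃ (ι : Type) (I : Finset ι) (E cc : ι → K[X]) (φ : ι → ℝ),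
        RW z (3 * T) ((d : ℝ) ^ (5 * k + 5)) I E cc φ ∧
        (∀ i, R i = {1} → ∀ x ∈ I, IsCoprime (cc x ^ 2 + c i) (E x)) ∧
        (∀ a, rwt I E cc φ a = wS R y c a) ∧
        (∀ a ∈ Mn K d, wS R y c a ≤ (d : ℝ) ^ (5 * k + 5)) ∧
        |QQ I E φ - dia R y| ≤ er K z

/-- **Task TRWM.** -/
def S_trwm : Prop := S_selb → S_rwm

/-- **Task MERT.**  Mertens' theorem and the sum over the rough polynomials, up to constants. -/
def S_mert : Prop :=
  ∀ (K : Type) [Field K] [Fintype K], ∃ C : ℝ, 1 ≤ C ∧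
    (∀ z : ℕ, 1 ≤ z → (z : ℝ) ≤ ∏ P ∈ PU K z, (1 - 1 / (Fintype.card K : ℝ) ^ P.natDegree)⁻¹ ∧
      ∏ P ∈ PU K z, (1 - 1 / (Fintype.card K : ℝ) ^ P.natDegree)⁻¹ ≤ C * z) ∧
    (∀ z T : ℕ, 1 ≤ z → z ≤ T → (T : ℝ) / (C * z) ≤ ∑ r ∈ Rz K z T, 1 / ph r ∧
      ∑ r ∈ Rz K z T, 1 / ph r ≤ C * T / z)

/-- **Task OPT.**  The choice of the diagonal variables. -/
def S_opt : Prop :=
  ∀ (K : Type) [Field K] [Fintype K] (Λ : ℝ), ∃ (k : ℕ) (η₀ : ℝ), 1 ≤ k ∧ 0 < η₀ ∧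
    ∀ z T : ℕ, 1 ≤ z → (z : ℝ) ≤ η₀ * T →
      ∃ y : (Fin k → K[X]) → ℝ, (∀ r, 0 ≤ y r ∧ y r ≤ 1) ∧
        (∀ r, T < ∑ j, (r j).natDegree → y r = 0) ∧ y (fun _ => 1) = 1 ∧
        Λ * (T / z) * dia (fun _ => Rz K z T) y ≤
          ∑ i : Fin k, dia (Function.update (fun _ => Rz K z T) i {1})
            (yr i (fun _ => Rz K z T) y)

/-- **Task TOPT.** -/
def S_topt : Prop := S_mert → S_opt

/-- **Maynard-Tao for the polynomials `T ^ 2 + c`.**  For every `m` there is a `k` such that for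
every admissible family of `k` different non-squares `c j` there are, for large `d`, at least
`q ^ d / d ^ C` monic `a` of degree `d` such that at least `m` of the `a ^ 2 + c j` are irreducible
and no `a ^ 2 + c j` has a prime factor of degree less than `δ d`. -/
def S_may : Prop :=
  ∀ (K : Type) [Field K] [Fintype K] [CharP K 2] (m : ℕ), ∃ k : ℕ, 1 ≤ k ∧
    ∀ c : Fin k → K[X], Function.Injective c → (∀ j, ¬ IsSquare (c j)) →
      (∀ P : K[X], Irreducible P → ∃ a : K[X], ∀ j, ¬ P ∣ a ^ 2 + c j) →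
      ∃ (δ : ℝ) (C d₀ : ℕ), 0 < δ ∧ ∀ d : ℕ, d₀ ≤ d →
        (Fintype.card K : ℝ) ^ d / (d : ℝ) ^ C ≤
          (((Mn K d).filter (fun a =>
            m ≤ (Finset.univ.filter (fun j => Irreducible (a ^ 2 + c j))).card ∧
            ∀ j, ∀ P : K[X], Irreducible P → P ∣ a ^ 2 + c j → δ * d ≤ P.natDegree)).card : ℝ)

/-- **Task MAY.**  The assembly. -/
def S_tmay : Prop := S_master → S_one → S_bhk → S_res → S_rwm → S_mert → S_opt → S_may

end Pool.Agent.H524.MT
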