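import Mathlib
import Pool.Agent.H524.MT.StmV

/-!
# Maynard-Tao for all inseparable quadratic polynomials `α T ^ 2 + β` (helper524): statements
-/

namespace Pool.Agent.H524.MT

open Polynomial
open scoped Classical
open Pool.Agent.H985.Chow (mob)
open Pool.Agent.H985.KP (PA)
open Pool.Agent.H694.Typ (Mn PU)

/-- **Task LCG.**  The primes `α a ^ 2 + β` in residue classes modulo multiples of `α`. -/
def S_lcg : Prop :=
  ∀ (K : Type) [Field K] [Fintype K] [CharP K 2], ∃ κ θ : ℝ, 0 < κ ∧ 0 < θ ∧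
    ∀ α β : K[X], α ≠ 0 → IsCoprime α β → ¬ IsSquare (α * β) → ∃ d₀ : ℕ,
      ∀ (M a₀ : K[X]) (d : ℕ), M.Monic → α ∣ M → IsCoprime (α * a₀ ^ 2 + β) M → d₀ ≤ d →
      (M.natDegree : ℝ) ≤ θ * d →
      |(2 * (d : ℝ) + α.natDegree) *
          (((Ac K d M a₀).filter (fun a => Irreducible (α * a ^ 2 + β))).card : ℝ) -
        (Fintype.card K : ℝ) ^ (d - M.natDegree) / Pm M| ≤ (Fintype.card K : ℝ) ^ ((1 - κ) * d)

/-- **The main estimate, general case.**  `θ` depends only on `K`. -/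
def S_masterg : Prop :=
  ∀ (K : Type) [Field K] [Fintype K] [CharP K 2], ∃ θ : ℝ, 0 < θ ∧
    ∀ α β : K[X], α ≠ 0 → IsCoprime α β → ¬ IsSquare (α * β) →
    ∀ (κ : ℕ) (η : ℝ) (M : K[X]) (Rt : K[X] → K[X] → Prop) (r : K[X] → ℕ),
      0 < η → M.Monic → α ∣ M → Loc M Rt r κ →
      (∀ P : K[X], P.Monic → Irreducible P → ¬ P ∣ M → ∀ a, Rt P a → ¬ P ∣ α * a ^ 2 + β) →
      ∃ d₀ : ℕ, ∀ (a₀ : K[X]) (d z A D : ℕ) (B : ℝ) (Vm Vp : Finset K[X] → ℝ)
        (ι : Type) (I : Finset ι) (E cc : ι → K[X]) (φ : ι → ℝ),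
        IsCoprime (α * a₀ ^ 2 + β) M → d₀ ≤ d → 1 ≤ A → BH K (κ + 2) z A Vm Vp → η * d ≤ z →
        ((A * z + D : ℕ) : ℝ) ≤ θ * d → RW z D B I E cc φ →
        (∀ x ∈ I, IsCoprime (α * cc x ^ 2 + β) (E x)) →
        (Fintype.card K : ℝ) ^ d / ((Fintype.card K : ℝ) ^ M.natDegree * Pm M) *
            (VR M z r * QQ I E φ / 4 - (B + 1) * er K z) ≤
          (2 * (d : ℝ) + α.natDegree) * ∑ a ∈ (Ac K d M a₀).filter
            (fun a => Irreducible (α * a ^ 2 + β) ∧ ∀ P ∈ PS K M z, ¬ Rt P a), rwt I E cc φ a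

/-- **Task MASTERG.** -/
def S_tmasterg : Prop := S_lcg → S_exp → S_masterg

/-- **Prime and almost primes, general case.** -/
def S_aprg : Prop :=
  ∀ (K : Type) [Field K] [Fintype K] [CharP K 2] (α β : K[X]) (G : K[X][X]), α ≠ 0 →
    IsCoprime α β → ¬ IsSquare (α * β) →
    (∀ P : K[X], Irreducible P → ∃ a : K[X], ¬ P ∣ (α * a ^ 2 + β) * G.eval a) →
    ∃ (δ : ℝ) (C d₀ : ℕ), 0 < δ ∧ ∀ d : ℕ, d₀ ≤ d →
      (Fintype.card K : ℝ) ^ d / (d : ℝ) ^ C ≤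
        (((Mn K d).filter (fun a => Irreducible (α * a ^ 2 + β) ∧
          ∀ P : K[X], Irreducible P → P ∣ G.eval a → δ * d ≤ P.natDegree)).card : ℝ)

/-- **Task APRG.** -/
def S_taprg : Prop := S_masterg → S_bhk → S_aprg

/-- The square of the sum of the weights, for the values `v j`. -/
noncomputable def wV {K : Type} [Field K] [Fintype K] {k : ℕ} (R : Fin k → Finset K[X])
    (y : (Fin k → K[X]) → ℝ) (v : Fin k → K[X]) : ℝ :=
  (∑ e ∈ (Fintype.piFinset R).filter (fun e => ∀ j, e j ∣ v j), lam R y e) ^ 2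

/-- **Task RESG.** -/
def S_resg : Prop :=
  ∀ (K : Type) [Field K] [Fintype K] (k : ℕ) (i : Fin k) (R : Fin k → Finset K[X])
    (y : (Fin k → K[X]) → ℝ) (v : Fin k → K[X]) (T : ℕ), (∀ j, Dc (R j)) →
    (∀ j, ∀ r ∈ R j, r.natDegree ≤ T) → Irreducible (v i) → T < (v i).natDegree →
    (1 : K[X]) ∈ R i →
    wV R y v = wV (Function.update R i {1}) (yr i R y) v

/-- **Task RWMG.**  The weights of Maynard's sieve are rough weights, general case. -/
def S_rwmg : Prop :=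
  ∀ (K : Type) [Field K] [Fintype K] [CharP K 2] (k : ℕ) (α β : Fin k → K[X]),
    (∀ j, α j ≠ 0) → (∀ i j, i ≠ j → α i * β j ≠ α j * β i) →
    ∀ η : ℝ, 0 < η → ∃ d₀ : ℕ, ∀ (d z T : ℕ) (R : Fin k → Finset K[X])
      (y : (Fin k → K[X]) → ℝ), d₀ ≤ d → η * d ≤ z → z ≤ T → T ≤ d →
      (∀ j, R j = Rz K z T ∨ R j = {1}) →
      (∀ r ∈ Fintype.piFinset R, |y r| ≤ 2 * (T + 1)) →
      (∀ r ∈ Fintype.piFinset R, T < ∑ j, (r j).natDegree → y r = 0) →
      ∃ (ι : Type) (I : Finset ι) (E cc : ι → K[X]) (φ : ι → ℝ),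
        RW z (3 * T) ((d : ℝ) ^ (5 * k + 5)) I E cc φ ∧
        (∀ i, R i = {1} → ∀ x ∈ I, IsCoprime (α i * cc x ^ 2 + β i) (E x)) ∧
        (∀ a, rwt I E cc φ a = wV R y (fun j => α j * a ^ 2 + β j)) ∧
        (∀ a ∈ Mn K d, wV R y (fun j => α j * a ^ 2 + β j) ≤ (d : ℝ) ^ (5 * k + 5)) ∧
        |QQ I E φ - dia R y| ≤ er K z

/-- **Task TRWMG.** -/
def S_trwmg : Prop := S_selb → S_rwmg

/-- **Maynard-Tao for the inseparable quadratic polynomials.**  For every `m` there is a `k` such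
that for all `k` irreducible, pairwise non-proportional polynomials `α_j T ^ 2 + β_j` and every
polynomial `G`, if the product of all of them has no fixed prime divisor, there are, for large `d`,
at least `q ^ d / d ^ C` monic `a` of degree `d` such that at least `m` of the `α_j a ^ 2 + β_j`
are irreducible and no prime of degree less than `δ d` divides `G(a)` or an `α_j a ^ 2 + β_j`. -/
def S_mayg : Prop :=
  ∀ (K : Type) [Field K] [Fintype K] [CharP K 2] (m : ℕ), ∃ k : ℕ, 1 ≤ k ∧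
    ∀ (α β : Fin k → K[X]) (G : K[X][X]), (∀ j, α j ≠ 0) → (∀ j, IsCoprime (α j) (β j)) →
      (∀ j, ¬ IsSquare (α j * β j)) → (∀ i j, i ≠ j → α i * β j ≠ α j * β i) →
      (∀ P : K[X], Irreducible P → ∃ a : K[X], ¬ P ∣ G.eval a ∧ ∀ j, ¬ P ∣ α j * a ^ 2 + β j) →
      ∃ (δ : ℝ) (C d₀ : ℕ), 0 < δ ∧ ∀ d : ℕ, d₀ ≤ d →
        (Fintype.card K : ℝ) ^ d / (d : ℝ) ^ C ≤
          (((Mn K d).filter (fun a =>
            m ≤ (Finset.univ.filter (fun j => Irreducible (α j * a ^ 2 + β j))).card ∧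
            (∀ P : K[X], Irreducible P → P ∣ G.eval a → δ * d ≤ P.natDegree) ∧
            ∀ j, ∀ P : K[X], Irreducible P → P ∣ α j * a ^ 2 + β j → δ * d ≤ P.natDegree)).card : ℝ)

/-- **Task MAYG.**  The assembly. -/
def S_tmayg : Prop := S_masterg → S_one → S_bhk → S_resg → S_rwmg → S_mert → S_opt → S_mayg

/-! ### Corollaries -/

/-- **Task PROP.**  Schinzel's hypothesis for a positive proportion of the `m`-tuples of the
polynomials `T ^ 2 + c`. -/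
def S_prop : Prop :=
  ∀ (K : Type) [Field K] [Fintype K] [CharP K 2] (m : ℕ), ∃ δ : ℝ, 0 < δ ∧ ∃ n₀ : ℕ,
    ∀ n : ℕ, n₀ ≤ n → δ * ((Fintype.card K : ℝ) ^ n) ^ m ≤
      ({c : Fin m → K[X] | (∀ i, (c i).degree < (n : WithBot ℕ)) ∧ Function.Injective c ∧
        {a : K[X] | ∀ i, Irreducible (a ^ 2 + c i)}.Infinite}.ncard : ℝ)

/-- From the case `α = 1`, `G = 1` of `S_mayg`. -/
def S_tprop : Prop := S_mayg → S_prop

/-- **Task GAP.**  Bounded gaps: for every non-square `c` there are infinitely many `a` with at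
least `m` irreducible `(a + h) ^ 2 + c`, `deg h ≤ B`; `B` depends only on `K` and `m`. -/
def S_gap : Prop :=
  ∀ (K : Type) [Field K] [Fintype K] [CharP K 2] (m : ℕ), ∃ B : ℕ, ∀ c : K[X], ¬ IsSquare c →
    ∃ n₀ : ℕ, ∀ n : ℕ, n₀ ≤ n → ∃ a : K[X], a.Monic ∧ a.natDegree = n ∧
      m ≤ {h : K[X] | h.natDegree ≤ B ∧ Irreducible ((a + h) ^ 2 + c)}.ncard

/-- From `S_mayg` with `α = 1`, `β_j = c + h_j ^ 2`. -/
def S_tgap : Prop := S_mayg → S_gap

end Pool.Agent.H524.MT
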