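import Mathlib
import Pool.Agent.H524.MT.StmG

/-!
# Maynard-Tao for linear and inseparable quadratic polynomials `α T ^ e + β`, `e = 1, 2` (helper524)
-/

namespace Pool.Agent.H524.MT

open Polynomial
open scoped Classical
open Pool.Agent.H985.Chow (mob)
open Pool.Agent.H985.KP (PA)
open Pool.Agent.H694.Typ (Mn PU)

/-- `α T ^ e + β` is linear, or quadratic and inseparable, and irreducible. -/
def AF {K : Type} [Field K] (e : ℕ) (α β : K[X]) : Prop :=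
  α ≠ 0 ∧ IsCoprime α β ∧ (e = 1 ∨ e = 2 ∧ ¬ IsSquare (α * β))

/-- **Task LCX.**  The primes `α a ^ e + β` in residue classes modulo multiples of `α`. -/
def S_lcx : Prop :=
  ∀ (K : Type) [Field K] [Fintype K] [CharP K 2], ∃ κ θ : ℝ, 0 < κ ∧ 0 < θ ∧
    ∀ (e : ℕ) (α β : K[X]), AF e α β → ∃ d₀ : ℕ,
      ∀ (M a₀ : K[X]) (d : ℕ), M.Monic → α ∣ M → IsCoprime (α * a₀ ^ e + β) M → d₀ ≤ d →
      (M.natDegree : ℝ) ≤ θ * d →
      |((e : ℝ) * d + α.natDegree) *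
          (((Ac K d M a₀).filter (fun a => Irreducible (α * a ^ e + β))).card : ℝ) -
        (Fintype.card K : ℝ) ^ (d - M.natDegree) / Pm M| ≤ (Fintype.card K : ℝ) ^ ((1 - κ) * d)

/-- From S_lcg (`e = 2`) and the prime number theorem in residue classes (`e = 1`). -/
def S_tlcx : Prop := S_lcg → S_lcx

/-- **The main estimate.**  `θ` depends only on `K`. -/
def S_masterx : Prop :=
  ∀ (K : Type) [Field K] [Fintype K] [CharP K 2], ∃ θ : ℝ, 0 < θ ∧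
    ∀ (e : ℕ) (α β : K[X]), AF e α β →
    ∀ (κ : ℕ) (η : ℝ) (M : K[X]) (Rt : K[X] → K[X] → Prop) (r : K[X] → ℕ),
      0 < η → M.Monic → α ∣ M → Loc M Rt r κ →
      (∀ P : K[X], P.Monic → Irreducible P → ¬ P ∣ M → ∀ a, Rt P a → ¬ P ∣ α * a ^ e + β) →
      ∃ d₀ : ℕ, ∀ (a₀ : K[X]) (d z A D : ℕ) (B : ℝ) (Vm Vp : Finset K[X] → ℝ)
        (ι : Type) (I : Finset ι) (E cc : ι → K[X]) (φ : ι → ℝ),
        IsCoprime (α * a₀ ^ e + β) M → d₀ ≤ d → 1 ≤ A → BH K (κ + 2) z A Vm Vp → η * d ≤ z →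
        ((A * z + D : ℕ) : ℝ) ≤ θ * d → RW z D B I E cc φ →
        (∀ x ∈ I, IsCoprime (α * cc x ^ e + β) (E x)) →
        (Fintype.card K : ℝ) ^ d / ((Fintype.card K : ℝ) ^ M.natDegree * Pm M) *
            (VR M z r * QQ I E φ / 4 - (B + 1) * er K z) ≤
          ((e : ℝ) * d + α.natDegree) * ∑ a ∈ (Ac K d M a₀).filter
            (fun a => Irreducible (α * a ^ e + β) ∧ ∀ P ∈ PS K M z, ¬ Rt P a), rwt I E cc φ a

/-- **Task MASTERX.** -/
def S_tmasterx : Prop := S_lcx → S_exp → S_masterx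

/-- **Task RWMX.**  The weights of Maynard's sieve are rough weights. -/
def S_rwmx : Prop :=
  ∀ (K : Type) [Field K] [Fintype K] [CharP K 2] (k : ℕ) (e : Fin k → ℕ) (α β : Fin k → K[X]),
    (∀ j, α j ≠ 0) → (∀ j, e j = 1 ∨ e j = 2) →
    (∃ N : K[X], N ≠ 0 ∧ ∀ (P a : K[X]) (i j : Fin k), Irreducible P → ¬ P ∣ N → i ≠ j →
      P ∣ α i * a ^ e i + β i → ¬ P ∣ α j * a ^ e j + β j) →
    ∀ η : ℝ, 0 < η → ∃ d₀ : ℕ, ∀ (d z T : ℕ) (R : Fin k → Finset K[X])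
      (y : (Fin k → K[X]) → ℝ), d₀ ≤ d → η * d ≤ z → z ≤ T → T ≤ d →
      (∀ j, R j = Rz K z T ∨ R j = {1}) →
      (∀ r ∈ Fintype.piFinset R, |y r| ≤ 2 * (T + 1)) →
      (∀ r ∈ Fintype.piFinset R, T < ∑ j, (r j).natDegree → y r = 0) →
      ∃ (ι : Type) (I : Finset ι) (E cc : ι → K[X]) (φ : ι → ℝ),
        RW z (3 * T) ((d : ℝ) ^ (5 * k + 5)) I E cc φ ∧
        (∀ i, R i = {1} → ∀ x ∈ I, IsCoprime (α i * cc x ^ e i + β i) (E x)) ∧
        (∀ a, rwt I E cc φ a = wV R y (fun j => α j * a ^ e j + β j)) ∧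
        (∀ a ∈ Mn K d, wV R y (fun j => α j * a ^ e j + β j) ≤ (d : ℝ) ^ (5 * k + 5)) ∧
        |QQ I E φ - dia R y| ≤ er K z

/-- **Task TRWMX.** -/
def S_trwmx : Prop := S_selb → S_rwmx

/-- **Maynard-Tao for linear and inseparable quadratic polynomials.** -/
def S_mayx : Prop :=
  ∀ (K : Type) [Field K] [Fintype K] [CharP K 2] (m : ℕ), ∃ k : ℕ, 1 ≤ k ∧
    ∀ (e : Fin k → ℕ) (α β : Fin k → K[X]) (G : K[X][X]), (∀ j, AF (e j) (α j) (β j)) →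
      (∀ i j, i ≠ j → e i = e j → α i * β j ≠ α j * β i) →
      (∀ P : K[X], Irreducible P → ∃ a : K[X], ¬ P ∣ G.eval a ∧
        ∀ j, ¬ P ∣ α j * a ^ e j + β j) →
      ∃ (δ : ℝ) (C d₀ : ℕ), 0 < δ ∧ ∀ d : ℕ, d₀ ≤ d →
        (Fintype.card K : ℝ) ^ d / (d : ℝ) ^ C ≤
          (((Mn K d).filter (fun a =>
            m ≤ (Finset.univ.filter (fun j => Irreducible (α j * a ^ e j + β j))).card ∧
            (∀ P : K[X], Irreducible P → P ∣ G.eval a → δ * d ≤ P.natDegree) ∧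
            ∀ j, ∀ P : K[X], Irreducible P → P ∣ α j * a ^ e j + β j →
              δ * d ≤ P.natDegree)).card : ℝ)

/-- **Task MAYX.**  The assembly. -/
def S_tmayx : Prop := S_masterx → S_one → S_bhk → S_resg → S_rwmx → S_mert → S_opt → S_mayx

end Pool.Agent.H524.MT
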