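import Mathlib
import Pool.Agent.H524.MT.StmV

/-!
# Maynard-Tao for `T ^ 2 + c`: the algebraic preparations
-/

namespace Pool.Agent.H524.MT.May

open Polynomial
open scoped Classical
open Pool.Agent.H985.KP (PA)
open Pool.Agent.H694.Typ (Mn PU mem_PU mem_Mn)
open Pool.Agent.H524.MT

variable {K : Type} [Field K] [Fintype K] [CharP K 2]

omit [Fintype K] in
theorem sub_sq2 (a b : K[X]) : a ^ 2 - b ^ 2 = (a - b) ^ 2 := by
  have h2 : (2 : K[X]) = 0 := by exact_mod_cast CharP.cast_eq_zero K[X] 2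
  linear_combination (a * b - b ^ 2) * h2

omit [CharP K 2] in
theorem fin_deg (n : ℕ) : {f : K[X] | f.degree < (n : WithBot ℕ)}.Finite := by
  have h : ({f : K[X] | f.degree < (n : WithBot ℕ)} : Set K[X]) = (degreeLT K n : Set K[X]) := by
    ext f
    exact mem_degreeLT.symm
  rw [h]
  haveI : Finite (degreeLT K n) := Module.finite_of_finite K
  exact Set.toFinite _

theorem ex_root {P : K[X]} (hP : P.Monic) (f : K[X]) (hsq : Squarefree P) :
    ∃ ρ : K[X], ρ.degree < P.degree ∧ P ∣ ρ ^ 2 + f := by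
  have hfin : Finite {g : K[X] // g.degree < P.degree} := by
    have h := fin_deg (K := K) P.natDegree
    rw [← degree_eq_natDegree hP.ne_zero] at h
    exact h.to_subtype
  let s : {g : K[X] // g.degree < P.degree} → {g : K[X] // g.degree < P.degree} :=
    fun g => ⟨(g.1 ^ 2) %ₘ P, degree_modByMonic_lt _ hP⟩
  have hinj : Function.Injective s := by
    intro g g' h
    have h2 : (g.1 ^ 2) %ₘ P = (g'.1 ^ 2) %ₘ P := congrArg Subtype.val h
    have h3 : P ∣ g.1 ^ 2 - g'.1 ^ 2 := by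
      rw [← modByMonic_eq_zero_iff_dvd hP, sub_modByMonic, h2, sub_self]
    rw [sub_sq2] at h3
    have h4 : P ∣ g.1 - g'.1 := (hsq.dvd_pow_iff_dvd two_ne_zero).1 h3
    have h5 : g.1 - g'.1 = 0 := by
      by_contra h6
      exact absurd (degree_le_of_dvd h4 h6)
        (not_le.2 ((degree_sub_le _ _).trans_lt (max_lt g.2 g'.2)))
    exact Subtype.ext (sub_eq_zero.1 h5)
  obtain ⟨ρ, hρ⟩ := (Finite.injective_iff_surjective.1 hinj) ⟨f %ₘ P, degree_modByMonic_lt _ hP⟩
  refine ⟨ρ.1, ρ.2, ?_⟩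
  have h2 : (ρ.1 ^ 2) %ₘ P = f %ₘ P := congrArg Subtype.val hρ
  have h3 : P ∣ ρ.1 ^ 2 - f := by
    rw [← modByMonic_eq_zero_iff_dvd hP, sub_modByMonic, h2, sub_self]
  have h4 : ρ.1 ^ 2 + f = ρ.1 ^ 2 - f := by
    have h2 : (2 : K[X]) = 0 := by exact_mod_cast CharP.cast_eq_zero K[X] 2
    linear_combination f * h2
  rwa [h4]

omit [Fintype K] in
theorem root_iff {P : K[X]} (hI : Irreducible P) {a b f : K[X]} (hb : P ∣ b ^ 2 + f) :
    P ∣ a ^ 2 + f ↔ P ∣ a - b := by
  have h : a ^ 2 + f - (b ^ 2 + f) = (a - b) ^ 2 := by rw [← sub_sq2]; ring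
  constructor
  · intro ha
    have h1 := dvd_sub ha hb
    rw [h] at h1
    exact hI.prime.dvd_of_dvd_pow h1
  · intro ha
    have h1 : a ^ 2 + f = (a - b) ^ 2 + (b ^ 2 + f) := by rw [← h]; ring
    rw [h1]
    exact dvd_add (dvd_pow ha two_ne_zero) hb

/-- The sifted classes. -/
def bad {k : ℕ} (c : Fin k → K[X]) (S : Finset (Fin k)) (P a : K[X]) : Prop :=
  ∃ j ∈ S, P ∣ a ^ 2 + c j

theorem bad_num {k : ℕ} (c : Fin k → K[X]) (S : Finset (Fin k)) {P : K[X]} (hP : P.Monic)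
    (hI : Irreducible P) (hc : ∀ i j, i ≠ j → ¬ P ∣ c i - c j) :
    {x : K[X] | x.degree < P.degree ∧ bad c S P x}.ncard = S.card := by
  choose ρ hρ using fun j => ex_root hP (c j) hI.squarefree
  have h1 : {x : K[X] | x.degree < P.degree ∧ bad c S P x} = ((S.image ρ : Finset K[X]) : Set K[X]) := by
    ext x
    simp only [Set.mem_ofPred_eq, Finset.coe_image, Set.mem_image, Finset.mem_coe]
    constructor
    · rintro ⟨h2, j, hj, h3⟩
      refine ⟨j, hj, ?_⟩
      have h4 := (root_iff hI (hρ j).2).1 h3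
      have h5 : x - ρ j = 0 := by
        by_contra h6
        exact absurd (degree_le_of_dvd h4 h6)
          (not_le.2 ((degree_sub_le _ _).trans_lt (max_lt h2 (hρ j).1)))
      exact (sub_eq_zero.1 h5).symm
    · rintro ⟨j, hj, rfl⟩
      exact ⟨(hρ j).1, j, hj, (hρ j).2⟩
  rw [h1, Set.ncard_coe_finset, Finset.card_image_of_injOn]
  intro i _ j _ hij
  by_contra hne
  have h2 := dvd_sub (hρ i).2 (hρ j).2
  rw [hij] at h2
  apply hc i j hne
  have h3 : c i - c j = ρ j ^ 2 + c i - (ρ j ^ 2 + c j) := by ring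
  rw [h3]
  exact h2

theorem loc_bad {k : ℕ} (c : Fin k → K[X]) (S : Finset (Fin k)) {M : K[X]}
    (hM : ∀ P : K[X], P.Monic → Irreducible P → ¬ P ∣ M → (∀ i j, i ≠ j → ¬ P ∣ c i - c j) ∧
      16 * (k + 2) ≤ Fintype.card K ^ P.natDegree) : Loc M (bad c S) (fun _ => S.card) k where
  per := by
    intro P a u
    have h : ∀ j, P ∣ (a + P * u) ^ 2 + c j ↔ P ∣ a ^ 2 + c j := by
      intro j
      have h1 : (a + P * u) ^ 2 + c j = a ^ 2 + c j + P * (2 * a * u + P * u ^ 2) := by ring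
      rw [h1]
      exact dvd_add_left (Dvd.intro _ rfl)
    unfold bad
    simp only [h]
  num := fun P hP hI hPM => bad_num c S hP hI (hM P hP hI hPM).1
  bd := fun _ => by simpa using Finset.card_le_univ S
  big := fun P hP hI hPM => (hM P hP hI hPM).2

omit [CharP K 2] in
/-- The modulus. -/
theorem ex_M {k : ℕ} (c : Fin k → K[X]) (hc : Function.Injective c) (N : Fin k → K[X])
    (hN : ∀ i, (N i).Monic) : ∃ M : K[X], M.Monic ∧ (∀ i, N i ∣ M) ∧
      ∀ P : K[X], P.Monic → Irreducible P → ¬ P ∣ M → (∀ i j, i ≠ j → ¬ P ∣ c i - c j) ∧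
        16 * (k + 2) ≤ Fintype.card K ^ P.natDegree := by
  obtain ⟨A, hA⟩ : ∃ A : K[X], A = ∏ i, N i := ⟨_, rfl⟩
  obtain ⟨B, hB⟩ : ∃ B : K[X], B = ∏ i, ∏ j ∈ Finset.univ.erase i, normalize (c i - c j) := ⟨_, rfl⟩
  obtain ⟨D, hD⟩ : ∃ D : K[X], D = ∏ P ∈ PU K (16 * (k + 2)), P := ⟨_, rfl⟩
  have hAm : A.Monic := by rw [hA]; exact monic_prod_of_monic _ _ fun i _ => hN i
  have hBm : B.Monic := by
    rw [hB]
    refine monic_prod_of_monic _ _ fun i _ => monic_prod_of_monic _ _ fun j hj => ?_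
    apply monic_normalize
    rw [Finset.mem_erase] at hj
    intro h
    exact hj.1 (hc (sub_eq_zero.1 h)).symm
  have hDm : D.Monic := by
    rw [hD]
    exact monic_prod_of_monic _ _ fun P hP => (mem_PU.1 hP).1
  refine ⟨A * (B * D), hAm.mul (hBm.mul hDm), fun i => ?_, ?_⟩
  · refine Dvd.dvd.mul_right ?_ _
    rw [hA]
    exact Finset.dvd_prod_of_mem _ (Finset.mem_univ i)
  · intro P hP hI hPM
    have h1 : ¬ P ∣ B := fun h => hPM (Dvd.dvd.mul_left (Dvd.dvd.mul_right h _) _)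
    have h2 : ¬ P ∣ D := fun h => hPM (Dvd.dvd.mul_left (Dvd.dvd.mul_left h _) _)
    refine ⟨fun i j hij h => h1 ?_, ?_⟩
    · rw [hB]
      refine Dvd.dvd.trans ?_ (Finset.dvd_prod_of_mem _ (Finset.mem_univ i))
      refine Dvd.dvd.trans ?_ (Finset.dvd_prod_of_mem _
        (Finset.mem_erase.2 ⟨hij.symm, Finset.mem_univ j⟩))
      exact dvd_normalize_iff.2 h
    · by_contra h3
      push Not at h3
      apply h2
      rw [hD]
      refine Finset.dvd_prod_of_mem _ (mem_PU.2 ⟨hP, hI, ?_⟩)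
      have h4 : P.natDegree < Fintype.card K ^ P.natDegree :=
        Nat.lt_pow_self Fintype.one_lt_card
      omega

omit [Fintype K] [CharP K 2] in
theorem crt_prod (S : Finset K[X]) (hS : ∀ P ∈ S, P.Monic ∧ Irreducible P) (f : K[X] → K[X]) :
    ∃ y : K[X], ∀ P ∈ S, P ∣ y - f P := by
  induction S using Finset.induction_on with
  | empty => exact ⟨0, fun P hP => absurd hP (Finset.notMem_empty P)⟩
  | insert Q S hQ ih =>
    obtain ⟨y, hy⟩ := ih fun P hP => hS P (Finset.mem_insert_of_mem hP)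
    have hcop : IsCoprime Q (∏ P ∈ S, P) := by
      refine IsCoprime.prod_right fun P hP => ?_
      have h1 := hS Q (Finset.mem_insert_self _ _)
      have h2 := hS P (Finset.mem_insert_of_mem hP)
      refine (Irreducible.coprime_iff_not_dvd h1.2).2 fun h => ?_
      have h3 := eq_of_monic_of_associated h1.1 h2.1 (h1.2.associated_of_dvd h2.2 h)
      rw [h3] at hQ
      exact hQ hP
    obtain ⟨u, v, huv⟩ := hcop
    refine ⟨u * Q * y + v * (∏ P ∈ S, P) * f Q, fun P hP => ?_⟩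
    rw [Finset.mem_insert] at hP
    rcases hP with rfl | hP
    · refine ⟨u * y - u * f P, ?_⟩
      linear_combination f P * huv
    · obtain ⟨w, hw⟩ := hy P hP
      obtain ⟨t, ht⟩ := Finset.dvd_prod_of_mem (fun P => P) hP
      refine ⟨w + v * t * (f Q - y), ?_⟩
      have h1 : u * Q * y + v * (∏ P ∈ S, P) * f Q - f P =
          (y - f P) + v * (∏ P ∈ S, P) * (f Q - y) := by linear_combination y * huv
      rw [h1, hw, ht]
      ring

omit [CharP K 2] in
theorem ex_a0 {k : ℕ} (c : Fin k → K[X]) {M : K[X]} (hM : M.Monic)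
    (h : ∀ P : K[X], Irreducible P → ∃ a : K[X], ∀ j, ¬ P ∣ a ^ 2 + c j) :
    ∃ a₀ : K[X], ∀ j, IsCoprime (a₀ ^ 2 + c j) M := by
  obtain ⟨y, hy⟩ := crt_prod ((PU K M.natDegree).filter (fun P => P ∣ M))
    (fun P hP => ⟨(mem_PU.1 (Finset.mem_filter.1 hP).1).1, (mem_PU.1 (Finset.mem_filter.1 hP).1).2.1⟩)
    (fun P => if hI : Irreducible P then (h P hI).choose else 0)
  refine ⟨y, fun j => ?_⟩
  refine isCoprime_of_prime_dvd (fun h0 => hM.ne_zero h0.2) ?_
  intro Q hQ h1 h2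
  have hQI : Irreducible Q := hQ.irreducible
  have hn : normalize Q ∣ M := normalize_dvd_iff.2 h2
  have hI : Irreducible (normalize Q) := (normalize_associated Q).symm.irreducible hQI
  have hmon : (normalize Q).Monic := monic_normalize hQI.ne_zero
  have hmem : normalize Q ∈ (PU K M.natDegree).filter (fun P => P ∣ M) := by
    rw [Finset.mem_filter, mem_PU]
    exact ⟨⟨hmon, hI, natDegree_le_of_dvd hn hM.ne_zero⟩, hn⟩
  have h3 := hy _ hmem
  simp only [dif_pos hI] at h3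
  have h4 := (h _ hI).choose_spec j
  apply h4
  have h5 : (h _ hI).choose ^ 2 + c j = (y ^ 2 + c j) -
      (y - (h _ hI).choose) * (y + (h _ hI).choose) := by ring
  rw [h5]
  exact dvd_sub (normalize_dvd_iff.2 h1) (Dvd.dvd.mul_right h3 _)

end Pool.Agent.H524.MT.May
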