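import Mathlib
import Pool.Agent.H524.MT.StmG
import Pool.Agent.H524.MT.MayA

/-!
# Bounded gaps and a positive proportion of the tuples, from `S_mayg`
-/

set_option autoImplicit false

namespace Pool.Agent.H524.MT

open Polynomial
open scoped Classical
open Pool.Agent.H985.KP (PA)
open Pool.Agent.H694.Typ (Mn PU mem_Mn mem_PU)

namespace GapA

open May

variable {K : Type} [Field K] [Fintype K] [CharP K 2]

/-- The product of the primes of degree at most `k`. -/
noncomputable def WW (K : Type) [Field K] [Fintype K] (k : ℕ) : K[X] := ∏ P ∈ PU K k, P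

omit [CharP K 2] in
theorem WW_monic (k : ℕ) : (WW K k).Monic :=
  monic_prod_of_monic _ _ fun P hP => (mem_PU.1 hP).1

theorem adm {k : ℕ} (c : Fin k → K[X]) (u : K[X]) (hc : ∀ j, WW K k ∣ c j - u) (P : K[X])
    (hI : Irreducible P) : ∃ a : K[X], ∀ j, ¬ P ∣ a ^ 2 + c j := by
  have h2 : (2 : K[X]) = 0 := by exact_mod_cast CharP.cast_eq_zero K[X] 2
  by_cases hd : P.natDegree ≤ k
  · have h1 : (normalize P).Monic := monic_normalize hI.ne_zero
    have h3 : Irreducible (normalize P) := (normalize_associated P).symm.irreducible hI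
    have h4 : (normalize P).natDegree = P.natDegree :=
      natDegree_eq_of_degree_eq (degree_eq_degree_of_associated (normalize_associated P))
    have h5 : P ∣ WW K k := by
      refine (dvd_normalize_iff.2 dvd_rfl : P ∣ normalize P).trans ?_
      exact Finset.dvd_prod_of_mem (fun P => P) (mem_PU.2 ⟨h1, h3, by rw [h4]; exact hd⟩)
    obtain ⟨ρ, -, hρ⟩ := ex_root h1 u h3.squarefree
    refine ⟨ρ + 1, fun j hj => hI.not_isUnit (isUnit_of_dvd_one ?_)⟩
    have h6 : P ∣ c j - u := h5.trans (hc j)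
    have h7 : P ∣ ρ ^ 2 + u := (dvd_normalize_iff.2 dvd_rfl : P ∣ normalize P).trans hρ
    have e : (1 : K[X]) = (ρ + 1) ^ 2 + c j - (c j - u) - (ρ ^ 2 + u) - 2 * ρ := by ring
    rw [e]
    refine dvd_sub (dvd_sub (dvd_sub hj h6) h7) ?_
    rw [h2, zero_mul]
    exact dvd_zero _
  · by_contra hcon
    push Not at hcon hd
    choose j hj using fun i : Fin (k + 1) => hcon (X ^ (i : ℕ))
    obtain ⟨i, i', hne, hij⟩ := Fintype.exists_ne_map_eq_of_card_lt j (by
      rw [Fintype.card_fin, Fintype.card_fin]; omega)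
    apply hne
    have h3 := dvd_sub (hj i) (hj i')
    rw [hij] at h3
    have h4 : (X ^ (i : ℕ) : K[X]) ^ 2 + c (j i') - ((X ^ (i' : ℕ)) ^ 2 + c (j i')) =
        (X ^ (i : ℕ) - X ^ (i' : ℕ)) ^ 2 := by rw [← sub_sq2]; ring
    rw [h4] at h3
    have h5 : P ∣ X ^ (i : ℕ) - X ^ (i' : ℕ) := hI.prime.dvd_of_dvd_pow h3
    have h6 : (X ^ (i : ℕ) - X ^ (i' : ℕ) : K[X]) = 0 := by
      by_contra h7
      have h8 := natDegree_le_of_dvd h5 h7
      have h9 : (X ^ (i : ℕ) - X ^ (i' : ℕ) : K[X]).natDegree ≤ k := by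
        refine (natDegree_sub_le _ _).trans ?_
        rw [natDegree_X_pow, natDegree_X_pow]
        have := i.2
        have := i'.2
        omega
      omega
    have h7 := congrArg natDegree (sub_eq_zero.1 h6)
    rw [natDegree_X_pow, natDegree_X_pow] at h7
    exact Fin.ext h7

end GapA

open GapA May in
/-- **Task GAP.** -/
theorem gap : S_tgap := by
  intro hM K _ _ _ m
  obtain ⟨k, hk, H⟩ := hM K m
  obtain ⟨h, hh⟩ : ∃ h : Fin k → K[X], ∀ j, h j = WW K k * X ^ (j : ℕ) :=
    ⟨fun j => WW K k * X ^ (j : ℕ), fun _ => rfl⟩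
  have hW0 : WW K k ≠ 0 := (WW_monic k).ne_zero
  have hinj : Function.Injective h := by
    intro i j hij
    rw [hh, hh] at hij
    have h1 := mul_left_cancel₀ hW0 hij
    have h2 := congrArg natDegree h1
    rw [natDegree_X_pow, natDegree_X_pow] at h2
    exact Fin.ext h2
  have hdeg : ∀ j, (h j).natDegree ≤ (WW K k).natDegree + k := by
    intro j
    rw [hh]
    refine natDegree_mul_le.trans ?_
    rw [natDegree_X_pow]
    have := j.2
    omega
  refine ⟨(WW K k).natDegree + k, fun c hc => ?_⟩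
  have hsq : ∀ j, ¬ IsSquare (c + h j ^ 2) := by
    rintro j ⟨r, hr⟩
    apply hc
    have h2 : (2 : K[X]) = 0 := by exact_mod_cast CharP.cast_eq_zero K[X] 2
    exact ⟨r + h j, by linear_combination hr - (h j ^ 2 + r * h j) * h2⟩
  obtain ⟨δ, C, d₀, hδ, H1⟩ := H (fun _ => 1) (fun j => c + h j ^ 2) 1 (fun _ => one_ne_zero)
    (fun _ => isCoprime_one_left) (fun j => by rw [one_mul]; exact hsq j)
    (fun i j hij he => by
      rw [one_mul, one_mul] at he
      have h1 : h j ^ 2 - h i ^ 2 = 0 := by linear_combination he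
      rw [sub_sq2] at h1
      exact hij (hinj (sub_eq_zero.1 (pow_eq_zero_iff two_ne_zero |>.1 h1)).symm))
    (fun P hP => by
      obtain ⟨a, ha⟩ := adm (fun j => c + h j ^ 2) c (fun j => by
        have e : c + h j ^ 2 - c = WW K k * (WW K k * (X ^ (j : ℕ)) ^ 2) := by rw [hh]; ring
        rw [e]
        exact dvd_mul_right _ _) P hP
      refine ⟨a, ?_, fun j => ?_⟩
      · rw [eval_one]
        exact fun h1 => hP.not_isUnit (isUnit_of_dvd_one h1)
      · rw [one_mul]
        exact ha j)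
  refine ⟨max d₀ 1, fun n hn => ?_⟩
  have h1 := H1 n ((le_max_left _ _).trans hn)
  have hn0 : (0 : ℝ) < n := by
    have : 1 ≤ n := (le_max_right _ _).trans hn
    exact_mod_cast this
  have hq0 : (0 : ℝ) < (Fintype.card K : ℝ) := by
    exact_mod_cast (Fintype.card_pos (α := K))
  have h2 : (0 : ℝ) < (Fintype.card K : ℝ) ^ n / (n : ℝ) ^ C := by positivity
  have h3 := h2.trans_le h1
  have h4 := Finset.card_pos.1 (by exact_mod_cast h3)
  obtain ⟨a, ha⟩ := h4
  rw [Finset.mem_filter, mem_Mn] at ha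
  refine ⟨a, ha.1.1, ha.1.2, ha.2.1.trans ?_⟩
  have hfin : {f : K[X] | f.natDegree ≤ (WW K k).natDegree + k ∧
      Irreducible ((a + f) ^ 2 + c)}.Finite := by
    refine (fin_deg (K := K) ((WW K k).natDegree + k + 1)).subset fun f hf => ?_
    refine lt_of_le_of_lt degree_le_natDegree ?_
    have := hf.1
    exact_mod_cast Nat.lt_succ_of_le this
  rw [← Finset.card_image_of_injective _ hinj, ← Set.ncard_coe_finset]
  refine Set.ncard_le_ncard ?_ hfin
  intro f hf
  rw [Finset.mem_coe, Finset.mem_image] at hf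
  obtain ⟨j, hj, rfl⟩ := hf
  refine ⟨hdeg j, ?_⟩
  have h5 := (Finset.mem_filter.1 hj).2
  have h2 : (2 : K[X]) = 0 := by exact_mod_cast CharP.cast_eq_zero K[X] 2
  have e : (a + h j) ^ 2 + c = 1 * a ^ 2 + (c + h j ^ 2) := by
    linear_combination (a * h j) * h2
  rw [e]
  exact h5

end Pool.Agent.H524.MT
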