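import Pool.Agent.H524.MT.StmX
import Pool.Agent.H523.RH2

/-! Task LCX: primes `α a ^ e + β` in residue classes, `e = 1, 2`. -/

set_option autoImplicit false

namespace Pool.Agent.H524.MT.LCXL

open Polynomial Filter Topology
open scoped Classical
open Pool.Agent.H985.KP (PA)
open Pool.Agent.H694.Typ (Mn PU mem_Mn)
open Pool.Agent.H341R2.Sharp (Mon mem_Mon)
open Pool.Agent.H523.RH (Phi pnt Phi_prod)
open Pool.Agent.H523.FF (Ir mem_Ir two_le_card)

variable {K : Type} [Field K] [Fintype K]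

omit [Fintype K] in
theorem pa_fin {M : K[X]} (h0 : M ≠ 0) : (PA M).Finite := by
  refine ((UniqueFactorizationMonoid.normalizedFactors M).toFinset.finite_toSet).subset ?_
  rintro P ⟨h1, h2, h3⟩
  rw [Finset.mem_coe, Multiset.mem_toFinset, Polynomial.mem_normalizedFactors_iff h0]
  exact ⟨h2, h1, h3⟩

theorem phi_eq {M : K[X]} (hM : M.Monic) :
    (Phi M 0 : ℝ) = (Fintype.card K : ℝ) ^ M.natDegree * Pm M := by
  have hfin := pa_fin hM.ne_zero
  obtain ⟨S, hSdef⟩ : ∃ S : Finset K[X], S = hfin.toFinset := ⟨_, rfl⟩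
  have hmem : ∀ P, P ∈ S ↔ P.Monic ∧ Irreducible P ∧ P ∣ M := by
    intro P
    rw [hSdef, Set.Finite.mem_toFinset]
    rfl
  have hS : ∀ P ∈ S, P.Monic ∧ Irreducible P := fun P hP =>
    ⟨((hmem P).1 hP).1, ((hmem P).1 hP).2.1⟩
  obtain ⟨R, hR⟩ : ∃ R : K[X], R = ∏ P ∈ S, P := ⟨_, rfl⟩
  have hRM : R ∣ M := by
    rw [hR]
    refine Finset.prod_dvd_of_coprime ?_ fun P hP => ((hmem P).1 hP).2.2
    intro P hP Q hQ hPQ
    have h1 := hS P hP
    have h2 := hS Q hQ
    show IsCoprime P Q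
    rw [Irreducible.coprime_iff_not_dvd h1.2]
    intro h
    have h3 := (h1.2.dvd_irreducible_iff_associated h2.2).1 h
    exact hPQ (eq_of_monic_of_associated h1.1 h2.1 h3)
  have hdeg : R.natDegree ≤ M.natDegree := natDegree_le_of_dvd hRM hM.ne_zero
  have hcop : ∀ f : K[X], IsCoprime f M ↔ IsCoprime f R := by
    intro f
    constructor
    · intro h
      exact h.of_isCoprime_of_dvd_right hRM
    · intro h
      refine isCoprime_of_irreducible_dvd (fun h0 => hM.ne_zero h0.2) fun z hz hzf hzM => ?_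
      have hz0 : z ≠ 0 := hz.ne_zero
      have hu : IsUnit (C z.leadingCoeff⁻¹) :=
        isUnit_C.2 (isUnit_iff_ne_zero.2 (inv_ne_zero (leadingCoeff_ne_zero.2 hz0)))
      have h1 : z * C z.leadingCoeff⁻¹ ∈ S := by
        rw [hmem]
        refine ⟨monic_mul_leadingCoeff_inv hz0, (irreducible_mul_isUnit hu).2 hz, ?_⟩
        exact (IsUnit.mul_right_dvd hu).2 hzM
      have h2 : z * C z.leadingCoeff⁻¹ ∣ R := by
        rw [hR]
        exact Finset.dvd_prod_of_mem _ h1
      have h3 : z ∣ R := (dvd_mul_right z _).trans h2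
      exact hz.not_isUnit (h.isUnit_of_dvd' hzf h3)
  have h1 : Phi M 0 = Phi R (M.natDegree - R.natDegree) := by
    unfold Phi
    have h2 : R.natDegree + (M.natDegree - R.natDegree) = M.natDegree + 0 := by omega
    rw [h2]
    refine congrArg Finset.card ?_
    refine Finset.filter_congr fun f _ => hcop f
  have hq : (0 : ℝ) < Fintype.card K := by
    have := Fintype.card_pos (α := K)
    exact_mod_cast this
  have h2 : Pm M = ∏ P ∈ S, (1 - 1 / (Fintype.card K : ℝ) ^ P.natDegree) := by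
    unfold Pm
    rw [finprod_mem_eq_finite_toFinset_prod _ hfin, hSdef]
  have h3 : ∏ P ∈ S, ((Fintype.card K : ℝ) ^ P.natDegree - 1) =
      (Fintype.card K : ℝ) ^ R.natDegree *
        ∏ P ∈ S, (1 - 1 / (Fintype.card K : ℝ) ^ P.natDegree) := by
    have h4 : R.natDegree = ∑ P ∈ S, P.natDegree := by
      rw [hR]
      exact natDegree_prod_of_monic _ _ (fun P hP => (hS P hP).1)
    rw [h4, ← Finset.prod_pow_eq_pow_sum, ← Finset.prod_mul_distrib]
    refine Finset.prod_congr rfl fun P _ => ?_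
    have : (Fintype.card K : ℝ) ^ P.natDegree ≠ 0 := by positivity
    field_simp
  rw [h1, hR, Phi_prod S hS, ← hR, h3, ← mul_assoc, ← pow_add, h2]
  congr 2
  omega

omit [Fintype K] in
theorem mon_F {α β : K[X]} (hα : α ≠ 0) {d : ℕ} (hd : β.natDegree < d + α.natDegree) {a : K[X]}
    (ha : a.Monic) (had : a.natDegree = d) :
    (α * C α.leadingCoeff⁻¹ * a + β * C α.leadingCoeff⁻¹).Monic ∧
      (α * C α.leadingCoeff⁻¹ * a + β * C α.leadingCoeff⁻¹).natDegree = d + α.natDegree := by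
  have h1 : (α * C α.leadingCoeff⁻¹).Monic := monic_mul_leadingCoeff_inv hα
  have h2 : (α * C α.leadingCoeff⁻¹).natDegree = α.natDegree :=
    natDegree_mul_leadingCoeff_inv α hα
  have h3 : (α * C α.leadingCoeff⁻¹ * a).Monic := h1.mul ha
  have h4 : (α * C α.leadingCoeff⁻¹ * a).natDegree = d + α.natDegree := by
    rw [h1.natDegree_mul ha, h2, had, add_comm]
  have h5 : (β * C α.leadingCoeff⁻¹).degree < (α * C α.leadingCoeff⁻¹ * a).degree := by
    rw [degree_eq_natDegree h3.ne_zero, h4]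
    refine lt_of_le_of_lt degree_le_natDegree ?_
    have h6 : (β * C α.leadingCoeff⁻¹).natDegree ≤ β.natDegree :=
      natDegree_mul_C_le β _
    exact_mod_cast lt_of_le_of_lt h6 hd
  exact ⟨h3.add_of_left h5, by rw [natDegree_add_eq_left_of_degree_lt h5, h4]⟩

theorem count {α β M a₀ : K[X]} (hα : α ≠ 0) (hM : M.Monic) (hαM : α ∣ M)
    (hc : IsCoprime (α * a₀ + β) M) {d : ℕ} (hd : β.natDegree < d + α.natDegree)
    (hMd : M.natDegree ≤ d) : ∃ M1 f₀ : K[X], M1.Monic ∧
      M1.natDegree = M.natDegree + α.natDegree ∧ f₀ ∈ Mon K (d + α.natDegree) ∧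
      IsCoprime f₀ M1 ∧ Pm M1 = Pm M ∧
      ((Ac K d M a₀).filter (fun a => Irreducible (α * a + β))).card =
        ((Ir K (d + α.natDegree)).filter (fun P => M1 ∣ P - f₀ ∧
          (P - f₀).degree < ((d + α.natDegree - 0 : ℕ) : WithBot ℕ))).card := by
  have hcu : IsUnit (C α.leadingCoeff⁻¹) :=
    isUnit_C.2 (isUnit_iff_ne_zero.2 (inv_ne_zero (leadingCoeff_ne_zero.2 hα)))
  have h1 : (α * C α.leadingCoeff⁻¹).Monic := monic_mul_leadingCoeff_inv hα
  have h2 : (α * C α.leadingCoeff⁻¹).natDegree = α.natDegree :=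
    natDegree_mul_leadingCoeff_inv α hα
  obtain ⟨a', ha'm, ha'd, ha'M⟩ : ∃ a' : K[X], a'.Monic ∧ a'.natDegree = d ∧ M ∣ a' - a₀ := by
    have h3 : ((a₀ - X ^ d) %ₘ M).degree < (d : WithBot ℕ) := by
      refine lt_of_lt_of_le (degree_modByMonic_lt _ hM) ?_
      rw [degree_eq_natDegree hM.ne_zero]
      exact_mod_cast hMd
    refine ⟨X ^ d + (a₀ - X ^ d) %ₘ M, monic_X_pow_add h3, ?_, ?_⟩
    · rw [natDegree_add_eq_left_of_degree_lt (by rwa [degree_X_pow]), natDegree_X_pow]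
    have h4 := modByMonic_add_div (a₀ - X ^ d) M
    refine ⟨-((a₀ - X ^ d) /ₘ M), ?_⟩
    linear_combination h4
  obtain ⟨F, hF⟩ : ∃ F : K[X] → K[X], F = fun a =>
    α * C α.leadingCoeff⁻¹ * a + β * C α.leadingCoeff⁻¹ := ⟨_, rfl⟩
  have hFa : ∀ a, F a = α * C α.leadingCoeff⁻¹ * a + β * C α.leadingCoeff⁻¹ := fun a => by rw [hF]
  have hFi : ∀ a, Irreducible (F a) ↔ Irreducible (α * a + β) := by
    intro a
    have h3 : F a = (α * a + β) * C α.leadingCoeff⁻¹ := by
      rw [hFa]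
      ring
    rw [h3]
    exact irreducible_mul_isUnit hcu
  have hFm : ∀ a : K[X], a.Monic → a.natDegree = d → (F a).Monic ∧
      (F a).natDegree = d + α.natDegree := by
    intro a ha had
    rw [hFa]
    exact mon_F hα hd ha had
  have hf₀ := hFm a' ha'm ha'd
  refine ⟨α * C α.leadingCoeff⁻¹ * M, F a', h1.mul hM, ?_, mem_Mon.2 hf₀, ?_, ?_, ?_⟩
  · rw [h1.natDegree_mul hM, h2, add_comm]
  · have h3 : F a' = (α * a' + β) * C α.leadingCoeff⁻¹ := by
      rw [hFa]
      ring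
    rw [h3]
    have h4 : IsCoprime (α * a' + β) M := by
      obtain ⟨t, ht⟩ := ha'M
      have h5 : α * a' + β = (α * a₀ + β) + M * (α * t) := by
        linear_combination α * ht
      rw [h5]
      exact hc.add_mul_left_left _
    have h5 : IsCoprime (α * a' + β) α := h4.of_isCoprime_of_dvd_right hαM
    rw [isCoprime_mul_unit_right_left hcu]
    refine IsCoprime.mul_right ?_ h4
    rwa [isCoprime_mul_unit_right_right hcu]
  · have h3 : PA (α * C α.leadingCoeff⁻¹ * M) = PA M := by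
      ext P
      constructor
      · rintro ⟨hP1, hP2, hP3⟩
        refine ⟨hP1, hP2, ?_⟩
        rcases hP2.prime.dvd_or_dvd hP3 with h | h
        · exact ((IsUnit.dvd_mul_right hcu).1 h).trans hαM
        · exact h
      · rintro ⟨hP1, hP2, hP3⟩
        exact ⟨hP1, hP2, hP3.mul_left _⟩
    unfold Pm
    rw [h3]
  · refine Finset.card_bij (fun a _ => F a) ?_ ?_ ?_
    · intro a ha
      rw [Finset.mem_filter] at ha
      obtain ⟨ha1, ha2⟩ := ha
      unfold Ac at ha1
      rw [Finset.mem_filter, mem_Mn] at ha1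
      obtain ⟨⟨ham, had⟩, haM⟩ := ha1
      have hFam := hFm a ham had
      rw [Finset.mem_filter, mem_Ir]
      refine ⟨⟨hFam.1, (hFi a).2 ha2, hFam.2⟩, ?_, ?_⟩
      · have h3 : F a - F a' = α * C α.leadingCoeff⁻¹ * ((a - a₀) - (a' - a₀)) := by
          rw [hFa, hFa]
          ring
        rw [h3]
        exact mul_dvd_mul_left _ (dvd_sub haM ha'M)
      · have h3 : (F a - F a').degree < (F a).degree := by
          refine degree_sub_lt_left ?_ hFam.1.ne_zero ?_
          · rw [degree_eq_natDegree hFam.1.ne_zero, degree_eq_natDegree hf₀.1.ne_zero, hFam.2,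
              hf₀.2]
          · rw [hFam.1.leadingCoeff, hf₀.1.leadingCoeff]
        rwa [degree_eq_natDegree hFam.1.ne_zero, hFam.2] at h3
    · intro a _ b _ h
      have h3 : α * C α.leadingCoeff⁻¹ * a = α * C α.leadingCoeff⁻¹ * b := by
        have h4 : F a = F b := h
        rw [hFa, hFa] at h4
        exact add_right_cancel h4
      exact mul_left_cancel₀ h1.ne_zero h3
    · intro P hP
      rw [Finset.mem_filter, mem_Ir] at hP
      obtain ⟨⟨hPm, hPi, hPd⟩, ⟨t, ht⟩, -⟩ := hP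
      have h3 : F (a' + M * t) = P := by
        rw [hFa] at ht ⊢
        linear_combination -ht
      have h4 : α * C α.leadingCoeff⁻¹ * (a' + M * t) = P - β * C α.leadingCoeff⁻¹ := by
        rw [← h3, hFa]
        ring
      have h5 : (β * C α.leadingCoeff⁻¹).degree < P.degree := by
        rw [degree_eq_natDegree hPm.ne_zero, hPd]
        refine lt_of_le_of_lt degree_le_natDegree ?_
        have h6 : (β * C α.leadingCoeff⁻¹).natDegree ≤ β.natDegree :=
          natDegree_mul_C_le β _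
        exact_mod_cast lt_of_le_of_lt h6 hd
      have h6 : (P - β * C α.leadingCoeff⁻¹).Monic := hPm.sub_of_left h5
      have h7 : (P - β * C α.leadingCoeff⁻¹).natDegree = d + α.natDegree := by
        rw [natDegree_sub_eq_left_of_natDegree_lt, hPd]
        rw [hPd]
        exact lt_of_le_of_lt (natDegree_mul_C_le β _) hd
      have h8 : (a' + M * t).Monic := by
        refine h1.of_mul_monic_left ?_
        rw [h4]
        exact h6
      have h9 : (a' + M * t).natDegree = d := by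
        have h10 := h1.natDegree_mul h8
        rw [h4, h7, h2] at h10
        omega
      refine ⟨a' + M * t, ?_, h3⟩
      rw [Finset.mem_filter]
      refine ⟨?_, ?_⟩
      · unfold Ac
        rw [Finset.mem_filter, mem_Mn]
        refine ⟨⟨h8, h9⟩, ?_⟩
        have h10 : a' + M * t - a₀ = (a' - a₀) + M * t := by ring
        rw [h10]
        exact dvd_add ha'M (dvd_mul_right M t)
      · rw [← hFi, h3]
        exact hPi

theorem big (q : ℝ) (hq : 2 ≤ q) (A B : ℝ) : ∃ d₀ : ℕ, ∀ d : ℕ, d₀ ≤ d →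
    (2 * (d : ℝ) + A) * B ≤ q ^ ((1 / 4 : ℝ) * d) := by
  obtain ⟨r, hrdef⟩ : ∃ r : ℝ, r = q ^ (1 / 4 : ℝ) := ⟨_, rfl⟩
  have hr : 1 < r := by
    rw [hrdef]
    exact Real.one_lt_rpow (by linarith) (by norm_num)
  have h1 := tendsto_pow_const_div_const_pow_of_one_lt 1 hr
  have h0 := tendsto_pow_const_div_const_pow_of_one_lt 0 hr
  have h2 : Tendsto (fun n : ℕ => (2 * B) * ((n : ℝ) ^ 1 / r ^ n) + (A * B) * ((n : ℝ) ^ 0 / r ^ n))
      atTop (𝓝 (2 * B * 0 + A * B * 0)) := (h1.const_mul _).add (h0.const_mul _)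
  rw [mul_zero, mul_zero, add_zero] at h2
  obtain ⟨d₀, hd₀⟩ := eventually_atTop.1 (h2.eventually (gt_mem_nhds (zero_lt_one)))
  refine ⟨d₀, fun d hd => ?_⟩
  have h3 := hd₀ d hd
  have hrd : 0 < r ^ d := pow_pos (by linarith) d
  have h4 : q ^ ((1 / 4 : ℝ) * d) = r ^ d := by
    rw [Real.rpow_mul (by linarith), ← hrdef, Real.rpow_natCast]
  rw [h4]
  have h5 : (2 * (d : ℝ) + A) * B =
      ((2 * B) * ((d : ℝ) ^ 1 / r ^ d) + (A * B) * ((d : ℝ) ^ 0 / r ^ d)) * r ^ d := by
    have : r ^ d ≠ 0 := hrd.ne'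
    field_simp
  rw [h5]
  nlinarith

/-- the case `e = 1` -/
theorem lin (α β : K[X]) (hα : α ≠ 0) : ∃ d₀ : ℕ,
      ∀ (M a₀ : K[X]) (d : ℕ), M.Monic → α ∣ M → IsCoprime (α * a₀ + β) M → d₀ ≤ d →
      M.natDegree ≤ d →
      |((d : ℝ) + α.natDegree) *
          (((Ac K d M a₀).filter (fun a => Irreducible (α * a + β))).card : ℝ) -
        (Fintype.card K : ℝ) ^ (d - M.natDegree) / Pm M| ≤
          (Fintype.card K : ℝ) ^ ((3 / 4 : ℝ) * d) := by
  have hq : (2 : ℝ) ≤ Fintype.card K := two_le_card (F := K)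
  obtain ⟨q, hqdef⟩ : ∃ q : ℝ, q = Fintype.card K := ⟨_, rfl⟩
  rw [← hqdef] at hq
  obtain ⟨d₀, hd₀⟩ := big q hq (2 * α.natDegree + 4) (q ^ ((1 / 2 : ℝ) * α.natDegree))
  refine ⟨max d₀ (β.natDegree + 1), fun M a₀ d hM hαM hc hd hMd => ?_⟩
  have hd1 : d₀ ≤ d := le_trans (le_max_left _ _) hd
  have hd2 : β.natDegree + 1 ≤ d := le_trans (le_max_right _ _) hd
  obtain ⟨M1, f₀, hM1, hM1d, hf₀, hcop, hPm, hcard⟩ := count hα hM hαM hc
    (d := d) (by omega) hMd
  have h1 := pnt hM1 0 (d + α.natDegree) (by omega) (Nat.zero_le _) hf₀ hcop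
  rw [← hcard, phi_eq hM1, hPm, hM1d, ← hqdef] at h1
  rw [← hqdef]
  have hq0 : 0 < q := by linarith
  have h2 : q ^ (d + α.natDegree) / (q ^ (M.natDegree + α.natDegree) * Pm M) =
      q ^ (d - M.natDegree) / Pm M := by
    have h3 : d + α.natDegree = (M.natDegree + α.natDegree) + (d - M.natDegree) := by omega
    rw [h3, pow_add, mul_div_mul_left _ _ (by positivity)]
  rw [h2] at h1
  have h3 : ((d + α.natDegree : ℕ) : ℝ) = (d : ℝ) + α.natDegree := by push_cast; ring
  rw [h3] at h1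
  refine h1.trans ?_
  have h4 : (√q) ^ (d + α.natDegree) = q ^ ((1 / 2 : ℝ) * α.natDegree) * q ^ ((1 / 2 : ℝ) * d) := by
    rw [Real.sqrt_eq_rpow, ← Real.rpow_natCast, ← Real.rpow_mul hq0.le, ← Real.rpow_add hq0]
    congr 1
    push_cast
    ring
  have h5 : q ^ ((3 / 4 : ℝ) * d) = q ^ ((1 / 4 : ℝ) * d) * q ^ ((1 / 2 : ℝ) * d) := by
    rw [← Real.rpow_add hq0]
    congr 1
    ring
  rw [h4, h5, ← mul_assoc]
  refine mul_le_mul_of_nonneg_right (le_trans ?_ (hd₀ d hd1)) (by positivity)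
  refine mul_le_mul_of_nonneg_right ?_ (by positivity)
  have h6 : (M.natDegree : ℝ) ≤ d := by exact_mod_cast hMd
  push_cast
  linarith

end Pool.Agent.H524.MT.LCXL

namespace Pool.Agent.H524.MT

open Polynomial
open scoped Classical
open Pool.Agent.H523.FF (two_le_card)

/-- **Task LCX.** -/
theorem lcx : S_tlcx := by
  intro hG K _ _ _
  obtain ⟨κ, θ, hκ, hθ, hmain⟩ := hG K
  have hq : (2 : ℝ) ≤ Fintype.card K := two_le_card (F := K)
  refine ⟨min κ (1 / 4), min θ (1 / 4), by positivity, by positivity, ?_⟩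
  rintro e α β ⟨hα, hcop, rfl | ⟨rfl, hsq⟩⟩
  · obtain ⟨d₀, hd₀⟩ := LCXL.lin α β hα
    refine ⟨d₀, fun M a₀ d hM hαM hc hd hMd => ?_⟩
    rw [pow_one] at hc
    have h1 : M.natDegree ≤ d := by
      have h2 : (M.natDegree : ℝ) ≤ d := by
        refine hMd.trans ?_
        have h3 : min θ (1 / 4) ≤ 1 / 4 := min_le_right _ _
        have h4 : (0 : ℝ) ≤ d := Nat.cast_nonneg _
        nlinarith
      exact_mod_cast h2
    have h2 := hd₀ M a₀ d hM hαM hc hd h1
    simp only [pow_one, Nat.cast_one, one_mul]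
    refine h2.trans ?_
    refine Real.rpow_le_rpow_of_exponent_le (by linarith) ?_
    refine mul_le_mul_of_nonneg_right ?_ (Nat.cast_nonneg _)
    have h3 : min κ (1 / 4) ≤ 1 / 4 := min_le_right _ _
    linarith
  · obtain ⟨d₀, hd₀⟩ := hmain α β hα hcop hsq
    refine ⟨d₀, fun M a₀ d hM hαM hc hd hMd => ?_⟩
    have h1 : (M.natDegree : ℝ) ≤ θ * d :=
      hMd.trans (mul_le_mul_of_nonneg_right (min_le_left _ _) (Nat.cast_nonneg _))
    have h2 := hd₀ M a₀ d hM hαM hc hd h1
    rw [Nat.cast_ofNat]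
    refine h2.trans ?_
    refine Real.rpow_le_rpow_of_exponent_le (by linarith) ?_
    refine mul_le_mul_of_nonneg_right ?_ (Nat.cast_nonneg _)
    have h3 : min κ (1 / 4) ≤ κ := min_le_left _ _
    linarith

end Pool.Agent.H524.MT
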