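import Pool.Agent.H524.MT.StmV

set_option autoImplicit false

/-!
# Maynard-Tao for `a ^ 2 + c`: the main estimate (helper740)
-/

namespace Pool.Agent.H524.MT

open Polynomial
open scoped Classical
open Pool.Agent.H985.Chow (mob)
open Pool.Agent.H985.KP (PA)
open Pool.Agent.H694.Typ (Mn PU)

namespace MasterN

variable {K : Type} [Field K] [Fintype K]

theorem q2 : (2 : ℝ) ≤ (Fintype.card K : ℝ) := Pool.Agent.H694.Typ.q_ge (k := K)

/-! ### The sets of primes -/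

theorem PA_sub {h : K[X]} (hh : h ≠ 0) : PA h = ↑((PU K h.natDegree).filter (fun P => P ∣ h)) := by
  ext P
  rw [Finset.coe_filter, Set.mem_ofPred_eq, Pool.Agent.H694.Typ.mem_PU]
  constructor
  · rintro ⟨h1, h2, h3⟩
    exact ⟨⟨h1, h2, natDegree_le_of_dvd h3 hh⟩, h3⟩
  · rintro ⟨⟨h1, h2, -⟩, h3⟩
    exact ⟨h1, h2, h3⟩

theorem PA_fin {h : K[X]} (hh : h ≠ 0) : (PA h).Finite := by
  rw [PA_sub hh]
  exact Finset.finite_toSet _

theorem Pm_eq {h : K[X]} (hh : h ≠ 0) : Pm h =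
    ∏ P ∈ (PU K h.natDegree).filter (fun P => P ∣ h), (1 - 1 / (Fintype.card K : ℝ) ^ P.natDegree) := by
  unfold Pm
  rw [PA_sub hh, finprod_mem_coe_finset]

theorem fac_pos {P : K[X]} (hP : Irreducible P) :
    0 < 1 - 1 / (Fintype.card K : ℝ) ^ P.natDegree ∧ 1 - 1 / (Fintype.card K : ℝ) ^ P.natDegree ≤ 1 := by
  have hq := q2 (K := K)
  have h1 : (Fintype.card K : ℝ) ^ 1 ≤ (Fintype.card K : ℝ) ^ P.natDegree :=
    pow_le_pow_right₀ (by linarith) hP.natDegree_pos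
  rw [pow_one] at h1
  have h2 : 1 / (Fintype.card K : ℝ) ^ P.natDegree ≤ 1 / 2 :=
    one_div_le_one_div_of_le (by norm_num) (hq.trans h1)
  have h3 : 0 < 1 / (Fintype.card K : ℝ) ^ P.natDegree := by positivity
  constructor <;> linarith

theorem Pm_pos {h : K[X]} (hh : h ≠ 0) : 0 < Pm h := by
  rw [Pm_eq hh]
  refine Finset.prod_pos fun P hP => ?_
  rw [Finset.mem_filter, Pool.Agent.H694.Typ.mem_PU] at hP
  exact (fac_pos hP.1.2.1).1

theorem Pm_le {h : K[X]} (hh : h ≠ 0) : Pm h ≤ 1 := by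
  rw [Pm_eq hh]
  refine Finset.prod_le_one (fun P hP => ?_) (fun P hP => ?_)
  · rw [Finset.mem_filter, Pool.Agent.H694.Typ.mem_PU] at hP
    exact (fac_pos hP.1.2.1).1.le
  · rw [Finset.mem_filter, Pool.Agent.H694.Typ.mem_PU] at hP
    exact (fac_pos hP.1.2.1).2

theorem prod_one_sub_ge {ι : Type} (s : Finset ι) (x : ι → ℝ) (h : ∀ i ∈ s, 0 ≤ x i ∧ x i ≤ 1) :
    0 ≤ ∏ i ∈ s, (1 - x i) ∧ ∏ i ∈ s, (1 - x i) ≤ 1 ∧ 1 - ∑ i ∈ s, x i ≤ ∏ i ∈ s, (1 - x i) := by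
  induction s using Finset.induction_on with
  | empty => simp
  | insert a s ha ih =>
    obtain ⟨h1, h2, h3⟩ := ih (fun i hi => h i (Finset.mem_insert_of_mem hi))
    obtain ⟨h4, h5⟩ := h a (Finset.mem_insert_self _ _)
    rw [Finset.prod_insert ha, Finset.sum_insert ha]
    refine ⟨mul_nonneg (by linarith) h1, by nlinarith, by nlinarith⟩

theorem Pm_ge {h : K[X]} (hh : h ≠ 0) {z D : ℕ} (hr : ∀ P ∈ PA h, z < P.natDegree)
    (hD : h.natDegree ≤ D) : 1 - (D : ℝ) * ((Fintype.card K : ℝ) ^ z)⁻¹ ≤ Pm h := by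
  have hq := q2 (K := K)
  rw [Pm_eq hh]
  have hmem : ∀ P ∈ (PU K h.natDegree).filter (fun P => P ∣ h), P.Monic ∧ Irreducible P ∧ P ∣ h := by
    intro P hP
    rw [Finset.mem_filter, Pool.Agent.H694.Typ.mem_PU] at hP
    exact ⟨hP.1.1, hP.1.2.1, hP.2⟩
  have h1 := (prod_one_sub_ge ((PU K h.natDegree).filter (fun P => P ∣ h))
    (fun P => 1 / (Fintype.card K : ℝ) ^ P.natDegree) (fun P hP => by
      have := fac_pos (hmem P hP).2.1
      exact ⟨by positivity, by linarith [this.1]⟩)).2.2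
  refine le_trans ?_ h1
  have h2 : ∑ P ∈ (PU K h.natDegree).filter (fun P => P ∣ h), 1 / (Fintype.card K : ℝ) ^ P.natDegree ≤
      ((PU K h.natDegree).filter (fun P => P ∣ h)).card • ((Fintype.card K : ℝ) ^ z)⁻¹ := by
    refine Finset.sum_le_card_nsmul _ _ _ fun P hP => ?_
    rw [one_div]
    apply inv_anti₀ (by positivity)
    apply pow_le_pow_right₀ (by linarith)
    exact (hr P (hmem P hP)).le
  have h3 : ((PU K h.natDegree).filter (fun P => P ∣ h)).card ≤ D :=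
    (Pool.Agent.H694.Typ.card_dvd_e h.natDegree hh).trans hD
  have h4 : (((PU K h.natDegree).filter (fun P => P ∣ h)).card : ℝ) * ((Fintype.card K : ℝ) ^ z)⁻¹ ≤
      (D : ℝ) * ((Fintype.card K : ℝ) ^ z)⁻¹ :=
    mul_le_mul_of_nonneg_right (by exact_mod_cast h3) (by positivity)
  rw [nsmul_eq_mul] at h2
  linarith

theorem Pm_mul {M E : K[X]} {S : Finset K[X]} (hM : M ≠ 0) (hE : E ≠ 0)
    (hPA : PA (M * E * ∏ P ∈ S, P) = PA M ∪ PA E ∪ S) (h1 : Disjoint (PA M) (PA E))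
    (h2 : Disjoint (PA M ∪ PA E) (S : Set K[X])) :
    Pm (M * E * ∏ P ∈ S, P) = Pm M * Pm E *
      ∏ P ∈ S, (1 - 1 / (Fintype.card K : ℝ) ^ P.natDegree) := by
  have e : Pm (M * E * ∏ P ∈ S, P) =
      ∏ᶠ P ∈ (PA M ∪ PA E ∪ S : Set K[X]), (1 - 1 / (Fintype.card K : ℝ) ^ P.natDegree) := by
    unfold Pm
    rw [hPA]
  rw [e, finprod_mem_union h2 ((PA_fin hM).union (PA_fin hE)) (Finset.finite_toSet S),
    finprod_mem_union h1 (PA_fin hM) (PA_fin hE), finprod_mem_coe_finset]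
  rfl

/-! ### The sieve weights at a point -/

theorem PS_sub (M : K[X]) (z : ℕ) : PS K M z ⊆ PU K z := Finset.filter_subset _ _

theorem sw_le {κ z A : ℕ} {Vm Vp : Finset K[X] → ℝ} (hB : BH K κ z A Vm Vp) (M : K[X])
    (Rt : K[X] → K[X] → Prop) (a : K[X]) :
    sw M Rt z Vm a ≤ if ∀ P ∈ PS K M z, ¬ Rt P a then 1 else 0 := by
  unfold sw
  by_cases h : ∀ P ∈ PS K M z, ¬ Rt P a
  · rw [if_pos h]
    have : (PS K M z).filter (fun P => Rt P a) = ∅ := by
      rw [Finset.filter_eq_empty_iff]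
      intro P hP
      exact h P hP
    rw [this, Finset.powerset_empty, Finset.sum_singleton, hB.em]
  · rw [if_neg h]
    push Not at h
    obtain ⟨P, hP, hPa⟩ := h
    refine hB.lm _ ((Finset.filter_subset _ _).trans (PS_sub M z)) ⟨P, ?_⟩
    rw [Finset.mem_filter]
    exact ⟨hP, hPa⟩

/-- the pointwise inequality, summed -/
theorem point {κ z A d : ℕ} {Vm Vp : Finset K[X] → ℝ} (hB : BH K κ z A Vm Vp) (M : K[X])
    (Rt : K[X] → K[X] → Prop) (a₀ c : K[X]) {ι : Type} (I : Finset ι) (E cc : ι → K[X]) (φ : ι → ℝ)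
    (hnn : ∀ a, 0 ≤ rwt I E cc φ a) :
    ∑ a ∈ Ac K d M a₀, (if Irreducible (a ^ 2 + c) then 2 * (d : ℝ) else 0) *
      (sw M Rt z Vm a * rwt I E cc φ a) ≤
    2 * (d : ℝ) * ∑ a ∈ (Ac K d M a₀).filter
      (fun a => Irreducible (a ^ 2 + c) ∧ ∀ P ∈ PS K M z, ¬ Rt P a), rwt I E cc φ a := by
  rw [Finset.mul_sum, Finset.sum_filter]
  refine Finset.sum_le_sum fun a _ => ?_
  by_cases h1 : Irreducible (a ^ 2 + c)
  · rw [if_pos h1]
    have h2 := mul_le_mul_of_nonneg_right (sw_le hB M Rt a) (hnn a)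
    have h3 := mul_le_mul_of_nonneg_left h2 (show 0 ≤ 2 * (d : ℝ) by positivity)
    refine h3.trans (le_of_eq ?_)
    by_cases h4 : ∀ P ∈ PS K M z, ¬ Rt P a
    · rw [if_pos h4, if_pos ⟨h1, h4⟩, one_mul]
    · rw [if_neg h4, if_neg (fun h => h4 h.2)]
      simp
  · rw [if_neg h1, if_neg (fun h => h1 h.1), zero_mul]

/-! ### The mean value of the rough weights is nonnegative -/

theorem card_Ac {N : ℕ} {E : K[X]} (c : K[X]) (hE : E.Monic) (hN : E.natDegree ≤ N) :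
    (Ac K N E c).card = Fintype.card K ^ (N - E.natDegree) := by
  rw [← Pool.Agent.H694.Typ.card_dvd hE hN]
  have hdiv : E ∣ c - c %ₘ E := by
    have := modByMonic_add_div c E
    exact ⟨c /ₘ E, by linear_combination (-1 : K[X]) * this⟩
  have hdeg : (c %ₘ E).degree < (N : WithBot ℕ) := by
    refine lt_of_lt_of_le (degree_modByMonic_lt c hE) ?_
    rw [degree_eq_natDegree hE.ne_zero]
    exact_mod_cast hN
  refine Finset.card_bij (fun a _ => a - c %ₘ E) ?_ ?_ ?_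
  · intro a ha
    unfold Ac at ha
    rw [Finset.mem_filter, Pool.Agent.H694.Typ.mem_Mn] at ha
    obtain ⟨⟨h1, h2⟩, h3⟩ := ha
    rw [Finset.mem_filter, Pool.Agent.H694.Typ.mem_Mn]
    have hlt : (c %ₘ E).degree < a.degree := by
      rw [degree_eq_natDegree h1.ne_zero, h2]
      exact hdeg
    refine ⟨⟨h1.sub_of_left hlt, ?_⟩, ?_⟩
    · rw [natDegree_eq_of_degree_eq (degree_sub_eq_left_of_degree_lt hlt), h2]
    · have : a - c %ₘ E = (a - c) + (c - c %ₘ E) := by ring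
      rw [this]
      exact dvd_add h3 hdiv
  · intro a _ a' _ h
    exact sub_left_injective h
  · intro b hb
    rw [Finset.mem_filter, Pool.Agent.H694.Typ.mem_Mn] at hb
    obtain ⟨⟨h1, h2⟩, h3⟩ := hb
    refine ⟨b + c %ₘ E, ?_, by ring⟩
    have hlt : (c %ₘ E).degree < b.degree := by
      rw [degree_eq_natDegree h1.ne_zero, h2]
      exact hdeg
    unfold Ac
    rw [Finset.mem_filter, Pool.Agent.H694.Typ.mem_Mn]
    refine ⟨⟨h1.add_of_left hlt, ?_⟩, ?_⟩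
    · rw [natDegree_eq_of_degree_eq (degree_add_eq_left_of_degree_lt hlt), h2]
    · have : b + c %ₘ E - c = b - (c - c %ₘ E) := by ring
      rw [this]
      exact dvd_sub h3 hdiv

theorem QQ_nonneg {z D : ℕ} {B : ℝ} {ι : Type} {I : Finset ι} {E c : ι → K[X]} {φ : ι → ℝ}
    (hR : RW z D B I E c φ) : 0 ≤ QQ I E φ := by
  have hq := q2 (K := K)
  have hqp : (0 : ℝ) < Fintype.card K := by linarith
  have h1 : ∑ a ∈ Mn K D, rwt I E c φ a = (Fintype.card K : ℝ) ^ D * QQ I E φ := by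
    unfold rwt QQ
    simp_rw [Finset.sum_filter]
    rw [Finset.sum_comm, Finset.mul_sum]
    refine Finset.sum_congr rfl fun x hx => ?_
    rw [← Finset.sum_filter, Finset.sum_const, nsmul_eq_mul]
    have h2 := card_Ac (N := D) (c x) (hR.mon x hx) (hR.deg x hx)
    unfold Ac at h2
    rw [h2]
    have h3 : (Fintype.card K : ℝ) ^ D = (Fintype.card K : ℝ) ^ (D - (E x).natDegree) *
        (Fintype.card K : ℝ) ^ (E x).natDegree := by
      rw [← pow_add]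
      congr 1
      have := hR.deg x hx
      omega
    rw [h3]
    push_cast
    field_simp
  have h2 : 0 ≤ ∑ a ∈ Mn K D, rwt I E c φ a := Finset.sum_nonneg fun a _ => hR.nn a
  rw [h1] at h2
  exact nonneg_of_mul_nonneg_right h2 (by positivity)

/-! ### Sums and products over primes -/

/-- the primes of large norm -/
theorem tail_sum (z : ℕ) {Y : ℝ} (hY : 0 < Y) :
    ∑ P ∈ (PU K z).filter (fun P => Y ≤ (Fintype.card K : ℝ) ^ P.natDegree),
      1 / ((Fintype.card K : ℝ) ^ P.natDegree) ^ 2 ≤ 2 / Y := by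
  have hq := q2 (K := K)
  have hqp : (0 : ℝ) < Fintype.card K := by linarith
  rw [Finset.sum_filter, Pool.Agent.H694.Typ.sum_PU]
  set h : ℕ → ℝ := fun j => min (1 / (Fintype.card K : ℝ) ^ j) (1 / Y) with hh
  have hmono : ∀ j, h (j + 1) ≤ h j := by
    intro j
    apply min_le_min _ le_rfl
    apply one_div_le_one_div_of_le (by positivity)
    exact pow_le_pow_right₀ (by linarith) (Nat.le_succ j)
  have key : ∀ j ∈ Finset.Icc 1 z, ∑ P ∈ Pool.Agent.H694.Typ.Irn K j,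
      (if Y ≤ (Fintype.card K : ℝ) ^ P.natDegree then
        1 / ((Fintype.card K : ℝ) ^ P.natDegree) ^ 2 else 0) ≤ 2 * (h j - h (j + 1)) := by
    intro j hj
    rw [Finset.mem_Icc] at hj
    rw [Finset.sum_congr rfl (fun P hP => by
      rw [(Pool.Agent.H694.Typ.mem_Irn.1 hP).2.1]), Finset.sum_const, nsmul_eq_mul]
    by_cases hY' : Y ≤ (Fintype.card K : ℝ) ^ j
    · rw [if_pos hY']
      have h1 : (j : ℝ) * (Pool.Agent.H694.Typ.Irn K j).card ≤ (Fintype.card K : ℝ) ^ j := by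
        exact_mod_cast Pool.Agent.H694.Typ.irn_one_le (k := K) (d := j) (by omega)
      have h2 : ((Pool.Agent.H694.Typ.Irn K j).card : ℝ) ≤ (Fintype.card K : ℝ) ^ j := by
        have h3 : (1 : ℝ) ≤ j := by exact_mod_cast hj.1
        have h4 : (0 : ℝ) ≤ (Pool.Agent.H694.Typ.Irn K j).card := Nat.cast_nonneg _
        nlinarith
      have hpos : (0 : ℝ) < (Fintype.card K : ℝ) ^ j := by positivity
      have h5 : ((Pool.Agent.H694.Typ.Irn K j).card : ℝ) * (1 / ((Fintype.card K : ℝ) ^ j) ^ 2) ≤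
          1 / (Fintype.card K : ℝ) ^ j := by
        calc _ ≤ (Fintype.card K : ℝ) ^ j * (1 / ((Fintype.card K : ℝ) ^ j) ^ 2) :=
              mul_le_mul_of_nonneg_right h2 (by positivity)
          _ = _ := by field_simp
      refine h5.trans ?_
      have h6 : h j = 1 / (Fintype.card K : ℝ) ^ j :=
        min_eq_left (one_div_le_one_div_of_le hY hY')
      have h7 : h (j + 1) ≤ 1 / (Fintype.card K : ℝ) ^ (j + 1) := min_le_left _ _
      have h8 : 1 / (Fintype.card K : ℝ) ^ (j + 1) ≤ 1 / 2 * (1 / (Fintype.card K : ℝ) ^ j) := by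
        rw [pow_succ, ← one_div_mul_one_div, mul_comm]
        apply mul_le_mul_of_nonneg_right _ (by positivity)
        exact one_div_le_one_div_of_le (by norm_num) hq
      rw [h6]
      linarith
    · rw [if_neg hY', mul_zero]
      have := hmono j
      linarith
  refine (Finset.sum_le_sum key).trans ?_
  rw [← Finset.mul_sum]
  have htel : ∀ z : ℕ, ∑ j ∈ Finset.Icc 1 z, (h j - h (j + 1)) = h 1 - h (z + 1) := by
    intro z
    induction z with
    | zero => simp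
    | succ n ih =>
      rw [Finset.sum_Icc_succ_top (by omega), ih]
      ring
  rw [htel]
  have h1 : h 1 ≤ 1 / Y := min_le_right _ _
  have h2 : 0 ≤ h (z + 1) := le_min (by positivity) (by positivity)
  have h3 : 2 / Y = 2 * (1 / Y) := by ring
  rw [h3]
  linarith

/-- the upper bound for the products -/
noncomputable def La (κ z : ℕ) : ℝ := Real.exp (κ * (1 + Real.log z))

theorem sum_inv (z : ℕ) :
    ∑ P ∈ PU K z, 1 / (Fintype.card K : ℝ) ^ P.natDegree ≤ 1 + Real.log z := by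
  have hq := q2 (K := K)
  have hqp : (0 : ℝ) < Fintype.card K := by linarith
  rw [Pool.Agent.H694.Typ.sum_PU]
  have key : ∀ j ∈ Finset.Icc 1 z, ∑ P ∈ Pool.Agent.H694.Typ.Irn K j,
      1 / (Fintype.card K : ℝ) ^ P.natDegree ≤ (j : ℝ)⁻¹ := by
    intro j hj
    rw [Finset.mem_Icc] at hj
    rw [Finset.sum_congr rfl (fun P hP => by
      rw [(Pool.Agent.H694.Typ.mem_Irn.1 hP).2.1]), Finset.sum_const, nsmul_eq_mul]
    have h1 : (j : ℝ) * (Pool.Agent.H694.Typ.Irn K j).card ≤ (Fintype.card K : ℝ) ^ j := by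
      exact_mod_cast Pool.Agent.H694.Typ.irn_one_le (k := K) (d := j) (by omega)
    have h3 : (0 : ℝ) < j := by exact_mod_cast hj.1
    rw [mul_one_div, div_le_iff₀ (by positivity), ← div_eq_inv_mul, le_div_iff₀ h3]
    linarith
  refine (Finset.sum_le_sum key).trans ?_
  have h1 := harmonic_le_one_add_log z
  rw [harmonic_eq_sum_Icc] at h1
  push_cast at h1
  exact h1

theorem prod_one_add_le {z κ : ℕ} (s : Finset K[X]) (hs : s ⊆ PU K z) (g : K[X] → ℝ)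
    (hg : ∀ P ∈ s, 0 ≤ g P ∧ g P ≤ κ / (Fintype.card K : ℝ) ^ P.natDegree) :
    ∏ P ∈ s, (1 + g P) ≤ La κ z := by
  have hq := q2 (K := K)
  have hqp : (0 : ℝ) < Fintype.card K := by linarith
  have h1 : ∏ P ∈ s, (1 + g P) ≤ ∏ P ∈ s, Real.exp (g P) := by
    refine Finset.prod_le_prod (fun P hP => ?_) (fun P hP => ?_)
    · linarith [(hg P hP).1]
    · linarith [Real.add_one_le_exp (g P)]
  refine h1.trans ?_
  rw [← Real.exp_sum]
  unfold La
  apply Real.exp_le_exp.mpr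
  have h2 : ∑ P ∈ s, g P ≤ ∑ P ∈ s, (κ : ℝ) * (1 / (Fintype.card K : ℝ) ^ P.natDegree) := by
    refine Finset.sum_le_sum fun P hP => ?_
    rw [mul_one_div]
    exact (hg P hP).2
  refine h2.trans ?_
  rw [← Finset.mul_sum]
  apply mul_le_mul_of_nonneg_left _ (Nat.cast_nonneg _)
  refine le_trans ?_ (sum_inv (K := K) z)
  refine Finset.sum_le_sum_of_subset_of_nonneg hs fun P _ _ => ?_
  positivity

/-! ### The sum over the sieve weights -/

/-- the local density -/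
noncomputable def gg (r : K[X] → ℕ) (P : K[X]) : ℝ := (r P : ℝ) / ((Fintype.card K : ℝ) ^ P.natDegree - 1)

theorem PS_mem {M P : K[X]} {z : ℕ} (h : P ∈ PS K M z) :
    P.Monic ∧ Irreducible P ∧ P.natDegree ≤ z ∧ ¬ P ∣ M := by
  unfold PS at h
  rw [Finset.mem_filter, Pool.Agent.H694.Typ.mem_PU] at h
  exact ⟨h.1.1, h.1.2.1, h.1.2.2, h.2⟩

theorem loc_facts {M : K[X]} {Rt : K[X] → K[X] → Prop} {r : K[X] → ℕ} {κ : ℕ}
    (hL : Loc M Rt r κ) {P : K[X]} (h1 : P.Monic) (h2 : Irreducible P) (h3 : ¬ P ∣ M) :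
    (16 * (κ + 2) : ℝ) ≤ (Fintype.card K : ℝ) ^ P.natDegree ∧ (r P : ℝ) ≤ κ ∧
    0 ≤ gg r P ∧ gg r P ≤ ((κ + 2 : ℕ) : ℝ) / (Fintype.card K : ℝ) ^ P.natDegree ∧
    gg r P ≤ 1 / 2 := by
  have hb : (16 * (κ + 2) : ℝ) ≤ (Fintype.card K : ℝ) ^ P.natDegree := by
    exact_mod_cast hL.big P h1 h2 h3
  have hr : (r P : ℝ) ≤ κ := by exact_mod_cast hL.bd P
  have hr0 : (0 : ℝ) ≤ r P := Nat.cast_nonneg _
  have hκ : (0 : ℝ) ≤ κ := Nat.cast_nonneg _
  unfold gg
  generalize (Fintype.card K : ℝ) ^ P.natDegree = n at hb ⊢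
  have hn : 32 ≤ n := by linarith
  have hn1 : 0 < n - 1 := by linarith
  refine ⟨hb, hr, by positivity, ?_, ?_⟩
  · push_cast
    rw [div_le_div_iff₀ hn1 (by linarith)]
    nlinarith
  · rw [div_le_div_iff₀ hn1 (by norm_num)]
    linarith

/-- the comparison of the two densities -/
theorem dens_ge {M : K[X]} {Rt : K[X] → K[X] → Prop} {r : K[X] → ℕ} {κ : ℕ}
    (hL : Loc M Rt r κ) (z : ℕ) :
    VR M z r / 2 ≤ ∏ P ∈ PS K M z, (1 - gg r P) ∧ 0 ≤ VR M z r := by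
  have hq := q2 (K := K)
  have hκ : (0 : ℝ) ≤ κ := Nat.cast_nonneg _
  set x : K[X] → ℝ := fun P => 2 * κ / ((Fintype.card K : ℝ) ^ P.natDegree) ^ 2 with hx
  have hfac : ∀ P ∈ PS K M z, 0 ≤ 1 - (r P : ℝ) / (Fintype.card K : ℝ) ^ P.natDegree ∧
      0 ≤ x P ∧ x P ≤ 1 ∧
      (1 - x P) * (1 - (r P : ℝ) / (Fintype.card K : ℝ) ^ P.natDegree) ≤ 1 - gg r P := by
    intro P hP
    obtain ⟨h1, h2, -, h3⟩ := PS_mem hP
    obtain ⟨hb, hr, -⟩ := loc_facts hL h1 h2 h3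
    have hr0 : (0 : ℝ) ≤ r P := Nat.cast_nonneg _
    rw [hx]
    unfold gg
    simp only
    generalize (Fintype.card K : ℝ) ^ P.natDegree = n at hb ⊢
    generalize (r P : ℝ) = ρ at hr hr0 ⊢
    have hn : 32 ≤ n := by linarith
    have hn0 : 0 < n := by linarith
    have hn1 : 0 < n - 1 := by linarith
    have hρn : ρ / n ≤ 1 / 16 := by
      rw [div_le_div_iff₀ hn0 (by norm_num)]
      linarith
    refine ⟨by linarith, by positivity, ?_, ?_⟩
    · rw [div_le_one (by positivity)]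
      nlinarith
    · have e : 1 - ρ / (n - 1) - (1 - 2 * κ / n ^ 2) * (1 - ρ / n) =
          (2 * κ * (n - ρ) * (n - 1) - ρ * n ^ 2) / (n ^ 3 * (n - 1)) := by
        field_simp
        ring
      have h5 : 0 ≤ 2 * κ * (n - ρ) * (n - 1) - ρ * n ^ 2 := by
        have h6 : n ^ 2 ≤ 2 * ((n - ρ) * (n - 1)) := by nlinarith
        have h7 : ρ * n ^ 2 ≤ κ * n ^ 2 := mul_le_mul_of_nonneg_right hr (by positivity)
        have h8 : κ * n ^ 2 ≤ κ * (2 * ((n - ρ) * (n - 1))) := mul_le_mul_of_nonneg_left h6 hκ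
        linarith
      have h6 : 0 ≤ (2 * κ * (n - ρ) * (n - 1) - ρ * n ^ 2) / (n ^ 3 * (n - 1)) := by positivity
      linarith
  have hVR : 0 ≤ VR M z r := Finset.prod_nonneg fun P hP => (hfac P hP).1
  refine ⟨?_, hVR⟩
  have h1 : ∏ P ∈ PS K M z, ((1 - x P) * (1 - (r P : ℝ) / (Fintype.card K : ℝ) ^ P.natDegree)) ≤
      ∏ P ∈ PS K M z, (1 - gg r P) :=
    Finset.prod_le_prod (fun P hP => mul_nonneg (by linarith [(hfac P hP).2.2.1]) (hfac P hP).1)
      (fun P hP => (hfac P hP).2.2.2)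
  refine le_trans ?_ h1
  rw [Finset.prod_mul_distrib]
  have h2 := (prod_one_sub_ge (PS K M z) x (fun P hP => ⟨(hfac P hP).2.1, (hfac P hP).2.2.1⟩)).2.2
  have h3 : ∑ P ∈ PS K M z, x P ≤ 1 / 2 := by
    have hY : (0 : ℝ) < 16 * (κ + 2) := by positivity
    have h4 := tail_sum (K := K) z hY
    have h5 : ∑ P ∈ PS K M z, x P ≤ 2 * κ * ∑ P ∈ (PU K z).filter
        (fun P => (16 * (κ + 2) : ℝ) ≤ (Fintype.card K : ℝ) ^ P.natDegree),
        1 / ((Fintype.card K : ℝ) ^ P.natDegree) ^ 2 := by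
      rw [Finset.mul_sum]
      rw [hx]
      simp_rw [mul_one_div]
      refine Finset.sum_le_sum_of_subset_of_nonneg ?_ fun P _ _ => by positivity
      intro P hP
      rw [Finset.mem_filter]
      obtain ⟨a1, a2, -, a3⟩ := PS_mem hP
      exact ⟨PS_sub M z hP, (loc_facts hL a1 a2 a3).1⟩
    refine h5.trans ((mul_le_mul_of_nonneg_left h4 (by positivity)).trans ?_)
    rw [mul_div_assoc', div_le_div_iff₀ hY (by norm_num)]
    linarith
  have h4 : VR M z r / 2 ≤ (∏ P ∈ PS K M z, (1 - x P)) * VR M z r := by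
    have : 1 / 2 ≤ ∏ P ∈ PS K M z, (1 - x P) := by linarith
    have := mul_le_mul_of_nonneg_right this hVR
    linarith
  exact h4

theorem S1_ge {κ z A : ℕ} {Vm Vp : Finset K[X] → ℝ} (hB : BH K (κ + 2) z A Vm Vp) {M : K[X]}
    {Rt : K[X] → K[X] → Prop} {r : K[X] → ℕ} (hL : Loc M Rt r κ) :
    VR M z r / 4 ≤ ∑ T ∈ (PS K M z).powerset, Vm T * ∏ P ∈ T, gg r P := by
  set g : K[X] → ℝ := fun P => if P ∣ M then 0 else gg r P with hg
  have h1 := hB.mm g (by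
    intro P hP
    rw [Pool.Agent.H694.Typ.mem_PU] at hP
    rw [hg]
    simp only
    by_cases h : P ∣ M
    · rw [if_pos h]
      exact ⟨le_rfl, by positivity, by norm_num⟩
    · rw [if_neg h]
      obtain ⟨-, -, a1, a2, a3⟩ := loc_facts hL hP.1 hP.2.1 h
      exact ⟨a1, a2, a3⟩)
  have h2 : ∑ T ∈ (PU K z).powerset, Vm T * ∏ P ∈ T, g P =
      ∑ T ∈ (PS K M z).powerset, Vm T * ∏ P ∈ T, gg r P := by
    symm
    rw [← Finset.sum_subset (Finset.powerset_mono.2 (PS_sub M z))]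
    · refine Finset.sum_congr rfl fun T hT => ?_
      rw [Finset.mem_powerset] at hT
      congr 1
      refine Finset.prod_congr rfl fun P hP => ?_
      rw [hg]
      simp only
      rw [if_neg (PS_mem (hT hP)).2.2.2]
    · intro T hT hT'
      rw [Finset.mem_powerset] at hT hT'
      obtain ⟨P, hP, hPn⟩ := Finset.not_subset.1 hT'
      have hPM : P ∣ M := by
        by_contra hc
        apply hPn
        unfold PS
        rw [Finset.mem_filter]
        exact ⟨hT hP, hc⟩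
      rw [Finset.prod_eq_zero hP, mul_zero]
      rw [hg]
      simp only
      rw [if_pos hPM]
  have h3 : ∏ P ∈ PU K z, (1 - g P) = ∏ P ∈ PS K M z, (1 - gg r P) := by
    unfold PS
    rw [Finset.prod_filter]
    refine Finset.prod_congr rfl fun P _ => ?_
    rw [hg]
    simp only
    by_cases h : P ∣ M
    · rw [if_pos h, if_neg (by simpa using h), sub_zero]
    · rw [if_neg h, if_pos h]
  rw [h2, h3] at h1
  have h4 := (dens_ge hL z).1
  linarith

theorem S1_abs {κ z A : ℕ} {Vm Vp : Finset K[X] → ℝ} (hB : BH K (κ + 2) z A Vm Vp) {M : K[X]}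
    {Rt : K[X] → K[X] → Prop} {r : K[X] → ℕ} (hL : Loc M Rt r κ) :
    |∑ T ∈ (PS K M z).powerset, Vm T * ∏ P ∈ T, gg r P| ≤ La (κ + 2) z := by
  have hgg : ∀ P ∈ PS K M z, 0 ≤ gg r P ∧
      gg r P ≤ ((κ + 2 : ℕ) : ℝ) / (Fintype.card K : ℝ) ^ P.natDegree := by
    intro P hP
    obtain ⟨a1, a2, -, a3⟩ := PS_mem hP
    obtain ⟨-, -, b1, b2, -⟩ := loc_facts hL a1 a2 a3
    exact ⟨b1, b2⟩
  refine (Finset.abs_sum_le_sum_abs _ _).trans ?_
  refine le_trans ?_ (prod_one_add_le (κ := κ + 2) (PS K M z) (PS_sub M z) (gg r) hgg)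
  rw [Finset.prod_one_add]
  refine Finset.sum_le_sum fun T hT => ?_
  rw [Finset.mem_powerset] at hT
  have h1 : 0 ≤ ∏ P ∈ T, gg r P := Finset.prod_nonneg fun P hP => (hgg P (hT hP)).1
  rw [abs_mul, abs_of_nonneg h1]
  have h2 := hB.gm.1 T
  nlinarith

theorem S1_cnt {κ z A : ℕ} {Vm Vp : Finset K[X] → ℝ} (hB : BH K (κ + 2) z A Vm Vp) {M : K[X]}
    {Rt : K[X] → K[X] → Prop} {r : K[X] → ℕ} (hL : Loc M Rt r κ) :
    ∑ T ∈ (PS K M z).powerset, |Vm T| * ((∏ P ∈ T, r P : ℕ) : ℝ) ≤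
      (Fintype.card K : ℝ) ^ (A * z) * La (κ + 2) z := by
  have hq := q2 (K := K)
  have hgg : ∀ P ∈ PS K M z, 0 ≤ (r P : ℝ) / (Fintype.card K : ℝ) ^ P.natDegree ∧
      (r P : ℝ) / (Fintype.card K : ℝ) ^ P.natDegree ≤
        ((κ + 2 : ℕ) : ℝ) / (Fintype.card K : ℝ) ^ P.natDegree := by
    intro P hP
    obtain ⟨a1, a2, -, a3⟩ := PS_mem hP
    obtain ⟨-, b1, -⟩ := loc_facts hL a1 a2 a3
    refine ⟨by positivity, ?_⟩
    apply div_le_div_of_nonneg_right _ (by positivity)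
    push_cast
    linarith
  have h0 := prod_one_add_le (κ := κ + 2) (PS K M z) (PS_sub M z)
    (fun P => (r P : ℝ) / (Fintype.card K : ℝ) ^ P.natDegree) hgg
  refine le_trans ?_ (mul_le_mul_of_nonneg_left h0 (by positivity))
  rw [Finset.prod_one_add, Finset.mul_sum]
  refine Finset.sum_le_sum fun T hT => ?_
  rw [Finset.mem_powerset] at hT
  have h1 : 0 ≤ ∏ P ∈ T, (r P : ℝ) / (Fintype.card K : ℝ) ^ P.natDegree :=
    Finset.prod_nonneg fun P hP => (hgg P (hT hP)).1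
  by_cases hV : Vm T = 0
  · rw [hV, abs_zero, zero_mul]
    positivity
  · have h2 := hB.gm.1 T
    have h3 := (hB.gm.2 T hV).2
    have h4 : ((∏ P ∈ T, r P : ℕ) : ℝ) = (Fintype.card K : ℝ) ^ (∑ P ∈ T, P.natDegree) *
        ∏ P ∈ T, (r P : ℝ) / (Fintype.card K : ℝ) ^ P.natDegree := by
      rw [← Finset.prod_pow_eq_pow_sum, ← Finset.prod_mul_distrib]
      push_cast
      refine Finset.prod_congr rfl fun P _ => ?_
      field_simp
    rw [h4]
    have h5 : (Fintype.card K : ℝ) ^ (∑ P ∈ T, P.natDegree) ≤ (Fintype.card K : ℝ) ^ (A * z) :=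
      pow_le_pow_right₀ (by linarith) h3
    have h6 : (Fintype.card K : ℝ) ^ (∑ P ∈ T, P.natDegree) *
        ∏ P ∈ T, (r P : ℝ) / (Fintype.card K : ℝ) ^ P.natDegree ≤
        (Fintype.card K : ℝ) ^ (A * z) *
        ∏ P ∈ T, (r P : ℝ) / (Fintype.card K : ℝ) ^ P.natDegree :=
      mul_le_mul_of_nonneg_right h5 h1
    have h7 : 0 ≤ (Fintype.card K : ℝ) ^ (∑ P ∈ T, P.natDegree) *
        ∏ P ∈ T, (r P : ℝ) / (Fintype.card K : ℝ) ^ P.natDegree := by positivity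
    nlinarith

/-! ### The sums over the residue classes -/

/-- the sum of the terms of one pair `(x, S)` -/
noncomputable def inr (d : ℕ) (c M a₀ : K[X]) (Rt : K[X] → K[X] → Prop) (Ex cx : K[X])
    (S : Finset K[X]) : ℝ :=
  ∑ᶠ u ∈ cls Rt S, ∑ a ∈ Ac K d (M * Ex * ∏ P ∈ S, P) (crt M a₀ Ex cx (∏ P ∈ S, P) u),
    (if Irreducible (a ^ 2 + c) then 2 * (d : ℝ) else 0)

omit [Fintype K] in
theorem coprime_cong {A B c M : K[X]} (h : IsCoprime (A ^ 2 + c) M) (hd : M ∣ B - A) :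
    IsCoprime (B ^ 2 + c) M := by
  obtain ⟨y, hy⟩ := hd
  have e : B ^ 2 + c = A ^ 2 + c + M * (y * (B + A)) := by
    linear_combination (B + A) * hy
  rw [e]
  exact h.add_mul_left_left _

theorem one_class {c N : K[X]} {κl θl : ℝ} {d₀ : ℕ}
    (hlc : ∀ (M a₀ : K[X]) (d : ℕ),
      M.Monic → N ∣ M → IsCoprime (a₀ ^ 2 + c) M → d₀ ≤ d → (M.natDegree : ℝ) ≤ θl * d →
      |2 * (d : ℝ) * (((Ac K d M a₀).filter (fun a => Irreducible (a ^ 2 + c))).card : ℝ) -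
        (Fintype.card K : ℝ) ^ (d - M.natDegree) / Pm M| ≤ (Fintype.card K : ℝ) ^ ((1 - κl) * d))
    {M a₀ Ex cx : K[X]} {Rt : K[X] → K[X] → Prop} {r : K[X] → ℕ} {S : Finset K[X]} {z d : ℕ}
    (hM : M.Monic) (hN : N ∣ M) (hE : Ex.Monic) (hS : S ⊆ PS K M z) (hd : d₀ ≤ d)
    (hdeg : (((M * Ex * ∏ P ∈ S, P).natDegree : ℕ) : ℝ) ≤ θl * d)
    (hca : IsCoprime (a₀ ^ 2 + c) M) (hcE : IsCoprime (cx ^ 2 + c) Ex)
    (hRt : ∀ P : K[X], P.Monic → Irreducible P → ¬ P ∣ M → ∀ a, Rt P a → ¬ P ∣ a ^ 2 + c)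
    (hfin : (cls Rt S).Finite ∧ (cls Rt S).ncard = ∏ P ∈ S, r P)
    (hcrt : ∀ u : K[X], M ∣ crt M a₀ Ex cx (∏ P ∈ S, P) u - a₀ ∧
      Ex ∣ crt M a₀ Ex cx (∏ P ∈ S, P) u - cx ∧
      (∏ P ∈ S, P) ∣ crt M a₀ Ex cx (∏ P ∈ S, P) u - u) :
    |inr d c M a₀ Rt Ex cx S - ((∏ P ∈ S, r P : ℕ) : ℝ) *
      ((Fintype.card K : ℝ) ^ (d - (M * Ex * ∏ P ∈ S, P).natDegree) /
        Pm (M * Ex * ∏ P ∈ S, P))| ≤
      ((∏ P ∈ S, r P : ℕ) : ℝ) * (Fintype.card K : ℝ) ^ ((1 - κl) * d) := by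
  set Q : K[X] := ∏ P ∈ S, P with hQ
  set m : ℝ := (Fintype.card K : ℝ) ^ (d - (M * Ex * Q).natDegree) / Pm (M * Ex * Q) with hm
  have hQm : Q.Monic := monic_prod_of_monic _ _ fun P hP => (PS_mem (hS hP)).1
  have hM' : (M * Ex * Q).Monic := (hM.mul hE).mul hQm
  have hN' : N ∣ M * Ex * Q := (hN.mul_right Ex).mul_right Q
  unfold inr
  obtain ⟨hf, hn⟩ := hfin
  rw [finsum_mem_eq_finite_toFinset_sum _ hf]
  have hcard : ((∏ P ∈ S, r P : ℕ) : ℝ) = (hf.toFinset.card : ℝ) := by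
    rw [Set.ncard_eq_toFinset_card _ hf] at hn
    exact_mod_cast hn.symm
  rw [hcard]
  have e1 : (hf.toFinset.card : ℝ) * m = ∑ _u ∈ hf.toFinset, m := by
    rw [Finset.sum_const, nsmul_eq_mul]
  have e2 : (hf.toFinset.card : ℝ) * (Fintype.card K : ℝ) ^ ((1 - κl) * d) =
      ∑ _u ∈ hf.toFinset, (Fintype.card K : ℝ) ^ ((1 - κl) * d) := by
    rw [Finset.sum_const, nsmul_eq_mul]
  rw [e1, e2, ← Finset.sum_sub_distrib]
  refine (Finset.abs_sum_le_sum_abs _ _).trans (Finset.sum_le_sum fun u hu => ?_)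
  rw [Set.Finite.mem_toFinset] at hu
  obtain ⟨hu1, hu2⟩ := hu
  obtain ⟨c1, c2, c3⟩ := hcrt u
  set a' := crt M a₀ Ex cx Q u with ha'
  have hcop : IsCoprime (a' ^ 2 + c) (M * Ex * Q) := by
    refine IsCoprime.mul_right (IsCoprime.mul_right (coprime_cong hca c1) (coprime_cong hcE c2)) ?_
    refine IsCoprime.prod_right fun P hP => ?_
    obtain ⟨p1, p2, -, p3⟩ := PS_mem (hS hP)
    have h1 : P ∣ a' - u := (Finset.dvd_prod_of_mem _ hP).trans c3
    have h2 : ¬ P ∣ u ^ 2 + c := hRt P p1 p2 p3 u (hu2 P hP)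
    exact coprime_cong ((p2.coprime_iff_not_dvd.2 h2).symm) h1
  have h1 := hlc (M * Ex * Q) a' d hM' hN' hcop hd hdeg
  have h2 : ∑ a ∈ Ac K d (M * Ex * Q) a', (if Irreducible (a ^ 2 + c) then 2 * (d : ℝ) else 0) =
      2 * (d : ℝ) * (((Ac K d (M * Ex * Q) a').filter
        (fun a => Irreducible (a ^ 2 + c))).card : ℝ) := by
    rw [← Finset.sum_filter, Finset.sum_const, nsmul_eq_mul]
    ring
  rw [h2]
  exact h1

/-- the factorisation of the main term -/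
theorem main_fac {M Ex : K[X]} {r : K[X] → ℕ} {S : Finset K[X]} {z d : ℕ}
    (hM : M.Monic) (hE : Ex.Monic) (hS : S ⊆ PS K M z)
    (hdeg : (M * Ex * ∏ P ∈ S, P).natDegree ≤ d)
    (hPA : PA (M * Ex * ∏ P ∈ S, P) = PA M ∪ PA Ex ∪ S) (h1 : Disjoint (PA M) (PA Ex))
    (h2 : Disjoint (PA M ∪ PA Ex) (S : Set K[X])) :
    ((∏ P ∈ S, r P : ℕ) : ℝ) *
      ((Fintype.card K : ℝ) ^ (d - (M * Ex * ∏ P ∈ S, P).natDegree) /
        Pm (M * Ex * ∏ P ∈ S, P)) =
      (Fintype.card K : ℝ) ^ d / ((Fintype.card K : ℝ) ^ M.natDegree * Pm M) *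
        (∏ P ∈ S, gg r P) * (1 / ((Fintype.card K : ℝ) ^ Ex.natDegree * Pm Ex)) := by
  have hq := q2 (K := K)
  have hqp : (0 : ℝ) < Fintype.card K := by linarith
  have hQm : (∏ P ∈ S, P).Monic := monic_prod_of_monic _ _ fun P hP => (PS_mem (hS hP)).1
  have hd1 : (M * Ex * ∏ P ∈ S, P).natDegree =
      M.natDegree + Ex.natDegree + ∑ P ∈ S, P.natDegree := by
    rw [(hM.mul hE).natDegree_mul hQm, hM.natDegree_mul hE, natDegree_prod_of_monic]
    intro P hP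
    exact (PS_mem (hS hP)).1
  have hpow : (Fintype.card K : ℝ) ^ (d - (M * Ex * ∏ P ∈ S, P).natDegree) =
      (Fintype.card K : ℝ) ^ d / ((Fintype.card K : ℝ) ^ M.natDegree *
        (Fintype.card K : ℝ) ^ Ex.natDegree * ∏ P ∈ S, (Fintype.card K : ℝ) ^ P.natDegree) := by
    rw [eq_div_iff (by positivity), Finset.prod_pow_eq_pow_sum, ← pow_add, ← pow_add, ← hd1,
      ← pow_add]
    congr 1
    omega
  have hM1 := Pm_pos hM.ne_zero
  have hE1 := Pm_pos hE.ne_zero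
  have hS1 : 0 < ∏ P ∈ S, (1 - 1 / (Fintype.card K : ℝ) ^ P.natDegree) :=
    Finset.prod_pos fun P hP => (fac_pos (PS_mem (hS hP)).2.1).1
  have hS2 : (0 : ℝ) < ∏ P ∈ S, (Fintype.card K : ℝ) ^ P.natDegree :=
    Finset.prod_pos fun P _ => by positivity
  rw [hpow, Pm_mul hM.ne_zero hE.ne_zero hPA h1 h2]
  have hgg : (∏ P ∈ S, gg r P) * ((∏ P ∈ S, (Fintype.card K : ℝ) ^ P.natDegree) *
      ∏ P ∈ S, (1 - 1 / (Fintype.card K : ℝ) ^ P.natDegree)) = ((∏ P ∈ S, r P : ℕ) : ℝ) := by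
    rw [← Finset.prod_mul_distrib, ← Finset.prod_mul_distrib]
    push_cast
    refine Finset.prod_congr rfl fun P hP => ?_
    have h3 := (fac_pos (K := K) (PS_mem (hS hP)).2.1).1
    have h4 : (0 : ℝ) < (Fintype.card K : ℝ) ^ P.natDegree := by positivity
    unfold gg
    generalize (Fintype.card K : ℝ) ^ P.natDegree = n at h3 h4 ⊢
    have h5 : 0 < n - 1 := by
      have : 0 < n * (1 - 1 / n) := mul_pos h4 h3
      have e : n * (1 - 1 / n) = n - 1 := by field_simp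
      linarith
    field_simp
  rw [← hgg]
  generalize (∏ P ∈ S, gg r P) = G
  generalize (∏ P ∈ S, (Fintype.card K : ℝ) ^ P.natDegree) = n at hS2
  generalize (∏ P ∈ S, (1 - 1 / (Fintype.card K : ℝ) ^ P.natDegree)) = s at hS1
  generalize Pm M = pm at hM1
  generalize Pm Ex = pe at hE1
  field_simp

/-- the asymptotic parameters -/
theorem big_z (κ : ℕ) {η : ℝ} (hη : 0 < η) : ∃ z₀ : ℕ, 1 ≤ z₀ ∧ ∀ z : ℕ, z₀ ≤ z →
    La (κ + 2) z * (2 / η * z) ≤ (2 : ℝ) ^ ((z : ℝ) / 2) ∧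
    La (κ + 2) z ≤ (2 : ℝ) ^ ((z : ℝ) / 2) := by
  have h1 := tendsto_pow_const_div_const_pow_of_one_lt (κ + 3) (r := √2)
    (by rw [show (1 : ℝ) = √1 by simp]; exact Real.sqrt_lt_sqrt (by norm_num) (by norm_num))
  have h2 : Filter.Tendsto (fun n : ℕ => Real.exp (κ + 2) * (2 / η + 1) *
      ((n : ℝ) ^ (κ + 3) / √2 ^ n)) Filter.atTop (nhds 0) := by
    have := h1.const_mul (Real.exp (κ + 2) * (2 / η + 1))
    rwa [mul_zero] at this
  have h3 := h2.eventually (gt_mem_nhds (show (0 : ℝ) < 1 by norm_num))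
  rw [Filter.eventually_atTop] at h3
  obtain ⟨z₁, hz₁⟩ := h3
  refine ⟨max z₁ 1, le_max_right _ _, ?_⟩
  intro z hz
  have hz1 : z₁ ≤ z := (le_max_left _ _).trans hz
  have hz2 : 1 ≤ z := (le_max_right _ _).trans hz
  have hz3 : (1 : ℝ) ≤ z := by exact_mod_cast hz2
  have h4 := (hz₁ z hz1).le
  have e2 : (2 : ℝ) ^ ((z : ℝ) / 2) = √2 ^ z := by
    rw [Real.sqrt_eq_rpow, ← Real.rpow_natCast, ← Real.rpow_mul (by norm_num)]
    congr 1
    ring
  have hs : 0 < √2 ^ z := by positivity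
  have hLa : La (κ + 2) z = Real.exp (κ + 2) * (z : ℝ) ^ (κ + 2) := by
    unfold La
    rw [mul_add, mul_one, Real.exp_add]
    push_cast
    congr 1
    have : ((κ : ℝ) + 2) * Real.log z = Real.log ((z : ℝ) ^ (κ + 2)) := by
      rw [Real.log_pow]
      push_cast
      ring
    rw [this, Real.exp_log (by positivity)]
  rw [← mul_div_assoc, div_le_one hs] at h4
  rw [e2, hLa]
  have hη' : 0 < 2 / η := by positivity
  have hz4 : (1 : ℝ) ≤ (z : ℝ) ^ (κ + 2) := one_le_pow₀ hz3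
  have e3 : (z : ℝ) ^ (κ + 3) = (z : ℝ) ^ (κ + 2) * z := by rw [← pow_succ]
  rw [e3] at h4
  have hx := Real.exp_pos ((κ : ℝ) + 2)
  constructor
  · refine le_trans ?_ h4
    have : 0 ≤ Real.exp (κ + 2) * ((z : ℝ) ^ (κ + 2) * z) := by positivity
    nlinarith
  · refine le_trans ?_ h4
    have h5 : Real.exp (κ + 2) * (z : ℝ) ^ (κ + 2) ≤
        Real.exp (κ + 2) * ((z : ℝ) ^ (κ + 2) * z) := by
      apply mul_le_mul_of_nonneg_left _ hx.le
      nlinarith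
    have h6 : 0 ≤ Real.exp (κ + 2) * ((z : ℝ) ^ (κ + 2) * z) := by positivity
    nlinarith

/-- the mean values with and without the Euler factors -/
theorem S2_sub {z D : ℕ} {B : ℝ} {ι : Type} {I : Finset ι} {E c : ι → K[X]} {φ : ι → ℝ}
    (hR : RW z D B I E c φ) (hs : (D : ℝ) * ((Fintype.card K : ℝ) ^ z)⁻¹ ≤ 1 / 2) :
    |∑ x ∈ I, φ x * (1 / ((Fintype.card K : ℝ) ^ (E x).natDegree * Pm (E x))) - QQ I E φ| ≤
      B * (2 * ((D : ℝ) * ((Fintype.card K : ℝ) ^ z)⁻¹)) := by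
  have hq := q2 (K := K)
  set t : ℝ := (D : ℝ) * ((Fintype.card K : ℝ) ^ z)⁻¹ with ht
  have ht0 : 0 ≤ t := by positivity
  unfold QQ
  rw [← Finset.sum_sub_distrib]
  have h1 : ∑ x ∈ I, |φ x| / (Fintype.card K : ℝ) ^ (E x).natDegree * (2 * t) ≤ B * (2 * t) := by
    rw [← Finset.sum_mul]
    exact mul_le_mul_of_nonneg_right hR.bd2 (by positivity)
  refine (Finset.abs_sum_le_sum_abs _ _).trans ((Finset.sum_le_sum fun x hx => ?_).trans h1)
  have h2 := Pm_ge (hR.mon x hx).ne_zero (hR.rough x hx) (hR.deg x hx)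
  have h3 := Pm_pos (hR.mon x hx).ne_zero
  have h4 := Pm_le (hR.mon x hx).ne_zero
  have hn : (0 : ℝ) < (Fintype.card K : ℝ) ^ (E x).natDegree := by positivity
  rw [← ht] at h2
  generalize Pm (E x) = p at h2 h3 h4 ⊢
  generalize (Fintype.card K : ℝ) ^ (E x).natDegree = n at hn ⊢
  have e : φ x * (1 / (n * p)) - φ x / n = φ x / n * (1 / p - 1) := by field_simp
  rw [e, abs_mul, abs_div, abs_of_pos hn]
  apply mul_le_mul_of_nonneg_left _ (by positivity)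
  have h5 : 0 ≤ 1 / p - 1 := by
    rw [sub_nonneg, le_div_iff₀ h3]
    linarith
  rw [abs_of_nonneg h5, sub_le_iff_le_add, div_le_iff₀ h3]
  nlinarith

theorem T_sub {c N : K[X]} {κl θl : ℝ} {d₁ : ℕ}
    (hlc : ∀ (M a₀ : K[X]) (d : ℕ),
      M.Monic → N ∣ M → IsCoprime (a₀ ^ 2 + c) M → d₁ ≤ d → (M.natDegree : ℝ) ≤ θl * d →
      |2 * (d : ℝ) * (((Ac K d M a₀).filter (fun a => Irreducible (a ^ 2 + c))).card : ℝ) -
        (Fintype.card K : ℝ) ^ (d - M.natDegree) / Pm M| ≤ (Fintype.card K : ℝ) ^ ((1 - κl) * d))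
    {M a₀ : K[X]} {Rt : K[X] → K[X] → Prop} {r : K[X] → ℕ} {κ z A d D : ℕ} {B : ℝ}
    {Vm Vp : Finset K[X] → ℝ} {ι : Type} {I : Finset ι} {E cc : ι → K[X]} {φ : ι → ℝ}
    (hM : M.Monic) (hN : N ∣ M) (hL : Loc M Rt r κ)
    (hRt : ∀ P : K[X], P.Monic → Irreducible P → ¬ P ∣ M → ∀ a, Rt P a → ¬ P ∣ a ^ 2 + c)
    (hB : BH K (κ + 2) z A Vm Vp) (hR : RW z D B I E cc φ)
    (hca : IsCoprime (a₀ ^ 2 + c) M) (hcE : ∀ x ∈ I, IsCoprime (cc x ^ 2 + c) (E x))
    (hd : d₁ ≤ d) (hdeg1 : ((M.natDegree + D + A * z : ℕ) : ℝ) ≤ θl * d)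
    (hdeg2 : M.natDegree + D + A * z ≤ d)
    (hfin : ∀ S ⊆ PS K M z, (cls Rt S).Finite ∧ (cls Rt S).ncard = ∏ P ∈ S, r P)
    (hcrt : ∀ x ∈ I, ∀ S ⊆ PS K M z, ∀ u : K[X],
      M ∣ crt M a₀ (E x) (cc x) (∏ P ∈ S, P) u - a₀ ∧
      E x ∣ crt M a₀ (E x) (cc x) (∏ P ∈ S, P) u - cc x ∧
      (∏ P ∈ S, P) ∣ crt M a₀ (E x) (cc x) (∏ P ∈ S, P) u - u ∧
      PA (M * E x * ∏ P ∈ S, P) = PA M ∪ PA (E x) ∪ S ∧
      Disjoint (PA M) (PA (E x)) ∧ Disjoint (PA M ∪ PA (E x)) (S : Set K[X])) :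
    |∑ x ∈ I, φ x * ∑ S ∈ (PS K M z).powerset, Vm S * inr d c M a₀ Rt (E x) (cc x) S -
      ((Fintype.card K : ℝ) ^ d / ((Fintype.card K : ℝ) ^ M.natDegree * Pm M)) *
        (∑ T ∈ (PS K M z).powerset, Vm T * ∏ P ∈ T, gg r P) *
        (∑ x ∈ I, φ x * (1 / ((Fintype.card K : ℝ) ^ (E x).natDegree * Pm (E x))))| ≤
      (Fintype.card K : ℝ) ^ D * ((Fintype.card K : ℝ) ^ (A * z) * La (κ + 2) z) *
        (Fintype.card K : ℝ) ^ ((1 - κl) * d) := by
  have hq := q2 (K := K)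
  have hqp : (0 : ℝ) < Fintype.card K := by linarith
  set C0 : ℝ := (Fintype.card K : ℝ) ^ d / ((Fintype.card K : ℝ) ^ M.natDegree * Pm M) with hC0
  set R : ℝ := (Fintype.card K : ℝ) ^ ((1 - κl) * d) with hRdef
  have hR0 : 0 ≤ R := (Real.rpow_pos_of_pos hqp _).le
  have hterm : ∀ x ∈ I, ∀ S ∈ (PS K M z).powerset,
      |Vm S * inr d c M a₀ Rt (E x) (cc x) S - Vm S * (C0 * (∏ P ∈ S, gg r P) *
        (1 / ((Fintype.card K : ℝ) ^ (E x).natDegree * Pm (E x))))| ≤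
      |Vm S| * ((∏ P ∈ S, r P : ℕ) : ℝ) * R := by
    intro x hx S hS
    rw [Finset.mem_powerset] at hS
    by_cases hV : Vm S = 0
    · rw [hV]
      simp
    · have h3 := (hB.gm.2 S hV).2
      have hQm : (∏ P ∈ S, P).Monic := monic_prod_of_monic _ _ fun P hP => (PS_mem (hS hP)).1
      have hE := hR.mon x hx
      have hd1 : (M * E x * ∏ P ∈ S, P).natDegree =
          M.natDegree + (E x).natDegree + ∑ P ∈ S, P.natDegree := by
        rw [(hM.mul hE).natDegree_mul hQm, hM.natDegree_mul hE, natDegree_prod_of_monic]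
        intro P hP
        exact (PS_mem (hS hP)).1
      have hd2 := hR.deg x hx
      have hd3 : (M * E x * ∏ P ∈ S, P).natDegree ≤ M.natDegree + D + A * z := by omega
      have hd4 : (((M * E x * ∏ P ∈ S, P).natDegree : ℕ) : ℝ) ≤ θl * d :=
        le_trans (by exact_mod_cast hd3) hdeg1
      have h4 := one_class hlc hM hN hE hS hd hd4 hca (hcE x hx) hRt (hfin S hS)
        (fun u => ⟨(hcrt x hx S hS u).1, (hcrt x hx S hS u).2.1, (hcrt x hx S hS u).2.2.1⟩)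
      obtain ⟨-, -, -, c4, c5, c6⟩ := hcrt x hx S hS 0
      rw [main_fac hM hE hS (hd3.trans hdeg2) c4 c5 c6] at h4
      rw [← mul_sub, abs_mul, mul_assoc (|Vm S|)]
      exact mul_le_mul_of_nonneg_left h4 (abs_nonneg _)
  have e : ∑ x ∈ I, φ x * ∑ S ∈ (PS K M z).powerset, Vm S * inr d c M a₀ Rt (E x) (cc x) S -
      C0 * (∑ T ∈ (PS K M z).powerset, Vm T * ∏ P ∈ T, gg r P) *
        (∑ x ∈ I, φ x * (1 / ((Fintype.card K : ℝ) ^ (E x).natDegree * Pm (E x)))) =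
      ∑ x ∈ I, φ x * ∑ S ∈ (PS K M z).powerset,
        (Vm S * inr d c M a₀ Rt (E x) (cc x) S - Vm S * (C0 * (∏ P ∈ S, gg r P) *
        (1 / ((Fintype.card K : ℝ) ^ (E x).natDegree * Pm (E x))))) := by
    rw [Finset.mul_sum, ← Finset.sum_sub_distrib]
    refine Finset.sum_congr rfl fun x _ => ?_
    rw [Finset.sum_sub_distrib, mul_sub]
    congr 1
    rw [Finset.mul_sum, Finset.sum_mul, Finset.mul_sum]
    refine Finset.sum_congr rfl fun S _ => ?_
    ring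
  rw [e]
  refine (Finset.abs_sum_le_sum_abs _ _).trans ?_
  have h5 : ∀ x ∈ I, |φ x * ∑ S ∈ (PS K M z).powerset,
        (Vm S * inr d c M a₀ Rt (E x) (cc x) S - Vm S * (C0 * (∏ P ∈ S, gg r P) *
        (1 / ((Fintype.card K : ℝ) ^ (E x).natDegree * Pm (E x)))))| ≤
      |φ x| * (((Fintype.card K : ℝ) ^ (A * z) * La (κ + 2) z) * R) := by
    intro x hx
    rw [abs_mul]
    apply mul_le_mul_of_nonneg_left _ (abs_nonneg _)
    refine (Finset.abs_sum_le_sum_abs _ _).trans ((Finset.sum_le_sum (hterm x hx)).trans ?_)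
    rw [← Finset.sum_mul]
    exact mul_le_mul_of_nonneg_right (S1_cnt hB hL) hR0
  refine (Finset.sum_le_sum h5).trans ?_
  rw [← Finset.sum_mul, mul_assoc ((Fintype.card K : ℝ) ^ D)]
  apply mul_le_mul_of_nonneg_right hR.bd1
  have : 0 ≤ La (κ + 2) z := (Real.exp_pos _).le
  positivity

end MasterN

open MasterN in
theorem master : S_tmaster := by
  intro hlc hexp K _ _ _
  obtain ⟨κl, θl, hκ, hθ, hl⟩ := hlc K
  have hm0p : 0 < min (min κl θl) 1 := lt_min (lt_min hκ hθ) one_pos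
  have hm1 : min (min κl θl) 1 ≤ κl := (min_le_left _ _).trans (min_le_left _ _)
  have hm2 : min (min κl θl) 1 ≤ θl := (min_le_left _ _).trans (min_le_right _ _)
  have hm3 : min (min κl θl) 1 ≤ 1 := min_le_right _ _
  generalize min (min κl θl) 1 = m0 at hm0p hm1 hm2 hm3
  refine ⟨m0 / 16, by positivity, ?_⟩
  intro c hc
  obtain ⟨N, hN, d₁, hN2⟩ := hl c hc
  refine ⟨N, hN, ?_⟩
  intro κ η M Rt r hη hM hNM hL hRt
  obtain ⟨z₀, hz₀1, hz₀⟩ := big_z κ hη
  have hmm : 0 < min η (m0 * 14 / 16) := lt_min hη (by positivity)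
  obtain ⟨d₂, hd₂⟩ := exists_nat_ge (((M.natDegree : ℝ) + z₀) / (min η (m0 * 14 / 16)))
  refine ⟨max d₁ d₂, ?_⟩
  intro a₀ d z A D B Vm Vp ι I E cc φ hca hd hA hB hzd hAD hR hcE
  have hq := q2 (K := K)
  have hqp : (0 : ℝ) < Fintype.card K := by linarith
  have hd1 : d₁ ≤ d := (le_max_left _ _).trans hd
  have hd2 : (d₂ : ℝ) ≤ d := by exact_mod_cast (le_max_right _ _).trans hd
  have hd0 : (0 : ℝ) ≤ d := Nat.cast_nonneg _
  have hdd : (M.natDegree : ℝ) + z₀ ≤ d * min η (m0 * 14 / 16) :=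
    (div_le_iff₀ hmm).1 (hd₂.trans hd2)
  have hdd1 : (d : ℝ) * min η (m0 * 14 / 16) ≤ d * η :=
    mul_le_mul_of_nonneg_left (min_le_left _ _) hd0
  have hdd2 : (d : ℝ) * min η (m0 * 14 / 16) ≤ d * (m0 * 14 / 16) :=
    mul_le_mul_of_nonneg_left (min_le_right _ _) hd0
  have hM0 : (0 : ℝ) ≤ M.natDegree := Nat.cast_nonneg _
  have hz00 : (0 : ℝ) ≤ z₀ := Nat.cast_nonneg _
  have hMz : M.natDegree ≤ z := by
    have : (M.natDegree : ℝ) ≤ z := by linarith
    exact_mod_cast this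
  have hzz : z₀ ≤ z := by
    have : (z₀ : ℝ) ≤ z := by linarith
    exact_mod_cast this
  have hz1 : 1 ≤ z := hz₀1.trans hzz
  have hMd : (M.natDegree : ℝ) ≤ d * (m0 * 14 / 16) := by linarith
  push_cast at hAD
  have hm2d : m0 * d ≤ θl * d := mul_le_mul_of_nonneg_right hm2 hd0
  have hm1d : m0 * d ≤ κl * d := mul_le_mul_of_nonneg_right hm1 hd0
  have hm3d : m0 * d ≤ 1 * d := mul_le_mul_of_nonneg_right hm3 hd0
  have hm0d : 0 ≤ m0 * d := mul_nonneg hm0p.le hd0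
  have hdeg1 : ((M.natDegree + D + A * z : ℕ) : ℝ) ≤ θl * d := by
    push_cast
    linarith
  have hdeg2 : M.natDegree + D + A * z ≤ d := by
    have : ((M.natDegree + D + A * z : ℕ) : ℝ) ≤ d := by
      push_cast
      linarith
    exact_mod_cast this
  obtain ⟨hx1, hx2, hx3⟩ := hexp K M Rt r κ hM hL a₀ d z D B Vm ι I E cc φ hMz hR
  have hT := T_sub hN2 hM hNM hL hRt hB hR hca hcE hd1 hdeg1 hdeg2 hx2 hx3
  have hG := hx1 (fun a => if Irreducible (a ^ 2 + c) then 2 * (d : ℝ) else 0)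
  have hP := point (d := d) hB M Rt a₀ c I E cc φ hR.nn
  refine le_trans ?_ hP
  rw [hG]
  have hS1 := S1_ge hB hL
  have hS1' := S1_abs hB hL
  have hVR := (dens_ge hL z).2
  have hQ := QQ_nonneg hR
  obtain ⟨hLa1, hLa2⟩ := hz₀ z hzz
  -- the half power
  set L : ℝ := (Fintype.card K : ℝ) ^ ((z : ℝ) / 2) with hLdef
  have hLp : 0 < L := Real.rpow_pos_of_pos hqp _
  have hL2 : (2 : ℝ) ^ ((z : ℝ) / 2) ≤ L :=
    Real.rpow_le_rpow (by norm_num) hq (by positivity)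
  have hLL : (Fintype.card K : ℝ) ^ z = L * L := by
    rw [hLdef, ← Real.rpow_add hqp, ← Real.rpow_natCast]
    congr 1
    ring
  have her : er K z = 1 / L := by
    unfold er
    rw [hLdef, neg_div, Real.rpow_neg hqp.le, one_div]
  have hLa0 : 0 < La (κ + 2) z := Real.exp_pos _
  have hLage : 1 ≤ La (κ + 2) z := by
    unfold La
    rw [← Real.exp_zero]
    apply Real.exp_le_exp.mpr
    have : 0 ≤ Real.log z := Real.log_nonneg (by exact_mod_cast hz1)
    positivity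
  have hD0 : (0 : ℝ) ≤ D := Nat.cast_nonneg _
  have hAz : (0 : ℝ) ≤ A * z := by positivity
  have hDd : (D : ℝ) ≤ d := by linarith
  have hDz : 2 * (D : ℝ) ≤ 2 / η * z := by
    have h1 : (d : ℝ) ≤ z / η := by
      rw [le_div_iff₀ hη]
      linarith
    have h2 : 2 / η * z = 2 * (z / η) := by ring
    rw [h2]
    linarith
  have hLD : La (κ + 2) z * (2 * D) ≤ L := by
    have := mul_le_mul_of_nonneg_left hDz hLa0.le
    linarith
  have hLge : 1 ≤ L := by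
    rw [hLdef]
    exact Real.one_le_rpow (by linarith) (by positivity)
  have h2D : 2 * (D : ℝ) ≤ L := by nlinarith
  have ht : (D : ℝ) * ((Fintype.card K : ℝ) ^ z)⁻¹ ≤ 1 / 2 := by
    rw [hLL, ← div_eq_mul_inv, div_le_div_iff₀ (by positivity) (by norm_num)]
    nlinarith
  have hS2 := S2_sub hR ht
  have hB0 : 0 ≤ B := le_trans (Finset.sum_nonneg fun x _ => by positivity) hR.bd2
  have hst : La (κ + 2) z * (B * (2 * ((D : ℝ) * ((Fintype.card K : ℝ) ^ z)⁻¹))) ≤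
      B * (1 / L) := by
    have e : La (κ + 2) z * (B * (2 * ((D : ℝ) * ((Fintype.card K : ℝ) ^ z)⁻¹))) =
        B * ((La (κ + 2) z * (2 * D)) / (L * L)) := by
      rw [hLL]
      ring
    rw [e]
    apply mul_le_mul_of_nonneg_left _ hB0
    rw [div_le_div_iff₀ (by positivity) hLp]
    nlinarith
  -- the error term
  have hPm := Pm_pos (K := K) hM.ne_zero
  have hPm' := Pm_le (K := K) hM.ne_zero
  set C0 : ℝ := (Fintype.card K : ℝ) ^ d / ((Fintype.card K : ℝ) ^ M.natDegree * Pm M) with hC0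
  have hC0p : 0 < C0 := by positivity
  have herr : (Fintype.card K : ℝ) ^ D * ((Fintype.card K : ℝ) ^ (A * z) * La (κ + 2) z) *
        (Fintype.card K : ℝ) ^ ((1 - κl) * d) ≤ C0 * (1 / L) := by
    have h1 : (Fintype.card K : ℝ) ^ (D + A * z + z + M.natDegree) *
        (Fintype.card K : ℝ) ^ ((1 - κl) * d) ≤ (Fintype.card K : ℝ) ^ d := by
      rw [← Real.rpow_natCast, ← Real.rpow_natCast, ← Real.rpow_add hqp]
      apply Real.rpow_le_rpow_of_exponent_le (by linarith)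
      push_cast
      have : (z : ℝ) ≤ A * z := by
        have h1 : (1 : ℝ) ≤ A := by exact_mod_cast hA
        have h2 : (0 : ℝ) ≤ z := Nat.cast_nonneg _
        nlinarith
      linarith
    have h2 : (Fintype.card K : ℝ) ^ D * ((Fintype.card K : ℝ) ^ (A * z) * La (κ + 2) z) *
        (Fintype.card K : ℝ) ^ ((1 - κl) * d) ≤
        (Fintype.card K : ℝ) ^ D * ((Fintype.card K : ℝ) ^ (A * z) * L) *
        (Fintype.card K : ℝ) ^ ((1 - κl) * d) := by
      apply mul_le_mul_of_nonneg_right _ (Real.rpow_pos_of_pos hqp _).le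
      apply mul_le_mul_of_nonneg_left _ (by positivity)
      apply mul_le_mul_of_nonneg_left _ (by positivity)
      linarith
    refine h2.trans ?_
    have h3 : (Fintype.card K : ℝ) ^ D * ((Fintype.card K : ℝ) ^ (A * z) * L) *
        (Fintype.card K : ℝ) ^ ((1 - κl) * d) =
        (Fintype.card K : ℝ) ^ (D + A * z + z + M.natDegree) *
        (Fintype.card K : ℝ) ^ ((1 - κl) * d) * (1 / ((Fintype.card K : ℝ) ^ M.natDegree * L)) := by
      rw [pow_add, pow_add, pow_add, hLL]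
      field_simp
    rw [h3]
    have h4 : C0 * (1 / L) = (Fintype.card K : ℝ) ^ d *
        (1 / ((Fintype.card K : ℝ) ^ M.natDegree * L)) * (1 / Pm M) := by
      rw [hC0]
      field_simp
    rw [h4]
    have h5 : 1 ≤ 1 / Pm M := by
      rw [le_div_iff₀ hPm]
      linarith
    have h6 : 0 ≤ (Fintype.card K : ℝ) ^ d * (1 / ((Fintype.card K : ℝ) ^ M.natDegree * L)) := by
      positivity
    have h7 := mul_le_mul_of_nonneg_right h1
      (show 0 ≤ 1 / ((Fintype.card K : ℝ) ^ M.natDegree * L) by positivity)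
    nlinarith
  rw [her]
  change |∑ x ∈ I, φ x * ∑ S ∈ (PS K M z).powerset, Vm S * inr d c M a₀ Rt (E x) (cc x) S -
      C0 * _ * _| ≤ _ at hT
  change _ ≤ ∑ x ∈ I, φ x * ∑ S ∈ (PS K M z).powerset, Vm S * inr d c M a₀ Rt (E x) (cc x) S
  generalize (∑ x ∈ I, φ x * ∑ S ∈ (PS K M z).powerset, Vm S * inr d c M a₀ Rt (E x) (cc x) S) = T
    at hT ⊢
  generalize (∑ T ∈ (PS K M z).powerset, Vm T * ∏ P ∈ T, gg r P) = S1 at hT hS1 hS1'
  generalize (∑ x ∈ I, φ x * (1 / ((Fintype.card K : ℝ) ^ (E x).natDegree * Pm (E x)))) = S2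
    at hT hS2
  generalize QQ I E φ = Q at hQ hS2 ⊢
  generalize VR M z r = V at hS1 hVR ⊢
  have h1 : V * Q / 4 - B * (1 / L) ≤ S1 * S2 := by
    have h2 : S1 * S2 = S1 * Q + S1 * (S2 - Q) := by ring
    have h3 : V / 4 * Q ≤ S1 * Q := mul_le_mul_of_nonneg_right hS1 hQ
    have h4 : |S1 * (S2 - Q)| ≤ B * (1 / L) := by
      rw [abs_mul]
      refine le_trans ?_ hst
      exact mul_le_mul hS1' hS2 (abs_nonneg _) hLa0.le
    have h5 := neg_abs_le (S1 * (S2 - Q))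
    linarith
  have h2 := mul_le_mul_of_nonneg_left h1 hC0p.le
  have h3 := (abs_le.1 (hT.trans herr)).1
  have e1 : C0 * (V * Q / 4 - (B + 1) * (1 / L)) =
      C0 * (V * Q / 4 - B * (1 / L)) - C0 * (1 / L) := by ring
  have e2 : C0 * S1 * S2 = C0 * (S1 * S2) := by ring
  rw [e1]
  rw [e2] at h3
  linarith

end Pool.Agent.H524.MT
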