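import Pool.Agent.H524.MT.StmX
import Pool.Agent.H524.MT.Master

set_option autoImplicit false

/-!
# Maynard-Tao for `α a ^ e + β`, `e = 1, 2`: the main estimate (helper740)
-/

namespace Pool.Agent.H524.MT

open Polynomial
open scoped Classical
open Pool.Agent.H985.Chow (mob)
open Pool.Agent.H985.KP (PA)
open Pool.Agent.H694.Typ (Mn PU)

namespace MasterX

open MasterN

variable {K : Type} [Field K] [Fintype K]

/-- the pointwise inequality, summed -/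
theorem pointx {κ z A d w : ℕ} {Vm Vp : Finset K[X] → ℝ} (hB : BH K κ z A Vm Vp) (M : K[X])
    (Rt : K[X] → K[X] → Prop) (a₀ α β : K[X]) {ι : Type} (I : Finset ι) (E cc : ι → K[X]) (φ : ι → ℝ)
    (hnn : ∀ a, 0 ≤ rwt I E cc φ a) :
    ∑ a ∈ Ac K d M a₀, (if Irreducible (α * a ^ w + β) then ((w : ℝ) * d + α.natDegree) else 0) *
      (sw M Rt z Vm a * rwt I E cc φ a) ≤
    ((w : ℝ) * d + α.natDegree) * ∑ a ∈ (Ac K d M a₀).filter
      (fun a => Irreducible (α * a ^ w + β) ∧ ∀ P ∈ PS K M z, ¬ Rt P a), rwt I E cc φ a := by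
  rw [Finset.mul_sum, Finset.sum_filter]
  refine Finset.sum_le_sum fun a _ => ?_
  by_cases h1 : Irreducible (α * a ^ w + β)
  · rw [if_pos h1]
    have h2 := mul_le_mul_of_nonneg_right (sw_le hB M Rt a) (hnn a)
    have h3 := mul_le_mul_of_nonneg_left h2 (show 0 ≤ ((w : ℝ) * d + α.natDegree) by positivity)
    refine h3.trans (le_of_eq ?_)
    by_cases h4 : ∀ P ∈ PS K M z, ¬ Rt P a
    · rw [if_pos h4, if_pos ⟨h1, h4⟩, one_mul]
    · rw [if_neg h4, if_neg (fun h => h4 h.2)]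
      simp
  · rw [if_neg h1, if_neg (fun h => h1 h.1), zero_mul]

/-- the sum of the terms of one pair `(x, S)` -/
noncomputable def inrx (w d : ℕ) (α β M a₀ : K[X]) (Rt : K[X] → K[X] → Prop) (Ex cx : K[X])
    (S : Finset K[X]) : ℝ :=
  ∑ᶠ u ∈ cls Rt S, ∑ a ∈ Ac K d (M * Ex * ∏ P ∈ S, P) (crt M a₀ Ex cx (∏ P ∈ S, P) u),
    (if Irreducible (α * a ^ w + β) then ((w : ℝ) * d + α.natDegree) else 0)

omit [Fintype K] in
theorem coprime_congx {w : ℕ} {A B α β M : K[X]} (h : IsCoprime (α * A ^ w + β) M)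
    (hd : M ∣ B - A) : IsCoprime (α * B ^ w + β) M := by
  obtain ⟨y, hy⟩ := hd.trans (sub_dvd_pow_sub_pow B A w)
  have e : α * B ^ w + β = α * A ^ w + β + M * (α * y) := by
    linear_combination α * hy
  rw [e]
  exact h.add_mul_left_left _

theorem one_classx {w : ℕ} {α β : K[X]} {κl θl : ℝ} {d₀ : ℕ}
    (hlc : ∀ (M a₀ : K[X]) (d : ℕ),
      M.Monic → α ∣ M → IsCoprime (α * a₀ ^ w + β) M → d₀ ≤ d → (M.natDegree : ℝ) ≤ θl * d →
      |((w : ℝ) * d + α.natDegree) * (((Ac K d M a₀).filter (fun a => Irreducible (α * a ^ w + β))).card : ℝ) -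
        (Fintype.card K : ℝ) ^ (d - M.natDegree) / Pm M| ≤ (Fintype.card K : ℝ) ^ ((1 - κl) * d))
    {M a₀ Ex cx : K[X]} {Rt : K[X] → K[X] → Prop} {r : K[X] → ℕ} {S : Finset K[X]} {z d : ℕ}
    (hM : M.Monic) (hN : α ∣ M) (hE : Ex.Monic) (hS : S ⊆ PS K M z) (hd : d₀ ≤ d)
    (hdeg : (((M * Ex * ∏ P ∈ S, P).natDegree : ℕ) : ℝ) ≤ θl * d)
    (hca : IsCoprime (α * a₀ ^ w + β) M) (hcE : IsCoprime (α * cx ^ w + β) Ex)
    (hRt : ∀ P : K[X], P.Monic → Irreducible P → ¬ P ∣ M → ∀ a, Rt P a → ¬ P ∣ α * a ^ w + β)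
    (hfin : (cls Rt S).Finite ∧ (cls Rt S).ncard = ∏ P ∈ S, r P)
    (hcrt : ∀ u : K[X], M ∣ crt M a₀ Ex cx (∏ P ∈ S, P) u - a₀ ∧
      Ex ∣ crt M a₀ Ex cx (∏ P ∈ S, P) u - cx ∧
      (∏ P ∈ S, P) ∣ crt M a₀ Ex cx (∏ P ∈ S, P) u - u) :
    |inrx w d α β M a₀ Rt Ex cx S - ((∏ P ∈ S, r P : ℕ) : ℝ) *
      ((Fintype.card K : ℝ) ^ (d - (M * Ex * ∏ P ∈ S, P).natDegree) /
        Pm (M * Ex * ∏ P ∈ S, P))| ≤
      ((∏ P ∈ S, r P : ℕ) : ℝ) * (Fintype.card K : ℝ) ^ ((1 - κl) * d) := by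
  set Q : K[X] := ∏ P ∈ S, P with hQ
  set m : ℝ := (Fintype.card K : ℝ) ^ (d - (M * Ex * Q).natDegree) / Pm (M * Ex * Q) with hm
  have hQm : Q.Monic := monic_prod_of_monic _ _ fun P hP => (PS_mem (hS hP)).1
  have hM' : (M * Ex * Q).Monic := (hM.mul hE).mul hQm
  have hN' : α ∣ M * Ex * Q := (hN.mul_right Ex).mul_right Q
  unfold inrx
  obtain ⟨hf, hn⟩ := hfin
  rw [finsum_mem_eq_finite_toFinset_sum _ hf]
  have hcard : ((∏ P ∈ S, r P : ℕ) : ℝ) = (hf.toFinset.card : ℝ) := by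
    rw [Set.ncard_eq_toFinset_card _ hf] at hn
    exact_mod_cast hn.symm
  rw [hcard]
  have e1 : (hf.toFinset.card : ℝ) * m = ∑ _u ∈ hf.toFinset, m := by
    rw [Finset.sum_const, nsmul_eq_mul]
  have e2 : (hf.toFinset.card : ℝ) * (Fintype.card K : ℝ) ^ ((1 - κl) * d) =
      ∑ _u ∈ hf.toFinset, (Fintype.card K : ℝ) ^ ((1 - κl) * d) := by
    rw [Finset.sum_const, nsmul_eq_mul]
  rw [e1, e2, ← Finset.sum_sub_distrib]
  refine (Finset.abs_sum_le_sum_abs _ _).trans (Finset.sum_le_sum fun u hu => ?_)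
  rw [Set.Finite.mem_toFinset] at hu
  obtain ⟨hu1, hu2⟩ := hu
  obtain ⟨c1, c2, c3⟩ := hcrt u
  set a' := crt M a₀ Ex cx Q u with ha'
  have hcop : IsCoprime (α * a' ^ w + β) (M * Ex * Q) := by
    refine IsCoprime.mul_right (IsCoprime.mul_right (coprime_congx hca c1) (coprime_congx hcE c2)) ?_
    refine IsCoprime.prod_right fun P hP => ?_
    obtain ⟨p1, p2, -, p3⟩ := PS_mem (hS hP)
    have h1 : P ∣ a' - u := (Finset.dvd_prod_of_mem _ hP).trans c3
    have h2 : ¬ P ∣ α * u ^ w + β := hRt P p1 p2 p3 u (hu2 P hP)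
    exact coprime_congx ((p2.coprime_iff_not_dvd.2 h2).symm) h1
  have h1 := hlc (M * Ex * Q) a' d hM' hN' hcop hd hdeg
  have h2 : ∑ a ∈ Ac K d (M * Ex * Q) a', (if Irreducible (α * a ^ w + β) then ((w : ℝ) * d + α.natDegree) else 0) =
      ((w : ℝ) * d + α.natDegree) * (((Ac K d (M * Ex * Q) a').filter
        (fun a => Irreducible (α * a ^ w + β))).card : ℝ) := by
    rw [← Finset.sum_filter, Finset.sum_const, nsmul_eq_mul]
    ring
  rw [h2]
  exact h1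

theorem T_subx {w : ℕ} {α β : K[X]} {κl θl : ℝ} {d₁ : ℕ}
    (hlc : ∀ (M a₀ : K[X]) (d : ℕ),
      M.Monic → α ∣ M → IsCoprime (α * a₀ ^ w + β) M → d₁ ≤ d → (M.natDegree : ℝ) ≤ θl * d →
      |((w : ℝ) * d + α.natDegree) * (((Ac K d M a₀).filter (fun a => Irreducible (α * a ^ w + β))).card : ℝ) -
        (Fintype.card K : ℝ) ^ (d - M.natDegree) / Pm M| ≤ (Fintype.card K : ℝ) ^ ((1 - κl) * d))
    {M a₀ : K[X]} {Rt : K[X] → K[X] → Prop} {r : K[X] → ℕ} {κ z A d D : ℕ} {B : ℝ}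
    {Vm Vp : Finset K[X] → ℝ} {ι : Type} {I : Finset ι} {E cc : ι → K[X]} {φ : ι → ℝ}
    (hM : M.Monic) (hN : α ∣ M) (hL : Loc M Rt r κ)
    (hRt : ∀ P : K[X], P.Monic → Irreducible P → ¬ P ∣ M → ∀ a, Rt P a → ¬ P ∣ α * a ^ w + β)
    (hB : BH K (κ + 2) z A Vm Vp) (hR : RW z D B I E cc φ)
    (hca : IsCoprime (α * a₀ ^ w + β) M) (hcE : ∀ x ∈ I, IsCoprime (α * cc x ^ w + β) (E x))
    (hd : d₁ ≤ d) (hdeg1 : ((M.natDegree + D + A * z : ℕ) : ℝ) ≤ θl * d)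
    (hdeg2 : M.natDegree + D + A * z ≤ d)
    (hfin : ∀ S ⊆ PS K M z, (cls Rt S).Finite ∧ (cls Rt S).ncard = ∏ P ∈ S, r P)
    (hcrt : ∀ x ∈ I, ∀ S ⊆ PS K M z, ∀ u : K[X],
      M ∣ crt M a₀ (E x) (cc x) (∏ P ∈ S, P) u - a₀ ∧
      E x ∣ crt M a₀ (E x) (cc x) (∏ P ∈ S, P) u - cc x ∧
      (∏ P ∈ S, P) ∣ crt M a₀ (E x) (cc x) (∏ P ∈ S, P) u - u ∧
      PA (M * E x * ∏ P ∈ S, P) = PA M ∪ PA (E x) ∪ S ∧
      Disjoint (PA M) (PA (E x)) ∧ Disjoint (PA M ∪ PA (E x)) (S : Set K[X])) :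
    |∑ x ∈ I, φ x * ∑ S ∈ (PS K M z).powerset, Vm S * inrx w d α β M a₀ Rt (E x) (cc x) S -
      ((Fintype.card K : ℝ) ^ d / ((Fintype.card K : ℝ) ^ M.natDegree * Pm M)) *
        (∑ T ∈ (PS K M z).powerset, Vm T * ∏ P ∈ T, gg r P) *
        (∑ x ∈ I, φ x * (1 / ((Fintype.card K : ℝ) ^ (E x).natDegree * Pm (E x))))| ≤
      (Fintype.card K : ℝ) ^ D * ((Fintype.card K : ℝ) ^ (A * z) * La (κ + 2) z) *
        (Fintype.card K : ℝ) ^ ((1 - κl) * d) := by
  have hq := q2 (K := K)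
  have hqp : (0 : ℝ) < Fintype.card K := by linarith
  set C0 : ℝ := (Fintype.card K : ℝ) ^ d / ((Fintype.card K : ℝ) ^ M.natDegree * Pm M) with hC0
  set R : ℝ := (Fintype.card K : ℝ) ^ ((1 - κl) * d) with hRdef
  have hR0 : 0 ≤ R := (Real.rpow_pos_of_pos hqp _).le
  have hterm : ∀ x ∈ I, ∀ S ∈ (PS K M z).powerset,
      |Vm S * inrx w d α β M a₀ Rt (E x) (cc x) S - Vm S * (C0 * (∏ P ∈ S, gg r P) *
        (1 / ((Fintype.card K : ℝ) ^ (E x).natDegree * Pm (E x))))| ≤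
      |Vm S| * ((∏ P ∈ S, r P : ℕ) : ℝ) * R := by
    intro x hx S hS
    rw [Finset.mem_powerset] at hS
    by_cases hV : Vm S = 0
    · rw [hV]
      simp
    · have h3 := (hB.gm.2 S hV).2
      have hQm : (∏ P ∈ S, P).Monic := monic_prod_of_monic _ _ fun P hP => (PS_mem (hS hP)).1
      have hE := hR.mon x hx
      have hd1 : (M * E x * ∏ P ∈ S, P).natDegree =
          M.natDegree + (E x).natDegree + ∑ P ∈ S, P.natDegree := by
        rw [(hM.mul hE).natDegree_mul hQm, hM.natDegree_mul hE, natDegree_prod_of_monic]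
        intro P hP
        exact (PS_mem (hS hP)).1
      have hd2 := hR.deg x hx
      have hd3 : (M * E x * ∏ P ∈ S, P).natDegree ≤ M.natDegree + D + A * z := by omega
      have hd4 : (((M * E x * ∏ P ∈ S, P).natDegree : ℕ) : ℝ) ≤ θl * d :=
        le_trans (by exact_mod_cast hd3) hdeg1
      have h4 := one_classx hlc hM hN hE hS hd hd4 hca (hcE x hx) hRt (hfin S hS)
        (fun u => ⟨(hcrt x hx S hS u).1, (hcrt x hx S hS u).2.1, (hcrt x hx S hS u).2.2.1⟩)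
      obtain ⟨-, -, -, c4, c5, c6⟩ := hcrt x hx S hS 0
      rw [main_fac hM hE hS (hd3.trans hdeg2) c4 c5 c6] at h4
      rw [← mul_sub, abs_mul, mul_assoc (|Vm S|)]
      exact mul_le_mul_of_nonneg_left h4 (abs_nonneg _)
  have e : ∑ x ∈ I, φ x * ∑ S ∈ (PS K M z).powerset, Vm S * inrx w d α β M a₀ Rt (E x) (cc x) S -
      C0 * (∑ T ∈ (PS K M z).powerset, Vm T * ∏ P ∈ T, gg r P) *
        (∑ x ∈ I, φ x * (1 / ((Fintype.card K : ℝ) ^ (E x).natDegree * Pm (E x)))) =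
      ∑ x ∈ I, φ x * ∑ S ∈ (PS K M z).powerset,
        (Vm S * inrx w d α β M a₀ Rt (E x) (cc x) S - Vm S * (C0 * (∏ P ∈ S, gg r P) *
        (1 / ((Fintype.card K : ℝ) ^ (E x).natDegree * Pm (E x))))) := by
    rw [Finset.mul_sum, ← Finset.sum_sub_distrib]
    refine Finset.sum_congr rfl fun x _ => ?_
    rw [Finset.sum_sub_distrib, mul_sub]
    congr 1
    rw [Finset.mul_sum, Finset.sum_mul, Finset.mul_sum]
    refine Finset.sum_congr rfl fun S _ => ?_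
    ring
  rw [e]
  refine (Finset.abs_sum_le_sum_abs _ _).trans ?_
  have h5 : ∀ x ∈ I, |φ x * ∑ S ∈ (PS K M z).powerset,
        (Vm S * inrx w d α β M a₀ Rt (E x) (cc x) S - Vm S * (C0 * (∏ P ∈ S, gg r P) *
        (1 / ((Fintype.card K : ℝ) ^ (E x).natDegree * Pm (E x)))))| ≤
      |φ x| * (((Fintype.card K : ℝ) ^ (A * z) * La (κ + 2) z) * R) := by
    intro x hx
    rw [abs_mul]
    apply mul_le_mul_of_nonneg_left _ (abs_nonneg _)
    refine (Finset.abs_sum_le_sum_abs _ _).trans ((Finset.sum_le_sum (hterm x hx)).trans ?_)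
    rw [← Finset.sum_mul]
    exact mul_le_mul_of_nonneg_right (S1_cnt hB hL) hR0
  refine (Finset.sum_le_sum h5).trans ?_
  rw [← Finset.sum_mul, mul_assoc ((Fintype.card K : ℝ) ^ D)]
  apply mul_le_mul_of_nonneg_right hR.bd1
  have : 0 ≤ La (κ + 2) z := (Real.exp_pos _).le
  positivity

end MasterX

open MasterN MasterX in
theorem masterx : S_tmasterx := by
  intro hlc hexp K _ _ _
  obtain ⟨κl, θl, hκ, hθ, hl⟩ := hlc K
  have hm0p : 0 < min (min κl θl) 1 := lt_min (lt_min hκ hθ) one_pos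
  have hm1 : min (min κl θl) 1 ≤ κl := (min_le_left _ _).trans (min_le_left _ _)
  have hm2 : min (min κl θl) 1 ≤ θl := (min_le_left _ _).trans (min_le_right _ _)
  have hm3 : min (min κl θl) 1 ≤ 1 := min_le_right _ _
  generalize min (min κl θl) 1 = m0 at hm0p hm1 hm2 hm3
  refine ⟨m0 / 16, by positivity, ?_⟩
  intro w α β hAF
  obtain ⟨d₁, hN2⟩ := hl w α β hAF
  intro κ η M Rt r hη hM hNM hL hRt
  obtain ⟨z₀, hz₀1, hz₀⟩ := big_z κ hη
  have hmm : 0 < min η (m0 * 14 / 16) := lt_min hη (by positivity)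
  obtain ⟨d₂, hd₂⟩ := exists_nat_ge (((M.natDegree : ℝ) + z₀) / (min η (m0 * 14 / 16)))
  refine ⟨max d₁ d₂, ?_⟩
  intro a₀ d z A D B Vm Vp ι I E cc φ hca hd hA hB hzd hAD hR hcE
  have hq := q2 (K := K)
  have hqp : (0 : ℝ) < Fintype.card K := by linarith
  have hd1 : d₁ ≤ d := (le_max_left _ _).trans hd
  have hd2 : (d₂ : ℝ) ≤ d := by exact_mod_cast (le_max_right _ _).trans hd
  have hd0 : (0 : ℝ) ≤ d := Nat.cast_nonneg _
  have hdd : (M.natDegree : ℝ) + z₀ ≤ d * min η (m0 * 14 / 16) :=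
    (div_le_iff₀ hmm).1 (hd₂.trans hd2)
  have hdd1 : (d : ℝ) * min η (m0 * 14 / 16) ≤ d * η :=
    mul_le_mul_of_nonneg_left (min_le_left _ _) hd0
  have hdd2 : (d : ℝ) * min η (m0 * 14 / 16) ≤ d * (m0 * 14 / 16) :=
    mul_le_mul_of_nonneg_left (min_le_right _ _) hd0
  have hM0 : (0 : ℝ) ≤ M.natDegree := Nat.cast_nonneg _
  have hz00 : (0 : ℝ) ≤ z₀ := Nat.cast_nonneg _
  have hMz : M.natDegree ≤ z := by
    have : (M.natDegree : ℝ) ≤ z := by linarith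
    exact_mod_cast this
  have hzz : z₀ ≤ z := by
    have : (z₀ : ℝ) ≤ z := by linarith
    exact_mod_cast this
  have hz1 : 1 ≤ z := hz₀1.trans hzz
  have hMd : (M.natDegree : ℝ) ≤ d * (m0 * 14 / 16) := by linarith
  push_cast at hAD
  have hm2d : m0 * d ≤ θl * d := mul_le_mul_of_nonneg_right hm2 hd0
  have hm1d : m0 * d ≤ κl * d := mul_le_mul_of_nonneg_right hm1 hd0
  have hm3d : m0 * d ≤ 1 * d := mul_le_mul_of_nonneg_right hm3 hd0
  have hm0d : 0 ≤ m0 * d := mul_nonneg hm0p.le hd0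
  have hdeg1 : ((M.natDegree + D + A * z : ℕ) : ℝ) ≤ θl * d := by
    push_cast
    linarith
  have hdeg2 : M.natDegree + D + A * z ≤ d := by
    have : ((M.natDegree + D + A * z : ℕ) : ℝ) ≤ d := by
      push_cast
      linarith
    exact_mod_cast this
  obtain ⟨hx1, hx2, hx3⟩ := hexp K M Rt r κ hM hL a₀ d z D B Vm ι I E cc φ hMz hR
  have hT := T_subx hN2 hM hNM hL hRt hB hR hca hcE hd1 hdeg1 hdeg2 hx2 hx3
  have hG := hx1 (fun a => if Irreducible (α * a ^ w + β) then ((w : ℝ) * d + α.natDegree) else 0)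
  have hP := pointx (d := d) (w := w) hB M Rt a₀ α β I E cc φ hR.nn
  refine le_trans ?_ hP
  rw [hG]
  have hS1 := S1_ge hB hL
  have hS1' := S1_abs hB hL
  have hVR := (dens_ge hL z).2
  have hQ := QQ_nonneg hR
  obtain ⟨hLa1, hLa2⟩ := hz₀ z hzz
  -- the half power
  set L : ℝ := (Fintype.card K : ℝ) ^ ((z : ℝ) / 2) with hLdef
  have hLp : 0 < L := Real.rpow_pos_of_pos hqp _
  have hL2 : (2 : ℝ) ^ ((z : ℝ) / 2) ≤ L :=
    Real.rpow_le_rpow (by norm_num) hq (by positivity)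
  have hLL : (Fintype.card K : ℝ) ^ z = L * L := by
    rw [hLdef, ← Real.rpow_add hqp, ← Real.rpow_natCast]
    congr 1
    ring
  have her : er K z = 1 / L := by
    unfold er
    rw [hLdef, neg_div, Real.rpow_neg hqp.le, one_div]
  have hLa0 : 0 < La (κ + 2) z := Real.exp_pos _
  have hLage : 1 ≤ La (κ + 2) z := by
    unfold La
    rw [← Real.exp_zero]
    apply Real.exp_le_exp.mpr
    have : 0 ≤ Real.log z := Real.log_nonneg (by exact_mod_cast hz1)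
    positivity
  have hD0 : (0 : ℝ) ≤ D := Nat.cast_nonneg _
  have hAz : (0 : ℝ) ≤ A * z := by positivity
  have hDd : (D : ℝ) ≤ d := by linarith
  have hDz : 2 * (D : ℝ) ≤ 2 / η * z := by
    have h1 : (d : ℝ) ≤ z / η := by
      rw [le_div_iff₀ hη]
      linarith
    have h2 : 2 / η * z = 2 * (z / η) := by ring
    rw [h2]
    linarith
  have hLD : La (κ + 2) z * (2 * D) ≤ L := by
    have := mul_le_mul_of_nonneg_left hDz hLa0.le
    linarith
  have hLge : 1 ≤ L := by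
    rw [hLdef]
    exact Real.one_le_rpow (by linarith) (by positivity)
  have h2D : 2 * (D : ℝ) ≤ L := by nlinarith
  have ht : (D : ℝ) * ((Fintype.card K : ℝ) ^ z)⁻¹ ≤ 1 / 2 := by
    rw [hLL, ← div_eq_mul_inv, div_le_div_iff₀ (by positivity) (by norm_num)]
    nlinarith
  have hS2 := S2_sub hR ht
  have hB0 : 0 ≤ B := le_trans (Finset.sum_nonneg fun x _ => by positivity) hR.bd2
  have hst : La (κ + 2) z * (B * (2 * ((D : ℝ) * ((Fintype.card K : ℝ) ^ z)⁻¹))) ≤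
      B * (1 / L) := by
    have e : La (κ + 2) z * (B * (2 * ((D : ℝ) * ((Fintype.card K : ℝ) ^ z)⁻¹))) =
        B * ((La (κ + 2) z * (2 * D)) / (L * L)) := by
      rw [hLL]
      ring
    rw [e]
    apply mul_le_mul_of_nonneg_left _ hB0
    rw [div_le_div_iff₀ (by positivity) hLp]
    nlinarith
  -- the error term
  have hPm := Pm_pos (K := K) hM.ne_zero
  have hPm' := Pm_le (K := K) hM.ne_zero
  set C0 : ℝ := (Fintype.card K : ℝ) ^ d / ((Fintype.card K : ℝ) ^ M.natDegree * Pm M) with hC0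
  have hC0p : 0 < C0 := by positivity
  have herr : (Fintype.card K : ℝ) ^ D * ((Fintype.card K : ℝ) ^ (A * z) * La (κ + 2) z) *
        (Fintype.card K : ℝ) ^ ((1 - κl) * d) ≤ C0 * (1 / L) := by
    have h1 : (Fintype.card K : ℝ) ^ (D + A * z + z + M.natDegree) *
        (Fintype.card K : ℝ) ^ ((1 - κl) * d) ≤ (Fintype.card K : ℝ) ^ d := by
      rw [← Real.rpow_natCast, ← Real.rpow_natCast, ← Real.rpow_add hqp]
      apply Real.rpow_le_rpow_of_exponent_le (by linarith)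
      push_cast
      have : (z : ℝ) ≤ A * z := by
        have h1 : (1 : ℝ) ≤ A := by exact_mod_cast hA
        have h2 : (0 : ℝ) ≤ z := Nat.cast_nonneg _
        nlinarith
      linarith
    have h2 : (Fintype.card K : ℝ) ^ D * ((Fintype.card K : ℝ) ^ (A * z) * La (κ + 2) z) *
        (Fintype.card K : ℝ) ^ ((1 - κl) * d) ≤
        (Fintype.card K : ℝ) ^ D * ((Fintype.card K : ℝ) ^ (A * z) * L) *
        (Fintype.card K : ℝ) ^ ((1 - κl) * d) := by
      apply mul_le_mul_of_nonneg_right _ (Real.rpow_pos_of_pos hqp _).le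
      apply mul_le_mul_of_nonneg_left _ (by positivity)
      apply mul_le_mul_of_nonneg_left _ (by positivity)
      linarith
    refine h2.trans ?_
    have h3 : (Fintype.card K : ℝ) ^ D * ((Fintype.card K : ℝ) ^ (A * z) * L) *
        (Fintype.card K : ℝ) ^ ((1 - κl) * d) =
        (Fintype.card K : ℝ) ^ (D + A * z + z + M.natDegree) *
        (Fintype.card K : ℝ) ^ ((1 - κl) * d) * (1 / ((Fintype.card K : ℝ) ^ M.natDegree * L)) := by
      rw [pow_add, pow_add, pow_add, hLL]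
      field_simp
    rw [h3]
    have h4 : C0 * (1 / L) = (Fintype.card K : ℝ) ^ d *
        (1 / ((Fintype.card K : ℝ) ^ M.natDegree * L)) * (1 / Pm M) := by
      rw [hC0]
      field_simp
    rw [h4]
    have h5 : 1 ≤ 1 / Pm M := by
      rw [le_div_iff₀ hPm]
      linarith
    have h6 : 0 ≤ (Fintype.card K : ℝ) ^ d * (1 / ((Fintype.card K : ℝ) ^ M.natDegree * L)) := by
      positivity
    have h7 := mul_le_mul_of_nonneg_right h1
      (show 0 ≤ 1 / ((Fintype.card K : ℝ) ^ M.natDegree * L) by positivity)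
    nlinarith
  rw [her]
  change |∑ x ∈ I, φ x * ∑ S ∈ (PS K M z).powerset, Vm S * inrx w d α β M a₀ Rt (E x) (cc x) S -
      C0 * _ * _| ≤ _ at hT
  change _ ≤ ∑ x ∈ I, φ x * ∑ S ∈ (PS K M z).powerset, Vm S * inrx w d α β M a₀ Rt (E x) (cc x) S
  generalize (∑ x ∈ I, φ x * ∑ S ∈ (PS K M z).powerset, Vm S * inrx w d α β M a₀ Rt (E x) (cc x) S) = T
    at hT ⊢
  generalize (∑ T ∈ (PS K M z).powerset, Vm T * ∏ P ∈ T, gg r P) = S1 at hT hS1 hS1'
  generalize (∑ x ∈ I, φ x * (1 / ((Fintype.card K : ℝ) ^ (E x).natDegree * Pm (E x)))) = S2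
    at hT hS2
  generalize QQ I E φ = Q at hQ hS2 ⊢
  generalize VR M z r = V at hS1 hVR ⊢
  have h1 : V * Q / 4 - B * (1 / L) ≤ S1 * S2 := by
    have h2 : S1 * S2 = S1 * Q + S1 * (S2 - Q) := by ring
    have h3 : V / 4 * Q ≤ S1 * Q := mul_le_mul_of_nonneg_right hS1 hQ
    have h4 : |S1 * (S2 - Q)| ≤ B * (1 / L) := by
      rw [abs_mul]
      refine le_trans ?_ hst
      exact mul_le_mul hS1' hS2 (abs_nonneg _) hLa0.le
    have h5 := neg_abs_le (S1 * (S2 - Q))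
    linarith
  have h2 := mul_le_mul_of_nonneg_left h1 hC0p.le
  have h3 := (abs_le.1 (hT.trans herr)).1
  have e1 : C0 * (V * Q / 4 - (B + 1) * (1 / L)) =
      C0 * (V * Q / 4 - B * (1 / L)) - C0 * (1 / L) := by ring
  have e2 : C0 * S1 * S2 = C0 * (S1 * S2) := by ring
  rw [e1]
  rw [e2] at h3
  linarith

end Pool.Agent.H524.MT
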