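import Mathlib
import Pool.Agent.H524.MT.StmV

/-!
# Task OPT (helper118): the choice of the diagonal variables
-/

namespace Pool.Agent.H524.MT

open Polynomial
open scoped Classical
open Pool.Agent.H985.Chow (mob)
open Pool.Agent.H985.KP (PA)
open Pool.Agent.H694.Typ (Mn PU)

namespace Opt

section abs

variable {α : Type} {k : ℕ}

lemma prod_erase_const (i : Fin k) (x : ℝ) : ∏ _j ∈ (Finset.univ : Finset (Fin k)).erase i, x =
    x ^ (k - 1) := by
  rw [Finset.prod_const, Finset.card_erase_of_mem (Finset.mem_univ i), Finset.card_univ,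
    Fintype.card_fin]

/-- the product of the local sums over the restricted box -/
lemma prodU (R : Finset α) (e : α) (i : Fin k) (f : α → ℝ) :
    ∑ r ∈ Fintype.piFinset (Function.update (fun _ : Fin k => R) i {e}), ∏ j, f (r j) =
      f e * (∑ s ∈ R, f s) ^ (k - 1) := by
  rw [← Finset.prod_univ_sum (Function.update (fun _ : Fin k => R) i {e}) (fun _ s => f s),
    ← Finset.mul_prod_erase Finset.univ _ (Finset.mem_univ i)]
  congr 1
  · rw [Function.update_self, Finset.sum_singleton]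
  · rw [← prod_erase_const i]
    refine Finset.prod_congr rfl fun j hj => ?_
    rw [Function.update_of_ne (Finset.ne_of_mem_erase hj)]

/-- the same with one factor `dg` -/
lemma prodU' (R : Finset α) (e : α) (i j₀ : Fin k) (f h : α → ℝ) (he : f e = 1) (hh : h e = 0)
    (h0 : 0 ≤ ∑ s ∈ R, h s * f s) (h1 : 0 ≤ ∑ s ∈ R, f s) :
    (∑ s ∈ R, f s) * ∑ r ∈ Fintype.piFinset (Function.update (fun _ : Fin k => R) i {e}),
      h (r j₀) * ∏ j, f (r j) ≤ (∑ s ∈ R, h s * f s) * (∑ s ∈ R, f s) ^ (k - 1) := by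
  have e1 : ∀ r : Fin k → α, h (r j₀) * ∏ j, f (r j) =
      ∏ j, (if j = j₀ then h (r j) * f (r j) else f (r j)) := by
    intro r
    rw [← Finset.mul_prod_erase Finset.univ (fun j => f (r j)) (Finset.mem_univ j₀),
      ← Finset.mul_prod_erase Finset.univ
        (fun j => if j = j₀ then h (r j) * f (r j) else f (r j)) (Finset.mem_univ j₀),
      if_pos rfl, mul_assoc]
    congr 2
    refine Finset.prod_congr rfl fun j hj => ?_
    rw [if_neg (Finset.ne_of_mem_erase hj)]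
  rw [Finset.sum_congr rfl fun r _ => e1 r,
    ← Finset.prod_univ_sum (Function.update (fun _ : Fin k => R) i {e})
      (fun j s => if j = j₀ then h s * f s else f s)]
  by_cases hij : i = j₀
  · subst hij
    rw [← Finset.mul_prod_erase Finset.univ _ (Finset.mem_univ i), Function.update_self,
      Finset.sum_singleton, if_pos rfl, hh]
    simp only [zero_mul, mul_zero]
    exact mul_nonneg h0 (pow_nonneg h1 _)
  · rw [← Finset.mul_prod_erase Finset.univ _ (Finset.mem_univ j₀),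
      Function.update_of_ne (Ne.symm hij)]
    simp only [if_true]
    have e2 : (∑ s ∈ R, f s) ^ (k - 1) = (∑ s ∈ R, f s) *
        ∏ j ∈ Finset.univ.erase j₀, ∑ s ∈ Function.update (fun _ : Fin k => R) i {e} j,
          (if j = j₀ then h s * f s else f s) := by
      have e3 := prodU R e i f
      rw [← Finset.prod_univ_sum (Function.update (fun _ : Fin k => R) i {e}) (fun _ s => f s),
        ← Finset.mul_prod_erase Finset.univ _ (Finset.mem_univ j₀),
        Function.update_of_ne (Ne.symm hij), he, one_mul] at e3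
      rw [← e3]
      congr 1
      refine Finset.prod_congr rfl fun j hj => ?_
      refine Finset.sum_congr rfl fun s _ => ?_
      rw [if_neg (Finset.ne_of_mem_erase hj)]
    rw [e2]
    apply le_of_eq
    ring

/-- the diagonal variables -/
noncomputable def yy (g : α → ℝ) (dg : α → ℕ) (T : ℕ) (r : Fin k → α) : ℝ :=
  if ∑ j, dg (r j) ≤ T then ∏ j, g (r j) else 0

lemma upper (R : Finset α) (w g : α → ℝ) (dg : α → ℕ) (T : ℕ) (hw : ∀ r ∈ R, 0 ≤ w r) :
    ∑ r ∈ Fintype.piFinset (fun _ : Fin k => R), yy g dg T r ^ 2 * ∏ j, w (r j) ≤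
      (∑ s ∈ R, g s ^ 2 * w s) ^ k := by
  have e1 : (∑ s ∈ R, g s ^ 2 * w s) ^ k =
      ∑ r ∈ Fintype.piFinset (fun _ : Fin k => R), ∏ j, (g (r j) ^ 2 * w (r j)) := by
    rw [← Finset.prod_univ_sum (fun _ : Fin k => R) (fun _ s => g s ^ 2 * w s), Finset.prod_const,
      Finset.card_univ, Fintype.card_fin]
  rw [e1]
  refine Finset.sum_le_sum fun r hr => ?_
  rw [Fintype.mem_piFinset] at hr
  rw [Finset.prod_mul_distrib]
  apply mul_le_mul_of_nonneg_right _ (Finset.prod_nonneg fun j _ => hw _ (hr j))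
  unfold yy
  split_ifs
  · rw [Finset.prod_pow]
  · rw [Finset.prod_pow]
    simp only [ne_eq, OfNat.ofNat_ne_zero, not_false_eq_true, zero_pow]
    positivity

lemma yy_update (g : α → ℝ) (dg : α → ℕ) (T : ℕ) (e : α) (hg1 : g e = 1) (hde : dg e = 0)
    (hsupp : ∀ r, g r ≠ 0 → 2 * dg r ≤ T) (i : Fin k) (r : Fin k → α) (hr : r i = e)
    (hT : 2 * ∑ j, dg (r j) ≤ T) (s : α) :
    yy g dg T (Function.update r i s) = g s * ∏ j, g (r j) := by
  have e1 : ∏ j, g (Function.update r i s j) = g s * ∏ j, g (r j) := by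
    rw [← Finset.mul_prod_erase Finset.univ (fun j => g (Function.update r i s j))
      (Finset.mem_univ i), ← Finset.mul_prod_erase Finset.univ (fun j => g (r j))
      (Finset.mem_univ i), Function.update_self, hr, hg1, one_mul]
    congr 1
    refine Finset.prod_congr rfl fun j hj => ?_
    rw [Function.update_of_ne (Finset.ne_of_mem_erase hj)]
  have e2 : ∑ j, dg (Function.update r i s j) = dg s + ∑ j, dg (r j) := by
    rw [← Finset.add_sum_erase Finset.univ (fun j => dg (Function.update r i s j))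
      (Finset.mem_univ i), ← Finset.add_sum_erase Finset.univ (fun j => dg (r j))
      (Finset.mem_univ i), Function.update_self, hr, hde, zero_add]
    congr 1
    refine Finset.sum_congr rfl fun j hj => ?_
    rw [Function.update_of_ne (Finset.ne_of_mem_erase hj)]
  unfold yy
  rw [e1, e2]
  by_cases hs : g s = 0
  · rw [hs]
    simp
  · have := hsupp s hs
    rw [if_pos (by omega)]

lemma lower (R : Finset α) (w g : α → ℝ) (dg : α → ℕ) (T : ℕ) (e : α) (hw : ∀ r ∈ R, 0 ≤ w r)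
    (hg1 : g e = 1) (hwe : w e = 1) (hde : dg e = 0) (hT : 0 < T)
    (hsupp : ∀ r, g r ≠ 0 → 2 * dg r ≤ T) (hG2 : 0 < ∑ s ∈ R, g s ^ 2 * w s)
    (hM : 4 * (k : ℝ) * ∑ s ∈ R, (dg s : ℝ) * (g s ^ 2 * w s) ≤ T * ∑ s ∈ R, g s ^ 2 * w s)
    (i : Fin k) :
    (∑ s ∈ R, g s * w s) ^ 2 * ((∑ s ∈ R, g s ^ 2 * w s) ^ (k - 1) / 2) ≤
      ∑ r ∈ Fintype.piFinset (Function.update (fun _ : Fin k => R) i {e}),
        (∑ s ∈ R, yy g dg T (Function.update r i s) * w s) ^ 2 * ∏ j, w (r j) := by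
  obtain ⟨U, hU⟩ : ∃ U : Finset (Fin k → α),
    U = Fintype.piFinset (Function.update (fun _ : Fin k => R) i {e}) := ⟨_, rfl⟩
  obtain ⟨G1, hG1⟩ : ∃ G1 : ℝ, G1 = ∑ s ∈ R, g s * w s := ⟨_, rfl⟩
  obtain ⟨G2, hG2d⟩ : ∃ G2 : ℝ, G2 = ∑ s ∈ R, g s ^ 2 * w s := ⟨_, rfl⟩
  obtain ⟨Gt, hGt⟩ : ∃ Gt : ℝ, Gt = ∑ s ∈ R, (dg s : ℝ) * (g s ^ 2 * w s) := ⟨_, rfl⟩
  rw [← hG1, ← hG2d, ← hU]
  rw [← hG2d] at hG2 hM
  rw [← hGt] at hM
  obtain ⟨p, hp⟩ : ∃ p : (Fin k → α) → ℝ, p = fun r => ∏ j, (g (r j) ^ 2 * w (r j)) := ⟨_, rfl⟩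
  have hTR : (0 : ℝ) < T := by exact_mod_cast hT
  have hmem : ∀ r ∈ U, r i = e ∧ ∀ j, 0 ≤ w (r j) := by
    intro r hr
    rw [hU, Fintype.mem_piFinset] at hr
    have h1 : r i = e := by
      have := hr i
      rw [Function.update_self] at this
      exact Finset.mem_singleton.1 this
    refine ⟨h1, fun j => ?_⟩
    by_cases hj : j = i
    · rw [hj, h1, hwe]
      exact zero_le_one
    · have := hr j
      rw [Function.update_of_ne hj] at this
      exact hw _ this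
  have hp0 : ∀ r ∈ U, 0 ≤ p r := by
    intro r hr
    rw [hp]
    exact Finset.prod_nonneg fun j _ => mul_nonneg (sq_nonneg _) ((hmem r hr).2 j)
  have hpsum : ∑ r ∈ U, p r = G2 ^ (k - 1) := by
    rw [hU, hp, hG2d]
    have := prodU R e i (fun s => g s ^ 2 * w s)
    rw [this, hg1, hwe]
    ring
  have hGt0 : 0 ≤ Gt := by
    rw [hGt]
    exact Finset.sum_nonneg fun s hs => mul_nonneg (Nat.cast_nonneg _)
      (mul_nonneg (sq_nonneg _) (hw s hs))
  have hj0 : ∀ j₀ : Fin k, G2 * ∑ r ∈ U, (dg (r j₀) : ℝ) * p r ≤ Gt * G2 ^ (k - 1) := by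
    intro j₀
    have := prodU' R e i j₀ (fun s => g s ^ 2 * w s) (fun s => (dg s : ℝ))
      (by rw [hg1, hwe]; ring) (by simp only [hde]; norm_num)
      (by rw [← hGt]; exact hGt0) (by rw [← hG2d]; exact hG2.le)
    rw [← hG2d, ← hGt, ← hU] at this
    rw [hp]
    exact this
  have hall : G2 * ∑ r ∈ U, ((∑ j, dg (r j) : ℕ) : ℝ) * p r ≤ k * (Gt * G2 ^ (k - 1)) := by
    have e1 : G2 * ∑ r ∈ U, ((∑ j, dg (r j) : ℕ) : ℝ) * p r =
        ∑ j₀ : Fin k, G2 * ∑ r ∈ U, (dg (r j₀) : ℝ) * p r := by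
      rw [← Finset.mul_sum, Finset.sum_comm]
      congr 1
      refine Finset.sum_congr rfl fun r _ => ?_
      rw [Nat.cast_sum, Finset.sum_mul]
    rw [e1]
    refine (Finset.sum_le_sum fun j₀ _ => hj0 j₀).trans ?_
    rw [Finset.sum_const, Finset.card_univ, Fintype.card_fin, nsmul_eq_mul]
  -- the bad part
  obtain ⟨bad, hbad⟩ : ∃ bad : ℝ, bad = ∑ r ∈ U.filter (fun r => ¬ 2 * ∑ j, dg (r j) ≤ T), p r :=
    ⟨_, rfl⟩
  have hb1 : T * bad ≤ 2 * ∑ r ∈ U, ((∑ j, dg (r j) : ℕ) : ℝ) * p r := by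
    rw [hbad, Finset.mul_sum, Finset.mul_sum]
    refine (Finset.sum_le_sum (g := fun r => 2 * (((∑ j, dg (r j) : ℕ) : ℝ) * p r))
      fun r hr => ?_).trans (Finset.sum_le_sum_of_subset_of_nonneg (Finset.filter_subset _ _)
      fun r hr _ => ?_)
    · rw [Finset.mem_filter] at hr
      have h1 : (T : ℝ) ≤ 2 * ((∑ j, dg (r j) : ℕ) : ℝ) := by
        have := hr.2
        push Not at this
        have h2 : T ≤ 2 * ∑ j, dg (r j) := this.le
        exact_mod_cast h2
      have := hp0 r hr.1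
      nlinarith
    · have := hp0 r hr
      positivity
  have hb2 : bad ≤ G2 ^ (k - 1) / 2 := by
    have h1 : 0 < T * G2 := mul_pos hTR hG2
    have h2 : 0 ≤ G2 ^ (k - 1) := pow_nonneg hG2.le _
    have h3 : T * G2 * bad ≤ T * G2 * (G2 ^ (k - 1) / 2) := by
      calc T * G2 * bad = G2 * (T * bad) := by ring
        _ ≤ G2 * (2 * ∑ r ∈ U, ((∑ j, dg (r j) : ℕ) : ℝ) * p r) :=
          mul_le_mul_of_nonneg_left hb1 hG2.le
        _ = 2 * (G2 * ∑ r ∈ U, ((∑ j, dg (r j) : ℕ) : ℝ) * p r) := by ring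
        _ ≤ 2 * (k * (Gt * G2 ^ (k - 1))) := by linarith
        _ = (4 * k * Gt) * (G2 ^ (k - 1) / 2) := by ring
        _ ≤ (T * G2) * (G2 ^ (k - 1) / 2) := mul_le_mul_of_nonneg_right hM (by positivity)
    exact le_of_mul_le_mul_left h3 h1
  have hgood : G2 ^ (k - 1) / 2 ≤ ∑ r ∈ U.filter (fun r => 2 * ∑ j, dg (r j) ≤ T), p r := by
    have h1 := Finset.sum_filter_add_sum_filter_not U (fun r => 2 * ∑ j, dg (r j) ≤ T) p
    rw [hpsum, ← hbad] at h1
    linarith
  calc G1 ^ 2 * (G2 ^ (k - 1) / 2)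
      ≤ G1 ^ 2 * ∑ r ∈ U.filter (fun r => 2 * ∑ j, dg (r j) ≤ T), p r :=
        mul_le_mul_of_nonneg_left hgood (sq_nonneg _)
    _ = ∑ r ∈ U.filter (fun r => 2 * ∑ j, dg (r j) ≤ T),
        (∑ s ∈ R, yy g dg T (Function.update r i s) * w s) ^ 2 * ∏ j, w (r j) := by
        rw [Finset.mul_sum]
        refine Finset.sum_congr rfl fun r hr => ?_
        rw [Finset.mem_filter] at hr
        have h1 : ∑ s ∈ R, yy g dg T (Function.update r i s) * w s = G1 * ∏ j, g (r j) := by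
          rw [hG1, Finset.sum_mul]
          refine Finset.sum_congr rfl fun s _ => ?_
          rw [yy_update g dg T e hg1 hde hsupp i r (hmem r hr.1).1 hr.2 s]
          ring
        rw [h1, hp]
        simp only
        rw [Finset.prod_mul_distrib, Finset.prod_pow]
        ring
    _ ≤ ∑ r ∈ U, (∑ s ∈ R, yy g dg T (Function.update r i s) * w s) ^ 2 * ∏ j, w (r j) := by
        apply Finset.sum_le_sum_of_subset_of_nonneg (Finset.filter_subset _ _)
        intro r hr _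
        exact mul_nonneg (sq_nonneg _) (Finset.prod_nonneg fun j _ => (hmem r hr).2 j)

end abs

/-! ### the function `g` -/

/-- the dyadic level of `t` -/
noncomputable def ls (τ t : ℕ) : ℕ := sInf {l : ℕ | t ≤ 2 ^ l * τ}

lemma ls_spec {τ : ℕ} (hτ : 1 ≤ τ) (t : ℕ) : t ≤ 2 ^ ls τ t * τ := by
  have h : ({l : ℕ | t ≤ 2 ^ l * τ} : Set ℕ).Nonempty := by
    refine ⟨t, ?_⟩
    have h1 : t ≤ 2 ^ t := Nat.lt_two_pow_self.le
    exact h1.trans (Nat.le_mul_of_pos_right _ hτ)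
  exact Nat.sInf_mem h

lemma ls_le {τ : ℕ} (hτ : 1 ≤ τ) (t l : ℕ) : ls τ t ≤ l ↔ t ≤ 2 ^ l * τ := by
  constructor
  · intro h
    refine (ls_spec hτ t).trans ?_
    exact Nat.mul_le_mul_right _ (Nat.pow_le_pow_right (by norm_num) h)
  · intro h
    exact Nat.sInf_le h

/-- the function `g` -/
noncomputable def gg (n τ t : ℕ) : ℝ := if ls τ t ≤ n then (1 / 2 : ℝ) ^ ls τ t else 0

lemma gg_nonneg (n τ t : ℕ) : 0 ≤ gg n τ t := by
  unfold gg
  split_ifs <;> positivity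

lemma gg_le_one (n τ t : ℕ) : gg n τ t ≤ 1 := by
  unfold gg
  split_ifs
  · exact pow_le_one₀ (by norm_num) (by norm_num)
  · norm_num

lemma gg_small {n τ t : ℕ} (hτ : 1 ≤ τ) (h : t ≤ τ) : gg n τ t = 1 := by
  have h1 : ls τ t = 0 := by
    have := (ls_le hτ t 0).2 (by simpa using h)
    omega
  unfold gg
  rw [h1, if_pos (Nat.zero_le n), pow_zero]

lemma gg_supp {n τ t : ℕ} (hτ : 1 ≤ τ) (h : gg n τ t ≠ 0) : t ≤ 2 ^ n * τ := by
  unfold gg at h
  rw [← ls_le hτ]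
  by_contra h1
  rw [if_neg h1] at h
  exact h rfl

lemma geo (a n : ℕ) : ∑ l ∈ Finset.range (n + 1), (1 / 2 : ℝ) ^ (l + 1) * (if a ≤ l then 1 else 0) ≤
    if a ≤ n then (1 / 2 : ℝ) ^ a - (1 / 2) ^ (n + 1) else 0 := by
  induction n with
  | zero =>
    rw [Finset.sum_range_one]
    by_cases h : a ≤ 0
    · rw [if_pos h, if_pos h]
      have : a = 0 := by omega
      rw [this]
      norm_num
    · rw [if_neg h, if_neg h]
      norm_num
  | succ n ih =>
    rw [Finset.sum_range_succ]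
    by_cases h : a ≤ n
    · rw [if_pos h] at ih
      rw [if_pos (by omega), if_pos (by omega)]
      have e1 : (1 / 2 : ℝ) ^ (n + 1) = 2 * (1 / 2) ^ (n + 1 + 1) := by ring
      linarith
    · rw [if_neg h] at ih
      by_cases h2 : a ≤ n + 1
      · have h3 : a = n + 1 := by omega
        rw [if_pos h2, if_pos h2]
        rw [h3] at ih ⊢
        have e1 : (1 / 2 : ℝ) ^ (n + 1) = 2 * (1 / 2) ^ (n + 1 + 1) := by ring
        linarith
      · rw [if_neg h2, if_neg h2]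
        linarith

lemma gg_low {τ : ℕ} (hτ : 1 ≤ τ) (n t : ℕ) :
    ∑ l ∈ Finset.range (n + 1), (1 / 2 : ℝ) ^ (l + 1) * (if t ≤ 2 ^ l * τ then 1 else 0) ≤
      gg n τ t := by
  have h := geo (ls τ t) n
  simp only [ls_le hτ] at h
  refine h.trans ?_
  unfold gg
  simp only [ls_le hτ]
  split_ifs
  · have : (0 : ℝ) ≤ (1 / 2) ^ (n + 1) := by positivity
    linarith
  · exact le_rfl

lemma gg_sq {τ : ℕ} (hτ : 1 ≤ τ) (n t : ℕ) :
    gg n τ t ^ 2 ≤
      ∑ l ∈ Finset.range (n + 1), (1 / 4 : ℝ) ^ l * (if t ≤ 2 ^ l * τ then 1 else 0) := by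
  have hn : ∀ l ∈ Finset.range (n + 1),
      0 ≤ (1 / 4 : ℝ) ^ l * (if t ≤ 2 ^ l * τ then 1 else 0) := by
    intro l _
    split_ifs <;> positivity
  by_cases h : ls τ t ≤ n
  · refine le_trans ?_ (Finset.single_le_sum hn (Finset.mem_range.2 (Nat.lt_succ_of_le h)))
    unfold gg
    rw [if_pos h, if_pos (ls_spec hτ t), mul_one, ← pow_mul, mul_comm, pow_mul]
    norm_num
  · unfold gg
    rw [if_neg h]
    have := Finset.sum_nonneg hn
    simpa using this

lemma gg_t {τ : ℕ} (hτ : 1 ≤ τ) (n t : ℕ) :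
    (t : ℝ) * gg n τ t ^ 2 ≤
      τ * ∑ l ∈ Finset.range (n + 1), (1 / 2 : ℝ) ^ l * (if t ≤ 2 ^ l * τ then 1 else 0) := by
  have hn : ∀ l ∈ Finset.range (n + 1),
      0 ≤ (1 / 2 : ℝ) ^ l * (if t ≤ 2 ^ l * τ then 1 else 0) := by
    intro l _
    split_ifs <;> positivity
  by_cases h : ls τ t ≤ n
  · refine le_trans ?_ (mul_le_mul_of_nonneg_left
      (Finset.single_le_sum hn (Finset.mem_range.2 (Nat.lt_succ_of_le h))) (Nat.cast_nonneg τ))
    unfold gg
    rw [if_pos h, if_pos (ls_spec hτ t), mul_one]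
    have h1 : (t : ℝ) ≤ 2 ^ ls τ t * τ := by exact_mod_cast ls_spec hτ t
    calc (t : ℝ) * ((1 / 2) ^ ls τ t) ^ 2 ≤ (2 ^ ls τ t * τ) * ((1 / 2) ^ ls τ t) ^ 2 :=
          mul_le_mul_of_nonneg_right h1 (by positivity)
      _ = τ * (1 / 2) ^ ls τ t * (2 ^ ls τ t * (1 / 2) ^ ls τ t) := by ring
      _ = τ * (1 / 2) ^ ls τ t := by rw [← mul_pow]; norm_num
  · unfold gg
    rw [if_neg h]
    have := Finset.sum_nonneg hn
    have h2 : (0 : ℝ) ≤ τ * ∑ l ∈ Finset.range (n + 1),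
      (1 / 2 : ℝ) ^ l * (if t ≤ 2 ^ l * τ then 1 else 0) := by positivity
    simpa using h2

/-- the sums over a finite set with weights, from the counting function -/
lemma sums {α : Type} (R : Finset α) (w : α → ℝ) (dg : α → ℕ) (hw : ∀ r ∈ R, 0 ≤ w r)
    {C z : ℝ} {τ n : ℕ} (hC : 1 ≤ C) (hz : 0 < z) (hτ : 1 ≤ τ)
    (hS : ∀ l ≤ n, (2 ^ l * τ : ℝ) / (C * z) ≤
        ∑ r ∈ R, (if dg r ≤ 2 ^ l * τ then 1 else 0) * w r ∧
      ∑ r ∈ R, (if dg r ≤ 2 ^ l * τ then 1 else 0) * w r ≤ C * (2 ^ l * τ) / z) :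
    ((n : ℝ) + 1) * τ / (2 * C * z) ≤ ∑ r ∈ R, gg n τ (dg r) * w r ∧
    ∑ r ∈ R, gg n τ (dg r) ^ 2 * w r ≤ 2 * C * τ / z ∧
    τ / (C * z) ≤ ∑ r ∈ R, gg n τ (dg r) ^ 2 * w r ∧
    ∑ r ∈ R, (dg r : ℝ) * (gg n τ (dg r) ^ 2 * w r) ≤ (n + 1) * C * τ ^ 2 / z := by
  have hC0 : 0 < C := by linarith
  have hτ0 : (0 : ℝ) < τ := by exact_mod_cast hτ
  have hsw : ∀ c : ℕ → ℝ, ∑ r ∈ R, (∑ l ∈ Finset.range (n + 1),
      c l * (if dg r ≤ 2 ^ l * τ then 1 else 0)) * w r =
      ∑ l ∈ Finset.range (n + 1), c l * ∑ r ∈ R, (if dg r ≤ 2 ^ l * τ then 1 else 0) * w r := by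
    intro c
    simp only [Finset.sum_mul, Finset.mul_sum]
    rw [Finset.sum_comm]
    refine Finset.sum_congr rfl fun l _ => Finset.sum_congr rfl fun r _ => ?_
    ring
  refine ⟨?_, ?_, ?_, ?_⟩
  · calc ((n : ℝ) + 1) * τ / (2 * C * z)
        = ∑ l ∈ Finset.range (n + 1), (1 / 2 : ℝ) ^ (l + 1) * ((2 ^ l * τ : ℝ) / (C * z)) := by
          have e1 : ∀ l ∈ Finset.range (n + 1),
              (1 / 2 : ℝ) ^ (l + 1) * ((2 ^ l * τ : ℝ) / (C * z)) = τ / (2 * C * z) := by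
            intro l _
            rw [pow_succ]
            have e2 : (1 / 2 : ℝ) ^ l * 2 ^ l = 1 := by rw [← mul_pow]; norm_num
            field_simp
            linear_combination e2
          rw [Finset.sum_congr rfl e1, Finset.sum_const, Finset.card_range, nsmul_eq_mul]
          push_cast
          ring
      _ ≤ ∑ l ∈ Finset.range (n + 1), (1 / 2 : ℝ) ^ (l + 1) *
          ∑ r ∈ R, (if dg r ≤ 2 ^ l * τ then 1 else 0) * w r := by
          refine Finset.sum_le_sum fun l hl => ?_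
          exact mul_le_mul_of_nonneg_left
            (hS l (Nat.lt_succ_iff.1 (Finset.mem_range.1 hl))).1 (by positivity)
      _ = ∑ r ∈ R, (∑ l ∈ Finset.range (n + 1),
          (1 / 2 : ℝ) ^ (l + 1) * (if dg r ≤ 2 ^ l * τ then 1 else 0)) * w r :=
          (hsw fun l => (1 / 2 : ℝ) ^ (l + 1)).symm
      _ ≤ ∑ r ∈ R, gg n τ (dg r) * w r :=
          Finset.sum_le_sum fun r hr => mul_le_mul_of_nonneg_right (gg_low hτ n (dg r)) (hw r hr)
  · calc ∑ r ∈ R, gg n τ (dg r) ^ 2 * w r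
        ≤ ∑ r ∈ R, (∑ l ∈ Finset.range (n + 1),
          (1 / 4 : ℝ) ^ l * (if dg r ≤ 2 ^ l * τ then 1 else 0)) * w r :=
          Finset.sum_le_sum fun r hr => mul_le_mul_of_nonneg_right (gg_sq hτ n (dg r)) (hw r hr)
      _ = ∑ l ∈ Finset.range (n + 1), (1 / 4 : ℝ) ^ l *
          ∑ r ∈ R, (if dg r ≤ 2 ^ l * τ then 1 else 0) * w r := hsw fun l => (1 / 4 : ℝ) ^ l
      _ ≤ ∑ l ∈ Finset.range (n + 1), (1 / 4 : ℝ) ^ l * (C * (2 ^ l * τ) / z) := by
          refine Finset.sum_le_sum fun l hl => ?_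
          exact mul_le_mul_of_nonneg_left
            (hS l (Nat.lt_succ_iff.1 (Finset.mem_range.1 hl))).2 (by positivity)
      _ = C * τ / z * ∑ l ∈ Finset.range (n + 1), (1 / 2 : ℝ) ^ l := by
          rw [Finset.mul_sum]
          refine Finset.sum_congr rfl fun l _ => ?_
          have e2 : (1 / 4 : ℝ) ^ l * 2 ^ l = (1 / 2) ^ l := by rw [← mul_pow]; norm_num
          rw [← e2]
          ring
      _ ≤ C * τ / z * 2 := mul_le_mul_of_nonneg_left (sum_geometric_two_le _) (by positivity)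
      _ = 2 * C * τ / z := by ring
  · calc (τ : ℝ) / (C * z) ≤ ∑ r ∈ R, (if dg r ≤ 2 ^ 0 * τ then 1 else 0) * w r := by
          have := (hS 0 (Nat.zero_le n)).1
          rw [pow_zero, one_mul] at this
          exact this
      _ ≤ ∑ r ∈ R, gg n τ (dg r) ^ 2 * w r := by
          refine Finset.sum_le_sum fun r hr => mul_le_mul_of_nonneg_right ?_ (hw r hr)
          split_ifs with h
          · rw [gg_small hτ (by simpa using h)]
            norm_num
          · positivity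
  · calc ∑ r ∈ R, (dg r : ℝ) * (gg n τ (dg r) ^ 2 * w r)
        ≤ ∑ r ∈ R, (∑ l ∈ Finset.range (n + 1),
          (τ * (1 / 2 : ℝ) ^ l) * (if dg r ≤ 2 ^ l * τ then 1 else 0)) * w r := by
          refine Finset.sum_le_sum fun r hr => ?_
          rw [← mul_assoc]
          refine mul_le_mul_of_nonneg_right ((gg_t hτ n (dg r)).trans (le_of_eq ?_)) (hw r hr)
          rw [Finset.mul_sum]
          refine Finset.sum_congr rfl fun l _ => ?_
          ring
      _ = ∑ l ∈ Finset.range (n + 1), (τ * (1 / 2 : ℝ) ^ l) *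
          ∑ r ∈ R, (if dg r ≤ 2 ^ l * τ then 1 else 0) * w r :=
          hsw fun l => τ * (1 / 2 : ℝ) ^ l
      _ ≤ ∑ l ∈ Finset.range (n + 1), (τ * (1 / 2 : ℝ) ^ l) * (C * (2 ^ l * τ) / z) := by
          refine Finset.sum_le_sum fun l hl => ?_
          exact mul_le_mul_of_nonneg_left
            (hS l (Nat.lt_succ_iff.1 (Finset.mem_range.1 hl))).2 (by positivity)
      _ = (n + 1) * C * τ ^ 2 / z := by
          have e1 : ∀ l ∈ Finset.range (n + 1),
              (τ * (1 / 2 : ℝ) ^ l) * (C * (2 ^ l * τ) / z) = C * τ ^ 2 / z := by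
            intro l _
            have e2 : (1 / 2 : ℝ) ^ l * 2 ^ l = 1 := by rw [← mul_pow]; norm_num
            calc (τ * (1 / 2 : ℝ) ^ l) * (C * (2 ^ l * τ) / z) =
                C * τ ^ 2 / z * ((1 / 2 : ℝ) ^ l * 2 ^ l) := by ring
              _ = _ := by rw [e2, mul_one]
          rw [Finset.sum_congr rfl e1, Finset.sum_const, Finset.card_range, nsmul_eq_mul]
          push_cast
          ring

lemma ph_nonneg {K : Type} [Field K] [Fintype K] (r : K[X]) : 0 ≤ ph r := by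
  unfold ph
  refine finprod_nonneg fun P => finprod_nonneg fun _ => ?_
  have : (1 : ℝ) ≤ (Fintype.card K : ℝ) ^ P.natDegree := by
    apply one_le_pow₀
    exact_mod_cast Fintype.card_pos
  linarith

lemma ph_one {K : Type} [Field K] [Fintype K] : ph (1 : K[X]) = 1 := by
  unfold ph
  have h : PA (1 : K[X]) = ∅ := by
    ext P
    constructor
    · rintro ⟨_, h1, h2⟩
      exact absurd (isUnit_of_dvd_one h2) h1.not_isUnit
    · intro h
      exact absurd h (Set.notMem_empty P)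
  rw [h, finprod_mem_empty]

lemma Rz_filter {K : Type} [Field K] [Fintype K] (z T x : ℕ) (hx : x ≤ T) :
    ∑ r ∈ Rz K z T, (if r.natDegree ≤ x then 1 else 0) * (ph r)⁻¹ =
      ∑ r ∈ Rz K z x, 1 / ph r := by
  have h : Rz K z x = (Rz K z T).filter (fun r => r.natDegree ≤ x) := by
    ext r
    unfold Rz
    simp only [Finset.mem_filter, Finset.mem_biUnion, Finset.mem_range, Nat.lt_succ_iff,
      Pool.Agent.H694.Typ.mem_Mn]
    constructor
    · rintro ⟨⟨j, hj, h1, h2⟩, h3⟩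
      exact ⟨⟨⟨j, by omega, h1, h2⟩, h3⟩, by omega⟩
    · rintro ⟨⟨⟨j, hj, h1, h2⟩, h3⟩, h4⟩
      exact ⟨⟨j, by omega, h1, h2⟩, h3⟩
  rw [h, Finset.sum_filter]
  refine Finset.sum_congr rfl fun r _ => ?_
  split_ifs
  · rw [one_mul, one_div]
  · rw [zero_mul]

end Opt

open Opt in
/-- **OPT.** -/
theorem opt : S_topt := by
  intro hmert K _ _ Λ
  obtain ⟨C, hC, -, hR⟩ := hmert K
  have hC0 : 0 < C := by linarith
  obtain ⟨n, hn⟩ := exists_nat_ge (128 * C ^ 5 * |Λ|)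
  obtain ⟨k, hk⟩ : ∃ k : ℕ, k = 2 ^ n := ⟨_, rfl⟩
  have hk1 : 1 ≤ k := by rw [hk]; exact Nat.one_le_two_pow
  have hkR : (1 : ℝ) ≤ k := by exact_mod_cast hk1
  have hn0 : (0 : ℝ) < (n : ℝ) + 1 := by positivity
  obtain ⟨W, hW⟩ : ∃ W : ℝ, W = 4 * C ^ 2 * k * (n + 1) := ⟨_, rfl⟩
  have hW0 : 0 < W := by rw [hW]; positivity
  refine ⟨k, 1 / W, hk1, by positivity, ?_⟩
  intro z T hz hzT
  have hzR : (1 : ℝ) ≤ z := by exact_mod_cast hz
  have hz0 : (0 : ℝ) < z := by linarith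
  obtain ⟨τ, hτd⟩ : ∃ τ : ℕ, τ = ⌊(T : ℝ) / W⌋₊ := ⟨_, rfl⟩
  have hY : (z : ℝ) ≤ T / W := by
    rw [one_div, inv_mul_eq_div] at hzT
    exact hzT
  have hzτ : z ≤ τ := by
    rw [hτd]
    exact Nat.le_floor hY
  have hτ1 : 1 ≤ τ := hz.trans hzτ
  have hτR : (1 : ℝ) ≤ τ := by exact_mod_cast hτ1
  have hτle : (τ : ℝ) ≤ T / W := by
    rw [hτd]
    exact Nat.floor_le (by positivity)
  have hτW : τ * W ≤ T := by
    rw [le_div_iff₀ hW0] at hτle
    exact hτle
  have hτge : (T : ℝ) ≤ 2 * τ * W := by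
    have h1 : (T : ℝ) / W < τ + 1 := by
      rw [hτd]
      exact Nat.lt_floor_add_one _
    rw [div_lt_iff₀ hW0] at h1
    nlinarith
  have hT0 : 0 < T := by
    have h1 : (0 : ℝ) < τ * W := by positivity
    have h2 : (0 : ℝ) < T := by linarith
    exact_mod_cast h2
  have hTR : (0 : ℝ) < T := by exact_mod_cast hT0
  -- `2 * 2 ^ n * τ ≤ T`
  have hbig : 2 * (2 ^ n * τ) ≤ T := by
    have h1 : (2 * (2 ^ n * τ) : ℝ) ≤ T := by
      refine le_trans ?_ hτW
      rw [hW, hk]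
      push_cast
      have h2 : (1 : ℝ) ≤ C ^ 2 := one_le_pow₀ hC
      have h3 : (1 : ℝ) ≤ (n : ℝ) + 1 := by
        have : (0 : ℝ) ≤ n := Nat.cast_nonneg n
        linarith
      have h4 : (0 : ℝ) < 2 ^ n * τ := by positivity
      have h5 : (1 : ℝ) ≤ C ^ 2 * ((n : ℝ) + 1) := by nlinarith
      nlinarith
    exact_mod_cast h1
  obtain ⟨R, hRd⟩ : ∃ R : Finset K[X], R = Rz K z T := ⟨_, rfl⟩
  have hw : ∀ r ∈ R, 0 ≤ (ph r)⁻¹ := fun r _ => inv_nonneg.2 (ph_nonneg r)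
  obtain ⟨m1, m2, m3, m4⟩ := sums R (fun r => (ph r)⁻¹) (fun r => r.natDegree) hw (C := C)
    (z := z) (τ := τ) (n := n) hC hz0 hτ1 (by
      intro l hl
      have h1 : 2 ^ l * τ ≤ 2 ^ n * τ :=
        Nat.mul_le_mul_right _ (Nat.pow_le_pow_right (by norm_num) hl)
      have h2 : z ≤ 2 ^ l * τ := hzτ.trans (Nat.le_mul_of_pos_left _ (by positivity))
      have h3 := hR z (2 ^ l * τ) hz h2
      rw [← Rz_filter z T (2 ^ l * τ) (by omega), ← hRd] at h3
      push_cast at h3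
      exact h3)
  obtain ⟨g, hg⟩ : ∃ g : K[X] → ℝ, g = fun r => gg n τ r.natDegree := ⟨_, rfl⟩
  obtain ⟨w, hwd⟩ : ∃ w : K[X] → ℝ, w = fun r => (ph r)⁻¹ := ⟨_, rfl⟩
  obtain ⟨G1, hG1⟩ : ∃ G1 : ℝ, G1 = ∑ s ∈ R, g s * w s := ⟨_, rfl⟩
  obtain ⟨G2, hG2⟩ : ∃ G2 : ℝ, G2 = ∑ s ∈ R, g s ^ 2 * w s := ⟨_, rfl⟩
  obtain ⟨Gt, hGt⟩ : ∃ Gt : ℝ, Gt = ∑ s ∈ R, (s.natDegree : ℝ) * (g s ^ 2 * w s) := ⟨_, rfl⟩
  have m1' : ((n : ℝ) + 1) * τ / (2 * C * z) ≤ G1 := by rw [hG1, hg, hwd]; exact m1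
  have m2' : G2 ≤ 2 * C * τ / z := by rw [hG2, hg, hwd]; exact m2
  have m3' : τ / (C * z) ≤ G2 := by rw [hG2, hg, hwd]; exact m3
  have m4' : Gt ≤ (n + 1) * C * τ ^ 2 / z := by rw [hGt, hg, hwd]; exact m4
  have hG2pos : 0 < G2 := lt_of_lt_of_le (by positivity) m3'
  have hg1 : g 1 = 1 := by
    rw [hg]
    exact gg_small hτ1 (by simp)
  have hw1 : w 1 = 1 := by
    rw [hwd]
    simp only
    rw [ph_one, inv_one]
  have hsupp : ∀ r, g r ≠ 0 → 2 * r.natDegree ≤ T := by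
    intro r hr
    rw [hg] at hr
    have := gg_supp hτ1 hr
    omega
  have hMk : 4 * (k : ℝ) * Gt ≤ T * G2 := by
    calc 4 * (k : ℝ) * Gt ≤ 4 * k * ((n + 1) * C * τ ^ 2 / z) :=
          mul_le_mul_of_nonneg_left m4' (by positivity)
      _ = (τ * W) * (τ / (C * z)) := by
          rw [hW]
          field_simp
      _ ≤ T * (τ / (C * z)) := mul_le_mul_of_nonneg_right hτW (by positivity)
      _ ≤ T * G2 := mul_le_mul_of_nonneg_left m3' hTR.le
  have hwR : ∀ r ∈ R, 0 ≤ w r := by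
    intro r hr
    rw [hwd]
    exact hw r hr
  refine ⟨yy g (fun r => r.natDegree) T, ?_, ?_, ?_, ?_⟩
  · intro r
    have h0 : ∀ j, 0 ≤ g (r j) := fun j => by rw [hg]; exact gg_nonneg _ _ _
    have h1 : ∀ j, g (r j) ≤ 1 := fun j => by rw [hg]; exact gg_le_one _ _ _
    unfold yy
    split_ifs
    · exact ⟨Finset.prod_nonneg fun j _ => h0 j,
        Finset.prod_le_one (fun j _ => h0 j) fun j _ => h1 j⟩
    · exact ⟨le_rfl, zero_le_one⟩
  · intro r hr
    unfold yy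
    rw [if_neg (not_le.2 hr)]
  · unfold yy
    simp [hg1]
  · rw [← hRd]
    have hup : dia (fun _ : Fin k => R) (yy g (fun r => r.natDegree) T) ≤ G2 * G2 ^ (k - 1) := by
      have h1 := upper (k := k) R w g (fun r => r.natDegree) T hwR
      rw [← hG2] at h1
      have h2 : G2 * G2 ^ (k - 1) = G2 ^ k := by
        rw [← pow_succ', Nat.sub_add_cancel hk1]
      rw [h2]
      refine le_trans (le_of_eq ?_) h1
      unfold dia
      refine Finset.sum_congr rfl fun r _ => ?_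
      rw [hwd, div_eq_mul_inv, Finset.prod_inv_distrib]
    have hlow : ∀ i : Fin k, G1 ^ 2 * (G2 ^ (k - 1) / 2) ≤
        dia (Function.update (fun _ : Fin k => R) i {1})
          (yr i (fun _ : Fin k => R) (yy g (fun r => r.natDegree) T)) := by
      intro i
      have h1 := lower (k := k) R w g (fun r => r.natDegree) T 1 hwR hg1 hw1 natDegree_one hT0
        hsupp (by rw [← hG2]; exact hG2pos) (by rw [← hG2, ← hGt]; exact hMk) i
      rw [← hG2, ← hG1] at h1
      refine h1.trans (le_of_eq ?_)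
      unfold dia yr
      refine Finset.sum_congr rfl fun r _ => ?_
      rw [hwd, div_eq_mul_inv, Finset.prod_inv_distrib]
      simp only [div_eq_mul_inv]
    have hsum : k * (G1 ^ 2 * (G2 ^ (k - 1) / 2)) ≤
        ∑ i : Fin k, dia (Function.update (fun _ : Fin k => R) i {1})
          (yr i (fun _ : Fin k => R) (yy g (fun r => r.natDegree) T)) := by
      have h1 := Finset.sum_le_sum (fun (i : Fin k) (_ : i ∈ Finset.univ) => hlow i)
      rw [Finset.sum_const, Finset.card_univ, Fintype.card_fin, nsmul_eq_mul] at h1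
      exact h1
    refine le_trans ?_ hsum
    have hd0 : 0 ≤ dia (fun _ : Fin k => R) (yy g (fun r => r.natDegree) T) := by
      unfold dia
      refine Finset.sum_nonneg fun r _ => div_nonneg (sq_nonneg _)
        (Finset.prod_nonneg fun j _ => ph_nonneg _)
    have hkey : |Λ| * (T / z) * G2 ≤ k * (G1 ^ 2 / 2) := by
      have s1 : |Λ| * (T / z) * G2 ≤ |Λ| * (T / z) * (2 * C * τ / z) :=
        mul_le_mul_of_nonneg_left m2' (by positivity)
      have s2 : k * ((((n : ℝ) + 1) * τ / (2 * C * z)) ^ 2 / 2) ≤ k * (G1 ^ 2 / 2) := by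
        have : (((n : ℝ) + 1) * τ / (2 * C * z)) ^ 2 ≤ G1 ^ 2 :=
          pow_le_pow_left₀ (by positivity) m1' 2
        apply mul_le_mul_of_nonneg_left _ (by positivity)
        linarith
      have s3 : |Λ| * (T / z) * (2 * C * τ / z) ≤
          k * ((((n : ℝ) + 1) * τ / (2 * C * z)) ^ 2 / 2) := by
        have e1 : |Λ| * (T / z) * (2 * C * τ / z) = (16 * C ^ 3 * |Λ| * T) * (τ / (8 * C ^ 2 * z ^ 2)) := by
          field_simp
          ring
        have e2 : k * ((((n : ℝ) + 1) * τ / (2 * C * z)) ^ 2 / 2) =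
            (k * (n + 1) ^ 2 * τ) * (τ / (8 * C ^ 2 * z ^ 2)) := by
          field_simp
          ring
        rw [e1, e2]
        apply mul_le_mul_of_nonneg_right _ (by positivity)
        calc 16 * C ^ 3 * |Λ| * T ≤ 16 * C ^ 3 * |Λ| * (2 * τ * W) :=
              mul_le_mul_of_nonneg_left hτge (by positivity)
          _ = (128 * C ^ 5 * |Λ|) * (k * (n + 1) * τ) := by rw [hW]; ring
          _ ≤ (n + 1) * (k * (n + 1) * τ) := by
              apply mul_le_mul_of_nonneg_right _ (by positivity)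
              linarith
          _ = k * (n + 1) ^ 2 * τ := by ring
      linarith
    calc Λ * (T / z) * dia (fun _ : Fin k => R) (yy g (fun r => r.natDegree) T)
        ≤ |Λ| * (T / z) * dia (fun _ : Fin k => R) (yy g (fun r => r.natDegree) T) := by
          apply mul_le_mul_of_nonneg_right _ hd0
          apply mul_le_mul_of_nonneg_right (le_abs_self Λ) (by positivity)
      _ ≤ |Λ| * (T / z) * (G2 * G2 ^ (k - 1)) := mul_le_mul_of_nonneg_left hup (by positivity)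
      _ = (|Λ| * (T / z) * G2) * G2 ^ (k - 1) := by ring
      _ ≤ (k * (G1 ^ 2 / 2)) * G2 ^ (k - 1) :=
          mul_le_mul_of_nonneg_right hkey (pow_nonneg hG2pos.le _)
      _ = k * (G1 ^ 2 * (G2 ^ (k - 1) / 2)) := by ring

end Pool.Agent.H524.MT
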