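import Pool.Agent.H524.MT.StmG

/-!
# Maynard's weights are rough weights, general case (helper997)
-/

set_option autoImplicit false
set_option linter.all false

namespace Pool.Agent.H524.MT

open Polynomial
open scoped Classical
open Pool.Agent.H985.Chow (mob)
open Pool.Agent.H985.KP (PA)
open Pool.Agent.H694.Typ (Mn PU mem_Mn card_Mn)

namespace RWMG

section alg

variable {K : Type} [Field K]

/-- the prime factors -/
noncomputable abbrev pf (r : K[X]) : Finset K[X] := UniqueFactorizationMonoid.primeFactors r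

theorem mem_pf {r : K[X]} (hr : r ≠ 0) {P : K[X]} : P ∈ pf r ↔ P.Monic ∧ Irreducible P ∧ P ∣ r := by
  unfold pf
  rw [UniqueFactorizationMonoid.mem_primeFactors, Polynomial.mem_normalizedFactors_iff hr]
  tauto

theorem PA_eq {r : K[X]} (hr : r ≠ 0) : PA r = (pf r : Set K[X]) := by
  ext P
  rw [Finset.mem_coe, mem_pf hr]
  rfl

theorem rd_eq {r : K[X]} (hr : r ≠ 0) : rd r = UniqueFactorizationMonoid.radical r := by
  unfold rd
  rw [PA_eq hr, finprod_mem_coe_finset]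
  rfl

theorem rd_prod {r : K[X]} (hr : r ≠ 0) : rd r = ∏ P ∈ pf r, P := by
  unfold rd
  rw [PA_eq hr, finprod_mem_coe_finset]

theorem rd_monic {r : K[X]} (hr : r ≠ 0) : (rd r).Monic := by
  rw [rd_prod hr]
  exact monic_prod_of_monic _ _ fun P hP => ((mem_pf hr).1 hP).1

theorem rd_sq {r : K[X]} (hr : r ≠ 0) : Squarefree (rd r) := by
  rw [rd_eq hr]
  exact UniqueFactorizationMonoid.squarefree_radical

theorem rd_dvd {r : K[X]} (hr : r ≠ 0) : rd r ∣ r := by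
  rw [rd_eq hr]
  exact UniqueFactorizationMonoid.radical_dvd_self

theorem pf_rd {r : K[X]} (hr : r ≠ 0) : pf (rd r) = pf r := by
  rw [rd_eq hr]
  exact UniqueFactorizationMonoid.primeFactors_radical

theorem rd_self {r : K[X]} (hr : r.Monic) (hs : Squarefree r) : rd r = r := by
  have h1 : Associated (rd r) r := by
    rw [rd_eq hr.ne_zero]
    exact UniqueFactorizationMonoid.radical_associated hs.isRadical hr.ne_zero
  exact eq_of_monic_of_associated (rd_monic hr.ne_zero) hr h1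

theorem prod_pf {r : K[X]} (hr : r.Monic) (hs : Squarefree r) : ∏ P ∈ pf r, P = r := by
  rw [← rd_prod hr.ne_zero, rd_self hr hs]

theorem rd_dvd_iff {d e f : K[X]} (hd : Squarefree d) (he : Squarefree e) (hd0 : d ≠ 0)
    (he0 : e ≠ 0) : rd (d * e) ∣ f ↔ d ∣ f ∧ e ∣ f := by
  have hde : d * e ≠ 0 := mul_ne_zero hd0 he0
  constructor
  · intro h
    rw [rd_eq hde] at h
    have h1 : d ∣ UniqueFactorizationMonoid.radical (d * e) :=
      (UniqueFactorizationMonoid.dvd_radical_iff hd.isRadical hde).2 (dvd_mul_right _ _)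
    have h2 : e ∣ UniqueFactorizationMonoid.radical (d * e) :=
      (UniqueFactorizationMonoid.dvd_radical_iff he.isRadical hde).2 (dvd_mul_left _ _)
    exact ⟨h1.trans h, h2.trans h⟩
  · rintro ⟨h1, h2⟩
    by_cases hf : f = 0
    · rw [hf]
      exact dvd_zero _
    · rw [rd_eq hde, UniqueFactorizationMonoid.radical_dvd_iff_primeFactors_subset hf]
      intro P hP
      have hP' := (mem_pf hde).1 hP
      have : P ∣ f := by
        rcases hP'.2.1.prime.dvd_or_dvd hP'.2.2 with h | h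
        · exact h.trans h1
        · exact h.trans h2
      exact (mem_pf hf).2 ⟨hP'.1, hP'.2.1, this⟩

theorem natDegree_prod_pf {s : Finset K[X]} (hs : ∀ P ∈ s, P.Monic) :
    (∏ P ∈ s, P).natDegree = ∑ P ∈ s, P.natDegree :=
  natDegree_prod_of_monic _ _ hs

/-- the product formula -/
theorem gcd_rd {d e : K[X]} (hd : d.Monic) (he : e.Monic) (hds : Squarefree d)
    (hes : Squarefree e) : ∃ g : K[X], g.Monic ∧ g ∣ d ∧ g ∣ e ∧ d * e = rd (d * e) * g := by
  have hde : d * e ≠ 0 := mul_ne_zero hd.ne_zero he.ne_zero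
  have hm : ∀ P ∈ pf d ∩ pf e, P.Monic := fun P hP =>
    ((mem_pf hd.ne_zero).1 (Finset.mem_inter.1 hP).1).1
  refine ⟨∏ P ∈ pf d ∩ pf e, P, monic_prod_of_monic _ _ hm, ?_, ?_, ?_⟩
  · conv_rhs => rw [← prod_pf hd hds]
    exact Finset.prod_dvd_prod_of_subset _ _ _ Finset.inter_subset_left
  · conv_rhs => rw [← prod_pf he hes]
    exact Finset.prod_dvd_prod_of_subset _ _ _ Finset.inter_subset_right
  · have h1 : pf (d * e) = pf d ∪ pf e :=
      UniqueFactorizationMonoid.primeFactors_mul_eq_union hd.ne_zero he.ne_zero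
    rw [rd_prod hde, h1, Finset.prod_union_inter, prod_pf hd hds, prod_pf he hes]

/-- the effect of a new prime -/
theorem rd_new {P m : K[X]} (hP : P.Monic) (hPi : Irreducible P) (hm : m ≠ 0) (hPm : ¬ P ∣ m)
    {i : ℕ} (hi : i ≠ 0) : rd (P ^ i * m) = P * rd m := by
  have h0 : P ^ i * m ≠ 0 := mul_ne_zero (pow_ne_zero _ hP.ne_zero) hm
  have h1 : IsRelPrime (P ^ i) m := by
    have : IsCoprime P m := (hPi.coprime_iff_not_dvd).2 hPm
    exact (this.pow_left).isRelPrime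
  rw [rd_eq h0, UniqueFactorizationMonoid.radical_mul h1, UniqueFactorizationMonoid.radical_pow _ hi,
    UniqueFactorizationMonoid.radical_of_prime hPi.prime, rd_eq hm, hP.normalize_eq_self]

end alg


section sums

variable {K : Type} [Field K] [Fintype K]

/-- the cardinality -/
noncomputable abbrev qq (K : Type) [Fintype K] : ℝ := (Fintype.card K : ℝ)

theorem q2 : (2 : ℝ) ≤ qq K := Pool.Agent.H694.Typ.q_ge

theorem q0 : (0 : ℝ) < qq K := by
  have := q2 (K := K)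
  linarith

theorem mem_Rz {z T : ℕ} {r : K[X]} : r ∈ Rz K z T ↔ r.Monic ∧ r.natDegree ≤ T ∧ Squarefree r ∧
    ∀ P ∈ PA r, z < P.natDegree := by
  unfold Rz
  rw [Finset.mem_filter, Finset.mem_biUnion]
  constructor
  · rintro ⟨⟨j, hj, h1⟩, h2, h3⟩
    rw [Finset.mem_range] at hj
    rw [mem_Mn] at h1
    exact ⟨h1.1, by omega, h2, h3⟩
  · rintro ⟨h1, h2, h3, h4⟩
    exact ⟨⟨r.natDegree, Finset.mem_range.2 (by omega), mem_Mn.2 ⟨h1, rfl⟩⟩, h3, h4⟩

theorem Rz_div {z T : ℕ} {r s : K[X]} (hr : r ∈ Rz K z T) (hs : s.Monic) (hsr : s ∣ r) :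
    s ∈ Rz K z T := by
  rw [mem_Rz] at hr ⊢
  refine ⟨hs, (natDegree_le_of_dvd hsr hr.1.ne_zero).trans hr.2.1, hr.2.2.1.squarefree_of_dvd hsr,
    fun P hP => hr.2.2.2 P ⟨hP.1, hP.2.1, hP.2.2.trans hsr⟩⟩

theorem one_mem_Rz (z T : ℕ) : (1 : K[X]) ∈ Rz K z T := by
  rw [mem_Rz]
  refine ⟨monic_one, by simp, squarefree_one, fun P hP => ?_⟩
  exact absurd (isUnit_of_dvd_one hP.2.2) hP.2.1.not_isUnit

theorem ph_eq {r : K[X]} (hr : r ≠ 0) : ph r = ∏ P ∈ pf r, (qq K ^ P.natDegree - 1) := by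
  unfold ph
  rw [PA_eq hr, finprod_mem_coe_finset]

theorem deg_pos {P : K[X]} (hP : Irreducible P) : 0 < P.natDegree := hP.natDegree_pos

theorem ph_pos {r : K[X]} (hr : r ≠ 0) : 0 < ph r := by
  rw [ph_eq hr]
  refine Finset.prod_pos fun P hP => ?_
  have h1 := deg_pos ((mem_pf hr).1 hP).2.1
  have h2 : (2 : ℝ) ≤ qq K ^ P.natDegree := by
    calc (2 : ℝ) ≤ qq K := q2
      _ = qq K ^ 1 := (pow_one _).symm
      _ ≤ qq K ^ P.natDegree := pow_le_pow_right₀ (by linarith [q2 (K := K)]) h1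
  linarith

theorem ph_mul {e s : K[X]} (h : Squarefree (e * s)) (he : e ≠ 0) (hs : s ≠ 0) :
    ph (e * s) = ph e * ph s := by
  have h1 : IsRelPrime e s := (squarefree_mul_iff.1 h).1
  rw [ph_eq (mul_ne_zero he hs), ph_eq he, ph_eq hs]
  unfold pf
  rw [UniqueFactorizationMonoid.primeFactors_mul_eq_disjUnion h1, Finset.prod_disjUnion]

/-- the norm -/
noncomputable def nm (r : K[X]) : ℝ := qq K ^ r.natDegree

theorem nm_pos (r : K[X]) : 0 < nm r := pow_pos q0 _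

theorem nm_mul {r s : K[X]} (hr : r.Monic) (hs : s.Monic) : nm (r * s) = nm r * nm s := by
  unfold nm
  rw [hr.natDegree_mul hs, pow_add]

theorem prod_one_sub {ι : Type} (s : Finset ι) (x : ι → ℝ) (h : ∀ i ∈ s, 0 ≤ x i ∧ x i ≤ 1) :
    1 - ∑ i ∈ s, x i ≤ ∏ i ∈ s, (1 - x i) ∧ ∏ i ∈ s, (1 - x i) ≤ 1 ∧ 0 ≤ ∏ i ∈ s, (1 - x i) := by
  induction s using Finset.induction_on with
  | empty => simp
  | insert a s ha ih =>
    obtain ⟨h1, h2, h3⟩ := ih (fun i hi => h i (Finset.mem_insert_of_mem hi))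
    obtain ⟨h4, h5⟩ := h a (Finset.mem_insert_self a s)
    rw [Finset.sum_insert ha, Finset.prod_insert ha]
    refine ⟨?_, ?_, ?_⟩
    · nlinarith
    · nlinarith
    · exact mul_nonneg (by linarith) h3

theorem nm_le_ph {z T : ℕ} (hT : 2 * (T : ℝ) ≤ qq K ^ z) {e : K[X]} (he : e ∈ Rz K z T) :
    nm e ≤ 2 * ph e := by
  rw [mem_Rz] at he
  obtain ⟨h1, h2, h3, h4⟩ := he
  have e0 := h1.ne_zero
  have hm : ∀ P ∈ pf e, P.Monic ∧ Irreducible P ∧ z < P.natDegree := by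
    intro P hP
    have h := (mem_pf e0).1 hP
    exact ⟨h.1, h.2.1, h4 P h⟩
  have e1 : nm e = ∏ P ∈ pf e, qq K ^ P.natDegree := by
    unfold nm
    rw [Finset.prod_pow_eq_pow_sum, ← natDegree_prod_pf fun P hP => (hm P hP).1, prod_pf h1 h3]
  have e2 : ph e = nm e * ∏ P ∈ pf e, (1 - 1 / qq K ^ P.natDegree) := by
    rw [ph_eq e0, e1, ← Finset.prod_mul_distrib]
    refine Finset.prod_congr rfl fun P _ => ?_
    have : qq K ^ P.natDegree ≠ 0 := (pow_pos q0 _).ne'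
    field_simp
  have hx : ∀ P ∈ pf e, 0 ≤ 1 / qq K ^ P.natDegree ∧ 1 / qq K ^ P.natDegree ≤ 1 := by
    intro P _
    have h5 : 1 ≤ qq K ^ P.natDegree := one_le_pow₀ (by linarith [q2 (K := K)])
    refine ⟨by positivity, ?_⟩
    rw [div_le_one (by linarith)]
    exact h5
  obtain ⟨e3, -, -⟩ := prod_one_sub (pf e) (fun P => 1 / qq K ^ P.natDegree) hx
  have e4 : ∑ P ∈ pf e, 1 / qq K ^ P.natDegree ≤ 1 / 2 := by
    have h5 : ∀ P ∈ pf e, 1 / qq K ^ P.natDegree ≤ 1 / qq K ^ z := by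
      intro P hP
      have h6 : qq K ^ z ≤ qq K ^ P.natDegree :=
        pow_le_pow_right₀ (by linarith [q2 (K := K)]) (hm P hP).2.2.le
      exact one_div_le_one_div_of_le (pow_pos q0 _) h6
    have h6 : ((pf e).card : ℝ) ≤ T := by
      have h7 : (pf e).card ≤ ∑ P ∈ pf e, P.natDegree := by
        calc (pf e).card = ∑ P ∈ pf e, 1 := by simp
          _ ≤ ∑ P ∈ pf e, P.natDegree := Finset.sum_le_sum fun P hP => deg_pos (hm P hP).2.1
      have h8 : ∑ P ∈ pf e, P.natDegree = e.natDegree := by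
        rw [← natDegree_prod_pf fun P hP => (hm P hP).1, prod_pf h1 h3]
      exact_mod_cast (h7.trans h8.le).trans h2
    calc ∑ P ∈ pf e, 1 / qq K ^ P.natDegree ≤ ∑ P ∈ pf e, 1 / qq K ^ z := Finset.sum_le_sum h5
      _ = (pf e).card * (1 / qq K ^ z) := by rw [Finset.sum_const, nsmul_eq_mul]
      _ ≤ T * (1 / qq K ^ z) := by
          have : 0 < qq K ^ z := pow_pos q0 _
          gcongr
      _ ≤ 1 / 2 := by
          rw [mul_one_div, div_le_iff₀ (pow_pos q0 _)]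
          linarith
  rw [e2]
  have h5 := nm_pos e
  nlinarith

theorem sum_all (T : ℕ) (f : ℕ → ℝ) :
    ∑ r ∈ (Finset.range (T + 1)).biUnion (fun j => Mn K j), f r.natDegree =
      ∑ j ∈ Finset.range (T + 1), qq K ^ j * f j := by
  rw [Finset.sum_biUnion]
  · refine Finset.sum_congr rfl fun j _ => ?_
    rw [Finset.sum_congr rfl fun r hr => by rw [(mem_Mn.1 hr).2], Finset.sum_const, card_Mn,
      nsmul_eq_mul]
    push_cast
    rfl
  · intro i _ j _ hij
    rw [Function.onFun, Finset.disjoint_left]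
    intro r hr hr'
    exact hij ((mem_Mn.1 hr).2.symm.trans (mem_Mn.1 hr').2)

theorem sum_nm (z T : ℕ) : ∑ r ∈ Rz K z T, 1 / nm r ≤ T + 1 := by
  calc ∑ r ∈ Rz K z T, 1 / nm r
      ≤ ∑ r ∈ (Finset.range (T + 1)).biUnion (fun j => Mn K j), 1 / nm r :=
        Finset.sum_le_sum_of_subset_of_nonneg (Finset.filter_subset _ _)
          fun r _ _ => by have := nm_pos r; positivity
    _ = ∑ j ∈ Finset.range (T + 1), qq K ^ j * (1 / qq K ^ j) := sum_all T fun j => 1 / qq K ^ j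
    _ = ∑ j ∈ Finset.range (T + 1), (1 : ℝ) := Finset.sum_congr rfl fun j _ => by
        rw [mul_one_div, div_self (pow_pos q0 _).ne']
    _ = T + 1 := by simp

/-- sums over multiples -/
theorem dvd_sum {z T : ℕ} {g : K[X]} (hg : g.Monic) (f h : K[X] → ℝ) (c : ℝ) (hc : 0 ≤ c)
    (hh : ∀ s ∈ Rz K z T, 0 ≤ h s) (hfh : ∀ s, g * s ∈ Rz K z T → s ∈ Rz K z T →
      f (g * s) ≤ c * h s) :
    ∑ r ∈ (Rz K z T).filter (fun r => g ∣ r), f r ≤ c * ∑ s ∈ Rz K z T, h s := by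
  have e1 : ∀ r ∈ (Rz K z T).filter (fun r => g ∣ r), g * (r / g) = r ∧ r / g ∈ Rz K z T := by
    intro r hr
    rw [Finset.mem_filter] at hr
    have h1 : g * (r / g) = r := EuclideanDomain.mul_div_cancel' hg.ne_zero hr.2
    refine ⟨h1, Rz_div hr.1 ?_ ⟨g, by rw [mul_comm]; exact h1.symm⟩⟩
    have h2 : (g * (r / g)).Monic := by
      rw [h1]
      exact (mem_Rz.1 hr.1).1
    exact hg.of_mul_monic_left h2
  calc ∑ r ∈ (Rz K z T).filter (fun r => g ∣ r), f r
      ≤ ∑ r ∈ (Rz K z T).filter (fun r => g ∣ r), c * h (r / g) := by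
        refine Finset.sum_le_sum fun r hr => ?_
        obtain ⟨h1, h2⟩ := e1 r hr
        have h3 := hfh (r / g) (by rw [h1]; exact (Finset.mem_filter.1 hr).1) h2
        rwa [h1] at h3
    _ = ∑ s ∈ ((Rz K z T).filter (fun r => g ∣ r)).image (fun r => r / g), c * h s := by
        rw [Finset.sum_image]
        intro r hr r' hr' hrr
        rw [← (e1 r hr).1, ← (e1 r' hr').1]
        simp only at hrr
        rw [hrr]
    _ ≤ ∑ s ∈ Rz K z T, c * h s := by
        refine Finset.sum_le_sum_of_subset_of_nonneg ?_ fun s hs _ => mul_nonneg hc (hh s hs)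
        intro s hs
        obtain ⟨r, hr, rfl⟩ := Finset.mem_image.1 hs
        exact (e1 r hr).2
    _ = c * ∑ s ∈ Rz K z T, h s := by rw [Finset.mul_sum]

theorem sum_ph {z T : ℕ} (hT : 2 * (T : ℝ) ≤ qq K ^ z) :
    ∑ r ∈ Rz K z T, 1 / ph r ≤ 2 * (T + 1) := by
  calc ∑ r ∈ Rz K z T, 1 / ph r ≤ ∑ r ∈ Rz K z T, 2 * (1 / nm r) := by
        refine Finset.sum_le_sum fun r hr => ?_
        have h1 := nm_le_ph hT hr
        have h2 := ph_pos (mem_Rz.1 hr).1.ne_zero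
        have h3 := nm_pos r
        rw [mul_one_div, div_le_div_iff₀ h2 h3]
        linarith
    _ = 2 * ∑ r ∈ Rz K z T, 1 / nm r := by rw [Finset.mul_sum]
    _ ≤ 2 * (T + 1) := by
        have := sum_nm (K := K) z T
        linarith

theorem sum_ph_dvd {z T : ℕ} (hT : 2 * (T : ℝ) ≤ qq K ^ z) {e : K[X]} (he : e ∈ Rz K z T) :
    nm e * ∑ r ∈ (Rz K z T).filter (fun r => e ∣ r), 1 / ph r ≤ 4 * (T + 1) := by
  have he' := mem_Rz.1 he
  have hp := ph_pos he'.1.ne_zero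
  have h1 := dvd_sum (z := z) (T := T) he'.1 (fun r => 1 / ph r) (fun r => 1 / ph r) (1 / ph e)
    (by positivity) (fun s hs => by
      have := ph_pos (mem_Rz.1 hs).1.ne_zero
      positivity) (fun s hes hs => by
      have h2 := ph_mul (mem_Rz.1 hes).2.2.1 he'.1.ne_zero (mem_Rz.1 hs).1.ne_zero
      rw [h2, one_div_mul_one_div])
  have h2 := nm_le_ph hT he
  have h3 := sum_ph (K := K) hT
  have h4 := nm_pos e
  have h5 : 0 ≤ ∑ r ∈ Rz K z T, 1 / ph r := Finset.sum_nonneg fun s hs => by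
    have := ph_pos (mem_Rz.1 hs).1.ne_zero
    positivity
  calc nm e * ∑ r ∈ (Rz K z T).filter (fun r => e ∣ r), 1 / ph r
      ≤ nm e * (1 / ph e * ∑ r ∈ Rz K z T, 1 / ph r) := by gcongr
    _ = (nm e / ph e) * ∑ r ∈ Rz K z T, 1 / ph r := by ring
    _ ≤ 2 * ∑ r ∈ Rz K z T, 1 / ph r := by
        gcongr
        rw [div_le_iff₀ hp]
        exact h2
    _ ≤ 4 * (T + 1) := by linarith

/-- the reciprocal of the norm of the least common multiple -/
noncomputable def Fr (m : K[X]) : ℝ := 1 / qq K ^ (rd m).natDegree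

theorem Fr_nonneg (m : K[X]) : 0 ≤ Fr m := by
  unfold Fr
  have := q0 (K := K)
  positivity

theorem sum_nm_dvd {z T : ℕ} {g : K[X]} (hg : g.Monic) :
    ∑ r ∈ (Rz K z T).filter (fun r => g ∣ r), 1 / nm r ≤ 1 / nm g * (T + 1) := by
  have h0 := nm_pos g
  have h1 := dvd_sum (z := z) (T := T) hg (fun r => 1 / nm r) (fun r => 1 / nm r) (1 / nm g)
    (by positivity) (fun s hs => by
      have := nm_pos s
      positivity) (fun s hes hs => by
      rw [nm_mul hg (mem_Rz.1 hs).1, one_div_mul_one_div])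
  have h2 := sum_nm (K := K) z T
  refine h1.trans ?_
  gcongr

theorem Fr_le {z T : ℕ} {d e : K[X]} (hd : d ∈ Rz K z T) (he : e ∈ Rz K z T) :
    Fr (d * e) ≤ ∑ g ∈ Rz K z T, nm g * ((if g ∣ d then 1 / nm d else 0) *
      (if g ∣ e then 1 / nm e else 0)) := by
  have hd' := mem_Rz.1 hd
  have he' := mem_Rz.1 he
  obtain ⟨g, hg, hgd, hge, h1⟩ := gcd_rd hd'.1 he'.1 hd'.2.2.1 he'.2.2.1
  have hgR := Rz_div hd hg hgd
  have hde := mul_ne_zero hd'.1.ne_zero he'.1.ne_zero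
  have h2 : nm d * nm e = nm (rd (d * e)) * nm g := by
    rw [← nm_mul hd'.1 he'.1, h1, nm_mul (rd_monic hde) hg, ← h1]
  have h3 : Fr (d * e) = nm g * ((if g ∣ d then 1 / nm d else 0) *
      (if g ∣ e then 1 / nm e else 0)) := by
    rw [if_pos hgd, if_pos hge]
    have a1 := nm_pos d
    have a2 := nm_pos e
    have a3 := nm_pos g
    have a4 := nm_pos (rd (d * e))
    show 1 / nm (rd (d * e)) = _
    rw [one_div_mul_one_div, h2]
    field_simp
  rw [h3]
  refine Finset.single_le_sum (f := fun g => nm g * ((if g ∣ d then 1 / nm d else 0) *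
      (if g ∣ e then 1 / nm e else 0))) (fun g _ => ?_) hgR
  have a1 := nm_pos d
  have a2 := nm_pos e
  have a3 := nm_pos g
  have b1 : 0 ≤ (if g ∣ d then 1 / nm d else 0) := by split_ifs <;> positivity
  have b2 : 0 ≤ (if g ∣ e then 1 / nm e else 0) := by split_ifs <;> positivity
  positivity

/-- the sum over all pairs -/
theorem pair_sum (z T : ℕ) :
    ∑ d ∈ Rz K z T, ∑ e ∈ Rz K z T, Fr (d * e) ≤ ((T : ℝ) + 1) ^ 3 := by
  calc ∑ d ∈ Rz K z T, ∑ e ∈ Rz K z T, Fr (d * e)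
      ≤ ∑ d ∈ Rz K z T, ∑ e ∈ Rz K z T, ∑ g ∈ Rz K z T, nm g *
          ((if g ∣ d then 1 / nm d else 0) * (if g ∣ e then 1 / nm e else 0)) :=
        Finset.sum_le_sum fun d hd => Finset.sum_le_sum fun e he => Fr_le hd he
    _ = ∑ g ∈ Rz K z T, nm g * ((∑ d ∈ Rz K z T, if g ∣ d then 1 / nm d else 0) *
          (∑ e ∈ Rz K z T, if g ∣ e then 1 / nm e else 0)) := by
        have e1 : ∀ d ∈ Rz K z T, ∑ e ∈ Rz K z T, ∑ g ∈ Rz K z T, nm g *
            ((if g ∣ d then 1 / nm d else 0) * (if g ∣ e then 1 / nm e else 0)) =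
            ∑ g ∈ Rz K z T, ∑ e ∈ Rz K z T, nm g *
            ((if g ∣ d then 1 / nm d else 0) * (if g ∣ e then 1 / nm e else 0)) :=
          fun d _ => Finset.sum_comm
        rw [Finset.sum_congr rfl e1, Finset.sum_comm]
        refine Finset.sum_congr rfl fun g _ => ?_
        rw [Finset.sum_mul_sum, Finset.mul_sum]
        refine Finset.sum_congr rfl fun d _ => ?_
        rw [Finset.mul_sum]
    _ ≤ ∑ g ∈ Rz K z T, nm g * ((1 / nm g * (T + 1)) * (1 / nm g * (T + 1))) := by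
        refine Finset.sum_le_sum fun g hg => ?_
        have h1 := sum_nm_dvd (z := z) (T := T) (mem_Rz.1 hg).1
        rw [Finset.sum_filter] at h1
        have h2 := nm_pos g
        have h3 : 0 ≤ ∑ d ∈ Rz K z T, (if g ∣ d then 1 / nm d else 0) :=
          Finset.sum_nonneg fun d _ => by
            have := nm_pos d
            split_ifs <;> positivity
        gcongr
    _ = (T + 1) ^ 2 * ∑ g ∈ Rz K z T, 1 / nm g := by
        rw [Finset.mul_sum]
        refine Finset.sum_congr rfl fun g _ => ?_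
        have h2 := nm_pos g
        field_simp
    _ ≤ (T + 1) ^ 2 * (T + 1) := by
        have := sum_nm (K := K) z T
        gcongr
    _ = ((T : ℝ) + 1) ^ 3 := by ring

theorem Fr_new {P m : K[X]} (hP : P.Monic) (hPi : Irreducible P) (hm : m ≠ 0) (hPm : ¬ P ∣ m)
    {i : ℕ} (hi : i ≠ 0) : Fr (P ^ i * m) = 1 / nm P * Fr m := by
  unfold Fr nm
  rw [rd_new hP hPi hm hPm hi, hP.natDegree_mul (rd_monic hm), pow_add, one_div_mul_one_div]

theorem not_dvd_of_sq {P s : K[X]} (hPi : Irreducible P) (h : Squarefree (P * s)) : ¬ P ∣ s := by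
  intro h1
  obtain ⟨u, rfl⟩ := h1
  exact hPi.not_isUnit (h P ⟨u, by ring⟩)

/-- the sum over the pairs with a given prime -/
theorem pair_sum_P {z T : ℕ} {P : K[X]} (hP : P.Monic) (hPi : Irreducible P) :
    ∑ d ∈ Rz K z T, ∑ e ∈ Rz K z T, (if P ∣ d * e then Fr (d * e) else 0) ≤
      3 / nm P * ((T : ℝ) + 1) ^ 3 := by
  have hn := nm_pos P
  have hps := pair_sum (K := K) z T
  have key : ∀ d e : K[X], (if P ∣ d * e then Fr (d * e) else 0) ≤
      (if P ∣ d then (if P ∣ e then 0 else Fr (d * e)) else 0) +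
      (if P ∣ e then (if P ∣ d then 0 else Fr (d * e)) else 0) +
      (if P ∣ d then (if P ∣ e then Fr (d * e) else 0) else 0) := by
    intro d e
    have h0 := Fr_nonneg (d * e)
    by_cases h1 : P ∣ d
    · by_cases h2 : P ∣ e
      · rw [if_pos (h1.mul_right e), if_pos h1, if_pos h2, if_pos h2, if_pos h1, if_pos h1,
          if_pos h2]
        linarith
      · rw [if_pos (h1.mul_right e), if_pos h1, if_neg h2, if_neg h2, if_pos h1, if_neg h2]
        linarith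
    · by_cases h2 : P ∣ e
      · rw [if_pos (h2.mul_left d), if_neg h1, if_pos h2, if_neg h1, if_neg h1]
        linarith
      · rw [if_neg, if_neg h1, if_neg h2, if_neg h1]
        · linarith
        · intro h
          rcases hPi.prime.dvd_or_dvd h with h | h
          · exact h1 h
          · exact h2 h
  -- the three sums
  have s1 : ∀ e ∈ Rz K z T, ∑ d ∈ Rz K z T, (if P ∣ d then (if P ∣ e then 0 else Fr (d * e)) else 0) ≤
      1 / nm P * ∑ d ∈ Rz K z T, Fr (d * e) := by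
    intro e he
    have he0 := (mem_Rz.1 he).1.ne_zero
    rw [← Finset.sum_filter]
    refine dvd_sum hP (fun d => if P ∣ e then 0 else Fr (d * e)) (fun d => Fr (d * e)) (1 / nm P)
      (by positivity) (fun s _ => Fr_nonneg _) (fun s hs1 hs2 => ?_)
    have h0 := Fr_nonneg (s * e)
    split_ifs with h1
    · positivity
    · have h2 := not_dvd_of_sq hPi (mem_Rz.1 hs1).2.2.1
      have h3 : ¬ P ∣ s * e := fun h => by
        rcases hPi.prime.dvd_or_dvd h with h | h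
        · exact h2 h
        · exact h1 h
      have h4 := Fr_new hP hPi (mul_ne_zero (mem_Rz.1 hs2).1.ne_zero he0) h3 one_ne_zero
      rw [pow_one, ← mul_assoc] at h4
      rw [h4]
  have s3 : ∑ d ∈ Rz K z T, ∑ e ∈ Rz K z T, (if P ∣ d then (if P ∣ e then Fr (d * e) else 0) else 0) ≤
      1 / nm P * ∑ d ∈ Rz K z T, ∑ e ∈ Rz K z T, Fr (d * e) := by
    have e1 : ∑ d ∈ Rz K z T, ∑ e ∈ Rz K z T, (if P ∣ d then (if P ∣ e then Fr (d * e) else 0) else 0) =
        ∑ d ∈ (Rz K z T).filter (fun d => P ∣ d), ∑ e ∈ (Rz K z T).filter (fun e => P ∣ e),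
          Fr (d * e) := by
      rw [Finset.sum_filter]
      refine Finset.sum_congr rfl fun d _ => ?_
      split_ifs with h
      · rw [Finset.sum_filter]
      · simp
    rw [e1]
    refine dvd_sum hP (fun d => ∑ e ∈ (Rz K z T).filter (fun e => P ∣ e), Fr (d * e))
      (fun d => ∑ e ∈ Rz K z T, Fr (d * e)) (1 / nm P) (by positivity)
      (fun s _ => Finset.sum_nonneg fun e _ => Fr_nonneg _) (fun s hs1 hs2 => ?_)
    refine dvd_sum hP (fun e => Fr (P * s * e)) (fun e => Fr (s * e)) (1 / nm P) (by positivity)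
      (fun s _ => Fr_nonneg _) (fun u hu1 hu2 => ?_)
    have h2 := not_dvd_of_sq hPi (mem_Rz.1 hs1).2.2.1
    have h3 := not_dvd_of_sq hPi (mem_Rz.1 hu1).2.2.1
    have h4 : ¬ P ∣ s * u := fun h => by
      rcases hPi.prime.dvd_or_dvd h with h | h
      · exact h2 h
      · exact h3 h
    have h5 := Fr_new hP hPi (mul_ne_zero (mem_Rz.1 hs2).1.ne_zero (mem_Rz.1 hu2).1.ne_zero) h4
      two_ne_zero
    have h6 : P * s * (P * u) = P ^ 2 * (s * u) := by ring
    rw [h6, h5]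
  have t1 : ∑ d ∈ Rz K z T, ∑ e ∈ Rz K z T, (if P ∣ d then (if P ∣ e then 0 else Fr (d * e)) else 0) ≤
      1 / nm P * ∑ d ∈ Rz K z T, ∑ e ∈ Rz K z T, Fr (d * e) := by
    rw [Finset.sum_comm]
    refine (Finset.sum_le_sum s1).trans (le_of_eq ?_)
    rw [← Finset.mul_sum, Finset.sum_comm]
  have t2 : ∑ d ∈ Rz K z T, ∑ e ∈ Rz K z T, (if P ∣ e then (if P ∣ d then 0 else Fr (d * e)) else 0) ≤
      1 / nm P * ∑ d ∈ Rz K z T, ∑ e ∈ Rz K z T, Fr (d * e) := by
    have h1 : ∀ d ∈ Rz K z T, ∑ e ∈ Rz K z T, (if P ∣ e then (if P ∣ d then 0 else Fr (d * e)) else 0) ≤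
        1 / nm P * ∑ e ∈ Rz K z T, Fr (d * e) := by
      intro d hd
      have h2 := s1 d hd
      have h3 : ∀ x : K[X], Fr (x * d) = Fr (d * x) := fun x => by rw [mul_comm]
      simp only [h3] at h2
      exact h2
    refine (Finset.sum_le_sum h1).trans (le_of_eq ?_)
    rw [← Finset.mul_sum]
  calc ∑ d ∈ Rz K z T, ∑ e ∈ Rz K z T, (if P ∣ d * e then Fr (d * e) else 0)
      ≤ ∑ d ∈ Rz K z T, ∑ e ∈ Rz K z T,
        ((if P ∣ d then (if P ∣ e then 0 else Fr (d * e)) else 0) +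
        (if P ∣ e then (if P ∣ d then 0 else Fr (d * e)) else 0) +
        (if P ∣ d then (if P ∣ e then Fr (d * e) else 0) else 0)) :=
        Finset.sum_le_sum fun d _ => Finset.sum_le_sum fun e _ => key d e
    _ = ∑ d ∈ Rz K z T, ∑ e ∈ Rz K z T, (if P ∣ d then (if P ∣ e then 0 else Fr (d * e)) else 0) +
        ∑ d ∈ Rz K z T, ∑ e ∈ Rz K z T, (if P ∣ e then (if P ∣ d then 0 else Fr (d * e)) else 0) +
        ∑ d ∈ Rz K z T, ∑ e ∈ Rz K z T, (if P ∣ d then (if P ∣ e then Fr (d * e) else 0) else 0) := by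
        simp only [Finset.sum_add_distrib]
    _ ≤ 3 * (1 / nm P * ∑ d ∈ Rz K z T, ∑ e ∈ Rz K z T, Fr (d * e)) := by linarith
    _ ≤ 3 * (1 / nm P * ((T : ℝ) + 1) ^ 3) := by gcongr
    _ = 3 / nm P * ((T : ℝ) + 1) ^ 3 := by ring

/-- the primes of degree between `z` and `T` -/
noncomputable def PP (K : Type) [Field K] [Fintype K] (z T : ℕ) : Finset K[X] :=
  ((Finset.range (T + 1)).biUnion (fun j => Mn K j)).filter (fun P => Irreducible P ∧ z < P.natDegree)

theorem mem_PP {z T : ℕ} {P : K[X]} : P ∈ PP K z T ↔ P.Monic ∧ P.natDegree ≤ T ∧ Irreducible P ∧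
    z < P.natDegree := by
  unfold PP
  rw [Finset.mem_filter, Finset.mem_biUnion]
  constructor
  · rintro ⟨⟨j, hj, h1⟩, h2, h3⟩
    rw [Finset.mem_range] at hj
    rw [mem_Mn] at h1
    exact ⟨h1.1, by omega, h2, h3⟩
  · rintro ⟨h1, h2, h3, h4⟩
    exact ⟨⟨P.natDegree, Finset.mem_range.2 (by omega), mem_Mn.2 ⟨h1, rfl⟩⟩, h3, h4⟩

theorem sum_PP (z T : ℕ) : ∑ P ∈ PP K z T, (1 / nm P) ^ 2 ≤ (T + 1) / qq K ^ z := by
  have hq := q0 (K := K)
  calc ∑ P ∈ PP K z T, (1 / nm P) ^ 2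
      ≤ ∑ r ∈ (Finset.range (T + 1)).biUnion (fun j => Mn K j),
          (fun n => if z < n then (1 / qq K ^ n) ^ 2 else 0) r.natDegree := by
        unfold PP
        rw [Finset.sum_filter]
        refine Finset.sum_le_sum fun P _ => ?_
        show (if Irreducible P ∧ z < P.natDegree then (1 / nm P) ^ 2 else 0) ≤
          if z < P.natDegree then (1 / qq K ^ P.natDegree) ^ 2 else 0
        by_cases h : Irreducible P ∧ z < P.natDegree
        · rw [if_pos h, if_pos h.2]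
          rfl
        · rw [if_neg h]
          split_ifs <;> positivity
    _ = ∑ j ∈ Finset.range (T + 1), qq K ^ j * (if z < j then (1 / qq K ^ j) ^ 2 else 0) :=
        sum_all T fun n => if z < n then (1 / qq K ^ n) ^ 2 else 0
    _ ≤ ∑ j ∈ Finset.range (T + 1), 1 / qq K ^ z := by
        refine Finset.sum_le_sum fun j _ => ?_
        split_ifs with h
        · have h1 : qq K ^ z ≤ qq K ^ j := pow_le_pow_right₀ (by linarith [q2 (K := K)]) h.le
          have h2 : qq K ^ j * (1 / qq K ^ j) ^ 2 = 1 / qq K ^ j := by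
            have : 0 < qq K ^ j := by positivity
            field_simp
          rw [h2]
          exact one_div_le_one_div_of_le (by positivity) h1
        · rw [mul_zero]
          positivity
    _ = (T + 1) / qq K ^ z := by
        rw [Finset.sum_const, Finset.card_range, nsmul_eq_mul]
        push_cast
        ring

end sums


section lamb

variable {K : Type} [Field K] [Fintype K] {k : ℕ}

theorem mob_le (F : K[X]) : |(mob F : ℝ)| ≤ 1 := by
  unfold mob
  split_ifs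
  · push_cast
    rw [abs_pow, abs_neg, abs_one, one_pow]
  · simp

theorem lam_le {z T : ℕ} (hT : 2 * (T : ℝ) ≤ qq K ^ z) {R : Fin k → Finset K[X]}
    (hR : ∀ j, R j ⊆ Rz K z T) {y : (Fin k → K[X]) → ℝ}
    (hy : ∀ r ∈ Fintype.piFinset R, |y r| ≤ 2 * (T + 1)) {e : Fin k → K[X]}
    (he : e ∈ Fintype.piFinset R) : |lam R y e| ≤ (4 * ((T : ℝ) + 1)) ^ (k + 1) := by
  have hej : ∀ j, e j ∈ Rz K z T := fun j => hR j (Fintype.mem_piFinset.1 he j)
  have hph : ∀ r ∈ Rz K z T, 0 < ph r := fun r hr => ph_pos (mem_Rz.1 hr).1.ne_zero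
  unfold lam
  rw [abs_mul, Finset.abs_prod]
  have a1 : ∏ j, |((mob (e j) : ℝ) * (Fintype.card K : ℝ) ^ (e j).natDegree)| ≤ ∏ j, nm (e j) := by
    refine Finset.prod_le_prod (fun j _ => abs_nonneg _) fun j _ => ?_
    rw [abs_mul, abs_of_pos (show 0 < (Fintype.card K : ℝ) ^ (e j).natDegree from nm_pos (e j))]
    calc |(mob (e j) : ℝ)| * (Fintype.card K : ℝ) ^ (e j).natDegree
        ≤ 1 * (Fintype.card K : ℝ) ^ (e j).natDegree := by
          gcongr
          exact mob_le _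
      _ = nm (e j) := one_mul _
  have hfil : (Fintype.piFinset R).filter (fun r => ∀ j, e j ∣ r j) =
      Fintype.piFinset (fun j => (R j).filter (fun r => e j ∣ r)) := by
    ext r
    simp only [Finset.mem_filter, Fintype.mem_piFinset]
    constructor
    · rintro ⟨h1, h2⟩ j
      exact ⟨h1 j, h2 j⟩
    · intro h
      exact ⟨fun j => (h j).1, fun j => (h j).2⟩
  have a2 : |∑ r ∈ (Fintype.piFinset R).filter (fun r => ∀ j, e j ∣ r j), y r / ∏ j, ph (r j)| ≤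
      2 * (T + 1) * ∏ j, ∑ a ∈ (R j).filter (fun r => e j ∣ r), 1 / ph a := by
    rw [Finset.prod_univ_sum, Finset.mul_sum, ← hfil]
    refine (Finset.abs_sum_le_sum_abs _ _).trans (Finset.sum_le_sum fun r hr => ?_)
    have hr1 := (Finset.mem_filter.1 hr).1
    have h1 := hy r hr1
    have h2 : 0 < ∏ j, ph (r j) := Finset.prod_pos fun j _ =>
      hph _ (hR j (Fintype.mem_piFinset.1 hr1 j))
    rw [abs_div, abs_of_pos h2]
    have h3 : ∏ j, 1 / ph (r j) = 1 / ∏ j, ph (r j) := by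
      rw [Finset.prod_div_distrib, Finset.prod_const_one]
    rw [h3, mul_one_div]
    gcongr
  have a3 : 0 ≤ ∏ j, nm (e j) := Finset.prod_nonneg fun j _ => (nm_pos _).le
  calc (∏ j, |((mob (e j) : ℝ) * (Fintype.card K : ℝ) ^ (e j).natDegree)|) *
        |∑ r ∈ (Fintype.piFinset R).filter (fun r => ∀ j, e j ∣ r j), y r / ∏ j, ph (r j)|
      ≤ (∏ j, nm (e j)) *
        (2 * (T + 1) * ∏ j, ∑ a ∈ (R j).filter (fun r => e j ∣ r), 1 / ph a) := by
        gcongr
    _ = 2 * (T + 1) * ∏ j, (nm (e j) * ∑ a ∈ (R j).filter (fun r => e j ∣ r), 1 / ph a) := by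
        rw [Finset.prod_mul_distrib]
        ring
    _ ≤ 2 * (T + 1) * ∏ j : Fin k, (4 * ((T : ℝ) + 1)) := by
        refine mul_le_mul_of_nonneg_left ?_ (by positivity)
        refine Finset.prod_le_prod (fun j _ => ?_) fun j _ => ?_
        · refine mul_nonneg (nm_pos _).le (Finset.sum_nonneg fun a ha => ?_)
          have := hph a (hR j (Finset.mem_filter.1 ha).1)
          positivity
        · refine le_trans ?_ (sum_ph_dvd hT (hej j))
          refine mul_le_mul_of_nonneg_left ?_ (nm_pos _).le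
          refine Finset.sum_le_sum_of_subset_of_nonneg
            (Finset.filter_subset_filter _ (hR j)) fun a ha _ => ?_
          have := hph a (Finset.mem_filter.1 ha).1
          positivity
    _ = 2 * (T + 1) * (4 * ((T : ℝ) + 1)) ^ k := by
        rw [Finset.prod_const, Finset.card_univ, Fintype.card_fin]
    _ ≤ (4 * ((T : ℝ) + 1)) ^ (k + 1) := by
        rw [pow_succ, mul_comm]
        have : 2 * ((T : ℝ) + 1) ≤ 4 * ((T : ℝ) + 1) := by
          have : (0 : ℝ) ≤ T := Nat.cast_nonneg _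
          linarith
        gcongr

theorem lam_zero {T : ℕ} {R : Fin k → Finset K[X]} {y : (Fin k → K[X]) → ℝ}
    (hm : ∀ j, ∀ r ∈ R j, r.Monic)
    (hy : ∀ r ∈ Fintype.piFinset R, T < ∑ j, (r j).natDegree → y r = 0) {e : Fin k → K[X]}
    (h : T < ∑ j, (e j).natDegree) : lam R y e = 0 := by
  unfold lam
  rw [Finset.sum_eq_zero, mul_zero]
  intro r hr
  obtain ⟨hr1, hr2⟩ := Finset.mem_filter.1 hr
  rw [hy r hr1 (h.trans_le (Finset.sum_le_sum fun j _ => natDegree_le_of_dvd (hr2 j)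
    (hm j _ (Fintype.mem_piFinset.1 hr1 j)).ne_zero)), zero_div]

theorem sq_sub_sq' [CharP K 2] (a b : K[X]) : a ^ 2 - b ^ 2 = (a - b) ^ 2 := by
  have h2 : (2 : K[X]) = 0 := CharTwo.two_eq_zero
  linear_combination (a * b - b ^ 2) * h2

/-- square roots modulo squarefree polynomials -/
theorem exists_root [CharP K 2] {u : K[X]} (hu : u.Monic) (hs : Squarefree u) (c : K[X]) :
    ∃ b, u ∣ b ^ 2 + c := by
  have : Module.Finite K (AdjoinRoot u) := (AdjoinRoot.powerBasis' hu).finite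
  have hfin : Finite (AdjoinRoot u) := Module.finite_of_finite K
  have hinj : Function.Injective (fun x : AdjoinRoot u => x ^ 2) := by
    intro x y hxy
    obtain ⟨a, rfl⟩ := AdjoinRoot.mk_surjective x
    obtain ⟨b, rfl⟩ := AdjoinRoot.mk_surjective y
    simp only at hxy
    rw [← map_pow, ← map_pow, AdjoinRoot.mk_eq_mk] at hxy
    rw [AdjoinRoot.mk_eq_mk]
    rw [sq_sub_sq' a b] at hxy
    exact hs.isRadical 2 _ hxy
  obtain ⟨x, hx⟩ := (Finite.injective_iff_surjective.1 hinj) (AdjoinRoot.mk u c)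
  obtain ⟨b, rfl⟩ := AdjoinRoot.mk_surjective x
  simp only at hx
  rw [← map_pow, AdjoinRoot.mk_eq_mk, CharTwo.sub_eq_add] at hx
  exact ⟨b, hx⟩

theorem exists_root' [CharP K 2] {u : K[X]} (hu : u.Monic) (hs : Squarefree u) {α : K[X]}
    (hα : IsCoprime α u) (c : K[X]) : ∃ b, u ∣ α * b ^ 2 + c := by
  obtain ⟨p, w, hp⟩ := hα
  obtain ⟨b, hb⟩ := exists_root hu hs (p * c)
  refine ⟨b, ?_⟩
  have h2 : α * b ^ 2 + c = α * (b ^ 2 + p * c) + u * (w * c) := by
    linear_combination (-c) * hp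
  rw [h2]
  exact dvd_add (hb.mul_left _) (dvd_mul_right _ _)

theorem exists_roots [CharP K 2] {u α c : Fin k → K[X]} (hu : ∀ j, (u j).Monic)
    (hs : ∀ j, Squarefree (u j)) (hα : ∀ j, IsCoprime (α j) (u j))
    (hc : ∀ i j, i ≠ j → IsCoprime (u i) (u j)) :
    ∃ b, ∀ j, u j ∣ α j * b ^ 2 + c j := by
  choose b hb using fun j => exists_root' (hu j) (hs j) (hα j) (c j)
  obtain ⟨r, hr⟩ := Ideal.exists_forall_sub_mem_ideal (I := fun j => Ideal.span {u j})
    (fun i j hij => (Ideal.isCoprime_span_singleton_iff _ _).2 (hc i j hij)) b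
  refine ⟨r, fun j => ?_⟩
  have h1 : u j ∣ r - b j := Ideal.mem_span_singleton.1 (hr j)
  have h2 : α j * r ^ 2 + c j = (r - b j) * (α j * (r + b j)) + (α j * b j ^ 2 + c j) := by ring
  rw [h2]
  exact dvd_add (h1.mul_right _) (hb j)

end lamb

section main

variable {K : Type} [Field K] [Fintype K] {k : ℕ}

/-- the moduli -/
noncomputable def uu (x : (Fin k → K[X]) × (Fin k → K[X])) (j : Fin k) : K[X] := rd (x.1 j * x.2 j)

/-- pairwise coprime moduli -/
def PW (x : (Fin k → K[X]) × (Fin k → K[X])) : Prop := ∀ i j, i ≠ j → IsCoprime (uu x i) (uu x j)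

/-- the modulus -/
noncomputable def EE (x : (Fin k → K[X]) × (Fin k → K[X])) : K[X] := ∏ j, uu x j

/-- the class -/
noncomputable def CC (α c : Fin k → K[X]) (x : (Fin k → K[X]) × (Fin k → K[X])) : K[X] :=
  if h : ∃ b, ∀ j, uu x j ∣ α j * b ^ 2 + c j then h.choose else 0

/-- the pairs -/
noncomputable def PR (R : Fin k → Finset K[X]) : Finset ((Fin k → K[X]) × (Fin k → K[X])) :=
  Fintype.piFinset R ×ˢ Fintype.piFinset R

/-- the index set -/
noncomputable def II (R : Fin k → Finset K[X]) (T : ℕ) : Finset ((Fin k → K[X]) × (Fin k → K[X])) :=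
  (PR R).filter (fun x => ∑ j, (x.1 j).natDegree ≤ T ∧ ∑ j, (x.2 j).natDegree ≤ T ∧ PW x)

variable {z T : ℕ} {R : Fin k → Finset K[X]}

theorem mem_PR {x : (Fin k → K[X]) × (Fin k → K[X])} (hR : ∀ j, R j ⊆ Rz K z T) (hx : x ∈ PR R) :
    ∀ j, x.1 j ∈ Rz K z T ∧ x.2 j ∈ Rz K z T := by
  intro j
  unfold PR at hx
  rw [Finset.mem_product, Fintype.mem_piFinset, Fintype.mem_piFinset] at hx
  exact ⟨hR j (hx.1 j), hR j (hx.2 j)⟩

theorem ne0_of {r s : K[X]} (hr : r ∈ Rz K z T) (hs : s ∈ Rz K z T) : r * s ≠ 0 :=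
  mul_ne_zero (mem_Rz.1 hr).1.ne_zero (mem_Rz.1 hs).1.ne_zero

theorem prime_rd {r s : K[X]} (hr : r ∈ Rz K z T) (hs : s ∈ Rz K z T) {Q : K[X]}
    (hQ : Irreducible Q) (h : Q ∣ rd (r * s)) : ∃ P ∈ PP K z T, Associated P Q ∧ P ∣ r * s := by
  have h0 := ne0_of hr hs
  set P := Q * C Q.leadingCoeff⁻¹ with hP
  have hPm : P.Monic := monic_mul_leadingCoeff_inv hQ.ne_zero
  have hu : IsUnit (C Q.leadingCoeff⁻¹ : K[X]) :=
    isUnit_C.2 (inv_ne_zero (leadingCoeff_ne_zero.2 hQ.ne_zero)).isUnit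
  have hPQ : Associated P Q := associated_mul_unit_left Q _ hu
  have hPi : Irreducible P := hPQ.irreducible_iff.2 hQ
  have hPd : P ∣ r * s := (hPQ.dvd.trans h).trans (rd_dvd h0)
  have hPz : z < P.natDegree ∧ P.natDegree ≤ T := by
    rcases hPi.prime.dvd_or_dvd hPd with h1 | h1
    · exact ⟨(mem_Rz.1 hr).2.2.2 P ⟨hPm, hPi, h1⟩,
        (natDegree_le_of_dvd h1 (mem_Rz.1 hr).1.ne_zero).trans (mem_Rz.1 hr).2.1⟩
    · exact ⟨(mem_Rz.1 hs).2.2.2 P ⟨hPm, hPi, h1⟩,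
        (natDegree_le_of_dvd h1 (mem_Rz.1 hs).1.ne_zero).trans (mem_Rz.1 hs).2.1⟩
  exact ⟨P, mem_PP.2 ⟨hPm, hPz.2, hPi, hPz.1⟩, hPQ, hPd⟩

theorem uu_monic {x : (Fin k → K[X]) × (Fin k → K[X])} (hR : ∀ j, R j ⊆ Rz K z T) (hx : x ∈ PR R)
    (j : Fin k) : (uu x j).Monic :=
  rd_monic (ne0_of (mem_PR hR hx j).1 (mem_PR hR hx j).2)

theorem uu_sq {x : (Fin k → K[X]) × (Fin k → K[X])} (hR : ∀ j, R j ⊆ Rz K z T) (hx : x ∈ PR R)
    (j : Fin k) : Squarefree (uu x j) :=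
  rd_sq (ne0_of (mem_PR hR hx j).1 (mem_PR hR hx j).2)

theorem EE_monic {x : (Fin k → K[X]) × (Fin k → K[X])} (hR : ∀ j, R j ⊆ Rz K z T) (hx : x ∈ PR R) :
    (EE x).Monic := monic_prod_of_monic _ _ fun j _ => uu_monic hR hx j

theorem EE_deg {x : (Fin k → K[X]) × (Fin k → K[X])} (hR : ∀ j, R j ⊆ Rz K z T) (hx : x ∈ PR R) :
    (EE x).natDegree = ∑ j, (uu x j).natDegree :=
  natDegree_prod_of_monic _ _ fun j _ => uu_monic hR hx j

theorem EE_Fr {x : (Fin k → K[X]) × (Fin k → K[X])} (hR : ∀ j, R j ⊆ Rz K z T) (hx : x ∈ PR R) :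
    1 / qq K ^ (EE x).natDegree = ∏ j, Fr (x.1 j * x.2 j) := by
  rw [EE_deg hR hx, ← Finset.prod_pow_eq_pow_sum]
  unfold Fr uu
  rw [Finset.prod_div_distrib, Finset.prod_const_one]

theorem uu_dvd_iff {x : (Fin k → K[X]) × (Fin k → K[X])} (hR : ∀ j, R j ⊆ Rz K z T)
    (hx : x ∈ PR R) (j : Fin k) (f : K[X]) : uu x j ∣ f ↔ x.1 j ∣ f ∧ x.2 j ∣ f := by
  obtain ⟨h1, h2⟩ := mem_PR hR hx j
  exact rd_dvd_iff (mem_Rz.1 h1).2.2.1 (mem_Rz.1 h2).2.2.1 (mem_Rz.1 h1).1.ne_zero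
    (mem_Rz.1 h2).1.ne_zero

theorem cop {x : (Fin k → K[X]) × (Fin k → K[X])} (hR : ∀ j, R j ⊆ Rz K z T)
    (hx : x ∈ PR R) {α : Fin k → K[X]} (hα : ∀ j, α j ≠ 0 ∧ (α j).natDegree ≤ z) (j : Fin k) :
    IsCoprime (α j) (uu x j) := by
  refine isCoprime_of_irreducible_dvd (fun h => (hα j).1 h.1) ?_
  intro Q hQ hQi hQj
  obtain ⟨P, hP, hPQ, -⟩ := prime_rd (mem_PR hR hx j).1 (mem_PR hR hx j).2 hQ hQj
  have h1 := natDegree_le_of_dvd (hPQ.dvd.trans hQi) (hα j).1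
  have h2 := (mem_PP.1 hP).2.2.2
  have h3 := (hα j).2
  omega

theorem CC_spec [CharP K 2] {x : (Fin k → K[X]) × (Fin k → K[X])} (hR : ∀ j, R j ⊆ Rz K z T)
    (hx : x ∈ PR R) (hpw : PW x) {α : Fin k → K[X]} (hα : ∀ j, α j ≠ 0 ∧ (α j).natDegree ≤ z)
    (c : Fin k → K[X]) (j : Fin k) : uu x j ∣ α j * CC α c x ^ 2 + c j := by
  have h : ∃ b, ∀ j, uu x j ∣ α j * b ^ 2 + c j :=
    exists_roots (uu_monic hR hx) (uu_sq hR hx) (cop hR hx hα) hpw
  unfold CC
  rw [dif_pos h]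
  exact h.choose_spec j

/-- two different conditions have no common prime -/
theorem no_common {α c : Fin k → K[X]}
    (hc : ∀ i j, i ≠ j → α i * c j - α j * c i ≠ 0 ∧ (α i * c j - α j * c i).natDegree ≤ z)
    {i j : Fin k} (hij : i ≠ j) {P : K[X]} (hP : P ∈ PP K z T) {a : K[X]}
    (h1 : P ∣ α i * a ^ 2 + c i) (h2 : P ∣ α j * a ^ 2 + c j) : False := by
  obtain ⟨h3, h4⟩ := hc i j hij
  have h5 : P ∣ α i * c j - α j * c i := by
    have := dvd_sub (h2.mul_left (α i)) (h1.mul_left (α j))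
    have e : α i * (α j * a ^ 2 + c j) - α j * (α i * a ^ 2 + c i) = α i * c j - α j * c i := by
      ring
    rwa [e] at this
  have h6 := natDegree_le_of_dvd h5 h3
  have h7 := (mem_PP.1 hP).2.2.2
  omega

theorem good_iff [CharP K 2] {x : (Fin k → K[X]) × (Fin k → K[X])} (hR : ∀ j, R j ⊆ Rz K z T)
    (hx : x ∈ PR R) {α c : Fin k → K[X]} (hα : ∀ j, α j ≠ 0 ∧ (α j).natDegree ≤ z)
    (hc : ∀ i j, i ≠ j → α i * c j - α j * c i ≠ 0 ∧ (α i * c j - α j * c i).natDegree ≤ z)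
    (a : K[X]) :
    ((∀ j, x.1 j ∣ α j * a ^ 2 + c j) ∧ (∀ j, x.2 j ∣ α j * a ^ 2 + c j)) ↔
      PW x ∧ EE x ∣ a - CC α c x := by
  have hsq : ∀ b : K[X], a ^ 2 - b ^ 2 = (a - b) ^ 2 := fun b => sq_sub_sq' a b
  constructor
  · rintro ⟨h1, h2⟩
    have hu : ∀ j, uu x j ∣ α j * a ^ 2 + c j := fun j => (uu_dvd_iff hR hx j _).2 ⟨h1 j, h2 j⟩
    have hpw : PW x := by
      intro i j hij
      refine isCoprime_of_irreducible_dvd (fun h => (uu_monic hR hx i).ne_zero h.1) ?_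
      intro Q hQ hQi hQj
      obtain ⟨P, hP, hPQ, -⟩ := prime_rd (mem_PR hR hx i).1 (mem_PR hR hx i).2 hQ hQi
      exact no_common hc hij hP (hPQ.dvd.trans (hQi.trans (hu i)))
        (hPQ.dvd.trans (hQj.trans (hu j)))
    refine ⟨hpw, ?_⟩
    refine Finset.prod_dvd_of_coprime (fun i _ j _ hij => hpw i j hij) fun j _ => ?_
    have h3 := CC_spec hR hx hpw hα c j
    have h4 : uu x j ∣ (a - CC α c x) ^ 2 := by
      rw [← hsq]
      have := dvd_sub (hu j) h3
      rw [add_sub_add_right_eq_sub, ← mul_sub] at this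
      exact (cop hR hx hα j).symm.dvd_of_dvd_mul_left this
    exact (uu_sq hR hx j).isRadical 2 _ h4
  · rintro ⟨hpw, h⟩
    have hu : ∀ j, uu x j ∣ α j * a ^ 2 + c j := by
      intro j
      have h3 := CC_spec hR hx hpw hα c j
      have h4 : uu x j ∣ a - CC α c x := (Finset.dvd_prod_of_mem _ (Finset.mem_univ j)).trans h
      have h5 : α j * a ^ 2 + c j = α j * (a - CC α c x) ^ 2 + (α j * CC α c x ^ 2 + c j) := by
        rw [← hsq]
        ring
      rw [h5]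
      exact dvd_add ((h4.trans (dvd_pow_self _ two_ne_zero)).mul_left _) h3
    exact ⟨fun j => ((uu_dvd_iff hR hx j _).1 (hu j)).1,
      fun j => ((uu_dvd_iff hR hx j _).1 (hu j)).2⟩

/-- the weights -/
noncomputable def phi (R : Fin k → Finset K[X]) (y : (Fin k → K[X]) → ℝ)
    (x : (Fin k → K[X]) × (Fin k → K[X])) : ℝ := lam R y x.1 * lam R y x.2

theorem rwt_eq [CharP K 2] (hR : ∀ j, R j ⊆ Rz K z T) {α c : Fin k → K[X]}
    (hα : ∀ j, α j ≠ 0 ∧ (α j).natDegree ≤ z)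
    (hc : ∀ i j, i ≠ j → α i * c j - α j * c i ≠ 0 ∧ (α i * c j - α j * c i).natDegree ≤ z)
    {y : (Fin k → K[X]) → ℝ}
    (hy : ∀ r ∈ Fintype.piFinset R, T < ∑ j, (r j).natDegree → y r = 0) (a : K[X]) :
    rwt (II R T) EE (CC α c) (phi R y) a = wV R y (fun j => α j * a ^ 2 + c j) := by
  have hm : ∀ j, ∀ r ∈ R j, r.Monic := fun j r hr => (mem_Rz.1 (hR j hr)).1
  have e1 : wV R y (fun j => α j * a ^ 2 + c j) = ∑ x ∈ (PR R).filter
      (fun x => (∀ j, x.1 j ∣ α j * a ^ 2 + c j) ∧ (∀ j, x.2 j ∣ α j * a ^ 2 + c j)),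
      phi R y x := by
    unfold wV PR
    rw [sq, Finset.sum_mul_sum, ← Finset.sum_product', ← Finset.filter_product]
    rfl
  have e2 : rwt (II R T) EE (CC α c) (phi R y) a = ∑ x ∈ (PR R).filter
      (fun x => (∑ j, (x.1 j).natDegree ≤ T ∧ ∑ j, (x.2 j).natDegree ≤ T ∧ PW x) ∧
        EE x ∣ a - CC α c x), phi R y x := by
    unfold rwt II
    rw [Finset.filter_filter]
  rw [e1, e2, Finset.sum_filter, Finset.sum_filter]
  refine Finset.sum_congr rfl fun x hx => ?_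
  by_cases h0 : phi R y x = 0
  · rw [h0]
    split_ifs <;> rfl
  · have h1 : ∑ j, (x.1 j).natDegree ≤ T := by
      by_contra h
      apply h0
      unfold phi
      rw [lam_zero hm hy (not_le.1 h), zero_mul]
    have h2 : ∑ j, (x.2 j).natDegree ≤ T := by
      by_contra h
      apply h0
      unfold phi
      rw [lam_zero hm hy (not_le.1 h), mul_zero]
    have h3 := good_iff hR hx hα hc a
    by_cases h4 : PW x ∧ EE x ∣ a - CC α c x
    · rw [if_pos (h3.2 h4), if_pos ⟨⟨h1, h2, h4.1⟩, h4.2⟩]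
    · rw [if_neg (fun h => h4 (h3.1 h)), if_neg (fun h => h4 ⟨h.1.2.2, h.2⟩)]

/-- products of sums over pairs -/
theorem sum_pairs (R : Fin k → Finset K[X]) (f : Fin k → K[X] → ℝ) :
    ∑ x ∈ PR R, ∏ j, f j (x.1 j * x.2 j) = ∏ j, ∑ a ∈ R j, ∑ b ∈ R j, f j (a * b) := by
  unfold PR
  rw [Finset.sum_product, Finset.prod_univ_sum]
  refine Finset.sum_congr rfl fun d _ => ?_
  exact (Finset.prod_univ_sum R (fun j b => f j (d j * b))).symm

theorem pair_le (hR : ∀ j, R j ⊆ Rz K z T) (f : K[X] → ℝ) (hf : ∀ m, 0 ≤ f m) (j : Fin k) :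
    ∑ a ∈ R j, ∑ b ∈ R j, f (a * b) ≤ ∑ a ∈ Rz K z T, ∑ b ∈ Rz K z T, f (a * b) := by
  calc ∑ a ∈ R j, ∑ b ∈ R j, f (a * b) ≤ ∑ a ∈ R j, ∑ b ∈ Rz K z T, f (a * b) :=
        Finset.sum_le_sum fun a _ => Finset.sum_le_sum_of_subset_of_nonneg (hR j) fun b _ _ => hf _
    _ ≤ _ := Finset.sum_le_sum_of_subset_of_nonneg (hR j) fun a _ _ =>
        Finset.sum_nonneg fun b _ => hf _

theorem sum_Fr (hR : ∀ j, R j ⊆ Rz K z T) :
    ∑ x ∈ PR R, ∏ j, Fr (x.1 j * x.2 j) ≤ (((T : ℝ) + 1) ^ 3) ^ k := by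
  rw [sum_pairs R (fun _ => Fr)]
  calc ∏ j, ∑ a ∈ R j, ∑ b ∈ R j, Fr (a * b) ≤ ∏ j : Fin k, ((T : ℝ) + 1) ^ 3 := by
        refine Finset.prod_le_prod (fun j _ => Finset.sum_nonneg fun a _ =>
          Finset.sum_nonneg fun b _ => Fr_nonneg _) fun j _ => ?_
        exact (pair_le hR Fr Fr_nonneg j).trans (pair_sum z T)
    _ = _ := by rw [Finset.prod_const, Finset.card_univ, Fintype.card_fin]

/-- the functions with a common prime -/
noncomputable def Hh (i j : Fin k) (P : K[X]) (l : Fin k) (m : K[X]) : ℝ :=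
  if l = i ∨ l = j then (if P ∣ m then Fr m else 0) else Fr m

theorem Hh_nonneg (i j : Fin k) (P : K[X]) (l : Fin k) (m : K[X]) : 0 ≤ Hh i j P l m := by
  unfold Hh
  have := Fr_nonneg m
  split_ifs <;> first | exact this | exact le_rfl

theorem sum_Hh (hR : ∀ j, R j ⊆ Rz K z T) {i j : Fin k} (hij : i ≠ j) {P : K[X]}
    (hP : P ∈ PP K z T) : ∑ x ∈ PR R, ∏ l, Hh i j P l (x.1 l * x.2 l) ≤
      9 * (((T : ℝ) + 1) ^ 3) ^ k * (1 / nm P) ^ 2 := by
  have hn := nm_pos P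
  rw [sum_pairs R (Hh i j P)]
  calc ∏ l, ∑ a ∈ R l, ∑ b ∈ R l, Hh i j P l (a * b)
      ≤ ∏ l : Fin k, (((T : ℝ) + 1) ^ 3 * (if l = i ∨ l = j then 3 / nm P else 1)) := by
        refine Finset.prod_le_prod (fun l _ => Finset.sum_nonneg fun a _ =>
          Finset.sum_nonneg fun b _ => Hh_nonneg _ _ _ _ _) fun l _ => ?_
        refine (pair_le hR (Hh i j P l) (Hh_nonneg i j P l) l).trans ?_
        by_cases h : l = i ∨ l = j
        · rw [if_pos h]
          have e1 : ∀ m, Hh i j P l m = if P ∣ m then Fr m else 0 := fun m => if_pos h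
          simp only [e1]
          refine (pair_sum_P (mem_PP.1 hP).1 (mem_PP.1 hP).2.2.1).trans (le_of_eq ?_)
          ring
        · rw [if_neg h, mul_one]
          have e1 : ∀ m, Hh i j P l m = Fr m := fun m => if_neg h
          simp only [e1]
          exact pair_sum z T
    _ = (((T : ℝ) + 1) ^ 3) ^ k * (3 / nm P) ^ 2 := by
        rw [Finset.prod_mul_distrib, Finset.prod_const, Finset.card_univ, Fintype.card_fin,
          ← Finset.prod_filter]
        have e1 : Finset.univ.filter (fun l => l = i ∨ l = j) = {i, j} := by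
          ext l
          simp
        rw [e1, Finset.prod_const, Finset.card_pair hij]
    _ = _ := by ring

theorem not_PW {x : (Fin k → K[X]) × (Fin k → K[X])} (hR : ∀ j, R j ⊆ Rz K z T) (hx : x ∈ PR R)
    (h : ¬ PW x) : ∏ l, Fr (x.1 l * x.2 l) ≤
      ∑ i : Fin k, ∑ j ∈ Finset.univ.filter (fun j => i ≠ j), ∑ P ∈ PP K z T,
        ∏ l, Hh i j P l (x.1 l * x.2 l) := by
  unfold PW at h
  push Not at h
  obtain ⟨i, j, hij, h1⟩ := h
  have h2 : ∃ Q, Irreducible Q ∧ Q ∣ uu x i ∧ Q ∣ uu x j := by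
    by_contra hcon
    push Not at hcon
    exact h1 (isCoprime_of_irreducible_dvd (fun h => (uu_monic hR hx i).ne_zero h.1) hcon)
  obtain ⟨Q, hQ, hQi, hQj⟩ := h2
  obtain ⟨P, hP, hPQ, hPi⟩ := prime_rd (mem_PR hR hx i).1 (mem_PR hR hx i).2 hQ hQi
  have hPj : P ∣ x.1 j * x.2 j := (hPQ.dvd.trans hQj).trans
    (rd_dvd (ne0_of (mem_PR hR hx j).1 (mem_PR hR hx j).2))
  have hnn : ∀ i j P, 0 ≤ ∏ l, Hh (K := K) i j P l (x.1 l * x.2 l) := fun i j P =>
    Finset.prod_nonneg fun l _ => Hh_nonneg _ _ _ _ _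
  have e1 : ∏ l, Fr (x.1 l * x.2 l) = ∏ l, Hh i j P l (x.1 l * x.2 l) := by
    refine Finset.prod_congr rfl fun l _ => ?_
    unfold Hh
    by_cases h : l = i ∨ l = j
    · rw [if_pos h, if_pos]
      rcases h with rfl | rfl
      · exact hPi
      · exact hPj
    · rw [if_neg h]
  rw [e1]
  calc ∏ l, Hh i j P l (x.1 l * x.2 l)
      ≤ ∑ P ∈ PP K z T, ∏ l, Hh i j P l (x.1 l * x.2 l) :=
        Finset.single_le_sum (f := fun P => ∏ l, Hh i j P l (x.1 l * x.2 l))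
          (fun P _ => hnn i j P) hP
    _ ≤ ∑ j ∈ Finset.univ.filter (fun j => i ≠ j), ∑ P ∈ PP K z T,
          ∏ l, Hh i j P l (x.1 l * x.2 l) :=
        Finset.single_le_sum (f := fun j => ∑ P ∈ PP K z T, ∏ l, Hh i j P l (x.1 l * x.2 l))
          (fun j _ => Finset.sum_nonneg fun P _ => hnn i j P)
          (Finset.mem_filter.2 ⟨Finset.mem_univ _, hij⟩)
    _ ≤ _ := Finset.single_le_sum (f := fun i => ∑ j ∈ Finset.univ.filter (fun j => i ≠ j),
          ∑ P ∈ PP K z T, ∏ l, Hh i j P l (x.1 l * x.2 l))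
          (fun i _ => Finset.sum_nonneg fun j _ => Finset.sum_nonneg fun P _ => hnn i j P)
          (Finset.mem_univ i)

theorem sum_not_PW (hR : ∀ j, R j ⊆ Rz K z T) :
    ∑ x ∈ (PR R).filter (fun x => ¬ PW x), ∏ l, Fr (x.1 l * x.2 l) ≤
      (k : ℝ) ^ 2 * (9 * (((T : ℝ) + 1) ^ 3) ^ k * ((T + 1) / qq K ^ z)) := by
  have hB : 0 ≤ 9 * (((T : ℝ) + 1) ^ 3) ^ k * ((T + 1) / qq K ^ z) := by
    have := q0 (K := K)
    positivity
  calc ∑ x ∈ (PR R).filter (fun x => ¬ PW x), ∏ l, Fr (x.1 l * x.2 l)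
      ≤ ∑ x ∈ (PR R).filter (fun x => ¬ PW x),
        ∑ i : Fin k, ∑ j ∈ Finset.univ.filter (fun j => i ≠ j), ∑ P ∈ PP K z T,
          ∏ l, Hh i j P l (x.1 l * x.2 l) :=
        Finset.sum_le_sum fun x hx => not_PW hR (Finset.mem_filter.1 hx).1 (Finset.mem_filter.1 hx).2
    _ ≤ ∑ x ∈ PR R, ∑ i : Fin k, ∑ j ∈ Finset.univ.filter (fun j => i ≠ j), ∑ P ∈ PP K z T,
          ∏ l, Hh i j P l (x.1 l * x.2 l) :=
        Finset.sum_le_sum_of_subset_of_nonneg (Finset.filter_subset _ _) fun x _ _ =>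
          Finset.sum_nonneg fun i _ => Finset.sum_nonneg fun j _ => Finset.sum_nonneg fun P _ =>
            Finset.prod_nonneg fun l _ => Hh_nonneg _ _ _ _ _
    _ = ∑ i : Fin k, ∑ j ∈ Finset.univ.filter (fun j => i ≠ j), ∑ P ∈ PP K z T,
          ∑ x ∈ PR R, ∏ l, Hh i j P l (x.1 l * x.2 l) := by
        rw [Finset.sum_comm]
        refine Finset.sum_congr rfl fun i _ => ?_
        rw [Finset.sum_comm]
        refine Finset.sum_congr rfl fun j _ => ?_
        rw [Finset.sum_comm]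
    _ ≤ ∑ i : Fin k, ∑ j ∈ Finset.univ.filter (fun j => i ≠ j),
          (9 * (((T : ℝ) + 1) ^ 3) ^ k * ((T + 1) / qq K ^ z)) := by
        refine Finset.sum_le_sum fun i _ => Finset.sum_le_sum fun j hj => ?_
        calc ∑ P ∈ PP K z T, ∑ x ∈ PR R, ∏ l, Hh i j P l (x.1 l * x.2 l)
            ≤ ∑ P ∈ PP K z T, 9 * (((T : ℝ) + 1) ^ 3) ^ k * (1 / nm P) ^ 2 :=
              Finset.sum_le_sum fun P hP => sum_Hh hR (Finset.mem_filter.1 hj).2 hP
          _ = 9 * (((T : ℝ) + 1) ^ 3) ^ k * ∑ P ∈ PP K z T, (1 / nm P) ^ 2 := by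
              rw [Finset.mul_sum]
          _ ≤ _ := by
              have := sum_PP (K := K) z T
              gcongr
    _ ≤ ∑ i : Fin k, ∑ j : Fin k, (9 * (((T : ℝ) + 1) ^ 3) ^ k * ((T + 1) / qq K ^ z)) :=
        Finset.sum_le_sum fun i _ => Finset.sum_le_sum_of_subset_of_nonneg
          (Finset.filter_subset _ _) fun _ _ _ => hB
    _ = _ := by
        rw [Finset.sum_const, Finset.sum_const, Finset.card_univ, Fintype.card_fin, nsmul_eq_mul,
          nsmul_eq_mul]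
        ring

end main


section fin

theorem poly_le {r : ℝ} (hr : 1 < r) (C : ℝ) (m : ℕ) :
    ∃ d₀ : ℕ, ∀ d : ℕ, d₀ ≤ d → C * ((d : ℝ) + 1) ^ m ≤ r ^ d := by
  have h1 := tendsto_pow_const_div_const_pow_of_one_lt m hr
  have hpos : (0 : ℝ) < 1 / (|C| * 2 ^ m + 1) := by positivity
  obtain ⟨d₀, hd₀⟩ := Filter.eventually_atTop.1 (h1.eventually (gt_mem_nhds hpos))
  refine ⟨max 1 d₀, fun d hd => ?_⟩
  have hd1 : (1 : ℝ) ≤ d := by exact_mod_cast (le_max_left 1 d₀).trans hd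
  have h2 := hd₀ d ((le_max_right 1 d₀).trans hd)
  have h3 : 0 < r ^ d := pow_pos (by linarith) _
  rw [div_lt_div_iff₀ h3 (by positivity), one_mul] at h2
  have h4 : ((d : ℝ) + 1) ^ m ≤ 2 ^ m * (d : ℝ) ^ m := by
    rw [← mul_pow]
    exact pow_le_pow_left₀ (by positivity) (by linarith) m
  calc C * ((d : ℝ) + 1) ^ m ≤ |C| * ((d : ℝ) + 1) ^ m := by
        gcongr
        exact le_abs_self C
    _ ≤ |C| * (2 ^ m * (d : ℝ) ^ m) := by gcongr
    _ ≤ (d : ℝ) ^ m * (|C| * 2 ^ m + 1) := by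
        have : 0 ≤ (d : ℝ) ^ m := by positivity
        nlinarith
    _ ≤ r ^ d := h2.le

variable {K : Type} [Field K] [Fintype K] {k : ℕ} {z T : ℕ} {R : Fin k → Finset K[X]}

theorem exists_Dm (f : Fin k → Fin k → K[X]) : ∃ Dm : ℕ, ∀ i j, (f i j).natDegree ≤ Dm :=
  ⟨∑ i, ∑ j, (f i j).natDegree, fun i j =>
    (Finset.single_le_sum (f := fun j => (f i j).natDegree) (fun _ _ => Nat.zero_le _)
      (Finset.mem_univ j)).trans
    (Finset.single_le_sum (f := fun i => ∑ j, (f i j).natDegree) (fun _ _ => Nat.zero_le _)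
      (Finset.mem_univ i))⟩

theorem cnt_div (hz : 0 < z) {v : K[X]} (hv : v ≠ 0) {N : ℕ} (hN : v.natDegree ≤ N * z) :
    ((Rz K z T).filter (fun e => e ∣ v)).card ≤ 2 ^ N := by
  set S : Finset K[X] := (pf v).filter (fun P => z < P.natDegree) with hS
  have hSm : ∀ P ∈ S, P.Monic := fun P hP => ((mem_pf hv).1 (Finset.mem_filter.1 hP).1).1
  have hcard : S.card ≤ N := by
    have h1 : (∏ P ∈ S, P) ∣ v := by
      refine dvd_trans ?_ (rd_dvd hv)
      rw [rd_prod hv]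
      exact Finset.prod_dvd_prod_of_subset _ _ _ (Finset.filter_subset _ _)
    have h2 := natDegree_le_of_dvd h1 hv
    rw [natDegree_prod_pf hSm] at h2
    have h3 : S.card * z ≤ ∑ P ∈ S, P.natDegree := by
      rw [← smul_eq_mul]
      exact Finset.card_nsmul_le_sum _ _ _ fun P hP => (Finset.mem_filter.1 hP).2.le
    have h4 : S.card * z ≤ N * z := (h3.trans h2).trans hN
    exact Nat.le_of_mul_le_mul_right h4 hz
  calc ((Rz K z T).filter (fun e => e ∣ v)).card ≤ S.powerset.card := by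
        refine Finset.card_le_card_of_injOn (fun e => pf e) ?_ ?_
        · intro e he
          rw [Finset.mem_coe, Finset.mem_filter] at he
          rw [Finset.mem_coe, Finset.mem_powerset]
          intro P hP
          have he0 : e ≠ 0 := (mem_Rz.1 he.1).1.ne_zero
          have h1 := (mem_pf he0).1 hP
          rw [hS, Finset.mem_filter, mem_pf hv]
          exact ⟨⟨h1.1, h1.2.1, h1.2.2.trans he.2⟩, (mem_Rz.1 he.1).2.2.2 P h1⟩
        · intro e he f hf hef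
          rw [Finset.mem_coe, Finset.mem_filter] at he hf
          have h1 := mem_Rz.1 he.1
          have h2 := mem_Rz.1 hf.1
          rw [← prod_pf h1.1 h1.2.2.1, ← prod_pf h2.1 h2.2.2.1]
          simp only at hef
          rw [hef]
    _ = 2 ^ S.card := Finset.card_powerset _
    _ ≤ 2 ^ N := Nat.pow_le_pow_right (by norm_num) hcard

theorem wV_le (hT : 2 * (T : ℝ) ≤ qq K ^ z) (hR : ∀ j, R j ⊆ Rz K z T)
    {y : (Fin k → K[X]) → ℝ} (hy : ∀ r ∈ Fintype.piFinset R, |y r| ≤ 2 * (T + 1)) (hz : 0 < z)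
    {v : Fin k → K[X]} (hv : ∀ j, v j ≠ 0) {N : ℕ} (hN : ∀ j, (v j).natDegree ≤ N * z) :
    wV R y v ≤ (((2 : ℝ) ^ N) ^ k * (4 * ((T : ℝ) + 1)) ^ (k + 1)) ^ 2 := by
  unfold wV
  rw [← sq_abs]
  refine pow_le_pow_left₀ (abs_nonneg _) ?_ 2
  have hfil : (Fintype.piFinset R).filter (fun e => ∀ j, e j ∣ v j) =
      Fintype.piFinset (fun j => (R j).filter (fun r => r ∣ v j)) := by
    ext r
    simp only [Finset.mem_filter, Fintype.mem_piFinset]
    constructor
    · rintro ⟨h1, h2⟩ j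
      exact ⟨h1 j, h2 j⟩
    · intro h
      exact ⟨fun j => (h j).1, fun j => (h j).2⟩
  have hcard : (((Fintype.piFinset R).filter (fun e => ∀ j, e j ∣ v j)).card : ℝ) ≤
      ((2 : ℝ) ^ N) ^ k := by
    rw [hfil, Fintype.card_piFinset]
    push_cast
    calc ∏ j, (((R j).filter (fun r => r ∣ v j)).card : ℝ) ≤ ∏ j : Fin k, (2 : ℝ) ^ N := by
          refine Finset.prod_le_prod (fun j _ => Nat.cast_nonneg _) fun j _ => ?_
          have h1 := (Finset.card_le_card (Finset.filter_subset_filter (fun r => r ∣ v j)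
            (hR j))).trans (cnt_div (T := T) hz (hv j) (hN j))
          exact_mod_cast h1
      _ = ((2 : ℝ) ^ N) ^ k := by rw [Finset.prod_const, Finset.card_univ, Fintype.card_fin]
  calc |∑ e ∈ (Fintype.piFinset R).filter (fun e => ∀ j, e j ∣ v j), lam R y e|
      ≤ ∑ e ∈ (Fintype.piFinset R).filter (fun e => ∀ j, e j ∣ v j), |lam R y e| :=
        Finset.abs_sum_le_sum_abs _ _
    _ ≤ ∑ e ∈ (Fintype.piFinset R).filter (fun e => ∀ j, e j ∣ v j),
        (4 * ((T : ℝ) + 1)) ^ (k + 1) :=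
        Finset.sum_le_sum fun e he => lam_le hT hR hy (Finset.mem_filter.1 he).1
    _ = (((Fintype.piFinset R).filter (fun e => ∀ j, e j ∣ v j)).card : ℝ) *
        (4 * ((T : ℝ) + 1)) ^ (k + 1) := by rw [Finset.sum_const, nsmul_eq_mul]
    _ ≤ _ := by gcongr

theorem Dc_of (h : ∀ j, R j = Rz K z T ∨ R j = {1}) (j : Fin k) : Dc (R j) := by
  rcases h j with h | h
  · rw [h]
    exact ⟨fun r hr => ⟨(mem_Rz.1 hr).1, (mem_Rz.1 hr).2.2.1⟩, fun r hr s hs hsr => Rz_div hr hs hsr⟩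
  · rw [h]
    refine ⟨fun r hr => ?_, fun r hr s hs hsr => ?_⟩
    · rw [Finset.mem_singleton.1 hr]
      exact ⟨monic_one, squarefree_one⟩
    · rw [Finset.mem_singleton] at hr ⊢
      rw [hr] at hsr
      exact hs.eq_one_of_isUnit (isUnit_of_dvd_one hsr)

theorem phi_le (hT : 2 * (T : ℝ) ≤ qq K ^ z) (hR : ∀ j, R j ⊆ Rz K z T)
    {y : (Fin k → K[X]) → ℝ} (hy : ∀ r ∈ Fintype.piFinset R, |y r| ≤ 2 * (T + 1))
    {x : (Fin k → K[X]) × (Fin k → K[X])} (hx : x ∈ PR R) :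
    |phi R y x| ≤ ((4 * ((T : ℝ) + 1)) ^ (k + 1)) ^ 2 := by
  unfold phi
  unfold PR at hx
  rw [Finset.mem_product] at hx
  rw [abs_mul, sq]
  have h1 := lam_le hT hR hy hx.1
  have h2 := lam_le hT hR hy hx.2
  gcongr

theorem bd2' (hT : 2 * (T : ℝ) ≤ qq K ^ z) (hR : ∀ j, R j ⊆ Rz K z T)
    {y : (Fin k → K[X]) → ℝ} (hy : ∀ r ∈ Fintype.piFinset R, |y r| ≤ 2 * (T + 1)) :
    ∑ x ∈ II R T, |phi R y x| / qq K ^ (EE x).natDegree ≤
      ((4 * ((T : ℝ) + 1)) ^ (k + 1)) ^ 2 * (((T : ℝ) + 1) ^ 3) ^ k := by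
  have hq := q0 (K := K)
  calc ∑ x ∈ II R T, |phi R y x| / qq K ^ (EE x).natDegree
      ≤ ∑ x ∈ PR R, |phi R y x| / qq K ^ (EE x).natDegree :=
        Finset.sum_le_sum_of_subset_of_nonneg (Finset.filter_subset _ _)
          fun x _ _ => by positivity
    _ ≤ ∑ x ∈ PR R, ((4 * ((T : ℝ) + 1)) ^ (k + 1)) ^ 2 * ∏ j, Fr (x.1 j * x.2 j) := by
        refine Finset.sum_le_sum fun x hx => ?_
        rw [← EE_Fr hR hx, mul_one_div]
        have := phi_le hT hR hy hx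
        gcongr
    _ = ((4 * ((T : ℝ) + 1)) ^ (k + 1)) ^ 2 * ∑ x ∈ PR R, ∏ j, Fr (x.1 j * x.2 j) := by
        rw [Finset.mul_sum]
    _ ≤ _ := by
        have := sum_Fr hR
        gcongr

theorem II_PR {x : (Fin k → K[X]) × (Fin k → K[X])} (hx : x ∈ II R T) : x ∈ PR R :=
  (Finset.mem_filter.1 hx).1

theorem EE_deg_le {x : (Fin k → K[X]) × (Fin k → K[X])} (hR : ∀ j, R j ⊆ Rz K z T)
    (hx : x ∈ II R T) : (EE x).natDegree ≤ 2 * T := by
  obtain ⟨h0, h1, h2, -⟩ := Finset.mem_filter.1 hx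
  rw [EE_deg hR h0]
  have h3 : ∀ j ∈ (Finset.univ : Finset (Fin k)), (uu x j).natDegree ≤
      (x.1 j).natDegree + (x.2 j).natDegree := by
    intro j _
    obtain ⟨h4, h5⟩ := mem_PR hR h0 j
    have h6 := natDegree_le_of_dvd (rd_dvd (ne0_of h4 h5)) (ne0_of h4 h5)
    rw [(mem_Rz.1 h4).1.natDegree_mul (mem_Rz.1 h5).1] at h6
    exact h6
  have h4 := Finset.sum_le_sum h3
  rw [Finset.sum_add_distrib] at h4
  omega

theorem QQ_dia (hselb : S_selb) (hT : 2 * (T : ℝ) ≤ qq K ^ z) (hRR : ∀ j, R j = Rz K z T ∨ R j = {1})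
    (hR : ∀ j, R j ⊆ Rz K z T)
    {y : (Fin k → K[X]) → ℝ} (hy : ∀ r ∈ Fintype.piFinset R, |y r| ≤ 2 * (T + 1))
    (hy2 : ∀ r ∈ Fintype.piFinset R, T < ∑ j, (r j).natDegree → y r = 0) :
    |QQ (II R T) EE (phi R y) - dia R y| ≤ ((4 * ((T : ℝ) + 1)) ^ (k + 1)) ^ 2 *
      ((k : ℝ) ^ 2 * (9 * (((T : ℝ) + 1) ^ 3) ^ k * ((T + 1) / qq K ^ z))) := by
  have hm : ∀ j, ∀ r ∈ R j, r.Monic := fun j r hr => (mem_Rz.1 (hR j hr)).1
  have e1 : dia R y = ∑ x ∈ PR R, phi R y x * ∏ j, Fr (x.1 j * x.2 j) := by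
    rw [← hselb K k R y (Dc_of hRR)]
    unfold PR
    rw [Finset.sum_product]
    refine Finset.sum_congr rfl fun d _ => Finset.sum_congr rfl fun e _ => ?_
    unfold phi Fr
    rw [Finset.prod_div_distrib, Finset.prod_const_one, mul_one_div]
  have e2 : QQ (II R T) EE (phi R y) = ∑ x ∈ II R T, phi R y x * ∏ j, Fr (x.1 j * x.2 j) := by
    unfold QQ
    refine Finset.sum_congr rfl fun x hx => ?_
    rw [← EE_Fr hR (II_PR hx), mul_one_div]
  have e3 : QQ (II R T) EE (phi R y) - dia R y = -∑ x ∈ (PR R).filter (fun x =>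
      ¬ (∑ j, (x.1 j).natDegree ≤ T ∧ ∑ j, (x.2 j).natDegree ≤ T ∧ PW x)),
      phi R y x * ∏ j, Fr (x.1 j * x.2 j) := by
    rw [e1, e2, ← Finset.sum_filter_add_sum_filter_not (PR R)
      (fun x => ∑ j, (x.1 j).natDegree ≤ T ∧ ∑ j, (x.2 j).natDegree ≤ T ∧ PW x)]
    unfold II
    ring
  have hFr : ∀ x : (Fin k → K[X]) × (Fin k → K[X]), 0 ≤ ∏ j, Fr (x.1 j * x.2 j) := fun x =>
    Finset.prod_nonneg fun j _ => Fr_nonneg _
  rw [e3, abs_neg]
  calc |∑ x ∈ (PR R).filter (fun x =>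
      ¬ (∑ j, (x.1 j).natDegree ≤ T ∧ ∑ j, (x.2 j).natDegree ≤ T ∧ PW x)),
      phi R y x * ∏ j, Fr (x.1 j * x.2 j)|
      ≤ ∑ x ∈ (PR R).filter (fun x =>
      ¬ (∑ j, (x.1 j).natDegree ≤ T ∧ ∑ j, (x.2 j).natDegree ≤ T ∧ PW x)),
      |phi R y x * ∏ j, Fr (x.1 j * x.2 j)| := Finset.abs_sum_le_sum_abs _ _
    _ ≤ ∑ x ∈ (PR R).filter (fun x => ¬ PW x),
        ((4 * ((T : ℝ) + 1)) ^ (k + 1)) ^ 2 * ∏ j, Fr (x.1 j * x.2 j) := by
        rw [Finset.sum_filter, Finset.sum_filter]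
        refine Finset.sum_le_sum fun x hx => ?_
        have hp := phi_le hT hR hy hx
        by_cases h1 : PW x
        · rw [if_neg (not_not.2 h1)]
          split_ifs with h2
          · exact le_rfl
          · have h3 : phi R y x = 0 := by
              by_cases h4 : ∑ j, (x.1 j).natDegree ≤ T
              · have h5 : ¬ ∑ j, (x.2 j).natDegree ≤ T := fun h5 => h2 ⟨h4, h5, h1⟩
                unfold phi
                rw [lam_zero hm hy2 (not_le.1 h5), mul_zero]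
              · unfold phi
                rw [lam_zero hm hy2 (not_le.1 h4), zero_mul]
            rw [h3, zero_mul, abs_zero]
        · rw [if_pos h1, if_pos (fun h => h1 h.2.2), abs_mul, abs_of_nonneg (hFr x)]
          have := hFr x
          gcongr
    _ = ((4 * ((T : ℝ) + 1)) ^ (k + 1)) ^ 2 *
        ∑ x ∈ (PR R).filter (fun x => ¬ PW x), ∏ j, Fr (x.1 j * x.2 j) := by
        rw [Finset.mul_sum]
    _ ≤ _ := by
        have := sum_not_PW hR
        gcongr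

theorem prime_EE {x : (Fin k → K[X]) × (Fin k → K[X])} (hR : ∀ j, R j ⊆ Rz K z T)
    (hx : x ∈ PR R) {Q : K[X]} (hQ : Irreducible Q) (h : Q ∣ EE x) :
    ∃ j, Q ∣ uu x j ∧ ∃ P ∈ PP K z T, Associated P Q ∧ P ∣ x.1 j * x.2 j := by
  obtain ⟨j, -, hj⟩ := (Prime.dvd_finset_prod_iff hQ.prime _).1 h
  obtain ⟨P, hP, h1, h2⟩ := prime_rd (mem_PR hR hx j).1 (mem_PR hR hx j).2 hQ hj
  exact ⟨j, hj, P, hP, h1, h2⟩

end fin

end RWMG

open RWMG in
theorem rwmg : S_trwmg := by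
  intro hselb K _ _ _ k α c hα0 hc η hη
  have hq2 := q2 (K := K)
  have hq0 := q0 (K := K)
  set r : ℝ := qq K ^ (η / 2) with hr
  have hr1 : 1 < r := Real.one_lt_rpow (by linarith) (by positivity)
  obtain ⟨d1, h1⟩ := poly_le hr1 2 1
  obtain ⟨d2, h2⟩ := poly_le hr1 1 (5 * k + 5)
  obtain ⟨d3, h3⟩ := poly_le hr1 (9 * (k : ℝ) ^ 2 * 4 ^ (2 * k + 2)) (5 * k + 3)
  obtain ⟨Dm1, hDm1⟩ := exists_Dm (fun i j => α i * c j - α j * c i)
  obtain ⟨Dm2, hDm2⟩ := exists_Dm (fun i j => α i)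
  obtain ⟨Dm3, hDm3⟩ := exists_Dm (fun i j => c i)
  obtain ⟨Dm, hDmd⟩ : ∃ Dm, Dm = Dm1 + Dm2 + Dm3 := ⟨_, rfl⟩
  obtain ⟨N, hNd⟩ : ∃ N, N = ⌈3 / η⌉₊ := ⟨_, rfl⟩
  refine ⟨max 1 (max d1 (max d2 (max d3 (max (4 ^ (2 * k + 2) * 2 ^ (5 * k + 2)) (max ⌈Dm / η⌉₊
    (max (Dm + 1) ((2 ^ N) ^ (2 * k) * 8 ^ (2 * k + 2)))))))), ?_⟩
  intro d z T R y hd hz hzT hTd hRR hy1 hy2
  simp only [max_le_iff] at hd
  obtain ⟨g0, g1, g2, g3, g4, g5, g6, g7⟩ := hd
  have hdr : (1 : ℝ) ≤ d := by exact_mod_cast g0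
  have hTr : (T : ℝ) ≤ d := by exact_mod_cast hTd
  have hT0 : (0 : ℝ) ≤ T := Nat.cast_nonneg _
  have hrd : r ^ d ≤ qq K ^ ((z : ℝ) / 2) := by
    rw [hr, ← Real.rpow_mul_natCast hq0.le]
    exact Real.rpow_le_rpow_of_exponent_le (by linarith) (by linarith)
  have hrd2 : r ^ d ≤ qq K ^ z := by
    refine hrd.trans ?_
    rw [← Real.rpow_natCast]
    exact Real.rpow_le_rpow_of_exponent_le (by linarith) (by
      have : (0 : ℝ) ≤ z := Nat.cast_nonneg _
      linarith)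
  have hT : 2 * (T : ℝ) ≤ qq K ^ z := by
    have := h1 d g1
    rw [pow_one] at this
    linarith
  have hR : ∀ j, R j ⊆ Rz K z T := by
    intro j
    rcases hRR j with h | h
    · rw [h]
    · rw [h, Finset.singleton_subset_iff]
      exact one_mem_Rz z T
  have hDz : Dm ≤ z := by
    have e2 : (Dm : ℝ) ≤ z := by
      have e3 : (Dm : ℝ) / η ≤ d := (Nat.le_ceil _).trans (by exact_mod_cast g5)
      rw [div_le_iff₀ hη] at e3
      linarith
    exact_mod_cast e2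
  have hcc : ∀ i j, i ≠ j → α i * c j - α j * c i ≠ 0 ∧
      (α i * c j - α j * c i).natDegree ≤ z := by
    intro i j hij
    refine ⟨sub_ne_zero.2 (hc i j hij), ?_⟩
    have e1 : (α i * c j - α j * c i).natDegree ≤ Dm1 := hDm1 i j
    omega
  have hα : ∀ j, α j ≠ 0 ∧ (α j).natDegree ≤ z := by
    intro j
    refine ⟨hα0 j, ?_⟩
    have e1 : (α j).natDegree ≤ Dm2 := hDm2 j j
    omega
  have hz0 : 0 < z := by
    have : (0 : ℝ) < z := lt_of_lt_of_le (by positivity) hz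
    exact_mod_cast this
  -- the main bound
  have hLW : ((4 * ((T : ℝ) + 1)) ^ (k + 1)) ^ 2 * (((T : ℝ) + 1) ^ 3) ^ k =
      4 ^ (2 * k + 2) * ((T : ℝ) + 1) ^ (5 * k + 2) := by
    rw [← pow_mul, ← pow_mul, mul_pow]
    ring
  have hLW1 : ((4 * ((T : ℝ) + 1)) ^ (k + 1)) ^ 2 * (((T : ℝ) + 1) ^ 3) ^ k ≤
      (d : ℝ) ^ (5 * k + 5) := by
    rw [hLW]
    have e1 : ((T : ℝ) + 1) ^ (5 * k + 2) ≤ (2 * (d : ℝ)) ^ (5 * k + 2) :=
      pow_le_pow_left₀ (by positivity) (by linarith) _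
    have e2 : (4 : ℝ) ^ (2 * k + 2) * 2 ^ (5 * k + 2) ≤ d := by exact_mod_cast g4
    calc 4 ^ (2 * k + 2) * ((T : ℝ) + 1) ^ (5 * k + 2)
        ≤ 4 ^ (2 * k + 2) * (2 * (d : ℝ)) ^ (5 * k + 2) := by gcongr
      _ = (4 ^ (2 * k + 2) * 2 ^ (5 * k + 2)) * (d : ℝ) ^ (5 * k + 2) := by
          rw [mul_pow]
          ring
      _ ≤ d * (d : ℝ) ^ (5 * k + 2) := by gcongr
      _ = (d : ℝ) ^ (5 * k + 3) := by ring
      _ ≤ (d : ℝ) ^ (5 * k + 5) := pow_le_pow_right₀ hdr (by omega)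
  have hbd2 := bd2' (z := z) (T := T) (R := R) (y := y) hT hR hy1
  refine ⟨_, II R T, EE, CC α c, phi R y, ⟨?_, ?_, ?_, ?_, ?_, ?_, ?_⟩, ?_,
    fun a => rwt_eq hR hα hcc hy2 a, ?_, ?_⟩
  · intro x hx
    exact EE_monic hR (II_PR hx)
  · intro x hx
    refine Finset.squarefree_prod_of_pairwise_isCoprime ?_ fun j _ => uu_sq hR (II_PR hx) j
    intro i _ j _ hij
    exact ((Finset.mem_filter.1 hx).2.2.2 i j hij).isRelPrime
  · intro x hx P hP
    obtain ⟨j, -, P', hP', h4, -⟩ := prime_EE hR (II_PR hx) hP.2.1 hP.2.2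
    rw [← eq_of_monic_of_associated (mem_PP.1 hP').1 hP.1 h4]
    exact (mem_PP.1 hP').2.2.2
  · intro x hx
    have := EE_deg_le hR hx
    omega
  · -- the trivial bound
    have e1 : ∀ x ∈ II R T, |phi R y x| ≤ qq K ^ (2 * T) * (|phi R y x| / qq K ^ (EE x).natDegree) := by
      intro x hx
      have e2 : qq K ^ (EE x).natDegree ≤ qq K ^ (2 * T) :=
        pow_le_pow_right₀ (by linarith) (EE_deg_le hR hx)
      have e3 : 0 < qq K ^ (EE x).natDegree := pow_pos hq0 _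
      rw [← mul_div_assoc, le_div_iff₀ e3, mul_comm]
      gcongr
    calc ∑ x ∈ II R T, |phi R y x|
        ≤ ∑ x ∈ II R T, qq K ^ (2 * T) * (|phi R y x| / qq K ^ (EE x).natDegree) :=
          Finset.sum_le_sum e1
      _ = qq K ^ (2 * T) * ∑ x ∈ II R T, |phi R y x| / qq K ^ (EE x).natDegree := by
          rw [Finset.mul_sum]
      _ ≤ qq K ^ (2 * T) * qq K ^ T := by
          have e2 : (d : ℝ) ^ (5 * k + 5) ≤ qq K ^ T := by
            have e3 := h2 d g2
            rw [one_mul] at e3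
            have e4 : (d : ℝ) ^ (5 * k + 5) ≤ ((d : ℝ) + 1) ^ (5 * k + 5) :=
              pow_le_pow_left₀ (by positivity) (by linarith) _
            have e5 : qq K ^ z ≤ qq K ^ T := pow_le_pow_right₀ (by linarith) hzT
            linarith
          have e3 := (hbd2.trans hLW1).trans e2
          gcongr
      _ = (Fintype.card K : ℝ) ^ (3 * T) := by
          rw [← pow_add]
          congr 1
          ring
  · exact hbd2.trans hLW1
  · intro a
    rw [rwt_eq hR hα hcc hy2 a]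
    exact sq_nonneg _
  · intro i hi x hx
    have hx' := II_PR hx
    have hpw := (Finset.mem_filter.1 hx).2.2.2
    refine isCoprime_of_irreducible_dvd (fun h => (EE_monic hR hx').ne_zero h.2) ?_
    intro Q hQ hQ1 hQ2
    obtain ⟨j, hj, P, hP, h4, h5⟩ := prime_EE hR hx' hQ hQ2
    by_cases hij : j = i
    · subst hij
      unfold PR at hx'
      rw [Finset.mem_product, Fintype.mem_piFinset, Fintype.mem_piFinset] at hx'
      have e1 := hx'.1 j
      have e2 := hx'.2 j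
      rw [hi, Finset.mem_singleton] at e1 e2
      rw [e1, e2, one_mul] at h5
      exact (mem_PP.1 hP).2.2.1.not_isUnit (isUnit_of_dvd_one h5)
    · have h6 := CC_spec hR hx' hpw hα c j
      exact no_common hcc hij hP (h4.dvd.trans (hj.trans h6)) (h4.dvd.trans hQ1)
  · -- the pointwise bound
    intro a ha
    rw [mem_Mn] at ha
    obtain ⟨ham, had⟩ := ha
    have hdeg : ∀ j, (α j * a ^ 2 + c j).natDegree = (α j).natDegree + 2 * d := by
      intro j
      have e1 : (α j * a ^ 2).natDegree = (α j).natDegree + 2 * d := by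
        rw [natDegree_mul (hα0 j) (pow_ne_zero 2 ham.ne_zero), natDegree_pow, had]
      have e2 : (c j).natDegree ≤ Dm3 := hDm3 j j
      rw [natDegree_add_eq_left_of_natDegree_lt (by rw [e1]; omega), e1]
    have hne : ∀ j, α j * a ^ 2 + c j ≠ 0 := by
      intro j h
      have := hdeg j
      rw [h, natDegree_zero] at this
      omega
    have hNz : ∀ j, (α j * a ^ 2 + c j).natDegree ≤ N * z := by
      intro j
      rw [hdeg j]
      have e1 : (α j).natDegree ≤ Dm2 := hDm2 j j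
      have e2 : (α j).natDegree + 2 * d ≤ 3 * d := by omega
      refine e2.trans ?_
      have e3 : (3 * d : ℝ) ≤ N * z := by
        have e4 : 3 / η ≤ (N : ℝ) := by
          rw [hNd]
          exact Nat.le_ceil _
        have e5 : (0 : ℝ) ≤ z := Nat.cast_nonneg _
        calc (3 * d : ℝ) = 3 / η * (η * d) := by field_simp
          _ ≤ 3 / η * z := by gcongr
          _ ≤ N * z := by gcongr
      exact_mod_cast e3
    refine (wV_le hT hR hy1 hz0 hne hNz).trans ?_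
    have e6 : (4 * ((T : ℝ) + 1)) ≤ 8 * d := by linarith
    have e7 : ((2 : ℝ) ^ N) ^ (2 * k) * 8 ^ (2 * k + 2) ≤ d := by exact_mod_cast g7
    calc (((2 : ℝ) ^ N) ^ k * (4 * ((T : ℝ) + 1)) ^ (k + 1)) ^ 2
        ≤ (((2 : ℝ) ^ N) ^ k * (8 * (d : ℝ)) ^ (k + 1)) ^ 2 := by gcongr
      _ = (((2 : ℝ) ^ N) ^ (2 * k) * 8 ^ (2 * k + 2)) * (d : ℝ) ^ (2 * k + 2) := by
          rw [mul_pow, ← pow_mul, ← pow_mul, mul_pow]
          ring
      _ ≤ d * (d : ℝ) ^ (2 * k + 2) := by gcongr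
      _ = (d : ℝ) ^ (2 * k + 3) := by ring
      _ ≤ (d : ℝ) ^ (5 * k + 5) := pow_le_pow_right₀ hdr (by omega)
  · refine (QQ_dia hselb hT hRR hR hy1 hy2).trans ?_
    have hqz : 0 < qq K ^ z := pow_pos hq0 _
    have e1 : ((4 * ((T : ℝ) + 1)) ^ (k + 1)) ^ 2 *
        ((k : ℝ) ^ 2 * (9 * (((T : ℝ) + 1) ^ 3) ^ k * ((T + 1) / qq K ^ z))) =
        (9 * (k : ℝ) ^ 2 * 4 ^ (2 * k + 2) * ((T : ℝ) + 1) ^ (5 * k + 3)) / qq K ^ z := by
      calc _ = (9 * (k : ℝ) ^ 2 * (((4 * ((T : ℝ) + 1)) ^ (k + 1)) ^ 2 * (((T : ℝ) + 1) ^ 3) ^ k) *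
          (T + 1)) / qq K ^ z := by ring
        _ = _ := by
          rw [hLW]
          ring
    rw [e1]
    have e2 : 9 * (k : ℝ) ^ 2 * 4 ^ (2 * k + 2) * ((T : ℝ) + 1) ^ (5 * k + 3) ≤
        qq K ^ ((z : ℝ) / 2) := by
      refine le_trans ?_ ((h3 d g3).trans hrd)
      gcongr
    unfold er
    rw [div_le_iff₀ hqz]
    have e3 : (Fintype.card K : ℝ) ^ (-(z : ℝ) / 2) * qq K ^ z = qq K ^ ((z : ℝ) / 2) := by
      rw [← Real.rpow_natCast (qq K) z, ← Real.rpow_add hq0]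
      congr 1
      ring
    rw [e3]
    exact e2

end Pool.Agent.H524.MT
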