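import Pool.Agent.H524.MT.StmV

set_option autoImplicit false
set_option linter.all false

open scoped Classical
open Finset Polynomial

namespace Pool.Agent.H524.MT

open Pool.Agent.H985.KP (PA)
open Pool.Agent.H694.Typ (Mn PU mem_Mn mem_PU q_ge sum_PU irn_one_le mem_Irn Irn coprime_of_ne)

namespace AprL

variable {K : Type} [Field K] [Fintype K]

lemma mon_of_irr {P : K[X]} (hP : Irreducible P) :
    ∃ Q : K[X], Q.Monic ∧ Irreducible Q ∧ Associated Q P ∧ Q.natDegree = P.natDegree := by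
  have h0 : P ≠ 0 := hP.ne_zero
  have hu : IsUnit (C (P.leadingCoeff)⁻¹ : K[X]) := by
    rw [isUnit_C]
    exact (inv_ne_zero (leadingCoeff_ne_zero.2 h0)).isUnit
  have ha : Associated (P * C (P.leadingCoeff)⁻¹) P := (associated_mul_unit_left P _ hu)
  refine ⟨P * C (P.leadingCoeff)⁻¹, monic_mul_leadingCoeff_inv h0, ha.symm.irreducible hP, ha, ?_⟩
  exact natDegree_mul_leadingCoeff_inv P h0

lemma crt_ex (s : Finset K[X]) (hs : ∀ P ∈ s, P.Monic ∧ Irreducible P) (b : K[X] → K[X]) :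
    ∃ a : K[X], ∀ P ∈ s, P ∣ a - b P := by
  induction s using Finset.induction_on with
  | empty => exact ⟨0, by simp⟩
  | insert P s hP ih =>
    obtain ⟨a, ha⟩ := ih (fun Q hQ => hs Q (mem_insert_of_mem hQ))
    have hc : IsCoprime P (∏ Q ∈ s, Q) := by
      apply IsCoprime.prod_right
      intro Q hQ
      have h1 := hs P (mem_insert_self _ _)
      have h2 := hs Q (mem_insert_of_mem hQ)
      exact coprime_of_ne h1.1 h1.2 h2.1 h2.2 (fun h => hP (h ▸ hQ))
    obtain ⟨u, v, huv⟩ := hc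
    refine ⟨a * (u * P) + b P * (v * ∏ Q ∈ s, Q), ?_⟩
    intro Q hQ
    rw [mem_insert] at hQ
    rcases hQ with rfl | hQ
    · exact ⟨(a - b Q) * u, by linear_combination b Q * huv⟩
    · have h1 : a * (u * P) + b P * (v * ∏ Q ∈ s, Q) - b Q =
          (a - b Q) + (∏ Q ∈ s, Q) * ((b P - a) * v) := by linear_combination a * huv
      rw [h1]
      exact dvd_add (ha Q hQ) (dvd_mul_of_dvd_left (dvd_prod_of_mem _ hQ) _)

/-- the monic irreducible divisors -/
noncomputable def pd (M : K[X]) : Finset K[X] := (PU K M.natDegree).filter (fun P => P ∣ M)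

lemma mem_pd {M : K[X]} (hM : M ≠ 0) {P : K[X]} :
    P ∈ pd M ↔ P.Monic ∧ Irreducible P ∧ P ∣ M := by
  unfold pd
  rw [mem_filter, mem_PU]
  constructor
  · rintro ⟨⟨h1, h2, h3⟩, h4⟩
    exact ⟨h1, h2, h4⟩
  · rintro ⟨h1, h2, h3⟩
    exact ⟨⟨h1, h2, natDegree_le_of_dvd h3 hM⟩, h3⟩

lemma Pm_pos {M : K[X]} (hM : M ≠ 0) : 0 < Pm M := by
  have h : PA M = (pd M : Set K[X]) := by
    ext P
    rw [mem_coe, mem_pd hM]
    rfl
  unfold Pm
  rw [h, finprod_mem_coe_finset]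
  apply prod_pos
  intro P hP
  have h1 := ((mem_pd hM).1 hP).2.1
  have h2 : 0 < P.natDegree := h1.natDegree_pos
  have hq := q_ge (k := K)
  have h3 : (1 : ℝ) < (Fintype.card K : ℝ) ^ P.natDegree := one_lt_pow₀ (by linarith) h2.ne'
  rw [sub_pos, div_lt_one (by linarith)]
  exact h3

lemma sum_inv_le (z : ℕ) : ∑ P ∈ PU K z, 1 / (Fintype.card K : ℝ) ^ P.natDegree ≤ 1 + Real.log z := by
  rw [sum_PU]
  have h : ∀ j ∈ Icc 1 z, ∑ P ∈ Irn K j, 1 / (Fintype.card K : ℝ) ^ P.natDegree ≤ ((j : ℝ))⁻¹ := by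
    intro j hj
    rw [mem_Icc] at hj
    rw [sum_congr rfl (fun P hP => by rw [(mem_Irn.1 hP).2.1]), sum_const, nsmul_eq_mul]
    have h1 : (j : ℝ) * (Irn K j).card ≤ (Fintype.card K : ℝ) ^ j := by
      exact_mod_cast irn_one_le (k := K) (d := j) (by omega)
    have hq := q_ge (k := K)
    have hpos : (0 : ℝ) < (Fintype.card K : ℝ) ^ j := by positivity
    have hj0 : (0 : ℝ) < j := by exact_mod_cast (by omega : 0 < j)
    rw [mul_one_div, div_le_iff₀ hpos, ← div_eq_inv_mul, le_div_iff₀ hj0]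
    linarith
  refine (sum_le_sum h).trans ?_
  have h2 := harmonic_le_one_add_log z
  rw [harmonic_eq_sum_Icc] at h2
  push_cast at h2
  exact h2

lemma one_sub_ge {x : ℝ} (h0 : 0 ≤ x) (h1 : x ≤ 1 / 2) : Real.exp (-(2 * x)) ≤ 1 - x := by
  rw [Real.exp_neg]
  have h2 := Real.add_one_le_exp (2 * x)
  have h3 : (0 : ℝ) < 2 * x + 1 := by linarith
  calc (Real.exp (2 * x))⁻¹ ≤ (2 * x + 1)⁻¹ := inv_anti₀ h3 h2
    _ ≤ 1 - x := by
        rw [inv_le_iff_one_le_mul₀ h3]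
        nlinarith

lemma VR_ge (M : K[X]) (z κ : ℕ) (r : K[X] → ℕ) (hr : ∀ P, r P ≤ κ)
    (hbig : ∀ P ∈ PS K M z, 16 * (κ + 2) ≤ Fintype.card K ^ P.natDegree) (hz : 1 ≤ z) :
    Real.exp (-(2 * κ)) / (z : ℝ) ^ (2 * κ) ≤ VR M z r := by
  have hq := q_ge (k := K)
  have h1 : ∏ P ∈ PS K M z, Real.exp (-(2 * (κ * (1 / (Fintype.card K : ℝ) ^ P.natDegree)))) ≤ VR M z r := by
    unfold VR
    apply prod_le_prod (fun P _ => (Real.exp_pos _).le)
    intro P hP
    have hb : (16 * ((κ : ℝ) + 2)) ≤ (Fintype.card K : ℝ) ^ P.natDegree := by exact_mod_cast hbig P hP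
    have hpos : (0 : ℝ) < (Fintype.card K : ℝ) ^ P.natDegree := by positivity
    have hk : (r P : ℝ) ≤ κ := by exact_mod_cast hr P
    have hle : (r P : ℝ) / (Fintype.card K : ℝ) ^ P.natDegree ≤ κ * (1 / (Fintype.card K : ℝ) ^ P.natDegree) := by
      rw [mul_one_div]
      gcongr
    have h5 : κ * (1 / (Fintype.card K : ℝ) ^ P.natDegree) ≤ 1 / 2 := by
      rw [mul_one_div, div_le_iff₀ hpos]
      have : (0 : ℝ) ≤ κ := by positivity
      linarith
    have h6 := one_sub_ge (x := κ * (1 / (Fintype.card K : ℝ) ^ P.natDegree)) (by positivity) h5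
    linarith
  refine le_trans ?_ h1
  rw [← Real.exp_sum]
  have h2 : ∑ P ∈ PS K M z, 1 / (Fintype.card K : ℝ) ^ P.natDegree ≤ 1 + Real.log z := by
    refine le_trans ?_ (sum_inv_le (K := K) z)
    apply sum_le_sum_of_subset_of_nonneg (filter_subset _ _)
    intro P _ _
    positivity
  have hz0 : (0 : ℝ) < z := by exact_mod_cast hz
  have h3 : Real.exp (-(2 * κ)) / (z : ℝ) ^ (2 * κ) = Real.exp (-(2 * κ * (1 + Real.log z))) := by
    have e1 : -(2 * (κ : ℝ) * (1 + Real.log z)) = -(2 * κ) - ((2 * κ : ℕ) : ℝ) * Real.log z := by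
      push_cast
      ring
    rw [e1, Real.exp_sub, Real.exp_nat_mul, Real.exp_log hz0]
  rw [h3, Real.exp_le_exp]
  have e2 : ∑ P ∈ PS K M z, -(2 * ((κ : ℝ) * (1 / (Fintype.card K : ℝ) ^ P.natDegree))) =
      -(2 * κ * ∑ P ∈ PS K M z, 1 / (Fintype.card K : ℝ) ^ P.natDegree) := by
    rw [sum_neg_distrib, mul_sum]
    congr 1
    apply sum_congr rfl
    intro P _
    ring
  rw [e2]
  have h4 : (0 : ℝ) ≤ 2 * κ := by positivity
  have h5 := mul_le_mul_of_nonneg_left h2 h4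
  linarith

lemma roots_le (G : K[X][X]) (P : K[X]) (hP : Irreducible P) (hl : ¬ P ∣ G.leadingCoeff)
    (S : Set K[X]) (hS : ∀ c ∈ S, c.degree < P.degree ∧ P ∣ G.eval c) : S.ncard ≤ G.natDegree := by
  haveI : Fact (Irreducible P) := ⟨hP⟩
  set φ := AdjoinRoot.mk P with hφ
  have hne : G.map φ ≠ 0 := by
    intro h
    apply hl
    have h1 : (G.map φ).coeff G.natDegree = 0 := by rw [h, coeff_zero]
    rw [coeff_map] at h1
    rw [hφ, AdjoinRoot.mk_eq_zero] at h1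
    exact h1
  have h2 : S.ncard ≤ ((G.map φ).roots.toFinset : Set (AdjoinRoot P)).ncard := by
    apply Set.ncard_le_ncard_of_injOn (fun c => φ c)
    · intro c hc
      rw [mem_coe, Multiset.mem_toFinset, mem_roots hne]
      show eval (φ c) (G.map φ) = 0
      rw [eval_map, eval₂_at_apply, hφ, AdjoinRoot.mk_eq_zero]
      exact (hS c hc).2
    · intro c hc c' hc' h
      have h3 : P ∣ c - c' := AdjoinRoot.mk_eq_mk.1 h
      have h4 : (c - c').degree < P.degree :=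
        lt_of_le_of_lt (degree_sub_le _ _) (max_lt (hS c hc).1 (hS c' hc').1)
      have h5 := eq_zero_of_dvd_of_degree_lt h3 h4
      exact sub_eq_zero.1 h5
  rw [Set.ncard_coe_finset] at h2
  exact h2.trans ((Multiset.toFinset_card_le _).trans ((card_roots' _).trans (natDegree_map_le)))

lemma mf {α : Type} (p : α → Prop) (inst : DecidablePred p) (s : Finset α) (a : α)
    (h : a ∈ @Finset.filter α p inst s) : a ∈ s ∧ p a := Finset.mem_filter.1 h

lemma ana (η c0 c1 : ℝ) (κ : ℕ) (hη : 0 < η) (hc0 : 0 < c0) (hc1 : 0 < c1) :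
    ∃ d1 : ℕ, ∀ d : ℕ, d1 ≤ d → 1 ≤ d ∧ (2 : ℝ) * (2 : ℝ) ^ (-(η * d) / 2) ≤ c1 / (8 * (d : ℝ) ^ (2 * κ)) ∧
      16 ≤ c0 * c1 * d := by
  set ρ : ℝ := (2 : ℝ) ^ (-η / 2) with hρ
  have hρ0 : 0 < ρ := Real.rpow_pos_of_pos (by norm_num) _
  have hρ1 : ρ < 1 := by
    rw [hρ]
    exact Real.rpow_lt_one_of_one_lt_of_neg (by norm_num) (by linarith)
  have ht := tendsto_pow_const_mul_const_pow_of_abs_lt_one (2 * κ) (r := ρ) (by
    rw [abs_of_pos hρ0]
    exact hρ1)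
  have hev := ht.eventually (gt_mem_nhds (show (0 : ℝ) < c1 / 16 by positivity))
  obtain ⟨d1, h1⟩ := Filter.eventually_atTop.1 hev
  refine ⟨max (max d1 1) ⌈16 / (c0 * c1)⌉₊, ?_⟩
  intro d hd
  have hd1 : d1 ≤ d := (le_max_left _ _).trans ((le_max_left _ _).trans hd)
  have hd2 : 1 ≤ d := (le_max_right _ _).trans ((le_max_left _ _).trans hd)
  have hd3 : ⌈16 / (c0 * c1)⌉₊ ≤ d := (le_max_right _ _).trans hd
  have hd0 : (0 : ℝ) < d := by exact_mod_cast hd2
  refine ⟨hd2, ?_, ?_⟩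
  · have h2 := h1 d hd1
    have h3 : (2 : ℝ) ^ (-(η * d) / 2) = ρ ^ d := by
      rw [hρ, ← Real.rpow_natCast, ← Real.rpow_mul (by norm_num)]
      congr 1
      ring
    rw [h3, le_div_iff₀ (by positivity)]
    nlinarith
  · have h4 := Nat.ceil_le.1 hd3
    rw [div_le_iff₀ (by positivity)] at h4
    linarith

end AprL

set_option maxHeartbeats 1000000 in
open AprL in
theorem apr : S_tapr := by
  intro hm hb K _ _ _ c G hc hadm
  obtain ⟨θ, hθ, h1⟩ := hm K
  obtain ⟨N, hN, h2⟩ := h1 c hc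
  set κ := G.natDegree with hκ
  have hG : G ≠ 0 := by
    rintro rfl
    obtain ⟨a, ha⟩ := hadm X irreducible_X
    apply ha
    simp
  have hGl : G.leadingCoeff ≠ 0 := leadingCoeff_ne_zero.2 hG
  obtain ⟨A, hA, h3⟩ := hb K (κ + 2)
  set w := 16 * (κ + 2) with hw
  set M := N * (∏ P ∈ PU K w, P) * (G.leadingCoeff * C (G.leadingCoeff.leadingCoeff)⁻¹) with hM
  have hMm : M.Monic := (hN.mul (monic_prod_of_monic _ _ (fun P hP => (mem_PU.1 hP).1))).mul
    (monic_mul_leadingCoeff_inv hGl)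
  have hNM : N ∣ M := dvd_mul_of_dvd_left (dvd_mul_right _ _) _
  have hbig : ∀ P : K[X], P.Monic → Irreducible P → ¬ P ∣ M →
      16 * (κ + 2) ≤ Fintype.card K ^ P.natDegree := by
    intro P hP hi hd
    by_contra hlt
    push Not at hlt
    apply hd
    have h4 : P.natDegree ≤ w := (Nat.lt_pow_self Fintype.one_lt_card).le.trans hlt.le
    have h5 : P ∈ PU K w := mem_PU.2 ⟨hP, hi, h4⟩
    exact dvd_mul_of_dvd_left (dvd_mul_of_dvd_right (dvd_prod_of_mem _ h5) _) _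
  have hlead : ∀ P : K[X], ¬ P ∣ M → ¬ P ∣ G.leadingCoeff :=
    fun P h h' => h (dvd_mul_of_dvd_right (dvd_mul_of_dvd_left h' _) _)
  choose! b hb' using hadm
  obtain ⟨a0, ha0⟩ := crt_ex (pd M) (fun P hP =>
    ⟨((mem_pd hMm.ne_zero).1 hP).1, ((mem_pd hMm.ne_zero).1 hP).2.1⟩) b
  have e1 : ∀ x, ((X ^ 2 + C c : K[X][X]) * G).eval x = (x ^ 2 + c) * G.eval x := by
    intro x
    simp
  have ha0' : ∀ P : K[X], P.Monic → Irreducible P → P ∣ M → ¬ P ∣ (a0 ^ 2 + c) * G.eval a0 := by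
    intro P hP hi hd h
    have hPa := ha0 P ((mem_pd hMm.ne_zero).2 ⟨hP, hi, hd⟩)
    apply hb' P hi
    have h5 : P ∣ ((X ^ 2 + C c : K[X][X]) * G).eval a0 - ((X ^ 2 + C c : K[X][X]) * G).eval (b P) :=
      hPa.trans (sub_dvd_eval_sub a0 (b P) _)
    rw [e1, e1] at h5
    exact (dvd_sub_right h).1 h5
  set Rt : K[X] → K[X] → Prop := fun P a =>
    (P.Monic ∧ Irreducible P ∧ ¬ P ∣ M) ∧ P ∣ G.eval a ∧ ¬ P ∣ a ^ 2 + c with hRt
  set r : K[X] → ℕ := fun P => {u : K[X] | u.degree < P.degree ∧ Rt P u}.ncard with hr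
  have hLoc : Loc M Rt r κ := by
    refine ⟨?_, ?_, ?_, hbig⟩
    · intro P a u
      have h4 : P ∣ G.eval (a + P * u) - G.eval a := by
        refine dvd_trans ?_ (sub_dvd_eval_sub (a + P * u) a G)
        exact ⟨u, by ring⟩
      have h5 : P ∣ ((a + P * u) ^ 2 + c) - (a ^ 2 + c) := ⟨u * (2 * a + P * u), by ring⟩
      have h6 : P ∣ G.eval (a + P * u) ↔ P ∣ G.eval a := dvd_iff_dvd_of_dvd_sub h4
      have h7 : P ∣ (a + P * u) ^ 2 + c ↔ P ∣ a ^ 2 + c := dvd_iff_dvd_of_dvd_sub h5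
      simp only [hRt, h6, h7]
    · intro P _ _ _
      rfl
    · intro P
      by_cases hP : P.Monic ∧ Irreducible P ∧ ¬ P ∣ M
      · exact roots_le G P hP.2.1 (hlead P hP.2.2) _ (fun u hu => ⟨hu.1, hu.2.2.1⟩)
      · have h4 : {u : K[X] | u.degree < P.degree ∧ Rt P u} = ∅ := by
          ext u
          simp only [Set.mem_setOf_eq, Set.mem_empty_iff_false, iff_false]
          rintro ⟨_, h5⟩
          exact hP h5.1
        simp only [hr, h4, Set.ncard_empty]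
        exact Nat.zero_le _
  have hA0 : (0 : ℝ) < A := by exact_mod_cast hA
  have hA1 : (1 : ℝ) ≤ A := by exact_mod_cast hA
  set θ' := min θ 1 with hθ'
  have hθ0 : 0 < θ' := lt_min hθ one_pos
  have hθ1 : θ' ≤ 1 := min_le_right _ _
  have hθ2 : θ' ≤ θ := min_le_left _ _
  set η := θ' / (4 * A) with hη
  have hη0 : 0 < η := by positivity
  have hη1 : η ≤ 1 / 4 := by
    rw [hη, div_le_iff₀ (by positivity)]
    nlinarith
  have hAη : A * η = θ' / 4 := by
    rw [hη]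
    field_simp
  obtain ⟨d0, h4⟩ := h2 κ η M Rt r hη0 hMm hNM hLoc (fun P _ _ _ a h => h.2.2)
  have hPm := Pm_pos hMm.ne_zero
  have hq := q_ge (k := K)
  have hq0 : (0 : ℝ) < Fintype.card K := by linarith
  set c0 : ℝ := 1 / ((Fintype.card K : ℝ) ^ M.natDegree * Pm M) with hc0
  have hc00 : 0 < c0 := by positivity
  set c1 : ℝ := Real.exp (-(2 * κ)) with hc1
  have hc10 : 0 < c1 := Real.exp_pos _
  obtain ⟨d1, h5⟩ := ana η c0 c1 κ hη0 hc00 hc10
  have hcop : IsCoprime (a0 ^ 2 + c) M := by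
    apply isCoprime_of_irreducible_dvd
    · rintro ⟨_, h⟩
      exact hMm.ne_zero h
    · intro P hP hd hd'
      obtain ⟨Q, hQm, hQi, hQa, _⟩ := mon_of_irr hP
      exact ha0' Q hQm hQi (hQa.dvd.trans hd') (dvd_mul_of_dvd_left (hQa.dvd.trans hd) _)
  refine ⟨η, 2 * κ + 2, max (max d0 d1) (max (⌈2 * A / θ'⌉₊) (c.natDegree + 2)), hη0, ?_⟩
  intro d hd
  have hd0 : d0 ≤ d := (le_max_left _ _).trans ((le_max_left _ _).trans hd)
  have hd1 : d1 ≤ d := (le_max_right _ _).trans ((le_max_left _ _).trans hd)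
  have hd2 : ⌈2 * A / θ'⌉₊ ≤ d := (le_max_left _ _).trans ((le_max_right _ _).trans hd)
  have hd3 : c.natDegree + 2 ≤ d := (le_max_right _ _).trans ((le_max_right _ _).trans hd)
  obtain ⟨hd1', h6, h7⟩ := h5 d hd1
  have hdpos : (0 : ℝ) < d := by exact_mod_cast hd1'
  have hd2' : (2 : ℝ) ≤ d := by exact_mod_cast (by omega : 2 ≤ d)
  have h8 : 2 * (A : ℝ) ≤ θ' * d := by
    have := Nat.ceil_le.1 hd2
    rw [div_le_iff₀ hθ0] at this
    linarith
  set z := ⌈η * d⌉₊ with hz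
  have hz0 : η * d ≤ z := Nat.le_ceil _
  have hz2 : (z : ℝ) < η * d + 1 := Nat.ceil_lt_add_one (by positivity)
  have hz1 : 1 ≤ z := by
    rw [hz, Nat.one_le_ceil_iff]
    positivity
  have hzd : (z : ℝ) ≤ d := by nlinarith
  have hzd' : z ≤ d := by exact_mod_cast hzd
  obtain ⟨Vm, Vp, hBH⟩ := h3 z hz1
  have hAz : ((A * z + 0 : ℕ) : ℝ) ≤ θ * d := by
    push_cast
    nlinarith
  have hRW : RW (K := K) z 0 1 ({()} : Finset Unit) (fun _ => (1 : K[X])) (fun _ => 0) (fun _ => 1) := by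
    refine ⟨fun _ _ => monic_one, fun _ _ => squarefree_one, ?_, ?_, ?_, ?_, ?_⟩
    · intro _ _ P hP
      exact absurd (isUnit_of_dvd_one hP.2.2) hP.2.1.not_isUnit
    · intro _ _
      simp
    · simp
    · simp
    · intro a
      simp [rwt]
  have key := h4 a0 d z A 0 1 Vm Vp Unit {()} (fun _ => 1) (fun _ => 0) (fun _ => 1) hcop hd0 hA hBH hz0
    hAz hRW (fun _ _ => isCoprime_one_right)
  have hQQ : QQ (K := K) ({()} : Finset Unit) (fun _ => (1 : K[X])) (fun _ => 1) = 1 := by simp [QQ]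
  have hrw : ∀ a : K[X], rwt ({()} : Finset Unit) (fun _ => (1 : K[X])) (fun _ => 0) (fun _ => 1) a = 1 := by
    intro a
    simp [rwt]
  rw [hQQ] at key
  simp only [hrw, sum_const, nsmul_eq_mul, mul_one] at key
  obtain ⟨S, hS, hkey⟩ : ∃ S : Finset K[X],
      (∀ a ∈ S, a ∈ Ac K d M a0 ∧ Irreducible (a ^ 2 + c) ∧ ∀ P ∈ PS K M z, ¬ Rt P a) ∧
      (Fintype.card K : ℝ) ^ d / ((Fintype.card K : ℝ) ^ M.natDegree * Pm M) *
        (VR M z r / 4 - (1 + 1) * er K z) ≤ 2 * (d : ℝ) * (S.card : ℝ) := by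
    refine ⟨_, ?_, key⟩
    intro a ha
    exact mf _ _ _ _ ha
  clear key
  have hsub : S ⊆ (Mn K d).filter (fun a => Irreducible (a ^ 2 + c) ∧
          ∀ P : K[X], Irreducible P → P ∣ G.eval a → η * d ≤ P.natDegree) := by
    intro a ha
    rw [mem_filter]
    obtain ⟨ha1, ha2, ha3⟩ := hS a ha
    unfold Ac at ha1
    rw [mem_filter] at ha1
    refine ⟨ha1.1, ha2, ?_⟩
    intro P' hP' hdvd'
    obtain ⟨P, hPm', hPi, hPa, hPd⟩ := mon_of_irr hP'
    rw [← hPd]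
    have hdvd : P ∣ G.eval a := hPa.dvd.trans hdvd'
    by_contra hlt
    push Not at hlt
    have hlt' : (P.natDegree : ℝ) ≤ z := hlt.le.trans hz0
    have hlt2 : P.natDegree ≤ z := by exact_mod_cast hlt'
    have hPM : ¬ P ∣ M := by
      intro hPM
      apply ha0' P hPm' hPi hPM
      apply dvd_mul_of_dvd_right
      have h9 : P ∣ G.eval a - G.eval a0 := (hPM.trans ha1.2).trans (sub_dvd_eval_sub a a0 G)
      exact (dvd_sub_right hdvd).1 h9
    have hPS : P ∈ PS K M z := by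
      unfold PS
      rw [mem_filter, mem_PU]
      exact ⟨⟨hPm', hPi, hlt2⟩, hPM⟩
    have h10 : P ∣ a ^ 2 + c := by
      by_contra hn
      exact ha3 P hPS ⟨⟨hPm', hPi, hPM⟩, hdvd, hn⟩
    have h11 : a ^ 2 + c ∣ P := hPi.dvd_symm ha2 h10
    have h12 := natDegree_le_of_dvd h11 hPi.ne_zero
    have hMn := mem_Mn.1 ha1.1
    have h13 : (a ^ 2 + c).natDegree = 2 * d := by
      rw [natDegree_add_eq_left_of_natDegree_lt]
      · rw [hMn.1.natDegree_pow, hMn.2]
      · rw [hMn.1.natDegree_pow, hMn.2]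
        omega
    omega
  have hcard : (S.card : ℝ) ≤
      (((Mn K d).filter (fun a => Irreducible (a ^ 2 + c) ∧
          ∀ P : K[X], Irreducible P → P ∣ G.eval a → η * d ≤ P.natDegree)).card : ℝ) := by
    exact_mod_cast card_le_card hsub
  refine le_trans ?_ hcard
  have hVR : c1 / (d : ℝ) ^ (2 * κ) ≤ VR M z r := by
    have h9 := VR_ge M z κ r hLoc.bd (fun P hP => by
      unfold PS at hP
      rw [mem_filter, mem_PU] at hP
      exact hbig P hP.1.1 hP.1.2.1 hP.2) hz1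
    refine le_trans ?_ h9
    have hz00 : (0 : ℝ) < z := by exact_mod_cast hz1
    gcongr
  have her : er K z ≤ (2 : ℝ) ^ (-(η * d) / 2) := by
    unfold er
    calc (Fintype.card K : ℝ) ^ (-(z : ℝ) / 2) ≤ (2 : ℝ) ^ (-(z : ℝ) / 2) := by
          apply Real.rpow_le_rpow_of_nonpos (by norm_num) hq
          have : (0 : ℝ) ≤ z := by positivity
          linarith
      _ ≤ (2 : ℝ) ^ (-(η * d) / 2) := by
          apply Real.rpow_le_rpow_of_exponent_le (by norm_num)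
          linarith
  have h9 : c1 / (8 * (d : ℝ) ^ (2 * κ)) ≤ VR M z r / 4 - (1 + 1) * er K z := by
    have e2 : c1 / (d : ℝ) ^ (2 * κ) = 8 * (c1 / (8 * (d : ℝ) ^ (2 * κ))) := by
      field_simp
    rw [e2] at hVR
    linarith
  have h10 : (Fintype.card K : ℝ) ^ d / ((Fintype.card K : ℝ) ^ M.natDegree * Pm M) =
      (Fintype.card K : ℝ) ^ d * c0 := by
    rw [hc0]
    ring
  have hqd : (0 : ℝ) < (Fintype.card K : ℝ) ^ d := by positivity
  have h11 : (Fintype.card K : ℝ) ^ d * c0 * (c1 / (8 * (d : ℝ) ^ (2 * κ))) ≤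
      2 * (d : ℝ) * (S.card : ℝ) := by
    refine le_trans ?_ hkey
    rw [h10]
    have h16 := (mul_pos hqd hc00).le
    exact mul_le_mul_of_nonneg_left h9 h16
  have h12 : (Fintype.card K : ℝ) ^ d / (d : ℝ) ^ (2 * κ + 2) * (2 * d) ≤
      (Fintype.card K : ℝ) ^ d * c0 * (c1 / (8 * (d : ℝ) ^ (2 * κ))) := by
    have e3 : (Fintype.card K : ℝ) ^ d * c0 * (c1 / (8 * (d : ℝ) ^ (2 * κ))) =
        (Fintype.card K : ℝ) ^ d / (d : ℝ) ^ (2 * κ + 2) * (c0 * c1 * d * d / 8) := by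
      have hdne : (d : ℝ) ≠ 0 := hdpos.ne'
      generalize (Fintype.card K : ℝ) ^ d = Y
      generalize c0 = y0
      generalize c1 = y1
      field_simp
      ring
    rw [e3]
    apply mul_le_mul_of_nonneg_left _ (by positivity)
    have h15 := mul_le_mul_of_nonneg_right h7 hdpos.le
    linarith
  have h13 := h12.trans h11
  have h14 : (0 : ℝ) < 2 * d := by positivity
  rw [mul_comm (2 * (d : ℝ))] at h13
  exact le_of_mul_le_mul_right h13 h14

end Pool.Agent.H524.MT
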