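import Mathlib
import Pool.Agent.H524.MT.StmV

/-!
# Maynard-Tao for `T ^ 2 + c`: the densities
-/

namespace Pool.Agent.H524.MT.May

open Polynomial
open scoped Classical
open Pool.Agent.H985.KP (PA)
open Pool.Agent.H694.Typ (Mn PU mem_PU mem_Mn)
open Pool.Agent.H524.MT

variable {K : Type} [Field K] [Fintype K]

theorem one_lt_x {P : K[X]} (hI : Irreducible P) : (1 : ℝ) < (Fintype.card K : ℝ) ^ P.natDegree :=
  one_lt_pow₀ (by exact_mod_cast (Fintype.one_lt_card (α := K))) hI.natDegree_pos.ne'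

theorem bern {x : ℝ} {k : ℕ} (hx : 16 * ((k : ℝ) + 2) ≤ x) : (1 - 1 / x) ^ (2 * k) ≤ 1 - k / x := by
  have hk : (0 : ℝ) ≤ k := Nat.cast_nonneg k
  have hx0 : 0 < x := by linarith
  have h1 : (1 - 1 / x) ^ (2 * k) * (1 + 1 / x) ^ (2 * k) ≤ 1 := by
    rw [← mul_pow]
    refine pow_le_one₀ ?_ ?_
    · have : 1 / x ≤ 1 := by rw [div_le_one hx0]; linarith
      have h0 : 0 < 1 / x := by positivity
      nlinarith
    · have h0 : 0 < 1 / x := by positivity
      nlinarith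
  have h2 : 1 + (2 * k : ℕ) * (1 / x) ≤ (1 + 1 / x) ^ (2 * k) :=
    one_add_mul_le_pow (by have : 0 < 1 / x := by positivity
                           linarith) _
  have h3 : 0 ≤ (1 - 1 / x) ^ (2 * k) := by
    refine pow_nonneg ?_ _
    have : 1 / x ≤ 1 := by rw [div_le_one hx0]; linarith
    linarith
  have h4 : (1 - 1 / x) ^ (2 * k) * (1 + (2 * k : ℕ) * (1 / x)) ≤ 1 :=
    (mul_le_mul_of_nonneg_left h2 h3).trans h1
  obtain ⟨t, ht⟩ : ∃ t : ℝ, t = k / x := ⟨_, rfl⟩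
  have ht0 : 0 ≤ t := by rw [ht]; positivity
  have ht1 : 2 * t ≤ 1 := by
    rw [ht, mul_div_assoc', div_le_one hx0]
    linarith
  have e : ((2 * k : ℕ) : ℝ) * (1 / x) = 2 * t := by rw [ht]; push_cast; ring
  rw [e] at h4
  rw [← ht]
  have h5 : 1 ≤ (1 - t) * (1 + 2 * t) := by nlinarith
  have h6 : 0 < 1 + 2 * t := by linarith
  have h7 : (1 - 1 / x) ^ (2 * k) * (1 + 2 * t) ≤ (1 - t) * (1 + 2 * t) := h4.trans h5
  exact le_of_mul_le_mul_right h7 h6

/-- The lower bound of the product of the densities. -/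
theorem VR_lower {k n : ℕ} (hn : n ≤ k) {M : K[X]} {z : ℕ}
    (hM : ∀ P : K[X], P.Monic → Irreducible P → ¬ P ∣ M →
      16 * (k + 2) ≤ Fintype.card K ^ P.natDegree) :
    (∏ P ∈ PU K z, (1 - 1 / (Fintype.card K : ℝ) ^ P.natDegree)) ^ (2 * k) ≤
      VR M z (fun _ => n) := by
  rw [← Finset.prod_pow]
  have hx : ∀ P ∈ PU K z, (0 : ℝ) ≤ 1 - 1 / (Fintype.card K : ℝ) ^ P.natDegree ∧
      1 - 1 / (Fintype.card K : ℝ) ^ P.natDegree ≤ 1 := by
    intro P hP
    have h1 := one_lt_x (mem_PU.1 hP).2.1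
    have h2 : 1 / (Fintype.card K : ℝ) ^ P.natDegree ≤ 1 := by
      rw [div_le_one (by linarith)]; exact h1.le
    have h3 : 0 ≤ 1 / (Fintype.card K : ℝ) ^ P.natDegree := by positivity
    constructor <;> linarith
  rw [← Finset.prod_filter_mul_prod_filter_not (PU K z) (fun P => ¬ P ∣ M)]
  have h1 : ∏ P ∈ (PU K z).filter (fun P => ¬ ¬ P ∣ M),
      (1 - 1 / (Fintype.card K : ℝ) ^ P.natDegree) ^ (2 * k) ≤ 1 := by
    refine Finset.prod_le_one ?_ ?_
    · intro P hP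
      exact pow_nonneg (hx P (Finset.mem_filter.1 hP).1).1 _
    · intro P hP
      exact pow_le_one₀ (hx P (Finset.mem_filter.1 hP).1).1 (hx P (Finset.mem_filter.1 hP).1).2
  have h2 : ∏ P ∈ (PU K z).filter (fun P => ¬ P ∣ M),
      (1 - 1 / (Fintype.card K : ℝ) ^ P.natDegree) ^ (2 * k) ≤ VR M z (fun _ => n) := by
    unfold VR PS
    refine Finset.prod_le_prod ?_ ?_
    · intro P hP
      exact pow_nonneg (hx P (Finset.mem_filter.1 hP).1).1 _
    · intro P hP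
      rw [Finset.mem_filter, mem_PU] at hP
      have h3 : 16 * ((k : ℝ) + 2) ≤ (Fintype.card K : ℝ) ^ P.natDegree := by
        exact_mod_cast hM P hP.1.1 hP.1.2.1 hP.2
      refine (bern h3).trans ?_
      have h4 : (n : ℝ) / (Fintype.card K : ℝ) ^ P.natDegree ≤
          (k : ℝ) / (Fintype.card K : ℝ) ^ P.natDegree := by
        have : (n : ℝ) ≤ k := by exact_mod_cast hn
        gcongr
      linarith
  have h3 : 0 ≤ ∏ P ∈ (PU K z).filter (fun P => ¬ P ∣ M),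
      (1 - 1 / (Fintype.card K : ℝ) ^ P.natDegree) ^ (2 * k) :=
    Finset.prod_nonneg fun P hP => pow_nonneg (hx P (Finset.mem_filter.1 hP).1).1 _
  calc _ ≤ (∏ P ∈ (PU K z).filter (fun P => ¬ P ∣ M),
      (1 - 1 / (Fintype.card K : ℝ) ^ P.natDegree) ^ (2 * k)) * 1 :=
        mul_le_mul_of_nonneg_left h1 h3
    _ ≤ _ := by rw [mul_one]; exact h2

theorem VR_le_one {k n : ℕ} (hn : n ≤ k) {M : K[X]} {z : ℕ}
    (hM : ∀ P : K[X], P.Monic → Irreducible P → ¬ P ∣ M →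
      16 * (k + 2) ≤ Fintype.card K ^ P.natDegree) : VR M z (fun _ => n) ≤ 1 := by
  unfold VR PS
  refine Finset.prod_le_one ?_ ?_
  · intro P hP
    rw [Finset.mem_filter, mem_PU] at hP
    have h3 : 16 * ((k : ℝ) + 2) ≤ (Fintype.card K : ℝ) ^ P.natDegree := by
      exact_mod_cast hM P hP.1.1 hP.1.2.1 hP.2
    have hk : (0 : ℝ) ≤ k := Nat.cast_nonneg k
    have : (n : ℝ) ≤ k := by exact_mod_cast hn
    rw [sub_nonneg, div_le_one (by linarith)]
    linarith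
  · intro P _
    have : 0 ≤ (n : ℝ) / (Fintype.card K : ℝ) ^ P.natDegree := by positivity
    linarith

theorem Pm_eq {M : K[X]} (hM : M.Monic) {z : ℕ} (hz : M.natDegree ≤ z) :
    Pm M = ∏ P ∈ (PU K z).filter (fun P => P ∣ M), (1 - 1 / (Fintype.card K : ℝ) ^ P.natDegree) := by
  unfold Pm
  have h : PA M = (((PU K z).filter (fun P => P ∣ M) : Finset K[X]) : Set K[X]) := by
    ext P
    rw [Finset.mem_coe, Finset.mem_filter, mem_PU]
    constructor
    · rintro ⟨h1, h2, h3⟩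
      exact ⟨⟨h1, h2, (natDegree_le_of_dvd h3 hM.ne_zero).trans hz⟩, h3⟩
    · rintro ⟨⟨h1, h2, -⟩, h3⟩
      exact ⟨h1, h2, h3⟩
  rw [h, finprod_mem_coe_finset]

theorem Pm_bd {M : K[X]} (hM : M.Monic) : 0 < Pm M ∧ Pm M ≤ 1 := by
  rw [Pm_eq hM le_rfl]
  constructor
  · refine Finset.prod_pos fun P hP => ?_
    rw [Finset.mem_filter, mem_PU] at hP
    have h1 := one_lt_x hP.1.2.1
    rw [sub_pos, div_lt_one (by linarith)]
    exact h1
  · refine Finset.prod_le_one ?_ ?_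
    · intro P hP
      rw [Finset.mem_filter, mem_PU] at hP
      have h1 := one_lt_x hP.1.2.1
      rw [sub_nonneg, div_le_one (by linarith)]
      exact h1.le
    · intro P _
      have : 0 ≤ 1 / (Fintype.card K : ℝ) ^ P.natDegree := by positivity
      linarith

/-- The comparison of the densities. -/
theorem VR_comp {k : ℕ} (hk : 1 ≤ k) {M : K[X]} (hMm : M.Monic) {z : ℕ} (hz : M.natDegree ≤ z)
    (hM : ∀ P : K[X], P.Monic → Irreducible P → ¬ P ∣ M →
      16 * (k + 2) ≤ Fintype.card K ^ P.natDegree)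
    (hL : (z : ℝ) ≤ ∏ P ∈ PU K z, (1 - 1 / (Fintype.card K : ℝ) ^ P.natDegree)⁻¹) :
    (z : ℝ) * Pm M * VR M z (fun _ => k) ≤ VR M z (fun _ => k - 1) := by
  rw [Pm_eq hMm hz]
  have hx : ∀ P ∈ PU K z, (0 : ℝ) < 1 - 1 / (Fintype.card K : ℝ) ^ P.natDegree := by
    intro P hP
    have h1 := one_lt_x (mem_PU.1 hP).2.1
    rw [sub_pos, div_lt_one (by linarith)]
    exact h1
  rw [← Finset.prod_filter_mul_prod_filter_not (PU K z) (fun P => P ∣ M)] at hL
  obtain ⟨A, hA⟩ : ∃ A : ℝ, A = ∏ P ∈ (PU K z).filter (fun P => P ∣ M),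
    (1 - 1 / (Fintype.card K : ℝ) ^ P.natDegree) := ⟨_, rfl⟩
  have hA0 : 0 < A := by
    rw [hA]
    exact Finset.prod_pos fun P hP => hx P (Finset.mem_filter.1 hP).1
  have hA' : ∏ P ∈ (PU K z).filter (fun P => P ∣ M),
    (1 - 1 / (Fintype.card K : ℝ) ^ P.natDegree)⁻¹ = A⁻¹ := by
    rw [hA, Finset.prod_inv_distrib]
  obtain ⟨W, hW⟩ : ∃ W : ℝ, W = ∏ P ∈ (PU K z).filter (fun P => ¬ P ∣ M),
    (1 - 1 / (Fintype.card K : ℝ) ^ P.natDegree)⁻¹ := ⟨_, rfl⟩
  rw [hA', ← hW] at hL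
  rw [← hA]
  have h1 : (z : ℝ) * A ≤ W := by
    calc (z : ℝ) * A ≤ (A⁻¹ * W) * A := mul_le_mul_of_nonneg_right hL hA0.le
      _ = W := by field_simp
  have hV : 0 ≤ VR M z (fun _ => k) := by
    unfold VR PS
    refine Finset.prod_nonneg fun P hP => ?_
    rw [Finset.mem_filter, mem_PU] at hP
    have h3 : 16 * ((k : ℝ) + 2) ≤ (Fintype.card K : ℝ) ^ P.natDegree := by
      exact_mod_cast hM P hP.1.1 hP.1.2.1 hP.2
    have hk : (0 : ℝ) ≤ k := Nat.cast_nonneg k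
    rw [sub_nonneg, div_le_one (by linarith)]
    linarith
  refine (mul_le_mul_of_nonneg_right h1 hV).trans ?_
  rw [hW]
  unfold VR PS
  rw [← Finset.prod_mul_distrib]
  refine Finset.prod_le_prod ?_ ?_
  · intro P hP
    have h2 := hx P (Finset.mem_filter.1 hP).1
    rw [Finset.mem_filter, mem_PU] at hP
    have h3 : 16 * ((k : ℝ) + 2) ≤ (Fintype.card K : ℝ) ^ P.natDegree := by
      exact_mod_cast hM P hP.1.1 hP.1.2.1 hP.2
    have hk : (0 : ℝ) ≤ k := Nat.cast_nonneg k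
    refine mul_nonneg (inv_nonneg.2 h2.le) ?_
    rw [sub_nonneg, div_le_one (by linarith)]
    linarith
  · intro P hP
    have h2 := hx P (Finset.mem_filter.1 hP).1
    rw [Finset.mem_filter, mem_PU] at hP
    have h3 : 16 * ((k : ℝ) + 2) ≤ (Fintype.card K : ℝ) ^ P.natDegree := by
      exact_mod_cast hM P hP.1.1 hP.1.2.1 hP.2
    have hk0 : (0 : ℝ) ≤ k := Nat.cast_nonneg k
    have hk1 : (1 : ℝ) ≤ k := by exact_mod_cast hk
    obtain ⟨x, hx'⟩ : ∃ x : ℝ, x = (Fintype.card K : ℝ) ^ P.natDegree := ⟨_, rfl⟩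
    rw [← hx'] at h2 h3 ⊢
    have hx0 : 0 < x := by linarith
    rw [inv_mul_le_iff₀ h2, Nat.cast_sub hk, Nat.cast_one]
    have e1 : (1 - 1 / x) * (1 - ((k : ℝ) - 1) / x) = 1 - k / x + (k - 1) / x ^ 2 := by
      field_simp
      ring
    rw [e1]
    have : 0 ≤ ((k : ℝ) - 1) / x ^ 2 := by
      apply div_nonneg _ (by positivity)
      linarith
    linarith

/-- The small error. -/
theorem er_le {η : ℝ} {d z : ℕ} (hz : η * d ≤ z) : er K z ≤ ((2 : ℝ) ^ (-η / 2)) ^ d := by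
  unfold er
  have hq : (2 : ℝ) ≤ (Fintype.card K : ℝ) := by
    exact_mod_cast (Fintype.one_lt_card (α := K))
  calc (Fintype.card K : ℝ) ^ (-(z : ℝ) / 2) ≤ (2 : ℝ) ^ (-(z : ℝ) / 2) := by
        apply Real.rpow_le_rpow_of_nonpos (by norm_num) hq
        have : (0 : ℝ) ≤ z := Nat.cast_nonneg z
        linarith
    _ ≤ (2 : ℝ) ^ (-η / 2 * d) := by
        apply Real.rpow_le_rpow_of_exponent_le (by norm_num)
        linarith
    _ = ((2 : ℝ) ^ (-η / 2)) ^ d := by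
        rw [Real.rpow_mul (by norm_num), Real.rpow_natCast]

end Pool.Agent.H524.MT.May
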