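import Mathlib
import Pool.Agent.H524.MT.MayA
import Pool.Agent.H524.MT.MayB

/-!
# Maynard-Tao for `T ^ 2 + c`: the assembly
-/

namespace Pool.Agent.H524.MT.May

open Polynomial
open scoped Classical
open Pool.Agent.H985.KP (PA)
open Pool.Agent.H694.Typ (Mn PU mem_PU mem_Mn)
open Pool.Agent.H524.MT

theorem fin_ineq {Q m₀ P V V' e B Wm Ds Λ T z d m k W Nn SS sQ qf : ℝ} (hQ : 0 < Q) (hm₀ : 0 < m₀)
    (hP : 0 < P) (hV : 0 ≤ V) (hV1 : V ≤ 1) (hV' : 0 ≤ V') (hV'1 : V' ≤ 1) (he : 0 ≤ e)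
    (hDs : 1 ≤ Ds) (hz : 0 < z) (hd : 0 < d) (hm : 0 ≤ m) (hk : 0 ≤ k)
    (h1 : Q / (m₀ * P) * (V' * sQ / 4 - k * (B + 1) * e) ≤ 2 * d * SS)
    (h2 : Λ * (T / z) * Ds - k * e ≤ sQ)
    (h3 : SS ≤ m * W + k * Wm * Nn)
    (h4 : W ≤ Q / m₀ * (2 * V * qf)) (h5 : qf ≤ Ds + e)
    (h6 : z * P * V ≤ V') (h7 : (4 * m + 1) * d ≤ Λ * T / 4)
    (h8 : (4 * d * m + k * (B + 2) / P) * e ≤ V * d / 2) :
    Q / m₀ * (V * d / 2) ≤ 2 * d * (k * Wm * Nn) := by
  obtain ⟨G, hG⟩ : ∃ G : ℝ, G = Q / m₀ := ⟨_, rfl⟩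
  have hG0 : 0 < G := by rw [hG]; positivity
  have eG : Q / (m₀ * P) = G / P := by rw [hG]; field_simp
  rw [eG] at h1
  rw [← hG] at h4 ⊢
  have hLT : 0 ≤ Λ * T := by nlinarith
  have hL : 0 ≤ Λ * (T / z) * Ds := by
    have : Λ * (T / z) = Λ * T / z := by ring
    rw [this]
    positivity
  have s0 : 0 ≤ k * e := by positivity
  have s1 : P * V * (Λ * T) * Ds / 4 - k * e ≤ V' * sQ / 4 := by
    have e1 : V' * (Λ * (T / z) * Ds - k * e) ≤ V' * sQ := mul_le_mul_of_nonneg_left h2 hV'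
    have e2 : (z * P * V) * (Λ * (T / z) * Ds) ≤ V' * (Λ * (T / z) * Ds) :=
      mul_le_mul_of_nonneg_right h6 hL
    have e3 : (z * P * V) * (Λ * (T / z) * Ds) = P * V * (Λ * T) * Ds := by field_simp
    have e4 : V' * (k * e) ≤ 1 * (k * e) := mul_le_mul_of_nonneg_right hV'1 s0
    nlinarith
  have s2 : G / P * (P * V * (Λ * T) * Ds / 4 - k * (B + 2) * e) ≤ 2 * d * SS := by
    refine le_trans ?_ h1
    refine mul_le_mul_of_nonneg_left ?_ (by positivity)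
    nlinarith
  have s3 : G / P * (P * V * (Λ * T) * Ds / 4 - k * (B + 2) * e) =
      G * (V * (Λ * T) * Ds / 4 - k * (B + 2) / P * e) := by field_simp
  rw [s3] at s2
  have s4 : 2 * d * SS ≤ 2 * d * (m * W) + 2 * d * (k * Wm * Nn) := by nlinarith
  have s5 : W ≤ G * (2 * V * (Ds + e)) := by
    refine h4.trans ?_
    gcongr
  have s6 : 2 * d * (m * W) ≤ G * (4 * d * m * V * Ds + 4 * d * m * e) := by
    have e1 : 2 * d * m * W ≤ 2 * d * m * (G * (2 * V * (Ds + e))) :=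
      mul_le_mul_of_nonneg_left s5 (by positivity)
    have e2 : V * e ≤ 1 * e := mul_le_mul_of_nonneg_right hV1 he
    have e3 : 4 * d * m * (V * e) ≤ 4 * d * m * (1 * e) := mul_le_mul_of_nonneg_left e2 (by positivity)
    calc 2 * d * (m * W) = 2 * d * m * W := by ring
      _ ≤ 2 * d * m * (G * (2 * V * (Ds + e))) := e1
      _ = G * (4 * d * m * V * Ds + 4 * d * m * (V * e)) := by ring
      _ ≤ G * (4 * d * m * V * Ds + 4 * d * m * (1 * e)) := by gcongr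
      _ = _ := by ring
  have s7 : V * d ≤ V * (Λ * T) * Ds / 4 - 4 * d * m * V * Ds := by
    have e1 : V * Ds * ((4 * m + 1) * d) ≤ V * Ds * (Λ * T / 4) :=
      mul_le_mul_of_nonneg_left h7 (by positivity)
    have e2 : V * d * 1 ≤ V * d * Ds := mul_le_mul_of_nonneg_left hDs (by positivity)
    nlinarith
  have s8 : V * d / 2 ≤ (V * (Λ * T) * Ds / 4 - k * (B + 2) / P * e) -
      (4 * d * m * V * Ds + 4 * d * m * e) := by
    nlinarith
  have s9 := mul_le_mul_of_nonneg_left s8 hG0.le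
  nlinarith

variable {K : Type} [Field K] [Fintype K] [CharP K 2]

omit [CharP K 2] in
theorem one_mem_Rz (z T : ℕ) : (1 : K[X]) ∈ Rz K z T := by
  unfold Rz
  rw [Finset.mem_filter, Finset.mem_biUnion]
  refine ⟨⟨0, Finset.mem_range.2 (Nat.succ_pos T), mem_Mn.2 ⟨monic_one, natDegree_one⟩⟩,
    squarefree_one, ?_⟩
  rintro P ⟨-, hI, hP⟩
  exact absurd (isUnit_of_dvd_one hP) hI.not_isUnit

omit [CharP K 2] in
theorem mem_Rz {z T : ℕ} {r : K[X]} : r ∈ Rz K z T ↔ r.Monic ∧ r.natDegree ≤ T ∧ Squarefree r ∧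
    ∀ P ∈ PA r, z < P.natDegree := by
  unfold Rz
  rw [Finset.mem_filter, Finset.mem_biUnion]
  constructor
  · rintro ⟨⟨j, hj, hr⟩, h⟩
    rw [mem_Mn] at hr
    rw [Finset.mem_range] at hj
    exact ⟨hr.1, by omega, h⟩
  · rintro ⟨h1, h2, h3⟩
    exact ⟨⟨r.natDegree, Finset.mem_range.2 (by omega), mem_Mn.2 ⟨h1, rfl⟩⟩, h3⟩

omit [CharP K 2] in
theorem dc_Rz (z T : ℕ) : Dc (Rz K z T) := by
  constructor
  · intro r hr
    rw [mem_Rz] at hr
    exact ⟨hr.1, hr.2.2.1⟩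
  · intro r hr s hs hsr
    rw [mem_Rz] at hr ⊢
    exact ⟨hs, (natDegree_le_of_dvd hsr hr.1.ne_zero).trans hr.2.1, hr.2.2.1.squarefree_of_dvd hsr,
      fun P hP => hr.2.2.2 P ⟨hP.1, hP.2.1, hP.2.2.trans hsr⟩⟩

omit [CharP K 2] in
theorem ph_one : ph (1 : K[X]) = 1 := by
  unfold ph
  have h : PA (1 : K[X]) = ∅ := by
    rw [Set.eq_empty_iff_forall_notMem]
    rintro P ⟨-, hI, hd⟩
    exact hI.not_isUnit (isUnit_of_dvd_one hd)
  rw [h, finprod_mem_empty]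

omit [CharP K 2] in
theorem ph_pos {r : K[X]} : 0 < ph r := by
  unfold ph
  refine finprod_mem_induction (fun x : ℝ => 0 < x) one_pos (fun _ _ => mul_pos) ?_
  rintro P ⟨-, hI, -⟩
  have := one_lt_x (K := K) hI
  linarith

omit [CharP K 2] in
theorem one_le_dia {k : ℕ} (z T : ℕ) (y : (Fin k → K[X]) → ℝ) (hy : y (fun _ => 1) = 1) :
    1 ≤ dia (fun _ => Rz K z T) y := by
  unfold dia
  have h1 : (fun _ : Fin k => (1 : K[X])) ∈ Fintype.piFinset (fun _ : Fin k => Rz K z T) := by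
    rw [Fintype.mem_piFinset]
    exact fun _ => one_mem_Rz z T
  have h2 := Finset.single_le_sum (s := Fintype.piFinset (fun _ : Fin k => Rz K z T))
    (f := fun r => y r ^ 2 / ∏ j, ph (r j)) (fun r _ => by
      have : 0 < ∏ j, ph (r j) := Finset.prod_pos fun j _ => ph_pos
      positivity) h1
  refine le_trans ?_ h2
  rw [hy, ph_one, Finset.prod_const_one]
  norm_num

end Pool.Agent.H524.MT.May
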