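import Mathlib
import Pool.Agent.H524.MT.StmG
import Pool.Agent.H524.MT.Apr
import Pool.Agent.H524.MT.MayC

/-!
# Maynard-Tao for `α T ^ 2 + β`: the preparations
-/

namespace Pool.Agent.H524.MT.MayG

open Polynomial
open scoped Classical
open Pool.Agent.H985.KP (PA)
open Pool.Agent.H694.Typ (Mn PU mem_PU mem_Mn)
open Pool.Agent.H524.MT
open Pool.Agent.H524.MT.May

variable {K : Type} [Field K] [Fintype K]

/-- The sifted classes. -/
def bg {k : ℕ} (α β : Fin k → K[X]) (G : K[X][X]) (P a : K[X]) : Prop :=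
  (∃ j, P ∣ α j * a ^ 2 + β j) ∨ P ∣ G.eval a

/-- The sifted classes for the prime of index `i`. -/
def bi {k : ℕ} (α β : Fin k → K[X]) (G : K[X][X]) (i : Fin k) (P a : K[X]) : Prop :=
  bg α β G P a ∧ ¬ P ∣ α i * a ^ 2 + β i

/-- The number of the sifted classes. -/
noncomputable def rr {k : ℕ} (α β : Fin k → K[X]) (G : K[X][X]) (P : K[X]) : ℕ :=
  min (k + G.natDegree) {u : K[X] | u.degree < P.degree ∧ bg α β G P u}.ncard

omit [Fintype K] in
theorem per_q (α β P a u : K[X]) : P ∣ α * (a + P * u) ^ 2 + β ↔ P ∣ α * a ^ 2 + β := by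
  have h1 : α * (a + P * u) ^ 2 + β = α * a ^ 2 + β + P * (α * (2 * a * u + P * u ^ 2)) := by ring
  rw [h1]
  exact dvd_add_left (Dvd.intro _ rfl)

omit [Fintype K] in
theorem per_g (G : K[X][X]) (P a u : K[X]) : P ∣ G.eval (a + P * u) ↔ P ∣ G.eval a := by
  have h1 : a + P * u - a ∣ G.eval (a + P * u) - G.eval a := sub_dvd_eval_sub _ _ _
  have h2 : P ∣ G.eval (a + P * u) - G.eval a := by
    refine Dvd.dvd.trans ?_ h1
    exact ⟨u, by ring⟩
  constructor
  · intro h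
    have := dvd_sub h h2
    rwa [sub_sub_cancel] at this
  · intro h
    have := dvd_add h2 h
    rwa [sub_add_cancel] at this

omit [Fintype K] in
theorem per_bg {k : ℕ} (α β : Fin k → K[X]) (G : K[X][X]) (P a u : K[X]) :
    bg α β G P (a + P * u) ↔ bg α β G P a := by
  unfold bg
  simp only [per_q, per_g]

omit [Fintype K] in
theorem per_bi {k : ℕ} (α β : Fin k → K[X]) (G : K[X][X]) (i : Fin k) (P a u : K[X]) :
    bi α β G i P (a + P * u) ↔ bi α β G i P a := by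
  unfold bi
  rw [per_bg, per_q]

theorem ex_rootg [CharP K 2] {P : K[X]} (hP : P.Monic) (hI : Irreducible P) (α β : K[X])
    (hα : ¬ P ∣ α) : ∃ ρ : K[X], ρ.degree < P.degree ∧ P ∣ α * ρ ^ 2 + β := by
  have hc : IsCoprime P α := (Irreducible.coprime_iff_not_dvd hI).2 hα
  obtain ⟨u, v, huv⟩ := hc
  obtain ⟨ρ, h1, h2⟩ := ex_root hP (v * β) hI.squarefree
  refine ⟨ρ, h1, ?_⟩
  have e : α * ρ ^ 2 + β = α * (ρ ^ 2 + v * β) + P * (u * β) := by linear_combination -β * huv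
  rw [e]
  exact dvd_add (Dvd.dvd.mul_left h2 _) (Dvd.intro _ rfl)

omit [Fintype K] in
theorem uniq [CharP K 2] {P : K[X]} (hI : Irreducible P) {α β a b : K[X]} (hα : ¬ P ∣ α)
    (ha : P ∣ α * a ^ 2 + β) (hb : P ∣ α * b ^ 2 + β) : P ∣ a - b := by
  have h1 := dvd_sub ha hb
  have e : α * a ^ 2 + β - (α * b ^ 2 + β) = α * (a - b) ^ 2 := by rw [← sub_sq2]; ring
  rw [e] at h1
  exact hI.prime.dvd_of_dvd_pow ((hI.prime.dvd_or_dvd h1).resolve_left hα)

omit [Fintype K] in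
theorem uniq_eq [CharP K 2] {P : K[X]} (hI : Irreducible P) {α β a b : K[X]} (hα : ¬ P ∣ α)
    (ha : P ∣ α * a ^ 2 + β) (hb : P ∣ α * b ^ 2 + β) (h1 : a.degree < P.degree)
    (h2 : b.degree < P.degree) : a = b := by
  have h3 : a - b = 0 := by
    by_contra h6
    exact absurd (degree_le_of_dvd (uniq hI hα ha hb) h6)
      (not_le.2 ((degree_sub_le _ _).trans_lt (max_lt h1 h2)))
  exact sub_eq_zero.1 h3

theorem fin_cls {P : K[X]} (hP : P.Monic) (R : K[X] → Prop) :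
    {u : K[X] | u.degree < P.degree ∧ R u}.Finite := by
  have h := fin_deg (K := K) P.natDegree
  rw [← degree_eq_natDegree hP.ne_zero] at h
  exact h.subset fun u hu => hu.1

theorem num_bi [CharP K 2] {k : ℕ} {α β : Fin k → K[X]} {G : K[X][X]} {P : K[X]} (hP : P.Monic)
    (hI : Irreducible P) (hα : ∀ j, ¬ P ∣ α j) (i : Fin k) :
    {u : K[X] | u.degree < P.degree ∧ bg α β G P u}.ncard =
      {u : K[X] | u.degree < P.degree ∧ bi α β G i P u}.ncard + 1 := by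
  obtain ⟨ρ, h1, h2⟩ := ex_rootg hP hI (α i) (β i) (hα i)
  have h3 : {u : K[X] | u.degree < P.degree ∧ bg α β G P u} =
      insert ρ {u : K[X] | u.degree < P.degree ∧ bi α β G i P u} := by
    ext u
    rw [Set.mem_insert_iff, Set.mem_ofPred_eq, Set.mem_ofPred_eq]
    constructor
    · rintro ⟨h4, h5⟩
      by_cases h6 : P ∣ α i * u ^ 2 + β i
      · left
        exact uniq_eq hI (hα i) h6 h2 h4 h1
      · right
        exact ⟨h4, h5, h6⟩
    · rintro (rfl | ⟨h4, h5, -⟩)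
      · exact ⟨h1, Or.inl ⟨i, h2⟩⟩
      · exact ⟨h4, h5⟩
  rw [h3, Set.ncard_insert_of_notMem _ (fin_cls hP _)]
  rintro ⟨-, -, h4⟩
  exact h4 h2

theorem num_le [CharP K 2] {k : ℕ} {α β : Fin k → K[X]} {G : K[X][X]} {P : K[X]} (hP : P.Monic)
    (hI : Irreducible P) (hα : ∀ j, ¬ P ∣ α j) (hG : ¬ P ∣ G.leadingCoeff) :
    {u : K[X] | u.degree < P.degree ∧ bg α β G P u}.ncard ≤ k + G.natDegree := by
  choose ρ h1 h2 using fun j => ex_rootg hP hI (α j) (β j) (hα j)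
  have h3 : {u : K[X] | u.degree < P.degree ∧ bg α β G P u} ⊆
      ((Finset.univ.image ρ : Finset K[X]) : Set K[X]) ∪
        {u : K[X] | u.degree < P.degree ∧ P ∣ G.eval u} := by
    intro u hu
    rcases hu.2 with ⟨j, hj⟩ | h4
    · left
      rw [Finset.mem_coe, Finset.mem_image]
      exact ⟨j, Finset.mem_univ j, uniq_eq hI (hα j) (h2 j) hj (h1 j) hu.1⟩
    · right
      exact ⟨hu.1, h4⟩
  refine (Set.ncard_le_ncard h3 ((Finset.finite_toSet _).union (fin_cls hP _))).trans ?_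
  refine (Set.ncard_union_le _ _).trans ?_
  refine add_le_add ?_ (AprL.roots_le G P hI hG _ fun c hc => hc)
  rw [Set.ncard_coe_finset]
  exact Finset.card_image_le.trans (by rw [Finset.card_univ, Fintype.card_fin])

/-- The conditions on the modulus. -/
def MC {k : ℕ} (α : Fin k → K[X]) (G : K[X][X]) (M : K[X]) : Prop :=
  ∀ P : K[X], P.Monic → Irreducible P → ¬ P ∣ M → (∀ j, ¬ P ∣ α j) ∧ ¬ P ∣ G.leadingCoeff ∧
    16 * (k + G.natDegree + 2) ≤ Fintype.card K ^ P.natDegree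

theorem loc_bg [CharP K 2] {k : ℕ} {α β : Fin k → K[X]} {G : K[X][X]} {M : K[X]}
    (hM : MC α G M) : Loc M (bg α β G) (rr α β G) (k + G.natDegree) where
  per := per_bg α β G
  num := fun P hP hI hPM => by
    obtain ⟨h1, h2, h3⟩ := hM P hP hI hPM
    unfold rr
    rw [min_eq_right (num_le hP hI h1 h2)]
  bd := fun _ => min_le_left _ _
  big := fun P hP hI hPM => (hM P hP hI hPM).2.2

theorem loc_bi [CharP K 2] {k : ℕ} {α β : Fin k → K[X]} {G : K[X][X]} {M : K[X]}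
    (hM : MC α G M) (i : Fin k) :
    Loc M (bi α β G i) (fun P => rr α β G P - 1) (k + G.natDegree) where
  per := per_bi α β G i
  num := fun P hP hI hPM => by
    obtain ⟨h1, h2, h3⟩ := hM P hP hI hPM
    show _ = rr α β G P - 1
    unfold rr
    rw [min_eq_right (num_le hP hI h1 h2), num_bi hP hI h1 i]
    rfl
  bd := fun P => (Nat.sub_le _ _).trans (min_le_left _ _)
  big := fun P hP hI hPM => (hM P hP hI hPM).2.2

theorem rr_pos [CharP K 2] {k : ℕ} {α β : Fin k → K[X]} {G : K[X][X]} {M : K[X]}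
    (hM : MC α G M) (i : Fin k) {P : K[X]} (hP : P.Monic) (hI : Irreducible P) (hPM : ¬ P ∣ M) :
    1 ≤ rr α β G P := by
  obtain ⟨h1, h2, h3⟩ := hM P hP hI hPM
  unfold rr
  rw [min_eq_right (num_le hP hI h1 h2), num_bi hP hI h1 i]
  omega

/-- The modulus. -/
theorem ex_Mg {k : ℕ} (α : Fin k → K[X]) (hα : ∀ j, α j ≠ 0) (G : K[X][X]) (hG : G ≠ 0) :
    ∃ M : K[X], M.Monic ∧ (∀ i, α i ∣ M) ∧ MC α G M := by
  obtain ⟨A, hA⟩ : ∃ A : K[X], A = ∏ i, normalize (α i) := ⟨_, rfl⟩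
  obtain ⟨D, hD⟩ : ∃ D : K[X], D = ∏ P ∈ PU K (16 * (k + G.natDegree + 2)), P := ⟨_, rfl⟩
  have hGl : G.leadingCoeff ≠ 0 := leadingCoeff_ne_zero.2 hG
  have hAm : A.Monic := by
    rw [hA]
    exact monic_prod_of_monic _ _ fun i _ => monic_normalize (hα i)
  have hDm : D.Monic := by
    rw [hD]
    exact monic_prod_of_monic _ _ fun P hP => (mem_PU.1 hP).1
  have hAd : ∀ i, α i ∣ A := fun i => by
    rw [hA]
    exact (dvd_normalize_iff.2 dvd_rfl).trans (Finset.dvd_prod_of_mem _ (Finset.mem_univ i))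
  refine ⟨A * (normalize G.leadingCoeff * D), hAm.mul ((monic_normalize hGl).mul hDm),
    fun i => Dvd.dvd.mul_right (hAd i) _, ?_⟩
  intro P hP hI hPM
  have h1 : ¬ P ∣ A := fun h => hPM (Dvd.dvd.mul_right h _)
  have h2 : ¬ P ∣ normalize G.leadingCoeff :=
    fun h => hPM (Dvd.dvd.mul_left (Dvd.dvd.mul_right h _) _)
  have h3 : ¬ P ∣ D := fun h => hPM (Dvd.dvd.mul_left (Dvd.dvd.mul_left h _) _)
  refine ⟨fun j h => h1 (h.trans (hAd j)), fun h => h2 (dvd_normalize_iff.2 h), ?_⟩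
  by_contra h4
  push Not at h4
  apply h3
  rw [hD]
  refine Finset.dvd_prod_of_mem _ (mem_PU.2 ⟨hP, hI, ?_⟩)
  have h5 : P.natDegree < Fintype.card K ^ P.natDegree := Nat.lt_pow_self Fintype.one_lt_card
  omega

/-- The residue class. -/
theorem ex_a0p (H : K[X][X]) {M : K[X]} (hM : M.Monic)
    (h : ∀ P : K[X], Irreducible P → ∃ a : K[X], ¬ P ∣ H.eval a) :
    ∃ a₀ : K[X], IsCoprime (H.eval a₀) M := by
  obtain ⟨y, hy⟩ := crt_prod ((PU K M.natDegree).filter (fun P => P ∣ M))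
    (fun P hP => ⟨(mem_PU.1 (Finset.mem_filter.1 hP).1).1, (mem_PU.1 (Finset.mem_filter.1 hP).1).2.1⟩)
    (fun P => if hI : Irreducible P then (h P hI).choose else 0)
  refine ⟨y, ?_⟩
  refine isCoprime_of_prime_dvd (fun h0 => hM.ne_zero h0.2) ?_
  intro Q hQ h1 h2
  have hQI : Irreducible Q := hQ.irreducible
  have hn : normalize Q ∣ M := normalize_dvd_iff.2 h2
  have hI : Irreducible (normalize Q) := (normalize_associated Q).symm.irreducible hQI
  have hmon : (normalize Q).Monic := monic_normalize hQI.ne_zero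
  have hmem : normalize Q ∈ (PU K M.natDegree).filter (fun P => P ∣ M) := by
    rw [Finset.mem_filter, mem_PU]
    exact ⟨⟨hmon, hI, natDegree_le_of_dvd hn hM.ne_zero⟩, hn⟩
  have h3 := hy _ hmem
  simp only [dif_pos hI] at h3
  have h4 := (h _ hI).choose_spec
  apply h4
  have h5 : H.eval (h _ hI).choose = H.eval y - (H.eval y - H.eval (h _ hI).choose) := by ring
  rw [h5]
  exact dvd_sub (normalize_dvd_iff.2 h1) (h3.trans (sub_dvd_eval_sub _ _ _))

theorem ex_a0g {k : ℕ} (α β : Fin k → K[X]) (G : K[X][X]) {M : K[X]} (hM : M.Monic)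
    (h : ∀ P : K[X], Irreducible P → ∃ a : K[X], ¬ P ∣ G.eval a ∧ ∀ j, ¬ P ∣ α j * a ^ 2 + β j) :
    ∃ a₀ : K[X], IsCoprime (G.eval a₀) M ∧ ∀ j, IsCoprime (α j * a₀ ^ 2 + β j) M := by
  have e : ∀ x, (G * ∏ j, (C (α j) * X ^ 2 + C (β j)) : K[X][X]).eval x =
      G.eval x * ∏ j, (α j * x ^ 2 + β j) := by
    intro x
    rw [eval_mul, eval_prod]
    simp
  obtain ⟨a₀, ha₀⟩ := ex_a0p (G * ∏ j, (C (α j) * X ^ 2 + C (β j)) : K[X][X]) hM (fun P hP => by
    obtain ⟨a, h1, h2⟩ := h P hP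
    refine ⟨a, fun h3 => ?_⟩
    rw [e] at h3
    rcases hP.prime.dvd_or_dvd h3 with h4 | h4
    · exact h1 h4
    · obtain ⟨j, -, hj⟩ := (Prime.dvd_finsetProd_iff hP.prime _).1 h4
      exact h2 j hj)
  rw [e] at ha₀
  exact ⟨a₀, ha₀.of_mul_left_left, fun j =>
    IsCoprime.prod_left_iff.1 ha₀.of_mul_left_right j (Finset.mem_univ j)⟩

end Pool.Agent.H524.MT.MayG
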