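import Mathlib
import Pool.Agent.H524.MT.MgA

/-!
# Maynard-Tao for `α T ^ 2 + β`: the densities and the final inequality
-/

namespace Pool.Agent.H524.MT.MayG

open Polynomial
open scoped Classical
open Pool.Agent.H985.KP (PA)
open Pool.Agent.H694.Typ (Mn PU mem_PU mem_Mn)
open Pool.Agent.H524.MT
open Pool.Agent.H524.MT.May

variable {K : Type} [Field K] [Fintype K]

/-- The lower bound of the product of the densities. -/
theorem VRg_lower {κ : ℕ} {r : K[X] → ℕ} (hr : ∀ P, r P ≤ κ) {M : K[X]} {z : ℕ}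
    (hM : ∀ P : K[X], P.Monic → Irreducible P → ¬ P ∣ M →
      16 * (κ + 2) ≤ Fintype.card K ^ P.natDegree) :
    (∏ P ∈ PU K z, (1 - 1 / (Fintype.card K : ℝ) ^ P.natDegree)) ^ (2 * κ) ≤
      VR M z r := by
  refine (VR_lower (k := κ) (n := κ) le_rfl hM).trans ?_
  unfold VR
  refine Finset.prod_le_prod ?_ ?_
  · intro P hP
    unfold PS at hP
    rw [Finset.mem_filter, mem_PU] at hP
    have h3 : 16 * ((κ : ℝ) + 2) ≤ (Fintype.card K : ℝ) ^ P.natDegree := by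
      exact_mod_cast hM P hP.1.1 hP.1.2.1 hP.2
    have hk : (0 : ℝ) ≤ κ := Nat.cast_nonneg κ
    rw [sub_nonneg, div_le_one (by linarith)]
    linarith
  · intro P _
    have h4 : (r P : ℝ) / (Fintype.card K : ℝ) ^ P.natDegree ≤
        (κ : ℝ) / (Fintype.card K : ℝ) ^ P.natDegree := by
      have : (r P : ℝ) ≤ κ := by exact_mod_cast hr P
      gcongr
    linarith

theorem VRg_le_one {κ : ℕ} {r : K[X] → ℕ} (hr : ∀ P, r P ≤ κ) {M : K[X]} {z : ℕ}
    (hM : ∀ P : K[X], P.Monic → Irreducible P → ¬ P ∣ M →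
      16 * (κ + 2) ≤ Fintype.card K ^ P.natDegree) : VR M z r ≤ 1 := by
  unfold VR PS
  refine Finset.prod_le_one ?_ ?_
  · intro P hP
    rw [Finset.mem_filter, mem_PU] at hP
    have h3 : 16 * ((κ : ℝ) + 2) ≤ (Fintype.card K : ℝ) ^ P.natDegree := by
      exact_mod_cast hM P hP.1.1 hP.1.2.1 hP.2
    have hk : (0 : ℝ) ≤ κ := Nat.cast_nonneg κ
    have : (r P : ℝ) ≤ κ := by exact_mod_cast hr P
    rw [sub_nonneg, div_le_one (by linarith)]
    linarith
  · intro P _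
    have : 0 ≤ (r P : ℝ) / (Fintype.card K : ℝ) ^ P.natDegree := by positivity
    linarith

/-- The comparison of the densities. -/
theorem VRg_comp {κ : ℕ} {r : K[X] → ℕ} (hr : ∀ P, r P ≤ κ) {M : K[X]} (hMm : M.Monic) {z : ℕ}
    (hz : M.natDegree ≤ z) (hr1 : ∀ P : K[X], P.Monic → Irreducible P → ¬ P ∣ M → 1 ≤ r P)
    (hM : ∀ P : K[X], P.Monic → Irreducible P → ¬ P ∣ M →
      16 * (κ + 2) ≤ Fintype.card K ^ P.natDegree)
    (hL : (z : ℝ) ≤ ∏ P ∈ PU K z, (1 - 1 / (Fintype.card K : ℝ) ^ P.natDegree)⁻¹) :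
    (z : ℝ) * Pm M * VR M z r ≤ VR M z (fun P => r P - 1) := by
  rw [Pm_eq hMm hz]
  have hx : ∀ P ∈ PU K z, (0 : ℝ) < 1 - 1 / (Fintype.card K : ℝ) ^ P.natDegree := by
    intro P hP
    have h1 := one_lt_x (mem_PU.1 hP).2.1
    rw [sub_pos, div_lt_one (by linarith)]
    exact h1
  rw [← Finset.prod_filter_mul_prod_filter_not (PU K z) (fun P => P ∣ M)] at hL
  obtain ⟨A, hA⟩ : ∃ A : ℝ, A = ∏ P ∈ (PU K z).filter (fun P => P ∣ M),
    (1 - 1 / (Fintype.card K : ℝ) ^ P.natDegree) := ⟨_, rfl⟩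
  have hA0 : 0 < A := by
    rw [hA]
    exact Finset.prod_pos fun P hP => hx P (Finset.mem_filter.1 hP).1
  have hA' : ∏ P ∈ (PU K z).filter (fun P => P ∣ M),
    (1 - 1 / (Fintype.card K : ℝ) ^ P.natDegree)⁻¹ = A⁻¹ := by
    rw [hA, Finset.prod_inv_distrib]
  obtain ⟨W, hW⟩ : ∃ W : ℝ, W = ∏ P ∈ (PU K z).filter (fun P => ¬ P ∣ M),
    (1 - 1 / (Fintype.card K : ℝ) ^ P.natDegree)⁻¹ := ⟨_, rfl⟩
  rw [hA', ← hW] at hL
  rw [← hA]
  have h1 : (z : ℝ) * A ≤ W := by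
    calc (z : ℝ) * A ≤ (A⁻¹ * W) * A := mul_le_mul_of_nonneg_right hL hA0.le
      _ = W := by field_simp
  have hV : 0 ≤ VR M z r := by
    unfold VR PS
    refine Finset.prod_nonneg fun P hP => ?_
    rw [Finset.mem_filter, mem_PU] at hP
    have h3 : 16 * ((κ : ℝ) + 2) ≤ (Fintype.card K : ℝ) ^ P.natDegree := by
      exact_mod_cast hM P hP.1.1 hP.1.2.1 hP.2
    have hk : (0 : ℝ) ≤ κ := Nat.cast_nonneg κ
    have hrk : (r P : ℝ) ≤ κ := by exact_mod_cast hr P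
    rw [sub_nonneg, div_le_one (by linarith)]
    linarith
  refine (mul_le_mul_of_nonneg_right h1 hV).trans ?_
  rw [hW]
  unfold VR PS
  rw [← Finset.prod_mul_distrib]
  refine Finset.prod_le_prod ?_ ?_
  · intro P hP
    have h2 := hx P (Finset.mem_filter.1 hP).1
    rw [Finset.mem_filter, mem_PU] at hP
    have h3 : 16 * ((κ : ℝ) + 2) ≤ (Fintype.card K : ℝ) ^ P.natDegree := by
      exact_mod_cast hM P hP.1.1 hP.1.2.1 hP.2
    have hk : (0 : ℝ) ≤ κ := Nat.cast_nonneg κ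
    have hrk : (r P : ℝ) ≤ κ := by exact_mod_cast hr P
    refine mul_nonneg (inv_nonneg.2 h2.le) ?_
    rw [sub_nonneg, div_le_one (by linarith)]
    linarith
  · intro P hP
    have h2 := hx P (Finset.mem_filter.1 hP).1
    rw [Finset.mem_filter, mem_PU] at hP
    have h3 : 16 * ((κ : ℝ) + 2) ≤ (Fintype.card K : ℝ) ^ P.natDegree := by
      exact_mod_cast hM P hP.1.1 hP.1.2.1 hP.2
    have hk0 : (0 : ℝ) ≤ κ := Nat.cast_nonneg κ
    have hrP := hr1 P hP.1.1 hP.1.2.1 hP.2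
    have hk1 : (1 : ℝ) ≤ (r P : ℝ) := by exact_mod_cast hrP
    obtain ⟨x, hx'⟩ : ∃ x : ℝ, x = (Fintype.card K : ℝ) ^ P.natDegree := ⟨_, rfl⟩
    rw [← hx'] at h2 h3 ⊢
    have hx0 : 0 < x := by linarith
    rw [inv_mul_le_iff₀ h2, Nat.cast_sub hrP, Nat.cast_one]
    have e1 : (1 - 1 / x) * (1 - ((r P : ℝ) - 1) / x) = 1 - r P / x + (r P - 1) / x ^ 2 := by
      field_simp
      ring
    rw [e1]
    have : 0 ≤ ((r P : ℝ) - 1) / x ^ 2 := by
      apply div_nonneg _ (by positivity)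
      linarith
    linarith

theorem fin_ineqg {Q m₀ P V V' e B Wm Ds Λ T z d m k W Nn SS sQ qf : ℝ} (hQ : 0 < Q) (hm₀ : 0 < m₀)
    (hP : 0 < P) (hV : 0 ≤ V) (hV1 : V ≤ 1) (hV' : 0 ≤ V') (hV'1 : V' ≤ 1) (he : 0 ≤ e)
    (hDs : 1 ≤ Ds) (hz : 0 < z) (hd : 0 < d) (hm : 0 ≤ m) (hk : 0 ≤ k)
    (h1 : Q / (m₀ * P) * (V' * sQ / 4 - k * (B + 1) * e) ≤ 3 * d * SS)
    (h2 : Λ * (T / z) * Ds - k * e ≤ sQ)
    (h3 : SS ≤ m * W + k * Wm * Nn)
    (h4 : W ≤ Q / m₀ * (2 * V * qf)) (h5 : qf ≤ Ds + e)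
    (h6 : z * P * V ≤ V') (h7 : (6 * m + 1) * d ≤ Λ * T / 4)
    (h8 : (6 * d * m + k * (B + 2) / P) * e ≤ V * d / 2) :
    Q / m₀ * (V * d / 2) ≤ 3 * d * (k * Wm * Nn) := by
  obtain ⟨G, hG⟩ : ∃ G : ℝ, G = Q / m₀ := ⟨_, rfl⟩
  have hG0 : 0 < G := by rw [hG]; positivity
  have eG : Q / (m₀ * P) = G / P := by rw [hG]; field_simp
  rw [eG] at h1
  rw [← hG] at h4 ⊢
  have hLT : 0 ≤ Λ * T := by nlinarith
  have hL : 0 ≤ Λ * (T / z) * Ds := by
    have : Λ * (T / z) = Λ * T / z := by ring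
    rw [this]
    positivity
  have s0 : 0 ≤ k * e := by positivity
  have s1 : P * V * (Λ * T) * Ds / 4 - k * e ≤ V' * sQ / 4 := by
    have e1 : V' * (Λ * (T / z) * Ds - k * e) ≤ V' * sQ := mul_le_mul_of_nonneg_left h2 hV'
    have e2 : (z * P * V) * (Λ * (T / z) * Ds) ≤ V' * (Λ * (T / z) * Ds) :=
      mul_le_mul_of_nonneg_right h6 hL
    have e3 : (z * P * V) * (Λ * (T / z) * Ds) = P * V * (Λ * T) * Ds := by field_simp
    have e4 : V' * (k * e) ≤ 1 * (k * e) := mul_le_mul_of_nonneg_right hV'1 s0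
    nlinarith
  have s2 : G / P * (P * V * (Λ * T) * Ds / 4 - k * (B + 2) * e) ≤ 3 * d * SS := by
    refine le_trans ?_ h1
    refine mul_le_mul_of_nonneg_left ?_ (by positivity)
    nlinarith
  have s3 : G / P * (P * V * (Λ * T) * Ds / 4 - k * (B + 2) * e) =
      G * (V * (Λ * T) * Ds / 4 - k * (B + 2) / P * e) := by field_simp
  rw [s3] at s2
  have s4 : 3 * d * SS ≤ 3 * d * (m * W) + 3 * d * (k * Wm * Nn) := by nlinarith
  have s5 : W ≤ G * (2 * V * (Ds + e)) := by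
    refine h4.trans ?_
    gcongr
  have s6 : 3 * d * (m * W) ≤ G * (6 * d * m * V * Ds + 6 * d * m * e) := by
    have e1 : 3 * d * m * W ≤ 3 * d * m * (G * (2 * V * (Ds + e))) :=
      mul_le_mul_of_nonneg_left s5 (by positivity)
    have e2 : V * e ≤ 1 * e := mul_le_mul_of_nonneg_right hV1 he
    have e3 : 6 * d * m * (V * e) ≤ 6 * d * m * (1 * e) := mul_le_mul_of_nonneg_left e2 (by positivity)
    calc 3 * d * (m * W) = 3 * d * m * W := by ring
      _ ≤ 3 * d * m * (G * (2 * V * (Ds + e))) := e1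
      _ = G * (6 * d * m * V * Ds + 6 * d * m * (V * e)) := by ring
      _ ≤ G * (6 * d * m * V * Ds + 6 * d * m * (1 * e)) := by gcongr
      _ = _ := by ring
  have s7 : V * d ≤ V * (Λ * T) * Ds / 4 - 6 * d * m * V * Ds := by
    have e1 : V * Ds * ((6 * m + 1) * d) ≤ V * Ds * (Λ * T / 4) :=
      mul_le_mul_of_nonneg_left h7 (by positivity)
    have e2 : V * d * 1 ≤ V * d * Ds := mul_le_mul_of_nonneg_left hDs (by positivity)
    nlinarith
  have s8 : V * d / 2 ≤ (V * (Λ * T) * Ds / 4 - k * (B + 2) / P * e) -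
      (6 * d * m * V * Ds + 6 * d * m * e) := by
    nlinarith
  have s9 := mul_le_mul_of_nonneg_left s8 hG0.le
  nlinarith

/-! ### The sums over the arguments -/

theorem wV_nonneg {k : ℕ} (R : Fin k → Finset K[X]) (y : (Fin k → K[X]) → ℝ)
    (v : Fin k → K[X]) : 0 ≤ wV R y v := by
  unfold wV
  positivity

theorem deg_sqg {d : ℕ} {a α β : K[X]} (hα : α ≠ 0) (ha : a ∈ Mn K d) (hc : β.natDegree < 2 * d) :
    (α * a ^ 2 + β).natDegree = 2 * d + α.natDegree := by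
  rw [mem_Mn] at ha
  have h1 : (α * a ^ 2).natDegree = 2 * d + α.natDegree := by
    rw [natDegree_mul hα (pow_ne_zero _ ha.1.ne_zero), ha.1.natDegree_pow, ha.2]
    ring
  rw [natDegree_add_eq_left_of_natDegree_lt (by rw [h1]; omega), h1]

/-- The number of the primes. -/
noncomputable def nv {k : ℕ} (α β : Fin k → K[X]) (a : K[X]) : ℕ :=
  (Finset.univ.filter (fun j => Irreducible (α j * a ^ 2 + β j))).card

/-- The arguments without small primes. -/
noncomputable def Rg (K : Type) [Field K] [Fintype K] {k : ℕ} (α β : Fin k → K[X]) (G : K[X][X])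
    (M a₀ : K[X]) (d z : ℕ) : Finset K[X] :=
  (Ac K d M a₀).filter (fun a => ∀ P ∈ PS K M z, ¬ bg α β G P a)

theorem mem_Rg_of {k : ℕ} {α β : Fin k → K[X]} {G : K[X][X]} {M a₀ : K[X]} {d z : ℕ} {i : Fin k}
    {a : K[X]} (hα : ∀ j, α j ≠ 0) (hcd : ∀ j, (β j).natDegree < 2 * d) (hz : z < 2 * d)
    (ha : a ∈ (Ac K d M a₀).filter (fun a => Irreducible (α i * a ^ 2 + β i) ∧
      ∀ P ∈ PS K M z, ¬ bi α β G i P a)) : a ∈ Rg K α β G M a₀ d z := by
  rw [Finset.mem_filter] at ha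
  obtain ⟨h1, h2, h3⟩ := ha
  unfold Rg
  rw [Finset.mem_filter]
  refine ⟨h1, fun P hP hb => h3 P hP ⟨hb, fun hj => ?_⟩⟩
  unfold PS at hP
  have hP' := mem_PU.1 (Finset.mem_filter.1 hP).1
  have h4 := (hP'.2.1.associated_of_dvd h2 hj)
  have h5 : P.natDegree = (α i * a ^ 2 + β i).natDegree :=
    natDegree_eq_of_degree_eq (degree_eq_degree_of_associated h4)
  unfold Ac at h1
  rw [deg_sqg (hα i) (Finset.mem_filter.1 h1).1 (hcd i)] at h5
  omega

/-- The sum over the primes. -/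
theorem sum_bdg {k m : ℕ} {α β : Fin k → K[X]} {G : K[X][X]} {M a₀ : K[X]} {d z : ℕ}
    (hα : ∀ j, α j ≠ 0) (hcd : ∀ j, (β j).natDegree < 2 * d) (hz : z < 2 * d) (w : K[X] → ℝ)
    (hw : ∀ a, 0 ≤ w a) {Wm : ℝ} (hWm : ∀ a ∈ Mn K d, w a ≤ Wm) :
    ∑ i : Fin k, ∑ a ∈ (Ac K d M a₀).filter (fun a => Irreducible (α i * a ^ 2 + β i) ∧
      ∀ P ∈ PS K M z, ¬ bi α β G i P a), w a ≤
      m * ∑ a ∈ Rg K α β G M a₀ d z, w a +
        k * Wm * (((Rg K α β G M a₀ d z).filter (fun a => m ≤ nv α β a)).card : ℝ) := by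
  have h1 : ∀ i : Fin k, ∑ a ∈ (Ac K d M a₀).filter (fun a => Irreducible (α i * a ^ 2 + β i) ∧
      ∀ P ∈ PS K M z, ¬ bi α β G i P a), w a ≤
      ∑ a ∈ Rg K α β G M a₀ d z, if Irreducible (α i * a ^ 2 + β i) then w a else 0 := by
    intro i
    rw [← Finset.sum_filter]
    refine Finset.sum_le_sum_of_subset_of_nonneg ?_ fun a _ _ => hw a
    intro a ha
    rw [Finset.mem_filter]
    exact ⟨mem_Rg_of hα hcd hz ha, (Finset.mem_filter.1 ha).2.1⟩
  refine (Finset.sum_le_sum fun i _ => h1 i).trans ?_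
  rw [Finset.sum_comm]
  have h2 : ∀ a ∈ Rg K α β G M a₀ d z,
      ∑ i : Fin k, (if Irreducible (α i * a ^ 2 + β i) then w a else 0) ≤
      m * w a + if m ≤ nv α β a then k * Wm else 0 := by
    intro a ha
    rw [← Finset.sum_filter, Finset.sum_const, nsmul_eq_mul]
    have e1 : (Finset.univ.filter (fun j => Irreducible (α j * a ^ 2 + β j))).card = nv α β a := rfl
    rw [e1]
    have hwa := hw a
    have hWa : w a ≤ Wm := hWm a (Finset.mem_filter.1 (Finset.mem_filter.1 ha).1).1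
    split_ifs with h
    · have h3 : nv α β a ≤ k := by
        unfold nv
        exact (Finset.card_le_univ _).trans (by rw [Fintype.card_fin])
      have h4 : (nv α β a : ℝ) ≤ k := by exact_mod_cast h3
      have h5 : (nv α β a : ℝ) * w a ≤ k * Wm := mul_le_mul h4 hWa hwa (Nat.cast_nonneg k)
      have h6 : 0 ≤ (m : ℝ) * w a := by positivity
      linarith
    · rw [add_zero]
      refine mul_le_mul_of_nonneg_right ?_ hwa
      exact_mod_cast (not_le.1 h).le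
  refine (Finset.sum_le_sum h2).trans ?_
  rw [Finset.sum_add_distrib, ← Finset.mul_sum, ← Finset.sum_filter, Finset.sum_const,
    nsmul_eq_mul]
  apply le_of_eq
  ring

/-- The arguments in `Rg` are good. -/
theorem Rg_good {k : ℕ} {α β : Fin k → K[X]} {G : K[X][X]} {M a₀ : K[X]} {d z : ℕ}
    (hG₀ : IsCoprime (G.eval a₀) M) (ha₀ : ∀ j, IsCoprime (α j * a₀ ^ 2 + β j) M) {a : K[X]}
    (ha : a ∈ Rg K α β G M a₀ d z) {P : K[X]} (hI : Irreducible P) (hP : bg α β G P a) :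
    z < P.natDegree := by
  by_contra hcon
  push Not at hcon
  have h1 : (normalize P).Monic := monic_normalize hI.ne_zero
  have h2 : Irreducible (normalize P) := (normalize_associated P).symm.irreducible hI
  have h3 : (normalize P).natDegree = P.natDegree :=
    natDegree_eq_of_degree_eq (degree_eq_degree_of_associated (normalize_associated P))
  have h4 : bg α β G (normalize P) a := by
    unfold bg at hP ⊢
    simp only [normalize_dvd_iff]
    exact hP
  unfold Rg at ha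
  rw [Finset.mem_filter] at ha
  by_cases hM : normalize P ∣ M
  · have h5 : M ∣ a - a₀ := (Finset.mem_filter.1 ha.1).2
    have h6 : normalize P ∣ a - a₀ := hM.trans h5
    rcases h4 with ⟨j, hj⟩ | h4
    · have h7 : normalize P ∣ α j * a₀ ^ 2 + β j := by
        have e : α j * a₀ ^ 2 + β j = α j * a ^ 2 + β j - (a - a₀) * (α j * (a + a₀)) := by ring
        rw [e]
        exact dvd_sub hj (Dvd.dvd.mul_right h6 _)
      exact h2.not_isUnit ((ha₀ j).isUnit_of_dvd' h7 hM)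
    · have h7 : normalize P ∣ G.eval a₀ := by
        have e : G.eval a₀ = G.eval a - (G.eval a - G.eval a₀) := by ring
        rw [e]
        exact dvd_sub h4 (h6.trans (sub_dvd_eval_sub _ _ _))
      exact h2.not_isUnit (hG₀.isUnit_of_dvd' h7 hM)
  · refine ha.2 (normalize P) ?_ h4
    unfold PS
    rw [Finset.mem_filter, mem_PU]
    exact ⟨⟨h1, h2, by rw [h3]; exact hcon⟩, hM⟩

end Pool.Agent.H524.MT.MayG
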