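import Mathlib
import Pool.Agent.H524.MT.StmX
import Pool.Agent.H524.MT.MgB

/-!
# Maynard-Tao for `α T ^ e + β`, `e = 1, 2`: the preparations
-/

namespace Pool.Agent.H524.MT.MayX

open Polynomial
open scoped Classical
open Pool.Agent.H985.KP (PA)
open Pool.Agent.H694.Typ (Mn PU mem_PU mem_Mn)
open Pool.Agent.H524.MT
open Pool.Agent.H524.MT.May
open Pool.Agent.H524.MT.MayG (per_g fin_cls ex_a0p)

variable {K : Type} [Field K] [Fintype K]

/-- The sifted classes. -/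
def bx {k : ℕ} (e : Fin k → ℕ) (α β : Fin k → K[X]) (G : K[X][X]) (P a : K[X]) : Prop :=
  (∃ j, P ∣ α j * a ^ e j + β j) ∨ P ∣ G.eval a

/-- The sifted classes for the prime of index `i`. -/
def bxi {k : ℕ} (e : Fin k → ℕ) (α β : Fin k → K[X]) (G : K[X][X]) (i : Fin k) (P a : K[X]) :
    Prop :=
  bx e α β G P a ∧ ¬ P ∣ α i * a ^ e i + β i

/-- The number of the sifted classes. -/
noncomputable def rx {k : ℕ} (e : Fin k → ℕ) (α β : Fin k → K[X]) (G : K[X][X]) (P : K[X]) : ℕ :=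
  min (k + G.natDegree) {u : K[X] | u.degree < P.degree ∧ bx e α β G P u}.ncard

omit [Fintype K] in
theorem per_x (e : ℕ) (α β P a u : K[X]) : P ∣ α * (a + P * u) ^ e + β ↔ P ∣ α * a ^ e + β := by
  have h1 : a + P * u - a ∣ (a + P * u) ^ e - a ^ e := sub_dvd_pow_sub_pow _ _ _
  have h2 : P ∣ (a + P * u) ^ e - a ^ e := Dvd.dvd.trans ⟨u, by ring⟩ h1
  have h3 : α * (a + P * u) ^ e + β = α * a ^ e + β + ((a + P * u) ^ e - a ^ e) * α := by ring
  rw [h3]
  exact dvd_add_left (Dvd.dvd.mul_right h2 _)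

omit [Fintype K] in
theorem per_bx {k : ℕ} (e : Fin k → ℕ) (α β : Fin k → K[X]) (G : K[X][X]) (P a u : K[X]) :
    bx e α β G P (a + P * u) ↔ bx e α β G P a := by
  unfold bx
  simp only [per_x, per_g]

omit [Fintype K] in
theorem per_bxi {k : ℕ} (e : Fin k → ℕ) (α β : Fin k → K[X]) (G : K[X][X]) (i : Fin k)
    (P a u : K[X]) : bxi e α β G i P (a + P * u) ↔ bxi e α β G i P a := by
  unfold bxi
  rw [per_bx, per_x]

theorem ex_rootx [CharP K 2] {P : K[X]} (hP : P.Monic) (hI : Irreducible P) {e : ℕ}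
    (he : e = 1 ∨ e = 2) (α β : K[X]) (hα : ¬ P ∣ α) :
    ∃ ρ : K[X], ρ.degree < P.degree ∧ P ∣ α * ρ ^ e + β := by
  rcases he with rfl | rfl
  · have hc : IsCoprime P α := (Irreducible.coprime_iff_not_dvd hI).2 hα
    obtain ⟨u, v, huv⟩ := hc
    refine ⟨(-(v * β)) %ₘ P, degree_modByMonic_lt _ hP, ?_⟩
    have h1 := modByMonic_add_div (-(v * β)) P
    have h2 : (-(v * β)) %ₘ P = -(v * β) + P * (-((-(v * β)) /ₘ P)) := by linear_combination h1
    rw [h2, per_x]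
    refine ⟨u * β, ?_⟩
    linear_combination -β * huv
  · exact MayG.ex_rootg hP hI α β hα

omit [Fintype K] in
theorem uniqx [CharP K 2] {P : K[X]} (hI : Irreducible P) {e : ℕ} (he : e = 1 ∨ e = 2)
    {α β a b : K[X]} (hα : ¬ P ∣ α)
    (ha : P ∣ α * a ^ e + β) (hb : P ∣ α * b ^ e + β) : P ∣ a - b := by
  rcases he with rfl | rfl
  · have h1 := dvd_sub ha hb
    have h2 : α * a ^ 1 + β - (α * b ^ 1 + β) = α * (a - b) := by ring
    rw [h2] at h1
    exact (hI.prime.dvd_or_dvd h1).resolve_left hα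
  · exact MayG.uniq hI hα ha hb

omit [Fintype K] in
theorem uniqx_eq [CharP K 2] {P : K[X]} (hI : Irreducible P) {e : ℕ} (he : e = 1 ∨ e = 2)
    {α β a b : K[X]} (hα : ¬ P ∣ α)
    (ha : P ∣ α * a ^ e + β) (hb : P ∣ α * b ^ e + β) (h1 : a.degree < P.degree)
    (h2 : b.degree < P.degree) : a = b := by
  have h3 : a - b = 0 := by
    by_contra h6
    exact absurd (degree_le_of_dvd (uniqx hI he hα ha hb) h6)
      (not_le.2 ((degree_sub_le _ _).trans_lt (max_lt h1 h2)))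
  exact sub_eq_zero.1 h3

theorem num_bxi [CharP K 2] {k : ℕ} {e : Fin k → ℕ} (he : ∀ j, e j = 1 ∨ e j = 2)
    {α β : Fin k → K[X]} {G : K[X][X]} {P : K[X]} (hP : P.Monic)
    (hI : Irreducible P) (hα : ∀ j, ¬ P ∣ α j) (i : Fin k) :
    {u : K[X] | u.degree < P.degree ∧ bx e α β G P u}.ncard =
      {u : K[X] | u.degree < P.degree ∧ bxi e α β G i P u}.ncard + 1 := by
  obtain ⟨ρ, h1, h2⟩ := ex_rootx hP hI (he i) (α i) (β i) (hα i)
  have h3 : {u : K[X] | u.degree < P.degree ∧ bx e α β G P u} =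
      insert ρ {u : K[X] | u.degree < P.degree ∧ bxi e α β G i P u} := by
    ext u
    rw [Set.mem_insert_iff, Set.mem_ofPred_eq, Set.mem_ofPred_eq]
    constructor
    · rintro ⟨h4, h5⟩
      by_cases h6 : P ∣ α i * u ^ e i + β i
      · left
        exact uniqx_eq hI (he i) (hα i) h6 h2 h4 h1
      · right
        exact ⟨h4, h5, h6⟩
    · rintro (rfl | ⟨h4, h5, -⟩)
      · exact ⟨h1, Or.inl ⟨i, h2⟩⟩
      · exact ⟨h4, h5⟩
  rw [h3, Set.ncard_insert_of_notMem _ (fin_cls hP _)]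
  rintro ⟨-, -, h4⟩
  exact h4 h2

theorem num_lex [CharP K 2] {k : ℕ} {e : Fin k → ℕ} (he : ∀ j, e j = 1 ∨ e j = 2)
    {α β : Fin k → K[X]} {G : K[X][X]} {P : K[X]} (hP : P.Monic)
    (hI : Irreducible P) (hα : ∀ j, ¬ P ∣ α j) (hG : ¬ P ∣ G.leadingCoeff) :
    {u : K[X] | u.degree < P.degree ∧ bx e α β G P u}.ncard ≤ k + G.natDegree := by
  choose ρ h1 h2 using fun j => ex_rootx hP hI (he j) (α j) (β j) (hα j)
  have h3 : {u : K[X] | u.degree < P.degree ∧ bx e α β G P u} ⊆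
      ((Finset.univ.image ρ : Finset K[X]) : Set K[X]) ∪
        {u : K[X] | u.degree < P.degree ∧ P ∣ G.eval u} := by
    intro u hu
    rcases hu.2 with ⟨j, hj⟩ | h4
    · left
      rw [Finset.mem_coe, Finset.mem_image]
      exact ⟨j, Finset.mem_univ j, uniqx_eq hI (he j) (hα j) (h2 j) hj (h1 j) hu.1⟩
    · right
      exact ⟨hu.1, h4⟩
  refine (Set.ncard_le_ncard h3 ((Finset.finite_toSet _).union (fin_cls hP _))).trans ?_
  refine (Set.ncard_union_le _ _).trans ?_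
  refine add_le_add ?_ (AprL.roots_le G P hI hG _ fun c hc => hc)
  rw [Set.ncard_coe_finset]
  exact Finset.card_image_le.trans (by rw [Finset.card_univ, Fintype.card_fin])

theorem loc_bx [CharP K 2] {k : ℕ} {e : Fin k → ℕ} (he : ∀ j, e j = 1 ∨ e j = 2)
    {α β : Fin k → K[X]} {G : K[X][X]} {M : K[X]}
    (hM : MayG.MC α G M) : Loc M (bx e α β G) (rx e α β G) (k + G.natDegree) where
  per := per_bx e α β G
  num := fun P hP hI hPM => by
    obtain ⟨h1, h2, h3⟩ := hM P hP hI hPM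
    unfold rx
    rw [min_eq_right (num_lex he hP hI h1 h2)]
  bd := fun _ => min_le_left _ _
  big := fun P hP hI hPM => (hM P hP hI hPM).2.2

theorem loc_bxi [CharP K 2] {k : ℕ} {e : Fin k → ℕ} (he : ∀ j, e j = 1 ∨ e j = 2)
    {α β : Fin k → K[X]} {G : K[X][X]} {M : K[X]}
    (hM : MayG.MC α G M) (i : Fin k) :
    Loc M (bxi e α β G i) (fun P => rx e α β G P - 1) (k + G.natDegree) where
  per := per_bxi e α β G i
  num := fun P hP hI hPM => by
    obtain ⟨h1, h2, h3⟩ := hM P hP hI hPM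
    show _ = rx e α β G P - 1
    unfold rx
    rw [min_eq_right (num_lex he hP hI h1 h2), num_bxi he hP hI h1 i]
    rfl
  bd := fun P => (Nat.sub_le _ _).trans (min_le_left _ _)
  big := fun P hP hI hPM => (hM P hP hI hPM).2.2

theorem rx_pos [CharP K 2] {k : ℕ} {e : Fin k → ℕ} (he : ∀ j, e j = 1 ∨ e j = 2)
    {α β : Fin k → K[X]} {G : K[X][X]} {M : K[X]}
    (hM : MayG.MC α G M) (i : Fin k) {P : K[X]} (hP : P.Monic) (hI : Irreducible P)
    (hPM : ¬ P ∣ M) : 1 ≤ rx e α β G P := by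
  obtain ⟨h1, h2, h3⟩ := hM P hP hI hPM
  unfold rx
  rw [min_eq_right (num_lex he hP hI h1 h2), num_bxi he hP hI h1 i]
  omega

theorem ex_a0x {k : ℕ} (e : Fin k → ℕ) (α β : Fin k → K[X]) (G : K[X][X]) {M : K[X]}
    (hM : M.Monic)
    (h : ∀ P : K[X], Irreducible P → ∃ a : K[X], ¬ P ∣ G.eval a ∧
      ∀ j, ¬ P ∣ α j * a ^ e j + β j) :
    ∃ a₀ : K[X], IsCoprime (G.eval a₀) M ∧ ∀ j, IsCoprime (α j * a₀ ^ e j + β j) M := by
  have e1 : ∀ x, (G * ∏ j, (C (α j) * X ^ e j + C (β j)) : K[X][X]).eval x =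
      G.eval x * ∏ j, (α j * x ^ e j + β j) := by
    intro x
    rw [eval_mul, eval_prod]
    simp
  obtain ⟨a₀, ha₀⟩ := ex_a0p (G * ∏ j, (C (α j) * X ^ e j + C (β j)) : K[X][X]) hM
    (fun P hP => by
      obtain ⟨a, h1, h2⟩ := h P hP
      refine ⟨a, fun h3 => ?_⟩
      rw [e1] at h3
      rcases hP.prime.dvd_or_dvd h3 with h4 | h4
      · exact h1 h4
      · obtain ⟨j, -, hj⟩ := (Prime.dvd_finsetProd_iff hP.prime _).1 h4
        exact h2 j hj)
  rw [e1] at ha₀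
  exact ⟨a₀, ha₀.of_mul_left_left, fun j =>
    IsCoprime.prod_left_iff.1 ha₀.of_mul_left_right j (Finset.mem_univ j)⟩

/-! ### The common roots -/

omit [Fintype K] in
theorem mixed_ne [CharP K 2] {α β γ ε : K[X]} (hα : α ≠ 0) (hsq : ¬ IsSquare (γ * ε)) :
    γ * β ^ 2 + α ^ 2 * ε ≠ 0 := by
  intro h
  apply hsq
  have h2 : (2 : K[X]) = 0 := by exact_mod_cast CharP.cast_eq_zero K[X] 2
  have h1 : α ^ 2 * (γ * ε) = (γ * β) ^ 2 := by
    linear_combination γ * h - γ ^ 2 * β ^ 2 * h2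
  have h3 : α ^ 2 ∣ (γ * β) ^ 2 := ⟨γ * ε, h1.symm⟩
  have h4 : α ∣ γ * β := (UniqueFactorizationMonoid.pow_dvd_pow_iff_dvd two_ne_zero).1 h3
  obtain ⟨t, ht⟩ := h4
  refine ⟨t, ?_⟩
  rw [ht] at h1
  have h5 : α ^ 2 * (γ * ε) = α ^ 2 * (t * t) := by rw [h1]; ring
  exact mul_left_cancel₀ (pow_ne_zero 2 hα) h5

omit [Fintype K] in
theorem pair_N [CharP K 2] {e₁ e₂ : ℕ} {α₁ β₁ α₂ β₂ : K[X]} (h1 : AF e₁ α₁ β₁)
    (h2 : AF e₂ α₂ β₂) (hne : e₁ = e₂ → α₁ * β₂ ≠ α₂ * β₁) : ∃ N : K[X], N ≠ 0 ∧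
      ∀ P a : K[X], P ∣ α₁ * a ^ e₁ + β₁ → P ∣ α₂ * a ^ e₂ + β₂ → P ∣ N := by
  obtain ⟨ha1, hc1, he1⟩ := h1
  obtain ⟨ha2, hc2, he2⟩ := h2
  by_cases he : e₁ = e₂
  · refine ⟨α₁ * β₂ - α₂ * β₁, sub_ne_zero.2 (hne he), fun P a h3 h4 => ?_⟩
    rw [← he] at h4
    have h5 := dvd_sub (Dvd.dvd.mul_left h4 α₁) (Dvd.dvd.mul_left h3 α₂)
    have h6 : α₁ * (α₂ * a ^ e₁ + β₂) - α₂ * (α₁ * a ^ e₁ + β₁) = α₁ * β₂ - α₂ * β₁ := by ring
    rwa [h6] at h5
  · rcases he1 with rfl | ⟨rfl, hs1⟩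
    · rcases he2 with rfl | ⟨rfl, hs2⟩
      · exact absurd rfl he
      · refine ⟨α₂ * β₁ ^ 2 + α₁ ^ 2 * β₂, mixed_ne ha1 hs2, fun P a h3 h4 => ?_⟩
        have h5 := dvd_sub (Dvd.dvd.mul_left h4 (α₁ ^ 2))
          (Dvd.dvd.mul_left h3 (α₂ * (α₁ * a - β₁)))
        have h6 : α₁ ^ 2 * (α₂ * a ^ 2 + β₂) - α₂ * (α₁ * a - β₁) * (α₁ * a ^ 1 + β₁) =
            α₂ * β₁ ^ 2 + α₁ ^ 2 * β₂ := by ring
        rwa [h6] at h5
    · rcases he2 with rfl | ⟨rfl, hs2⟩
      · refine ⟨α₁ * β₂ ^ 2 + α₂ ^ 2 * β₁, mixed_ne ha2 hs1, fun P a h3 h4 => ?_⟩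
        have h5 := dvd_sub (Dvd.dvd.mul_left h3 (α₂ ^ 2))
          (Dvd.dvd.mul_left h4 (α₁ * (α₂ * a - β₂)))
        have h6 : α₂ ^ 2 * (α₁ * a ^ 2 + β₁) - α₁ * (α₂ * a - β₂) * (α₂ * a ^ 1 + β₂) =
            α₁ * β₂ ^ 2 + α₂ ^ 2 * β₁ := by ring
        rwa [h6] at h5
      · exact absurd rfl he

omit [Fintype K] in
theorem ex_N [CharP K 2] {k : ℕ} {e : Fin k → ℕ} {α β : Fin k → K[X]}
    (h : ∀ j, AF (e j) (α j) (β j)) (hne : ∀ i j, i ≠ j → e i = e j → α i * β j ≠ α j * β i) :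
    ∃ N : K[X], N ≠ 0 ∧ ∀ (P a : K[X]) (i j : Fin k), Irreducible P → ¬ P ∣ N → i ≠ j →
      P ∣ α i * a ^ e i + β i → ¬ P ∣ α j * a ^ e j + β j := by
  have hp : ∀ i j : Fin k, ∃ N : K[X], N ≠ 0 ∧ (i ≠ j → ∀ P a : K[X],
      P ∣ α i * a ^ e i + β i → P ∣ α j * a ^ e j + β j → P ∣ N) := by
    intro i j
    by_cases hij : i = j
    · exact ⟨1, one_ne_zero, fun h => absurd hij h⟩
    · obtain ⟨N, h1, h2⟩ := pair_N (h i) (h j) (hne i j hij)
      exact ⟨N, h1, fun _ => h2⟩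
  choose N hN0 hN using hp
  refine ⟨∏ i, ∏ j, N i j, Finset.prod_ne_zero_iff.2 fun i _ =>
    Finset.prod_ne_zero_iff.2 fun j _ => hN0 i j, ?_⟩
  intro P a i j hI hPN hij h1 h2
  apply hPN
  exact ((hN i j hij P a h1 h2).trans (Finset.dvd_prod_of_mem _ (Finset.mem_univ j))).trans
    (Finset.dvd_prod_of_mem (fun i => ∏ j, N i j) (Finset.mem_univ i))

/-! ### The sums over the arguments -/

theorem deg_x {d e : ℕ} {a α β : K[X]} (he : 1 ≤ e) (hα : α ≠ 0) (ha : a ∈ Mn K d)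
    (hc : β.natDegree < d) : (α * a ^ e + β).natDegree = e * d + α.natDegree := by
  rw [mem_Mn] at ha
  have h1 : (α * a ^ e).natDegree = e * d + α.natDegree := by
    rw [natDegree_mul hα (pow_ne_zero _ ha.1.ne_zero), ha.1.natDegree_pow, ha.2]
    ring
  have h2 : d ≤ e * d := Nat.le_mul_of_pos_left d he
  rw [natDegree_add_eq_left_of_natDegree_lt (by rw [h1]; omega), h1]

/-- The number of the primes. -/
noncomputable def nx {k : ℕ} (e : Fin k → ℕ) (α β : Fin k → K[X]) (a : K[X]) : ℕ :=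
  (Finset.univ.filter (fun j => Irreducible (α j * a ^ e j + β j))).card

/-- The arguments without small primes. -/
noncomputable def Rx (K : Type) [Field K] [Fintype K] {k : ℕ} (e : Fin k → ℕ)
    (α β : Fin k → K[X]) (G : K[X][X]) (M a₀ : K[X]) (d z : ℕ) : Finset K[X] :=
  (Ac K d M a₀).filter (fun a => ∀ P ∈ PS K M z, ¬ bx e α β G P a)

theorem mem_Rx_of {k : ℕ} {e : Fin k → ℕ} (he : ∀ j, e j = 1 ∨ e j = 2) {α β : Fin k → K[X]}
    {G : K[X][X]} {M a₀ : K[X]} {d z : ℕ} {i : Fin k}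
    {a : K[X]} (hα : ∀ j, α j ≠ 0) (hcd : ∀ j, (β j).natDegree < d) (hz : z < d)
    (ha : a ∈ (Ac K d M a₀).filter (fun a => Irreducible (α i * a ^ e i + β i) ∧
      ∀ P ∈ PS K M z, ¬ bxi e α β G i P a)) : a ∈ Rx K e α β G M a₀ d z := by
  rw [Finset.mem_filter] at ha
  obtain ⟨h1, h2, h3⟩ := ha
  unfold Rx
  rw [Finset.mem_filter]
  refine ⟨h1, fun P hP hb => h3 P hP ⟨hb, fun hj => ?_⟩⟩
  unfold PS at hP
  have hP' := mem_PU.1 (Finset.mem_filter.1 hP).1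
  have h4 := (hP'.2.1.associated_of_dvd h2 hj)
  have h5 : P.natDegree = (α i * a ^ e i + β i).natDegree :=
    natDegree_eq_of_degree_eq (degree_eq_degree_of_associated h4)
  unfold Ac at h1
  have he1 : 1 ≤ e i := by rcases he i with h | h <;> omega
  rw [deg_x he1 (hα i) (Finset.mem_filter.1 h1).1 (hcd i)] at h5
  have h6 : d ≤ e i * d := Nat.le_mul_of_pos_left d he1
  omega

/-- The sum over the primes. -/
theorem sum_bdx {k m : ℕ} {e : Fin k → ℕ} (he : ∀ j, e j = 1 ∨ e j = 2) {α β : Fin k → K[X]}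
    {G : K[X][X]} {M a₀ : K[X]} {d z : ℕ}
    (hα : ∀ j, α j ≠ 0) (hcd : ∀ j, (β j).natDegree < d) (hz : z < d) (w : K[X] → ℝ)
    (hw : ∀ a, 0 ≤ w a) {Wm : ℝ} (hWm : ∀ a ∈ Mn K d, w a ≤ Wm) :
    ∑ i : Fin k, ∑ a ∈ (Ac K d M a₀).filter (fun a => Irreducible (α i * a ^ e i + β i) ∧
      ∀ P ∈ PS K M z, ¬ bxi e α β G i P a), w a ≤
      m * ∑ a ∈ Rx K e α β G M a₀ d z, w a +
        k * Wm * (((Rx K e α β G M a₀ d z).filter (fun a => m ≤ nx e α β a)).card : ℝ) := by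
  have h1 : ∀ i : Fin k, ∑ a ∈ (Ac K d M a₀).filter (fun a => Irreducible (α i * a ^ e i + β i) ∧
      ∀ P ∈ PS K M z, ¬ bxi e α β G i P a), w a ≤
      ∑ a ∈ Rx K e α β G M a₀ d z, if Irreducible (α i * a ^ e i + β i) then w a else 0 := by
    intro i
    rw [← Finset.sum_filter]
    refine Finset.sum_le_sum_of_subset_of_nonneg ?_ fun a _ _ => hw a
    intro a ha
    rw [Finset.mem_filter]
    exact ⟨mem_Rx_of he hα hcd hz ha, (Finset.mem_filter.1 ha).2.1⟩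
  refine (Finset.sum_le_sum fun i _ => h1 i).trans ?_
  rw [Finset.sum_comm]
  have h2 : ∀ a ∈ Rx K e α β G M a₀ d z,
      ∑ i : Fin k, (if Irreducible (α i * a ^ e i + β i) then w a else 0) ≤
      m * w a + if m ≤ nx e α β a then k * Wm else 0 := by
    intro a ha
    rw [← Finset.sum_filter, Finset.sum_const, nsmul_eq_mul]
    have e1 : (Finset.univ.filter (fun j => Irreducible (α j * a ^ e j + β j))).card =
      nx e α β a := rfl
    rw [e1]
    have hwa := hw a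
    have hWa : w a ≤ Wm := hWm a (Finset.mem_filter.1 (Finset.mem_filter.1 ha).1).1
    split_ifs with h
    · have h3 : nx e α β a ≤ k := by
        unfold nx
        exact (Finset.card_le_univ _).trans (by rw [Fintype.card_fin])
      have h4 : (nx e α β a : ℝ) ≤ k := by exact_mod_cast h3
      have h5 : (nx e α β a : ℝ) * w a ≤ k * Wm := mul_le_mul h4 hWa hwa (Nat.cast_nonneg k)
      have h6 : 0 ≤ (m : ℝ) * w a := by positivity
      linarith
    · rw [add_zero]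
      refine mul_le_mul_of_nonneg_right ?_ hwa
      exact_mod_cast (not_le.1 h).le
  refine (Finset.sum_le_sum h2).trans ?_
  rw [Finset.sum_add_distrib, ← Finset.mul_sum, ← Finset.sum_filter, Finset.sum_const,
    nsmul_eq_mul]
  apply le_of_eq
  ring

/-- The arguments in `Rx` are good. -/
theorem Rx_good {k : ℕ} {e : Fin k → ℕ} {α β : Fin k → K[X]} {G : K[X][X]} {M a₀ : K[X]}
    {d z : ℕ} (hG₀ : IsCoprime (G.eval a₀) M) (ha₀ : ∀ j, IsCoprime (α j * a₀ ^ e j + β j) M)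
    {a : K[X]} (ha : a ∈ Rx K e α β G M a₀ d z) {P : K[X]} (hI : Irreducible P)
    (hP : bx e α β G P a) : z < P.natDegree := by
  by_contra hcon
  push Not at hcon
  have h1 : (normalize P).Monic := monic_normalize hI.ne_zero
  have h2 : Irreducible (normalize P) := (normalize_associated P).symm.irreducible hI
  have h3 : (normalize P).natDegree = P.natDegree :=
    natDegree_eq_of_degree_eq (degree_eq_degree_of_associated (normalize_associated P))
  have h4 : bx e α β G (normalize P) a := by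
    unfold bx at hP ⊢
    simp only [normalize_dvd_iff]
    exact hP
  unfold Rx at ha
  rw [Finset.mem_filter] at ha
  by_cases hM : normalize P ∣ M
  · have h5 : M ∣ a - a₀ := (Finset.mem_filter.1 ha.1).2
    have h6 : normalize P ∣ a - a₀ := hM.trans h5
    rcases h4 with ⟨j, hj⟩ | h4
    · have h7 : normalize P ∣ α j * a₀ ^ e j + β j := by
        obtain ⟨t, ht⟩ := h6
        have h8 : a = a₀ + normalize P * t := by linear_combination ht
        rw [h8, per_x] at hj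
        exact hj
      exact h2.not_isUnit ((ha₀ j).isUnit_of_dvd' h7 hM)
    · have h7 : normalize P ∣ G.eval a₀ := by
        have e1 : G.eval a₀ = G.eval a - (G.eval a - G.eval a₀) := by ring
        rw [e1]
        exact dvd_sub h4 (h6.trans (sub_dvd_eval_sub _ _ _))
      exact h2.not_isUnit (hG₀.isUnit_of_dvd' h7 hM)
  · refine ha.2 (normalize P) ?_ h4
    unfold PS
    rw [Finset.mem_filter, mem_PU]
    exact ⟨⟨h1, h2, by rw [h3]; exact hcon⟩, hM⟩

end Pool.Agent.H524.MT.MayX
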