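import Mathlib
import Pool.Agent.H524.MT.RwmG
import Pool.Agent.H524.MT.MxA

/-!
# The sharp lower bounds: preparations
-/

set_option autoImplicit false

namespace Pool.Agent.H524.MT.Sh

open Polynomial
open scoped Classical
open Pool.Agent.H985.Chow (mob)
open Pool.Agent.H985.KP (PA)
open Pool.Agent.H694.Typ (Mn PU mem_PU mem_Mn card_Mn)
open Pool.Agent.H524.MT
open Pool.Agent.H524.MT.RWMG (mem_Rz nm nm_pos nm_le_ph dvd_sum ph_mul mob_le qq q0 cnt_div)

variable {K : Type} [Field K] [Fintype K]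

theorem sum_ph_dvdS {z T : ℕ} (hT : 2 * (T : ℝ) ≤ qq K ^ z) {e : K[X]} (he : e ∈ Rz K z T) :
    nm e * ∑ r ∈ (Rz K z T).filter (fun r => e ∣ r), 1 / ph r ≤
      2 * ∑ r ∈ Rz K z T, 1 / ph r := by
  have he' := mem_Rz.1 he
  have hp := RWMG.ph_pos he'.1.ne_zero
  have h1 := dvd_sum (z := z) (T := T) he'.1 (fun r => 1 / ph r) (fun r => 1 / ph r) (1 / ph e)
    (by positivity) (fun s hs => by
      have := RWMG.ph_pos (mem_Rz.1 hs).1.ne_zero
      positivity) (fun s hes hs => by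
      have h2 := ph_mul (mem_Rz.1 hes).2.2.1 he'.1.ne_zero (mem_Rz.1 hs).1.ne_zero
      rw [h2, one_div_mul_one_div])
  have h2 := nm_le_ph hT he
  have h4 := nm_pos e
  have h5 : 0 ≤ ∑ r ∈ Rz K z T, 1 / ph r := Finset.sum_nonneg fun s hs => by
    have := RWMG.ph_pos (mem_Rz.1 hs).1.ne_zero
    positivity
  calc nm e * ∑ r ∈ (Rz K z T).filter (fun r => e ∣ r), 1 / ph r
      ≤ nm e * (1 / ph e * ∑ r ∈ Rz K z T, 1 / ph r) := by gcongr
    _ = (nm e / ph e) * ∑ r ∈ Rz K z T, 1 / ph r := by ring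
    _ ≤ 2 * ∑ r ∈ Rz K z T, 1 / ph r := by
        gcongr
        rw [div_le_iff₀ hp]
        exact h2

theorem lam_leS {k z T : ℕ} (hT : 2 * (T : ℝ) ≤ qq K ^ z) {S : ℝ}
    (hS : ∑ r ∈ Rz K z T, 1 / ph r ≤ S) {y : (Fin k → K[X]) → ℝ}
    (hy : ∀ r, |y r| ≤ 1) {e : Fin k → K[X]}
    (he : e ∈ Fintype.piFinset (fun _ : Fin k => Rz K z T)) :
    |lam (fun _ => Rz K z T) y e| ≤ (2 * S) ^ k := by
  have hej : ∀ j, e j ∈ Rz K z T := fun j => Fintype.mem_piFinset.1 he j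
  have hph : ∀ r ∈ Rz K z T, 0 < ph r := fun r hr => RWMG.ph_pos (mem_Rz.1 hr).1.ne_zero
  unfold lam
  rw [abs_mul, Finset.abs_prod]
  have a1 : ∏ j, |((mob (e j) : ℝ) * (Fintype.card K : ℝ) ^ (e j).natDegree)| ≤
      ∏ j, nm (e j) := by
    refine Finset.prod_le_prod (fun j _ => abs_nonneg _) fun j _ => ?_
    rw [abs_mul, abs_of_pos (show 0 < (Fintype.card K : ℝ) ^ (e j).natDegree from nm_pos (e j))]
    calc |(mob (e j) : ℝ)| * (Fintype.card K : ℝ) ^ (e j).natDegree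
        ≤ 1 * (Fintype.card K : ℝ) ^ (e j).natDegree := by
          gcongr
          exact mob_le _
      _ = nm (e j) := one_mul _
  have hfil : (Fintype.piFinset (fun _ : Fin k => Rz K z T)).filter (fun r => ∀ j, e j ∣ r j) =
      Fintype.piFinset (fun j => (Rz K z T).filter (fun r => e j ∣ r)) := by
    ext r
    simp only [Finset.mem_filter, Fintype.mem_piFinset]
    constructor
    · rintro ⟨h1, h2⟩ j
      exact ⟨h1 j, h2 j⟩
    · intro h
      exact ⟨fun j => (h j).1, fun j => (h j).2⟩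
  have a2 : |∑ r ∈ (Fintype.piFinset (fun _ : Fin k => Rz K z T)).filter
      (fun r => ∀ j, e j ∣ r j), y r / ∏ j, ph (r j)| ≤
      ∏ j, ∑ a ∈ (Rz K z T).filter (fun r => e j ∣ r), 1 / ph a := by
    rw [Finset.prod_univ_sum, ← hfil]
    refine (Finset.abs_sum_le_sum_abs _ _).trans (Finset.sum_le_sum fun r hr => ?_)
    have hr1 := (Finset.mem_filter.1 hr).1
    have h1 := hy r
    have h2 : 0 < ∏ j, ph (r j) := Finset.prod_pos fun j _ =>
      hph _ (Fintype.mem_piFinset.1 hr1 j)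
    rw [abs_div, abs_of_pos h2]
    have h3 : ∏ j, 1 / ph (r j) = 1 / ∏ j, ph (r j) := by
      rw [Finset.prod_div_distrib, Finset.prod_const_one]
    rw [h3]
    gcongr
  have a3 : 0 ≤ ∏ j, nm (e j) := Finset.prod_nonneg fun j _ => (nm_pos _).le
  calc (∏ j, |((mob (e j) : ℝ) * (Fintype.card K : ℝ) ^ (e j).natDegree)|) *
        |∑ r ∈ (Fintype.piFinset (fun _ : Fin k => Rz K z T)).filter (fun r => ∀ j, e j ∣ r j),
          y r / ∏ j, ph (r j)|
      ≤ (∏ j, nm (e j)) * (∏ j, ∑ a ∈ (Rz K z T).filter (fun r => e j ∣ r), 1 / ph a) := by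
        gcongr
    _ = ∏ j, (nm (e j) * ∑ a ∈ (Rz K z T).filter (fun r => e j ∣ r), 1 / ph a) := by
        rw [Finset.prod_mul_distrib]
    _ ≤ ∏ j : Fin k, (2 * S) := by
        refine Finset.prod_le_prod (fun j _ => ?_) fun j _ => ?_
        · refine mul_nonneg (nm_pos _).le (Finset.sum_nonneg fun a ha => ?_)
          have := hph a (Finset.mem_filter.1 ha).1
          positivity
        · refine (sum_ph_dvdS hT (hej j)).trans ?_
          linarith
    _ = (2 * S) ^ k := by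
        rw [Finset.prod_const, Finset.card_univ, Fintype.card_fin]

theorem wV_leS {k z T : ℕ} (hT : 2 * (T : ℝ) ≤ qq K ^ z) {S : ℝ} (hS0 : 0 ≤ S)
    (hS : ∑ r ∈ Rz K z T, 1 / ph r ≤ S) {y : (Fin k → K[X]) → ℝ}
    (hy : ∀ r, |y r| ≤ 1) (hz : 0 < z)
    {v : Fin k → K[X]} (hv : ∀ j, v j ≠ 0) {N : ℕ} (hN : ∀ j, (v j).natDegree ≤ N * z) :
    wV (fun _ => Rz K z T) y v ≤ (((2 : ℝ) ^ N) ^ k * (2 * S) ^ k) ^ 2 := by
  unfold wV
  rw [← sq_abs]
  refine pow_le_pow_left₀ (abs_nonneg _) ?_ 2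
  have hfil : (Fintype.piFinset (fun _ : Fin k => Rz K z T)).filter (fun e => ∀ j, e j ∣ v j) =
      Fintype.piFinset (fun j => (Rz K z T).filter (fun r => r ∣ v j)) := by
    ext r
    simp only [Finset.mem_filter, Fintype.mem_piFinset]
    constructor
    · rintro ⟨h1, h2⟩ j
      exact ⟨h1 j, h2 j⟩
    · intro h
      exact ⟨fun j => (h j).1, fun j => (h j).2⟩
  have hcard : (((Fintype.piFinset (fun _ : Fin k => Rz K z T)).filter
      (fun e => ∀ j, e j ∣ v j)).card : ℝ) ≤ ((2 : ℝ) ^ N) ^ k := by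
    rw [hfil, Fintype.card_piFinset]
    push_cast
    calc ∏ j, (((Rz K z T).filter (fun r => r ∣ v j)).card : ℝ) ≤ ∏ j : Fin k, (2 : ℝ) ^ N := by
          refine Finset.prod_le_prod (fun j _ => Nat.cast_nonneg _) fun j _ => ?_
          have h1 := cnt_div (T := T) hz (hv j) (hN j)
          exact_mod_cast h1
      _ = ((2 : ℝ) ^ N) ^ k := by rw [Finset.prod_const, Finset.card_univ, Fintype.card_fin]
  calc |∑ e ∈ (Fintype.piFinset (fun _ : Fin k => Rz K z T)).filter (fun e => ∀ j, e j ∣ v j),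
        lam (fun _ => Rz K z T) y e|
      ≤ ∑ e ∈ (Fintype.piFinset (fun _ : Fin k => Rz K z T)).filter (fun e => ∀ j, e j ∣ v j),
        |lam (fun _ => Rz K z T) y e| :=
        Finset.abs_sum_le_sum_abs _ _
    _ ≤ ∑ e ∈ (Fintype.piFinset (fun _ : Fin k => Rz K z T)).filter (fun e => ∀ j, e j ∣ v j),
        (2 * S) ^ k :=
        Finset.sum_le_sum fun e he => lam_leS hT hS hy (Finset.mem_filter.1 he).1
    _ = (((Fintype.piFinset (fun _ : Fin k => Rz K z T)).filter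
        (fun e => ∀ j, e j ∣ v j)).card : ℝ) * (2 * S) ^ k := by
        rw [Finset.sum_const, nsmul_eq_mul]
    _ ≤ _ := by gcongr

/-! ### The product of the densities -/

/-- The number of the zeros of `F` modulo `P`. -/
noncomputable def om (F : K[X][X]) (P : K[X]) : ℕ :=
  {u : K[X] | u.degree < P.degree ∧ P ∣ F.eval u}.ncard

theorem om_le (F : K[X][X]) {P : K[X]} (hP : P.Monic) :
    (om F P : ℝ) ≤ (Fintype.card K : ℝ) ^ P.natDegree := by
  have h1 : om F P ≤ ((Mn K P.natDegree : Finset K[X]) : Set K[X]).ncard := by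
    unfold om
    refine Set.ncard_le_ncard_of_injOn (fun u => P + u) ?_ ?_
    · intro u hu
      rw [Finset.mem_coe, mem_Mn]
      refine ⟨hP.add_of_left hu.1, ?_⟩
      rw [natDegree_add_eq_left_of_degree_lt hu.1]
    · intro u _ u' _ h
      exact add_left_cancel h
  rw [Set.ncard_coe_finset, card_Mn] at h1
  exact_mod_cast h1

/-- The product over the primes of degree at most `d`. -/
noncomputable def dn (F : K[X][X]) (d : ℕ) : ℝ :=
  ∏ P ∈ PU K d, (1 - (om F P : ℝ) / (Fintype.card K : ℝ) ^ P.natDegree)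

theorem dn_le {F : K[X][X]} {M : K[X]} {z d : ℕ} (hz : z ≤ d) {r : K[X] → ℕ}
    (hr : ∀ P : K[X], P.Monic → Irreducible P → ¬ P ∣ M → r P ≤ om F P) :
    dn F d ≤ VR M z r := by
  have hx : ∀ P ∈ PU K d, (0 : ℝ) ≤ 1 - (om F P : ℝ) / (Fintype.card K : ℝ) ^ P.natDegree ∧
      1 - (om F P : ℝ) / (Fintype.card K : ℝ) ^ P.natDegree ≤ 1 := by
    intro P hP
    have h1 := om_le F (mem_PU.1 hP).1
    have h2 : (0 : ℝ) < (Fintype.card K : ℝ) ^ P.natDegree := pow_pos q0 _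
    have h3 : 0 ≤ (om F P : ℝ) / (Fintype.card K : ℝ) ^ P.natDegree := by positivity
    refine ⟨?_, by linarith⟩
    rw [sub_nonneg, div_le_one h2]
    exact h1
  have hsub : PS K M z ⊆ PU K d := by
    intro P hP
    unfold PS at hP
    rw [Finset.mem_filter, mem_PU] at hP
    rw [mem_PU]
    exact ⟨hP.1.1, hP.1.2.1, hP.1.2.2.trans hz⟩
  unfold dn
  rw [← Finset.prod_sdiff hsub]
  have h1 : ∏ P ∈ PU K d \ PS K M z, (1 - (om F P : ℝ) / (Fintype.card K : ℝ) ^ P.natDegree) ≤ 1 :=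
    Finset.prod_le_one (fun P hP => (hx P (Finset.mem_sdiff.1 hP).1).1)
      fun P hP => (hx P (Finset.mem_sdiff.1 hP).1).2
  have h2 : 0 ≤ ∏ P ∈ PS K M z, (1 - (om F P : ℝ) / (Fintype.card K : ℝ) ^ P.natDegree) :=
    Finset.prod_nonneg fun P hP => (hx P (hsub hP)).1
  refine (mul_le_mul_of_nonneg_right h1 h2).trans ?_
  rw [one_mul]
  unfold VR
  refine Finset.prod_le_prod (fun P hP => (hx P (hsub hP)).1) fun P hP => ?_
  unfold PS at hP
  rw [Finset.mem_filter, mem_PU] at hP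
  have h3 : (r P : ℝ) ≤ om F P := by exact_mod_cast hr P hP.1.1 hP.1.2.1 hP.2
  have h4 : (0 : ℝ) < (Fintype.card K : ℝ) ^ P.natDegree := pow_pos q0 _
  have h5 : (r P : ℝ) / (Fintype.card K : ℝ) ^ P.natDegree ≤
      (om F P : ℝ) / (Fintype.card K : ℝ) ^ P.natDegree := by gcongr
  linarith

theorem rx_om {k : ℕ} {e : Fin k → ℕ} {α β : Fin k → K[X]} {G F : K[X][X]}
    (hF : ∀ a, F.eval a = G.eval a * ∏ j, (α j * a ^ e j + β j)) {P : K[X]}
    (hI : Irreducible P) : MayX.rx e α β G P ≤ om F P := by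
  unfold MayX.rx om
  refine (min_le_right _ _).trans (le_of_eq ?_)
  congr 1
  ext u
  rw [Set.mem_ofPred_eq, Set.mem_ofPred_eq, hF]
  unfold MayX.bx
  refine and_congr_right fun _ => ?_
  constructor
  · rintro (⟨j, hj⟩ | h)
    · exact Dvd.dvd.mul_left (hj.trans (Finset.dvd_prod_of_mem (fun j => α j * u ^ e j + β j)
        (Finset.mem_univ j))) _
    · exact Dvd.dvd.mul_right h _
  · intro h
    rcases hI.prime.dvd_or_dvd h with h | h
    · exact Or.inr h
    · obtain ⟨j, -, hj⟩ := (Prime.dvd_finsetProd_iff hI.prime _).1 h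
      exact Or.inl ⟨j, hj⟩

end Pool.Agent.H524.MT.Sh
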