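import Pool.Agent.H524.MT.StmV

/-!
# Task ONE (helper721, for helper524): the upper bound without primes
-/

set_option autoImplicit false

namespace Pool.Agent.H524.MT.One

open Polynomial Finset
open scoped Classical
open Pool.Agent.H985.KP (PA)
open Pool.Agent.H694.Typ (Mn PU mem_Mn mem_PU card_dvd q_ge)
open Pool.Agent.H524.MT

theorem card_Ac {K : Type} [Field K] [Fintype K] {d : ℕ} {M : K[X]} (a₀ : K[X]) (hM : M.Monic)
    (hd : M.natDegree ≤ d) : (Ac K d M a₀).card = Fintype.card K ^ (d - M.natDegree) := by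
  rw [← card_dvd hM hd]
  have hdeg : (a₀ %ₘ M).degree < (d : WithBot ℕ) := by
    refine lt_of_lt_of_le (degree_modByMonic_lt a₀ hM) ?_
    rw [degree_eq_natDegree hM.ne_zero]
    exact_mod_cast hd
  have hdvd : M ∣ a₀ - a₀ %ₘ M := by
    have h := modByMonic_add_div a₀ M
    exact ⟨a₀ /ₘ M, by linear_combination -h⟩
  have hmon : ∀ f ∈ Mn K d, ∀ s : K[X], s.degree < (d : WithBot ℕ) → f + s ∈ Mn K d := by
    intro f hf s hs
    rw [mem_Mn] at hf ⊢
    have h1 : s.degree < f.degree := by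
      rw [degree_eq_natDegree hf.1.ne_zero, hf.2]
      exact hs
    refine ⟨hf.1.add_of_left h1, ?_⟩
    rw [natDegree_add_eq_left_of_degree_lt h1, hf.2]
  refine Finset.card_bij (fun a _ => a - a₀ %ₘ M) ?_ ?_ ?_
  · intro a ha
    unfold Ac at ha
    rw [mem_filter] at ha ⊢
    refine ⟨?_, ?_⟩
    · rw [sub_eq_add_neg]
      exact hmon a ha.1 _ (by rw [degree_neg]; exact hdeg)
    · have h : a - a₀ %ₘ M = (a - a₀) + (a₀ - a₀ %ₘ M) := by ring
      rw [h]
      exact dvd_add ha.2 hdvd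
  · intro a _ b _ hab
    exact sub_left_injective hab
  · intro b hb
    rw [mem_filter] at hb
    refine ⟨b + a₀ %ₘ M, ?_, by ring⟩
    unfold Ac
    rw [mem_filter]
    refine ⟨hmon b hb.1 _ hdeg, ?_⟩
    have h : b + a₀ %ₘ M - a₀ = b - (a₀ - a₀ %ₘ M) := by ring
    rw [h]
    exact dvd_sub hb.2 hdvd

theorem card_Ac_real {K : Type} [Field K] [Fintype K] {d : ℕ} {M : K[X]} (a₀ : K[X]) (hM : M.Monic)
    (hd : M.natDegree ≤ d) : ((Ac K d M a₀).card : ℝ) =
      (Fintype.card K : ℝ) ^ d / (Fintype.card K : ℝ) ^ M.natDegree := by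
  have hq := q_ge (k := K)
  rw [card_Ac a₀ hM hd, Nat.cast_pow, pow_sub₀ _ (by positivity) hd, div_eq_mul_inv]

theorem QQ_nonneg {K : Type} [Field K] [Fintype K] {z D : ℕ} {B : ℝ} {ι : Type} {I : Finset ι}
    {E c : ι → K[X]} {φ : ι → ℝ} (h : RW z D B I E c φ) : 0 ≤ QQ I E φ := by
  have hq := q_ge (k := K)
  have key : ∑ a ∈ Mn K D, rwt I E c φ a = (Fintype.card K : ℝ) ^ D * QQ I E φ := by
    unfold rwt QQ
    simp only [sum_filter]
    rw [sum_comm, mul_sum]
    refine sum_congr rfl fun x hx => ?_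
    rw [← sum_filter, sum_const, nsmul_eq_mul]
    have h1 := card_Ac_real (c x) (h.mon x hx) (h.deg x hx)
    unfold Ac at h1
    rw [h1]
    ring
  have h0 : 0 ≤ ∑ a ∈ Mn K D, rwt I E c φ a := sum_nonneg fun a _ => h.nn a
  rw [key] at h0
  exact (mul_nonneg_iff_of_pos_left (by positivity)).1 h0

theorem inner {K : Type} [Field K] [Fintype K] {M : K[X]} {Rt : K[X] → K[X] → Prop}
    {r : K[X] → ℕ} {S : Finset K[X]} (hM : M.Monic) (hS : ∀ P ∈ S, P.Monic)
    (hfin : (cls Rt S).Finite) (hcard : (cls Rt S).ncard = ∏ P ∈ S, r P) {E : K[X]} (hE : E.Monic)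
    {d : ℕ} (hd : M.natDegree + E.natDegree + ∑ P ∈ S, P.natDegree ≤ d) (f : K[X] → K[X]) :
    ∑ᶠ u ∈ cls Rt S, ∑ _a ∈ Ac K d (M * E * ∏ P ∈ S, P) (f u), (1 : ℝ) =
      (Fintype.card K : ℝ) ^ d / (Fintype.card K : ℝ) ^ M.natDegree *
        (1 / (Fintype.card K : ℝ) ^ E.natDegree *
          ∏ P ∈ S, ((r P : ℝ) / (Fintype.card K : ℝ) ^ P.natDegree)) := by
  have hq := q_ge (k := K)
  have hSm : (∏ P ∈ S, P).Monic := monic_prod_of_monic _ _ hS
  have hdeg : (M * E * ∏ P ∈ S, P).natDegree =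
      M.natDegree + E.natDegree + ∑ P ∈ S, P.natDegree := by
    rw [(hM.mul hE).natDegree_mul hSm, hM.natDegree_mul hE, natDegree_prod_of_monic _ _ hS]
  have h1 : ∀ u ∈ hfin.toFinset, ∑ _a ∈ Ac K d (M * E * ∏ P ∈ S, P) (f u), (1 : ℝ) =
      (Fintype.card K : ℝ) ^ d / (Fintype.card K : ℝ) ^ (M * E * ∏ P ∈ S, P).natDegree := by
    intro u _
    rw [sum_const, nsmul_eq_mul, mul_one]
    exact card_Ac_real (f u) ((hM.mul hE).mul hSm) (by rw [hdeg]; exact hd)
  rw [finsum_mem_eq_finite_toFinset_sum _ hfin, sum_congr rfl h1, sum_const, nsmul_eq_mul,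
    ← Set.ncard_eq_toFinset_card _ hfin, hcard, hdeg, prod_div_distrib, prod_pow_eq_pow_sum,
    pow_add, pow_add]
  push_cast
  field_simp

theorem tone : S_tone := by
  intro hexp K _ _ κ M Rt r a₀ d z A D B Vm Vp ι I E c φ hM hL hz hBH hd hRW
  have hQ := QQ_nonneg hRW
  refine ⟨hQ, ?_⟩
  have hq := q_ge (k := K)
  obtain ⟨h1, h2, h3⟩ := hexp K M Rt r κ hM hL a₀ d z D B Vp ι I E c φ hz hRW
  have s1 : ∑ a ∈ (Ac K d M a₀).filter (fun a => ∀ P ∈ PS K M z, ¬ Rt P a), rwt I E c φ a ≤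
      ∑ a ∈ Ac K d M a₀, 1 * (sw M Rt z Vp a * rwt I E c φ a) := by
    have e1 : ∀ a ∈ (Ac K d M a₀).filter (fun a => ∀ P ∈ PS K M z, ¬ Rt P a),
        rwt I E c φ a = 1 * (sw M Rt z Vp a * rwt I E c φ a) := by
      intro a ha
      rw [mem_filter] at ha
      have e2 : sw M Rt z Vp a = 1 := by
        unfold sw
        rw [filter_false_of_mem (fun P hP => ha.2 P hP), powerset_empty, sum_singleton, hBH.ep]
      rw [e2]
      ring
    rw [sum_congr rfl e1]
    apply sum_le_sum_of_subset_of_nonneg (filter_subset _ _)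
    intro a _ _
    rw [one_mul]
    apply mul_nonneg _ (hRW.nn a)
    unfold sw
    apply hBH.lp
    exact (filter_subset _ _).trans (filter_subset _ _)
  have s2 := h1 (fun _ => 1)
  have hPS : ∀ P ∈ PS K M z, P.Monic ∧ Irreducible P ∧ P.natDegree ≤ z ∧ ¬ P ∣ M := by
    intro P hP
    unfold PS at hP
    rw [mem_filter, mem_PU] at hP
    exact ⟨hP.1.1, hP.1.2.1, hP.1.2.2, hP.2⟩
  -- evaluation of the right side
  have s3 : ∀ x ∈ I, φ x * ∑ S ∈ (PS K M z).powerset, Vp S * ∑ᶠ u ∈ cls Rt S,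
          ∑ _a ∈ Ac K d (M * E x * ∏ P ∈ S, P) (crt M a₀ (E x) (c x) (∏ P ∈ S, P) u), (1 : ℝ) =
      (Fintype.card K : ℝ) ^ d / (Fintype.card K : ℝ) ^ M.natDegree *
        ((φ x / (Fintype.card K : ℝ) ^ (E x).natDegree) *
          ∑ S ∈ (PS K M z).powerset, Vp S *
            ∏ P ∈ S, ((r P : ℝ) / (Fintype.card K : ℝ) ^ P.natDegree)) := by
    intro x hx
    rw [mul_sum, mul_sum, mul_sum]
    refine sum_congr rfl fun S hS => ?_
    rw [mem_powerset] at hS
    by_cases hV : Vp S = 0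
    · rw [hV]; ring
    · have hgw := (hBH.gp.2 S hV).2
      have hdx := hRW.deg x hx
      rw [inner hM (fun P hP => (hPS P (hS hP)).1) (h2 S hS).1 (h2 S hS).2 (hRW.mon x hx)
        (by omega) (fun u => crt M a₀ (E x) (c x) (∏ P ∈ S, P) u)]
      ring
  have s4 : ∑ S ∈ (PS K M z).powerset, Vp S *
      ∏ P ∈ S, ((r P : ℝ) / (Fintype.card K : ℝ) ^ P.natDegree) ≤ 2 * VR M z r := by
    have m1 := hBH.mp (fun P => if P ∣ M then 0 else (r P : ℝ) / (Fintype.card K : ℝ) ^ P.natDegree)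
      (by
        intro P hP
        rw [mem_PU] at hP
        by_cases hPM : P ∣ M
        · simp only [if_pos hPM]
          refine ⟨le_refl _, by positivity, by norm_num⟩
        · simp only [if_neg hPM]
          have hb := hL.bd P
          have hbig := hL.big P hP.1 hP.2.1 hPM
          have hb' : (r P : ℝ) ≤ κ := by exact_mod_cast hb
          have hbig' : (16 : ℝ) * (κ + 2) ≤ (Fintype.card K : ℝ) ^ P.natDegree := by
            exact_mod_cast hbig
          have hpos : (0 : ℝ) < (Fintype.card K : ℝ) ^ P.natDegree := by positivity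
          have hk : (0 : ℝ) ≤ κ := Nat.cast_nonneg κ
          refine ⟨by positivity, ?_, ?_⟩
          · apply div_le_div_of_nonneg_right _ hpos.le
            push_cast
            linarith
          · rw [div_le_iff₀ hpos]
            linarith)
    have m2 : ∏ P ∈ PU K z, (1 - (if P ∣ M then 0 else
        (r P : ℝ) / (Fintype.card K : ℝ) ^ P.natDegree)) = VR M z r := by
      unfold VR PS
      rw [prod_filter]
      refine prod_congr rfl fun P _ => ?_
      by_cases hPM : P ∣ M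
      · rw [if_pos hPM, if_neg (not_not.2 hPM), sub_zero]
      · rw [if_neg hPM, if_pos hPM]
    rw [m2] at m1
    refine le_trans (le_of_eq ?_) m1
    have hsub : (PS K M z).powerset ⊆ (PU K z).powerset :=
      powerset_mono.2 (filter_subset _ _)
    rw [← sum_subset hsub]
    · refine sum_congr rfl fun S hS => ?_
      rw [mem_powerset] at hS
      congr 1
      refine prod_congr rfl fun P hP => ?_
      rw [if_neg (hPS P (hS hP)).2.2.2]
    · intro S hS hS'
      rw [mem_powerset] at hS hS'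
      obtain ⟨P, hP, hP'⟩ := not_subset.1 hS'
      have hPM : P ∣ M := by
        by_contra h
        exact hP' (mem_filter.2 ⟨hS hP, h⟩)
      have e0 : (∏ P ∈ S, if P ∣ M then 0 else (r P : ℝ) / (Fintype.card K : ℝ) ^ P.natDegree) = 0 :=
        prod_eq_zero hP (by rw [if_pos hPM])
      rw [e0, mul_zero]
  have s5 : ∑ a ∈ Ac K d M a₀, 1 * (sw M Rt z Vp a * rwt I E c φ a) =
      (Fintype.card K : ℝ) ^ d / (Fintype.card K : ℝ) ^ M.natDegree *
        (QQ I E φ * ∑ S ∈ (PS K M z).powerset, Vp S *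
            ∏ P ∈ S, ((r P : ℝ) / (Fintype.card K : ℝ) ^ P.natDegree)) := by
    refine s2.trans ?_
    refine (sum_congr rfl s3).trans ?_
    unfold QQ
    rw [← mul_sum, ← sum_mul]
  refine s1.trans ?_
  rw [s5]
  apply mul_le_mul_of_nonneg_left _ (by positivity)
  calc QQ I E φ * ∑ S ∈ (PS K M z).powerset, Vp S *
            ∏ P ∈ S, ((r P : ℝ) / (Fintype.card K : ℝ) ^ P.natDegree)
      ≤ QQ I E φ * (2 * VR M z r) := mul_le_mul_of_nonneg_left s4 hQ
    _ = 2 * VR M z r * QQ I E φ := by ring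

end Pool.Agent.H524.MT.One
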