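import Pool.Agent.H524.MT.StmV

/-!
# Restriction of Maynard's weights to `e i = 1`
-/

set_option autoImplicit false

namespace Pool.Agent.H524.MT

open Polynomial
open scoped Classical
open Pool.Agent.H985.Chow (mob)
open Pool.Agent.H985.KP (PA)
open Pool.Agent.H694.Typ (Mn PU)

namespace Res

theorem ph_one (K : Type) [Field K] [Fintype K] : ph (1 : K[X]) = 1 := by
  have h : ∀ P : K[X], P ∈ PA (1 : K[X]) → False := by
    intro P hP
    exact hP.2.1.not_isUnit (isUnit_of_dvd_one hP.2.2)
  unfold ph
  rw [finprod_mem_eq_one_of_forall_eq_one]
  intro P hP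
  exact (h P hP).elim

theorem eq_one {K : Type} [Field K] {e q : K[X]} {T : ℕ} (he : e.Monic) (hq : Irreducible q)
    (hT : e.natDegree ≤ T) (hq2 : T < q.natDegree) (h : e ∣ q) : e = 1 := by
  obtain ⟨f, hf⟩ := h
  rcases hq.isUnit_or_isUnit hf with h1 | h1
  · exact he.eq_one_of_isUnit h1
  · exfalso
    have h2 := natDegree_eq_zero_of_isUnit h1
    have h3 : f ≠ 0 := h1.ne_zero
    have h4 : q.natDegree = e.natDegree := by
      rw [hf, natDegree_mul he.ne_zero h3, h2, add_zero]
    omega

theorem prod_split {k : ℕ} (i : Fin k) (g : Fin k → ℝ) :
    ∏ j, g j = g i * ∏ j ∈ Finset.univ.erase i, g j :=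
  (Finset.mul_prod_erase Finset.univ g (Finset.mem_univ i)).symm

theorem lam_eq (K : Type) [Field K] [Fintype K] (k : ℕ) (i : Fin k) (R : Fin k → Finset K[X])
    (y : (Fin k → K[X]) → ℝ) (e : Fin k → K[X]) (he : e i = 1) :
    lam R y e = lam (Function.update R i {1}) (yr i R y) e := by
  unfold lam
  congr 1
  simp only [yr, Finset.sum_div]
  rw [← Finset.sum_product' ((Fintype.piFinset (Function.update R i {1})).filter
    (fun r => ∀ j, e j ∣ r j)) (R i)
    (fun r s => y (Function.update r i s) / ph s / ∏ j, ph (r j))]
  refine Finset.sum_nbij' (fun r => (Function.update r i 1, r i))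
    (fun x => Function.update x.1 i x.2) ?_ ?_ ?_ ?_ ?_
  · intro r hr
    simp only [Finset.mem_filter, Fintype.mem_piFinset] at hr
    simp only [Finset.mem_product, Finset.mem_filter, Fintype.mem_piFinset]
    refine ⟨⟨fun j => ?_, fun j => ?_⟩, hr.1 i⟩
    · by_cases hj : j = i
      · subst hj
        simp
      · rw [Function.update_of_ne hj, Function.update_of_ne hj]
        exact hr.1 j
    · by_cases hj : j = i
      · subst hj
        rw [he]
        exact one_dvd _
      · rw [Function.update_of_ne hj]
        exact hr.2 j
  · intro x hx
    simp only [Finset.mem_product, Finset.mem_filter, Fintype.mem_piFinset] at hx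
    simp only [Finset.mem_filter, Fintype.mem_piFinset]
    refine ⟨fun j => ?_, fun j => ?_⟩
    · by_cases hj : j = i
      · subst hj
        rw [Function.update_self]
        exact hx.2
      · have := hx.1.1 j
        rw [Function.update_of_ne hj] at this
        rw [Function.update_of_ne hj]
        exact this
    · by_cases hj : j = i
      · subst hj
        rw [he]
        exact one_dvd _
      · rw [Function.update_of_ne hj]
        exact hx.1.2 j
  · intro r _
    simp
  · intro x hx
    simp only [Finset.mem_product, Finset.mem_filter, Fintype.mem_piFinset] at hx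
    have h1 := hx.1.1 i
    rw [Function.update_self, Finset.mem_singleton] at h1
    refine Prod.ext ?_ ?_
    · simp only [Function.update_idem]
      rw [← h1, Function.update_eq_self]
    · simp
  · intro r _
    simp only [Function.update_idem, Function.update_eq_self]
    rw [prod_split i (fun j => ph (r j)),
      prod_split i (fun j => ph (Function.update r i 1 j))]
    simp only [Function.update_self]
    rw [ph_one, one_mul, div_div]
    congr 2
    refine Finset.prod_congr rfl fun j hj => ?_
    rw [Function.update_of_ne (Finset.ne_of_mem_erase hj)]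

end Res

theorem res : S_res := by
  intro K _ _ k i R y c a T hD hT hirr hdeg h1
  have hone : ∀ e ∈ (Fintype.piFinset R).filter (fun e => ∀ j, e j ∣ a ^ 2 + c j), e i = 1 := by
    intro e he
    simp only [Finset.mem_filter, Fintype.mem_piFinset] at he
    exact Res.eq_one ((hD i).1 _ (he.1 i)).1 hirr (hT i _ (he.1 i)) hdeg (he.2 i)
  have hset : (Fintype.piFinset R).filter (fun e => ∀ j, e j ∣ a ^ 2 + c j) =
      (Fintype.piFinset (Function.update R i {1})).filter (fun e => ∀ j, e j ∣ a ^ 2 + c j) := by
    ext e
    constructor
    · intro he
      have h2 := hone e he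
      simp only [Finset.mem_filter, Fintype.mem_piFinset] at he ⊢
      refine ⟨fun j => ?_, he.2⟩
      by_cases hj : j = i
      · subst hj
        rw [Function.update_self, Finset.mem_singleton]
        exact h2
      · rw [Function.update_of_ne hj]
        exact he.1 j
    · intro he
      simp only [Finset.mem_filter, Fintype.mem_piFinset] at he ⊢
      refine ⟨fun j => ?_, he.2⟩
      have h3 := he.1 j
      by_cases hj : j = i
      · subst hj
        rw [Function.update_self, Finset.mem_singleton] at h3
        rw [h3]
        exact h1
      · rw [Function.update_of_ne hj] at h3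
        exact h3
  unfold wS
  rw [← hset]
  congr 1
  exact Finset.sum_congr rfl fun e he => Res.lam_eq K k i R y e (hone e he)

end Pool.Agent.H524.MT
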