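import Pool.Agent.H524.MT.StmG
import Pool.Agent.H524.MT.Res

/-!
# Restriction of Maynard's weights to `e i = 1`, general values
-/

set_option autoImplicit false

namespace Pool.Agent.H524.MT

open Polynomial
open scoped Classical

theorem resg : S_resg := by
  intro K _ _ k i R y v T hD hT hirr hdeg h1
  have hone : ∀ e ∈ (Fintype.piFinset R).filter (fun e => ∀ j, e j ∣ v j), e i = 1 := by
    intro e he
    simp only [Finset.mem_filter, Fintype.mem_piFinset] at he
    exact Res.eq_one ((hD i).1 _ (he.1 i)).1 hirr (hT i _ (he.1 i)) hdeg (he.2 i)
  have hset : (Fintype.piFinset R).filter (fun e => ∀ j, e j ∣ v j) =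
      (Fintype.piFinset (Function.update R i {1})).filter (fun e => ∀ j, e j ∣ v j) := by
    ext e
    constructor
    · intro he
      have h2 := hone e he
      simp only [Finset.mem_filter, Fintype.mem_piFinset] at he ⊢
      refine ⟨fun j => ?_, he.2⟩
      by_cases hj : j = i
      · subst hj
        rw [Function.update_self, Finset.mem_singleton]
        exact h2
      · rw [Function.update_of_ne hj]
        exact he.1 j
    · intro he
      simp only [Finset.mem_filter, Fintype.mem_piFinset] at he ⊢
      refine ⟨fun j => ?_, he.2⟩
      have h3 := he.1 j
      by_cases hj : j = i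
      · subst hj
        rw [Function.update_self, Finset.mem_singleton] at h3
        rw [h3]
        exact h1
      · rw [Function.update_of_ne hj] at h3
        exact h3
  unfold wV
  rw [← hset]
  congr 1
  exact Finset.sum_congr rfl fun e he => Res.lam_eq K k i R y e (hone e he)

end Pool.Agent.H524.MT
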