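import Pool.Agent.H524.MT.StmX
import Pool.Agent.H524.MT.RwmG

/-!
# Maynard's weights are rough weights, linear and inseparable quadratic polynomials (helper997)
-/

set_option autoImplicit false
set_option linter.all false

namespace Pool.Agent.H524.MT

open Polynomial
open scoped Classical
open Pool.Agent.H985.Chow (mob)
open Pool.Agent.H985.KP (PA)
open Pool.Agent.H694.Typ (Mn PU mem_Mn card_Mn)

namespace RWMX

open RWMG

section root

variable {K : Type} [Field K] [Fintype K] {k : ℕ}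

theorem exists_rootX [CharP K 2] {u : K[X]} (hu : u.Monic) (hs : Squarefree u) {α : K[X]}
    (hα : IsCoprime α u) (c : K[X]) {e : ℕ} (he : e = 1 ∨ e = 2) : ∃ b, u ∣ α * b ^ e + c := by
  rcases he with rfl | rfl
  · obtain ⟨p, w, hp⟩ := hα
    refine ⟨-(p * c), w * c, ?_⟩
    linear_combination (-c) * hp
  · exact exists_root' hu hs hα c

theorem exists_rootsX [CharP K 2] {u α c : Fin k → K[X]} (hu : ∀ j, (u j).Monic)
    (hs : ∀ j, Squarefree (u j)) (hα : ∀ j, IsCoprime (α j) (u j))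
    (hc : ∀ i j, i ≠ j → IsCoprime (u i) (u j)) {e : Fin k → ℕ} (he : ∀ j, e j = 1 ∨ e j = 2) :
    ∃ b, ∀ j, u j ∣ α j * b ^ e j + c j := by
  choose b hb using fun j => exists_rootX (hu j) (hs j) (hα j) (c j) (he j)
  obtain ⟨r, hr⟩ := Ideal.exists_forall_sub_mem_ideal (I := fun j => Ideal.span {u j})
    (fun i j hij => (Ideal.isCoprime_span_singleton_iff _ _).2 (hc i j hij)) b
  refine ⟨r, fun j => ?_⟩
  have h1 : u j ∣ r - b j := Ideal.mem_span_singleton.1 (hr j)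
  have h3 : u j ∣ r ^ e j - b j ^ e j := h1.trans (sub_dvd_pow_sub_pow _ _ _)
  have h2 : α j * r ^ e j + c j = α j * (r ^ e j - b j ^ e j) + (α j * b j ^ e j + c j) := by ring
  rw [h2]
  exact dvd_add (h3.mul_left _) (hb j)

end root

section main

variable {K : Type} [Field K] [Fintype K] {k : ℕ}

/-- the class -/
noncomputable def CX (e : Fin k → ℕ) (α c : Fin k → K[X]) (x : (Fin k → K[X]) × (Fin k → K[X])) :
    K[X] :=
  if h : ∃ b, ∀ j, uu x j ∣ α j * b ^ e j + c j then h.choose else 0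

variable {z T : ℕ} {R : Fin k → Finset K[X]}

theorem CX_spec [CharP K 2] {x : (Fin k → K[X]) × (Fin k → K[X])} (hR : ∀ j, R j ⊆ Rz K z T)
    (hx : x ∈ PR R) (hpw : PW x) {α : Fin k → K[X]} (hα : ∀ j, α j ≠ 0 ∧ (α j).natDegree ≤ z)
    (c : Fin k → K[X]) {e : Fin k → ℕ} (he : ∀ j, e j = 1 ∨ e j = 2) (j : Fin k) :
    uu x j ∣ α j * CX e α c x ^ e j + c j := by
  have h : ∃ b, ∀ j, uu x j ∣ α j * b ^ e j + c j :=
    exists_rootsX (uu_monic hR hx) (uu_sq hR hx) (cop hR hx hα) hpw he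
  unfold CX
  rw [dif_pos h]
  exact h.choose_spec j

/-- two different conditions have no common prime -/
def NC (z : ℕ) (e : Fin k → ℕ) (α c : Fin k → K[X]) : Prop :=
  ∀ (P a : K[X]) (i j : Fin k), Irreducible P → z < P.natDegree → i ≠ j →
    P ∣ α i * a ^ e i + c i → ¬ P ∣ α j * a ^ e j + c j

theorem no_commonX {α c : Fin k → K[X]} {e : Fin k → ℕ} (hc : NC z e α c)
    {i j : Fin k} (hij : i ≠ j) {P : K[X]} (hP : P ∈ PP K z T) {a : K[X]}
    (h1 : P ∣ α i * a ^ e i + c i) (h2 : P ∣ α j * a ^ e j + c j) : False :=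
  hc P a i j (mem_PP.1 hP).2.2.1 (mem_PP.1 hP).2.2.2 hij h1 h2

theorem good_iffX [CharP K 2] {x : (Fin k → K[X]) × (Fin k → K[X])} (hR : ∀ j, R j ⊆ Rz K z T)
    (hx : x ∈ PR R) {α c : Fin k → K[X]} (hα : ∀ j, α j ≠ 0 ∧ (α j).natDegree ≤ z)
    {e : Fin k → ℕ} (he : ∀ j, e j = 1 ∨ e j = 2) (hc : NC z e α c) (a : K[X]) :
    ((∀ j, x.1 j ∣ α j * a ^ e j + c j) ∧ (∀ j, x.2 j ∣ α j * a ^ e j + c j)) ↔
      PW x ∧ EE x ∣ a - CX e α c x := by
  constructor
  · rintro ⟨h1, h2⟩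
    have hu : ∀ j, uu x j ∣ α j * a ^ e j + c j := fun j => (uu_dvd_iff hR hx j _).2 ⟨h1 j, h2 j⟩
    have hpw : PW x := by
      intro i j hij
      refine isCoprime_of_irreducible_dvd (fun h => (uu_monic hR hx i).ne_zero h.1) ?_
      intro Q hQ hQi hQj
      obtain ⟨P, hP, hPQ, -⟩ := prime_rd (mem_PR hR hx i).1 (mem_PR hR hx i).2 hQ hQi
      exact no_commonX hc hij hP (hPQ.dvd.trans (hQi.trans (hu i)))
        (hPQ.dvd.trans (hQj.trans (hu j)))
    refine ⟨hpw, ?_⟩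
    refine Finset.prod_dvd_of_coprime (fun i _ j _ hij => hpw i j hij) fun j _ => ?_
    have h3 := CX_spec hR hx hpw hα c he j
    have h4 : uu x j ∣ a ^ e j - CX e α c x ^ e j := by
      have := dvd_sub (hu j) h3
      rw [add_sub_add_right_eq_sub, ← mul_sub] at this
      exact (cop hR hx hα j).symm.dvd_of_dvd_mul_left this
    rcases he j with h | h
    · rw [h, pow_one, pow_one] at h4
      exact h4
    · rw [h, sq_sub_sq'] at h4
      exact (uu_sq hR hx j).isRadical 2 _ h4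
  · rintro ⟨hpw, h⟩
    have hu : ∀ j, uu x j ∣ α j * a ^ e j + c j := by
      intro j
      have h3 := CX_spec hR hx hpw hα c he j
      have h4 : uu x j ∣ a - CX e α c x := (Finset.dvd_prod_of_mem _ (Finset.mem_univ j)).trans h
      have h6 : uu x j ∣ a ^ e j - CX e α c x ^ e j := h4.trans (sub_dvd_pow_sub_pow _ _ _)
      have h5 : α j * a ^ e j + c j = α j * (a ^ e j - CX e α c x ^ e j) +
          (α j * CX e α c x ^ e j + c j) := by ring
      rw [h5]
      exact dvd_add (h6.mul_left _) h3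
    exact ⟨fun j => ((uu_dvd_iff hR hx j _).1 (hu j)).1,
      fun j => ((uu_dvd_iff hR hx j _).1 (hu j)).2⟩

theorem rwt_eqX [CharP K 2] (hR : ∀ j, R j ⊆ Rz K z T) {α c : Fin k → K[X]}
    (hα : ∀ j, α j ≠ 0 ∧ (α j).natDegree ≤ z)
    {e : Fin k → ℕ} (he : ∀ j, e j = 1 ∨ e j = 2) (hc : NC z e α c)
    {y : (Fin k → K[X]) → ℝ}
    (hy : ∀ r ∈ Fintype.piFinset R, T < ∑ j, (r j).natDegree → y r = 0) (a : K[X]) :
    rwt (II R T) EE (CX e α c) (phi R y) a = wV R y (fun j => α j * a ^ e j + c j) := by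
  have hm : ∀ j, ∀ r ∈ R j, r.Monic := fun j r hr => (mem_Rz.1 (hR j hr)).1
  have e1 : wV R y (fun j => α j * a ^ e j + c j) = ∑ x ∈ (PR R).filter
      (fun x => (∀ j, x.1 j ∣ α j * a ^ e j + c j) ∧ (∀ j, x.2 j ∣ α j * a ^ e j + c j)),
      phi R y x := by
    unfold wV PR
    rw [sq, Finset.sum_mul_sum, ← Finset.sum_product', ← Finset.filter_product]
    rfl
  have e2 : rwt (II R T) EE (CX e α c) (phi R y) a = ∑ x ∈ (PR R).filter
      (fun x => (∑ j, (x.1 j).natDegree ≤ T ∧ ∑ j, (x.2 j).natDegree ≤ T ∧ PW x) ∧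
        EE x ∣ a - CX e α c x), phi R y x := by
    unfold rwt II
    rw [Finset.filter_filter]
  rw [e1, e2, Finset.sum_filter, Finset.sum_filter]
  refine Finset.sum_congr rfl fun x hx => ?_
  by_cases h0 : phi R y x = 0
  · rw [h0]
    split_ifs <;> rfl
  · have h1 : ∑ j, (x.1 j).natDegree ≤ T := by
      by_contra h
      apply h0
      unfold phi
      rw [lam_zero hm hy (not_le.1 h), zero_mul]
    have h2 : ∑ j, (x.2 j).natDegree ≤ T := by
      by_contra h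
      apply h0
      unfold phi
      rw [lam_zero hm hy (not_le.1 h), mul_zero]
    have h3 := good_iffX hR hx hα he hc a
    by_cases h4 : PW x ∧ EE x ∣ a - CX e α c x
    · rw [if_pos (h3.2 h4), if_pos ⟨⟨h1, h2, h4.1⟩, h4.2⟩]
    · rw [if_neg (fun h => h4 (h3.1 h)), if_neg (fun h => h4 ⟨h.1.2.2, h.2⟩)]

end main

end RWMX

open RWMG RWMX in
theorem rwmx : S_trwmx := by
  intro hselb K _ _ _ k e α c hα0 he hNN η hη
  obtain ⟨NN, hNN0, hNNd⟩ := hNN
  have hq2 := q2 (K := K)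
  have hq0 := q0 (K := K)
  set r : ℝ := qq K ^ (η / 2) with hr
  have hr1 : 1 < r := Real.one_lt_rpow (by linarith) (by positivity)
  obtain ⟨d1, h1⟩ := poly_le hr1 2 1
  obtain ⟨d2, h2⟩ := poly_le hr1 1 (5 * k + 5)
  obtain ⟨d3, h3⟩ := poly_le hr1 (9 * (k : ℝ) ^ 2 * 4 ^ (2 * k + 2)) (5 * k + 3)
  obtain ⟨Dm1, hDm1⟩ : ∃ Dm1, Dm1 = NN.natDegree := ⟨_, rfl⟩
  obtain ⟨Dm2, hDm2⟩ := exists_Dm (fun i j => α i)
  obtain ⟨Dm3, hDm3⟩ := exists_Dm (fun i j => c i)
  obtain ⟨Dm, hDmd⟩ : ∃ Dm, Dm = Dm1 + Dm2 + Dm3 := ⟨_, rfl⟩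
  obtain ⟨N, hNd⟩ : ∃ N, N = ⌈3 / η⌉₊ := ⟨_, rfl⟩
  refine ⟨max 1 (max d1 (max d2 (max d3 (max (4 ^ (2 * k + 2) * 2 ^ (5 * k + 2)) (max ⌈Dm / η⌉₊
    (max (Dm + 1) ((2 ^ N) ^ (2 * k) * 8 ^ (2 * k + 2)))))))), ?_⟩
  intro d z T R y hd hz hzT hTd hRR hy1 hy2
  simp only [max_le_iff] at hd
  obtain ⟨g0, g1, g2, g3, g4, g5, g6, g7⟩ := hd
  have hdr : (1 : ℝ) ≤ d := by exact_mod_cast g0
  have hTr : (T : ℝ) ≤ d := by exact_mod_cast hTd
  have hT0 : (0 : ℝ) ≤ T := Nat.cast_nonneg _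
  have hrd : r ^ d ≤ qq K ^ ((z : ℝ) / 2) := by
    rw [hr, ← Real.rpow_mul_natCast hq0.le]
    exact Real.rpow_le_rpow_of_exponent_le (by linarith) (by linarith)
  have hrd2 : r ^ d ≤ qq K ^ z := by
    refine hrd.trans ?_
    rw [← Real.rpow_natCast]
    exact Real.rpow_le_rpow_of_exponent_le (by linarith) (by
      have : (0 : ℝ) ≤ z := Nat.cast_nonneg _
      linarith)
  have hT : 2 * (T : ℝ) ≤ qq K ^ z := by
    have := h1 d g1
    rw [pow_one] at this
    linarith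
  have hR : ∀ j, R j ⊆ Rz K z T := by
    intro j
    rcases hRR j with h | h
    · rw [h]
    · rw [h, Finset.singleton_subset_iff]
      exact one_mem_Rz z T
  have hDz : Dm ≤ z := by
    have e2 : (Dm : ℝ) ≤ z := by
      have e3 : (Dm : ℝ) / η ≤ d := (Nat.le_ceil _).trans (by exact_mod_cast g5)
      rw [div_le_iff₀ hη] at e3
      linarith
    exact_mod_cast e2
  have hcc : NC z e α c := by
    intro P a i j hP hPz hij
    refine hNNd P a i j hP (fun h => ?_) hij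
    have e1 := natDegree_le_of_dvd h hNN0
    omega
  have hα : ∀ j, α j ≠ 0 ∧ (α j).natDegree ≤ z := by
    intro j
    refine ⟨hα0 j, ?_⟩
    have e1 : (α j).natDegree ≤ Dm2 := hDm2 j j
    omega
  have hz0 : 0 < z := by
    have : (0 : ℝ) < z := lt_of_lt_of_le (by positivity) hz
    exact_mod_cast this
  -- the main bound
  have hLW : ((4 * ((T : ℝ) + 1)) ^ (k + 1)) ^ 2 * (((T : ℝ) + 1) ^ 3) ^ k =
      4 ^ (2 * k + 2) * ((T : ℝ) + 1) ^ (5 * k + 2) := by
    rw [← pow_mul, ← pow_mul, mul_pow]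
    ring
  have hLW1 : ((4 * ((T : ℝ) + 1)) ^ (k + 1)) ^ 2 * (((T : ℝ) + 1) ^ 3) ^ k ≤
      (d : ℝ) ^ (5 * k + 5) := by
    rw [hLW]
    have e1 : ((T : ℝ) + 1) ^ (5 * k + 2) ≤ (2 * (d : ℝ)) ^ (5 * k + 2) :=
      pow_le_pow_left₀ (by positivity) (by linarith) _
    have e2 : (4 : ℝ) ^ (2 * k + 2) * 2 ^ (5 * k + 2) ≤ d := by exact_mod_cast g4
    calc 4 ^ (2 * k + 2) * ((T : ℝ) + 1) ^ (5 * k + 2)
        ≤ 4 ^ (2 * k + 2) * (2 * (d : ℝ)) ^ (5 * k + 2) := by gcongr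
      _ = (4 ^ (2 * k + 2) * 2 ^ (5 * k + 2)) * (d : ℝ) ^ (5 * k + 2) := by
          rw [mul_pow]
          ring
      _ ≤ d * (d : ℝ) ^ (5 * k + 2) := by gcongr
      _ = (d : ℝ) ^ (5 * k + 3) := by ring
      _ ≤ (d : ℝ) ^ (5 * k + 5) := pow_le_pow_right₀ hdr (by omega)
  have hbd2 := bd2' (z := z) (T := T) (R := R) (y := y) hT hR hy1
  refine ⟨_, II R T, EE, CX e α c, phi R y, ⟨?_, ?_, ?_, ?_, ?_, ?_, ?_⟩, ?_,
    fun a => rwt_eqX hR hα he hcc hy2 a, ?_, ?_⟩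
  · intro x hx
    exact EE_monic hR (II_PR hx)
  · intro x hx
    refine Finset.squarefree_prod_of_pairwise_isCoprime ?_ fun j _ => uu_sq hR (II_PR hx) j
    intro i _ j _ hij
    exact ((Finset.mem_filter.1 hx).2.2.2 i j hij).isRelPrime
  · intro x hx P hP
    obtain ⟨j, -, P', hP', h4, -⟩ := prime_EE hR (II_PR hx) hP.2.1 hP.2.2
    rw [← eq_of_monic_of_associated (mem_PP.1 hP').1 hP.1 h4]
    exact (mem_PP.1 hP').2.2.2
  · intro x hx
    have := EE_deg_le hR hx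
    omega
  · -- the trivial bound
    have e1 : ∀ x ∈ II R T, |phi R y x| ≤ qq K ^ (2 * T) * (|phi R y x| / qq K ^ (EE x).natDegree) := by
      intro x hx
      have e2 : qq K ^ (EE x).natDegree ≤ qq K ^ (2 * T) :=
        pow_le_pow_right₀ (by linarith) (EE_deg_le hR hx)
      have e3 : 0 < qq K ^ (EE x).natDegree := pow_pos hq0 _
      rw [← mul_div_assoc, le_div_iff₀ e3, mul_comm]
      gcongr
    calc ∑ x ∈ II R T, |phi R y x|
        ≤ ∑ x ∈ II R T, qq K ^ (2 * T) * (|phi R y x| / qq K ^ (EE x).natDegree) :=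
          Finset.sum_le_sum e1
      _ = qq K ^ (2 * T) * ∑ x ∈ II R T, |phi R y x| / qq K ^ (EE x).natDegree := by
          rw [Finset.mul_sum]
      _ ≤ qq K ^ (2 * T) * qq K ^ T := by
          have e2 : (d : ℝ) ^ (5 * k + 5) ≤ qq K ^ T := by
            have e3 := h2 d g2
            rw [one_mul] at e3
            have e4 : (d : ℝ) ^ (5 * k + 5) ≤ ((d : ℝ) + 1) ^ (5 * k + 5) :=
              pow_le_pow_left₀ (by positivity) (by linarith) _
            have e5 : qq K ^ z ≤ qq K ^ T := pow_le_pow_right₀ (by linarith) hzT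
            linarith
          have e3 := (hbd2.trans hLW1).trans e2
          gcongr
      _ = (Fintype.card K : ℝ) ^ (3 * T) := by
          rw [← pow_add]
          congr 1
          ring
  · exact hbd2.trans hLW1
  · intro a
    rw [rwt_eqX hR hα he hcc hy2 a]
    exact sq_nonneg _
  · intro i hi x hx
    have hx' := II_PR hx
    have hpw := (Finset.mem_filter.1 hx).2.2.2
    refine isCoprime_of_irreducible_dvd (fun h => (EE_monic hR hx').ne_zero h.2) ?_
    intro Q hQ hQ1 hQ2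
    obtain ⟨j, hj, P, hP, h4, h5⟩ := prime_EE hR hx' hQ hQ2
    by_cases hij : j = i
    · subst hij
      unfold PR at hx'
      rw [Finset.mem_product, Fintype.mem_piFinset, Fintype.mem_piFinset] at hx'
      have e1 := hx'.1 j
      have e2 := hx'.2 j
      rw [hi, Finset.mem_singleton] at e1 e2
      rw [e1, e2, one_mul] at h5
      exact (mem_PP.1 hP).2.2.1.not_isUnit (isUnit_of_dvd_one h5)
    · have h6 := CX_spec hR hx' hpw hα c he j
      exact no_commonX hcc hij hP (h4.dvd.trans (hj.trans h6)) (h4.dvd.trans hQ1)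
  · -- the pointwise bound
    intro a ha
    rw [mem_Mn] at ha
    obtain ⟨ham, had⟩ := ha
    have hed : ∀ j, d ≤ e j * d ∧ e j * d ≤ 2 * d := by
      intro j
      rcases he j with h | h
      · rw [h]
        omega
      · rw [h]
        omega
    have hdeg : ∀ j, (α j * a ^ e j + c j).natDegree = (α j).natDegree + e j * d := by
      intro j
      have e0 := hed j
      have e1 : (α j * a ^ e j).natDegree = (α j).natDegree + e j * d := by
        rw [natDegree_mul (hα0 j) (pow_ne_zero (e j) ham.ne_zero), natDegree_pow, had]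
      have e2 : (c j).natDegree ≤ Dm3 := hDm3 j j
      rw [natDegree_add_eq_left_of_natDegree_lt (by rw [e1]; omega), e1]
    have hne : ∀ j, α j * a ^ e j + c j ≠ 0 := by
      intro j h
      have := hdeg j
      have e0 := hed j
      rw [h, natDegree_zero] at this
      omega
    have hNz : ∀ j, (α j * a ^ e j + c j).natDegree ≤ N * z := by
      intro j
      rw [hdeg j]
      have e0 := hed j
      have e1 : (α j).natDegree ≤ Dm2 := hDm2 j j
      have e2 : (α j).natDegree + e j * d ≤ 3 * d := by omega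
      refine e2.trans ?_
      have e3 : (3 * d : ℝ) ≤ N * z := by
        have e4 : 3 / η ≤ (N : ℝ) := by
          rw [hNd]
          exact Nat.le_ceil _
        have e5 : (0 : ℝ) ≤ z := Nat.cast_nonneg _
        calc (3 * d : ℝ) = 3 / η * (η * d) := by field_simp
          _ ≤ 3 / η * z := by gcongr
          _ ≤ N * z := by gcongr
      exact_mod_cast e3
    refine (wV_le hT hR hy1 hz0 hne hNz).trans ?_
    have e6 : (4 * ((T : ℝ) + 1)) ≤ 8 * d := by linarith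
    have e7 : ((2 : ℝ) ^ N) ^ (2 * k) * 8 ^ (2 * k + 2) ≤ d := by exact_mod_cast g7
    calc (((2 : ℝ) ^ N) ^ k * (4 * ((T : ℝ) + 1)) ^ (k + 1)) ^ 2
        ≤ (((2 : ℝ) ^ N) ^ k * (8 * (d : ℝ)) ^ (k + 1)) ^ 2 := by gcongr
      _ = (((2 : ℝ) ^ N) ^ (2 * k) * 8 ^ (2 * k + 2)) * (d : ℝ) ^ (2 * k + 2) := by
          rw [mul_pow, ← pow_mul, ← pow_mul, mul_pow]
          ring
      _ ≤ d * (d : ℝ) ^ (2 * k + 2) := by gcongr
      _ = (d : ℝ) ^ (2 * k + 3) := by ring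
      _ ≤ (d : ℝ) ^ (5 * k + 5) := pow_le_pow_right₀ hdr (by omega)
  · refine (QQ_dia hselb hT hRR hR hy1 hy2).trans ?_
    have hqz : 0 < qq K ^ z := pow_pos hq0 _
    have e1 : ((4 * ((T : ℝ) + 1)) ^ (k + 1)) ^ 2 *
        ((k : ℝ) ^ 2 * (9 * (((T : ℝ) + 1) ^ 3) ^ k * ((T + 1) / qq K ^ z))) =
        (9 * (k : ℝ) ^ 2 * 4 ^ (2 * k + 2) * ((T : ℝ) + 1) ^ (5 * k + 3)) / qq K ^ z := by
      calc _ = (9 * (k : ℝ) ^ 2 * (((4 * ((T : ℝ) + 1)) ^ (k + 1)) ^ 2 * (((T : ℝ) + 1) ^ 3) ^ k) *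
          (T + 1)) / qq K ^ z := by ring
        _ = _ := by
          rw [hLW]
          ring
    rw [e1]
    have e2 : 9 * (k : ℝ) ^ 2 * 4 ^ (2 * k + 2) * ((T : ℝ) + 1) ^ (5 * k + 3) ≤
        qq K ^ ((z : ℝ) / 2) := by
      refine le_trans ?_ ((h3 d g3).trans hrd)
      gcongr
    unfold er
    rw [div_le_iff₀ hqz]
    have e3 : (Fintype.card K : ℝ) ^ (-(z : ℝ) / 2) * qq K ^ z = qq K ^ ((z : ℝ) / 2) := by
      rw [← Real.rpow_natCast (qq K) z, ← Real.rpow_add hq0]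
      congr 1
      ring
    rw [e3]
    exact e2

end Pool.Agent.H524.MT
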