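import Mathlib
import Pool.Agent.H524.MT.Opt

/-!
# The choice of the diagonal variables, with an explicit size of `k`

The proof is that of OPT (helper118) with a general `k`.
-/

namespace Pool.Agent.H524.MT

open Polynomial
open scoped Classical
open Pool.Agent.H985.Chow (mob)
open Pool.Agent.H985.KP (PA)
open Pool.Agent.H694.Typ (Mn PU)

/-- The choice of the diagonal variables, quantitative version: every `k ≥ exp (A (Λ + 1))` will
do. -/
def S_optq : Prop :=
  ∀ (K : Type) [Field K] [Fintype K], ∃ A : ℝ, 0 < A ∧ ∀ (Λ : ℝ) (k : ℕ), 0 ≤ Λ →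
    Real.exp (A * (Λ + 1)) ≤ k → ∃ η₀ : ℝ, 0 < η₀ ∧
    ∀ z T : ℕ, 1 ≤ z → (z : ℝ) ≤ η₀ * T →
      ∃ y : (Fin k → K[X]) → ℝ, (∀ r, 0 ≤ y r ∧ y r ≤ 1) ∧
        (∀ r, T < ∑ j, (r j).natDegree → y r = 0) ∧ y (fun _ => 1) = 1 ∧
        Λ * (T / z) * dia (fun _ => Rz K z T) y ≤
          ∑ i : Fin k, dia (Function.update (fun _ => Rz K z T) i {1})
            (yr i (fun _ => Rz K z T) y)

open Opt in
/-- **OPTQ.** -/
theorem optq (hmert : S_mert) : S_optq := by
  intro K _ _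
  obtain ⟨C, hC, -, hR⟩ := hmert K
  have hC0 : 0 < C := by linarith
  refine ⟨128 * C ^ 5, by positivity, fun Λ k hΛ0 hkA => ?_⟩
  have hk1' : (1 : ℝ) ≤ k := by
    refine le_trans ?_ hkA
    rw [← Real.exp_zero]
    exact Real.exp_le_exp.2 (by positivity)
  have hk1 : 1 ≤ k := by exact_mod_cast hk1'
  have hkR : (1 : ℝ) ≤ k := by exact_mod_cast hk1
  obtain ⟨n, hnd⟩ : ∃ n : ℕ, n = Nat.log 2 k := ⟨_, rfl⟩
  have hk : 2 ^ n ≤ k := by rw [hnd]; exact Nat.pow_log_le_self 2 (by omega)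
  have hkn : k < 2 ^ (n + 1) := by rw [hnd]; exact Nat.lt_pow_succ_log_self (by norm_num) k
  have hn : 128 * C ^ 5 * |Λ| ≤ (n : ℝ) + 1 := by
    rw [abs_of_nonneg hΛ0]
    have h1 : Real.exp (128 * C ^ 5 * (Λ + 1)) ≤ Real.exp ((n : ℝ) + 1) := by
      refine hkA.trans ?_
      have h2 : (k : ℝ) ≤ (2 : ℝ) ^ (n + 1) := by exact_mod_cast hkn.le
      refine h2.trans ?_
      have h3 : (2 : ℝ) ≤ Real.exp 1 := by
        have := Real.add_one_le_exp (1 : ℝ)
        linarith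
      have h4 : Real.exp ((n : ℝ) + 1) = Real.exp 1 ^ (n + 1) := by
        rw [← Real.exp_nat_mul]
        congr 1
        push_cast
        ring
      rw [h4]
      exact pow_le_pow_left₀ (by norm_num) h3 _
    have h5 := Real.exp_le_exp.1 h1
    have h6 : (0 : ℝ) ≤ 128 * C ^ 5 := by positivity
    nlinarith
  have hn0 : (0 : ℝ) < (n : ℝ) + 1 := by positivity
  obtain ⟨W, hW⟩ : ∃ W : ℝ, W = 4 * C ^ 2 * k * (n + 1) := ⟨_, rfl⟩
  have hW0 : 0 < W := by rw [hW]; positivity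
  refine ⟨1 / W, by positivity, ?_⟩
  intro z T hz hzT
  have hzR : (1 : ℝ) ≤ z := by exact_mod_cast hz
  have hz0 : (0 : ℝ) < z := by linarith
  obtain ⟨τ, hτd⟩ : ∃ τ : ℕ, τ = ⌊(T : ℝ) / W⌋₊ := ⟨_, rfl⟩
  have hY : (z : ℝ) ≤ T / W := by
    rw [one_div, inv_mul_eq_div] at hzT
    exact hzT
  have hzτ : z ≤ τ := by
    rw [hτd]
    exact Nat.le_floor hY
  have hτ1 : 1 ≤ τ := hz.trans hzτ
  have hτR : (1 : ℝ) ≤ τ := by exact_mod_cast hτ1
  have hτle : (τ : ℝ) ≤ T / W := by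
    rw [hτd]
    exact Nat.floor_le (by positivity)
  have hτW : τ * W ≤ T := by
    rw [le_div_iff₀ hW0] at hτle
    exact hτle
  have hτge : (T : ℝ) ≤ 2 * τ * W := by
    have h1 : (T : ℝ) / W < τ + 1 := by
      rw [hτd]
      exact Nat.lt_floor_add_one _
    rw [div_lt_iff₀ hW0] at h1
    nlinarith
  have hT0 : 0 < T := by
    have h1 : (0 : ℝ) < τ * W := by positivity
    have h2 : (0 : ℝ) < T := by linarith
    exact_mod_cast h2
  have hTR : (0 : ℝ) < T := by exact_mod_cast hT0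
  -- `2 * 2 ^ n * τ ≤ T`
  have hbig : 2 * (2 ^ n * τ) ≤ T := by
    have h1 : (2 * (2 ^ n * τ) : ℝ) ≤ T := by
      refine le_trans ?_ hτW
      rw [hW]
      have h2 : (1 : ℝ) ≤ C ^ 2 := one_le_pow₀ hC
      have h3 : (1 : ℝ) ≤ (n : ℝ) + 1 := by
        have : (0 : ℝ) ≤ n := Nat.cast_nonneg n
        linarith
      have h4 : (0 : ℝ) < k * τ := by positivity
      have h5 : (1 : ℝ) ≤ C ^ 2 * ((n : ℝ) + 1) := by nlinarith
      have h6 : ((2 : ℝ) ^ n) * τ ≤ k * τ := by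
        apply mul_le_mul_of_nonneg_right _ (by positivity)
        exact_mod_cast hk
      nlinarith
    exact_mod_cast h1
  obtain ⟨R, hRd⟩ : ∃ R : Finset K[X], R = Rz K z T := ⟨_, rfl⟩
  have hw : ∀ r ∈ R, 0 ≤ (ph r)⁻¹ := fun r _ => inv_nonneg.2 (ph_nonneg r)
  obtain ⟨m1, m2, m3, m4⟩ := sums R (fun r => (ph r)⁻¹) (fun r => r.natDegree) hw (C := C)
    (z := z) (τ := τ) (n := n) hC hz0 hτ1 (by
      intro l hl
      have h1 : 2 ^ l * τ ≤ 2 ^ n * τ :=
        Nat.mul_le_mul_right _ (Nat.pow_le_pow_right (by norm_num) hl)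
      have h2 : z ≤ 2 ^ l * τ := hzτ.trans (Nat.le_mul_of_pos_left _ (by positivity))
      have h3 := hR z (2 ^ l * τ) hz h2
      rw [← Rz_filter z T (2 ^ l * τ) (by omega), ← hRd] at h3
      push_cast at h3
      exact h3)
  obtain ⟨g, hg⟩ : ∃ g : K[X] → ℝ, g = fun r => gg n τ r.natDegree := ⟨_, rfl⟩
  obtain ⟨w, hwd⟩ : ∃ w : K[X] → ℝ, w = fun r => (ph r)⁻¹ := ⟨_, rfl⟩
  obtain ⟨G1, hG1⟩ : ∃ G1 : ℝ, G1 = ∑ s ∈ R, g s * w s := ⟨_, rfl⟩
  obtain ⟨G2, hG2⟩ : ∃ G2 : ℝ, G2 = ∑ s ∈ R, g s ^ 2 * w s := ⟨_, rfl⟩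
  obtain ⟨Gt, hGt⟩ : ∃ Gt : ℝ, Gt = ∑ s ∈ R, (s.natDegree : ℝ) * (g s ^ 2 * w s) := ⟨_, rfl⟩
  have m1' : ((n : ℝ) + 1) * τ / (2 * C * z) ≤ G1 := by rw [hG1, hg, hwd]; exact m1
  have m2' : G2 ≤ 2 * C * τ / z := by rw [hG2, hg, hwd]; exact m2
  have m3' : τ / (C * z) ≤ G2 := by rw [hG2, hg, hwd]; exact m3
  have m4' : Gt ≤ (n + 1) * C * τ ^ 2 / z := by rw [hGt, hg, hwd]; exact m4
  have hG2pos : 0 < G2 := lt_of_lt_of_le (by positivity) m3'
  have hg1 : g 1 = 1 := by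
    rw [hg]
    exact gg_small hτ1 (by simp)
  have hw1 : w 1 = 1 := by
    rw [hwd]
    simp only
    rw [ph_one, inv_one]
  have hsupp : ∀ r, g r ≠ 0 → 2 * r.natDegree ≤ T := by
    intro r hr
    rw [hg] at hr
    have := gg_supp hτ1 hr
    omega
  have hMk : 4 * (k : ℝ) * Gt ≤ T * G2 := by
    calc 4 * (k : ℝ) * Gt ≤ 4 * k * ((n + 1) * C * τ ^ 2 / z) :=
          mul_le_mul_of_nonneg_left m4' (by positivity)
      _ = (τ * W) * (τ / (C * z)) := by
          rw [hW]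
          field_simp
      _ ≤ T * (τ / (C * z)) := mul_le_mul_of_nonneg_right hτW (by positivity)
      _ ≤ T * G2 := mul_le_mul_of_nonneg_left m3' hTR.le
  have hwR : ∀ r ∈ R, 0 ≤ w r := by
    intro r hr
    rw [hwd]
    exact hw r hr
  refine ⟨yy g (fun r => r.natDegree) T, ?_, ?_, ?_, ?_⟩
  · intro r
    have h0 : ∀ j, 0 ≤ g (r j) := fun j => by rw [hg]; exact gg_nonneg _ _ _
    have h1 : ∀ j, g (r j) ≤ 1 := fun j => by rw [hg]; exact gg_le_one _ _ _
    unfold yy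
    split_ifs
    · exact ⟨Finset.prod_nonneg fun j _ => h0 j,
        Finset.prod_le_one (fun j _ => h0 j) fun j _ => h1 j⟩
    · exact ⟨le_rfl, zero_le_one⟩
  · intro r hr
    unfold yy
    rw [if_neg (not_le.2 hr)]
  · unfold yy
    simp [hg1]
  · rw [← hRd]
    have hup : dia (fun _ : Fin k => R) (yy g (fun r => r.natDegree) T) ≤ G2 * G2 ^ (k - 1) := by
      have h1 := upper (k := k) R w g (fun r => r.natDegree) T hwR
      rw [← hG2] at h1
      have h2 : G2 * G2 ^ (k - 1) = G2 ^ k := by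
        rw [← pow_succ', Nat.sub_add_cancel hk1]
      rw [h2]
      refine le_trans (le_of_eq ?_) h1
      unfold dia
      refine Finset.sum_congr rfl fun r _ => ?_
      rw [hwd, div_eq_mul_inv, Finset.prod_inv_distrib]
    have hlow : ∀ i : Fin k, G1 ^ 2 * (G2 ^ (k - 1) / 2) ≤
        dia (Function.update (fun _ : Fin k => R) i {1})
          (yr i (fun _ : Fin k => R) (yy g (fun r => r.natDegree) T)) := by
      intro i
      have h1 := lower (k := k) R w g (fun r => r.natDegree) T 1 hwR hg1 hw1 natDegree_one hT0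
        hsupp (by rw [← hG2]; exact hG2pos) (by rw [← hG2, ← hGt]; exact hMk) i
      rw [← hG2, ← hG1] at h1
      refine h1.trans (le_of_eq ?_)
      unfold dia yr
      refine Finset.sum_congr rfl fun r _ => ?_
      rw [hwd, div_eq_mul_inv, Finset.prod_inv_distrib]
      simp only [div_eq_mul_inv]
    have hsum : k * (G1 ^ 2 * (G2 ^ (k - 1) / 2)) ≤
        ∑ i : Fin k, dia (Function.update (fun _ : Fin k => R) i {1})
          (yr i (fun _ : Fin k => R) (yy g (fun r => r.natDegree) T)) := by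
      have h1 := Finset.sum_le_sum (fun (i : Fin k) (_ : i ∈ Finset.univ) => hlow i)
      rw [Finset.sum_const, Finset.card_univ, Fintype.card_fin, nsmul_eq_mul] at h1
      exact h1
    refine le_trans ?_ hsum
    have hd0 : 0 ≤ dia (fun _ : Fin k => R) (yy g (fun r => r.natDegree) T) := by
      unfold dia
      refine Finset.sum_nonneg fun r _ => div_nonneg (sq_nonneg _)
        (Finset.prod_nonneg fun j _ => ph_nonneg _)
    have hkey : |Λ| * (T / z) * G2 ≤ k * (G1 ^ 2 / 2) := by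
      have s1 : |Λ| * (T / z) * G2 ≤ |Λ| * (T / z) * (2 * C * τ / z) :=
        mul_le_mul_of_nonneg_left m2' (by positivity)
      have s2 : k * ((((n : ℝ) + 1) * τ / (2 * C * z)) ^ 2 / 2) ≤ k * (G1 ^ 2 / 2) := by
        have : (((n : ℝ) + 1) * τ / (2 * C * z)) ^ 2 ≤ G1 ^ 2 :=
          pow_le_pow_left₀ (by positivity) m1' 2
        apply mul_le_mul_of_nonneg_left _ (by positivity)
        linarith
      have s3 : |Λ| * (T / z) * (2 * C * τ / z) ≤
          k * ((((n : ℝ) + 1) * τ / (2 * C * z)) ^ 2 / 2) := by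
        have e1 : |Λ| * (T / z) * (2 * C * τ / z) = (16 * C ^ 3 * |Λ| * T) * (τ / (8 * C ^ 2 * z ^ 2)) := by
          field_simp
          ring
        have e2 : k * ((((n : ℝ) + 1) * τ / (2 * C * z)) ^ 2 / 2) =
            (k * (n + 1) ^ 2 * τ) * (τ / (8 * C ^ 2 * z ^ 2)) := by
          field_simp
          ring
        rw [e1, e2]
        apply mul_le_mul_of_nonneg_right _ (by positivity)
        calc 16 * C ^ 3 * |Λ| * T ≤ 16 * C ^ 3 * |Λ| * (2 * τ * W) :=
              mul_le_mul_of_nonneg_left hτge (by positivity)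
          _ = (128 * C ^ 5 * |Λ|) * (k * (n + 1) * τ) := by rw [hW]; ring
          _ ≤ (n + 1) * (k * (n + 1) * τ) := by
              apply mul_le_mul_of_nonneg_right _ (by positivity)
              exact hn
          _ = k * (n + 1) ^ 2 * τ := by ring
      linarith
    calc Λ * (T / z) * dia (fun _ : Fin k => R) (yy g (fun r => r.natDegree) T)
        ≤ |Λ| * (T / z) * dia (fun _ : Fin k => R) (yy g (fun r => r.natDegree) T) := by
          apply mul_le_mul_of_nonneg_right _ hd0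
          apply mul_le_mul_of_nonneg_right (le_abs_self Λ) (by positivity)
      _ ≤ |Λ| * (T / z) * (G2 * G2 ^ (k - 1)) := mul_le_mul_of_nonneg_left hup (by positivity)
      _ = (|Λ| * (T / z) * G2) * G2 ^ (k - 1) := by ring
      _ ≤ (k * (G1 ^ 2 / 2)) * G2 ^ (k - 1) :=
          mul_le_mul_of_nonneg_right hkey (pow_nonneg hG2pos.le _)
      _ = k * (G1 ^ 2 * (G2 ^ (k - 1) / 2)) := by ring

end Pool.Agent.H524.MT
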