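import Mathlib
import Pool.Agent.H524.MT.ShA

/-!
# Prime and almost primes, with the lower bound of the right order of magnitude
-/

set_option autoImplicit false

namespace Pool.Agent.H524.MT

open Polynomial Filter
open scoped Classical
open Pool.Agent.H985.KP (PA)
open Pool.Agent.H694.Typ (Mn PU mem_PU mem_Mn)
open May MayX
open MayG (VRg_lower VRg_le_one VRg_comp ex_Mg)

/-- **Prime and almost primes.** -/
def S_aprs : Prop :=
  ∀ (K : Type) [Field K] [Fintype K] [CharP K 2] (e : ℕ) (α β : K[X]) (G F : K[X][X]),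
    AF e α β → (∀ a, F.eval a = G.eval a * (α * a ^ e + β)) →
    (∀ P : K[X], Irreducible P → ∃ a : K[X], ¬ P ∣ F.eval a) →
    ∃ (δ c : ℝ) (d₀ : ℕ), 0 < δ ∧ 0 < c ∧ ∀ d : ℕ, d₀ ≤ d →
      c * (Fintype.card K : ℝ) ^ d * Sh.dn F d ≤
        (((Mn K d).filter (fun a => Irreducible (α * a ^ e + β) ∧
          ∀ P : K[X], Irreducible P → P ∣ G.eval a → δ * d ≤ P.natDegree)).card : ℝ)

theorem aprs (hM : S_masterx) (hB : S_bhk) (hMe : S_mert) : S_aprs := by
  intro K _ _ _ e α β G F hAF hF hadmF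
  obtain ⟨θ, hθ, HM⟩ := hM K
  obtain ⟨C, hC, HMe1, HMe2⟩ := hMe K
  obtain ⟨θ', hθ'⟩ : ∃ θ' : ℝ, θ' = min θ 1 := ⟨_, rfl⟩
  have hθ'0 : 0 < θ' := by rw [hθ']; exact lt_min hθ one_pos
  have hθ'θ : θ' ≤ θ := by rw [hθ']; exact min_le_left _ _
  have hθ'1 : θ' ≤ 1 := by rw [hθ']; exact min_le_right _ _
  obtain ⟨e', he'⟩ : ∃ e' : Fin 1 → ℕ, e' = fun _ => e := ⟨_, rfl⟩
  obtain ⟨α', hα'⟩ : ∃ α' : Fin 1 → K[X], α' = fun _ => α := ⟨_, rfl⟩
  obtain ⟨β', hβ'⟩ : ∃ β' : Fin 1 → K[X], β' = fun _ => β := ⟨_, rfl⟩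
  have he'j : ∀ j, e' j = e := fun j => by rw [he']
  have hα'j : ∀ j, α' j = α := fun j => by rw [hα']
  have hβ'j : ∀ j, β' j = β := fun j => by rw [hβ']
  have hα0 : α ≠ 0 := hAF.1
  have he : e = 1 ∨ e = 2 := hAF.2.2.imp id fun h => h.1
  have he1 : 1 ≤ e := by rcases he with h | h <;> omega
  have he2 : e ≤ 2 := by rcases he with h | h <;> omega
  have hF' : ∀ a, F.eval a = G.eval a * ∏ j, (α' j * a ^ e' j + β' j) := by
    intro a
    rw [hF, Fin.prod_univ_one, hα'j, hβ'j, he'j]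
  have hadm : ∀ P : K[X], Irreducible P → ∃ a : K[X], ¬ P ∣ G.eval a ∧
      ∀ j, ¬ P ∣ α' j * a ^ e' j + β' j := by
    intro P hP
    obtain ⟨a, ha⟩ := hadmF P hP
    rw [hF] at ha
    refine ⟨a, fun h => ha (Dvd.dvd.mul_right h _), fun j h => ha (Dvd.dvd.mul_left ?_ _)⟩
    rwa [hα'j, hβ'j, he'j] at h
  have hG : G ≠ 0 := by
    rintro rfl
    obtain ⟨a, ha, -⟩ := hadm X irreducible_X
    apply ha
    rw [eval_zero]
    exact dvd_zero _
  obtain ⟨M, hMm, hαM, hMC⟩ := ex_Mg α' (fun j => by rw [hα'j]; exact hα0) G hG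
  obtain ⟨a₀, hG₀, ha₀⟩ := ex_a0x e' α' β' G hMm hadm
  obtain ⟨κ, hκ⟩ : ∃ κ : ℕ, κ = 1 + G.natDegree := ⟨_, rfl⟩
  have he'' : ∀ j, e' j = 1 ∨ e' j = 2 := fun j => by rw [he'j]; exact he
  have hLg : Loc M (bx e' α' β' G) (rx e' α' β' G) κ := by rw [hκ]; exact loc_bx he'' hMC
  have hLi : Loc M (bxi e' α' β' G 0) (fun P => rx e' α' β' G P - 1) κ := by
    rw [hκ]; exact loc_bxi he'' hMC 0
  obtain ⟨A, hA, HB⟩ := hB K (κ + 2)
  have hA0 : (0 : ℝ) < A := by exact_mod_cast hA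
  have hA1 : (1 : ℝ) ≤ A := by exact_mod_cast hA
  obtain ⟨η₁, hη₁⟩ : ∃ η₁ : ℝ, η₁ = θ' / 16 / A := ⟨_, rfl⟩
  have hη₁0 : 0 < η₁ := by rw [hη₁]; positivity
  have hη₁a : A * η₁ = θ' / 16 := by rw [hη₁]; field_simp
  have hη₁c : η₁ ≤ θ' / 16 := by
    rw [hη₁, div_le_iff₀ hA0]
    nlinarith
  obtain ⟨η, hη⟩ : ∃ η : ℝ, η = η₁ / 2 := ⟨_, rfl⟩
  have hη0 : 0 < η := by rw [hη]; positivity
  obtain ⟨d₁, H1⟩ := HM e α β hAF κ η M (bxi e' α' β' G 0)
    (fun P => rx e' α' β' G P - 1) hη0 hMm (by have := hαM 0; rwa [hα'j] at this) hLi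
    (fun P _ _ _ a h => by
      have := h.2
      rwa [hα'j, hβ'j, he'j] at this)
  obtain ⟨m₀, hm₀⟩ : ∃ m₀ : ℝ, m₀ = (Fintype.card K : ℝ) ^ M.natDegree := ⟨_, rfl⟩
  have hq0 : (0 : ℝ) < (Fintype.card K : ℝ) := by
    exact_mod_cast (Fintype.card_pos (α := K))
  have hm₀0 : 0 < m₀ := by rw [hm₀]; exact pow_pos hq0 _
  obtain ⟨p, hp⟩ : ∃ p : ℝ, p = Pm M := ⟨_, rfl⟩
  have hp0 : 0 < p ∧ p ≤ 1 := by rw [hp]; exact Pm_bd hMm
  have hp' := hp0.1
  have hC0 : 0 < C := by linarith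
  obtain ⟨ρ, hρ⟩ : ∃ ρ : ℝ, ρ = (2 : ℝ) ^ (-η / 2) := ⟨_, rfl⟩
  have hρ0 : 0 < ρ := by rw [hρ]; positivity
  have hρ1 : ρ < 1 := by
    rw [hρ]
    exact Real.rpow_lt_one_of_one_lt_of_neg (by norm_num) (by linarith)
  have ev1 : ∀ᶠ d : ℕ in atTop, d₁ ≤ d := eventually_ge_atTop _
  have ev3 : ∀ᶠ d : ℕ in atTop, β.natDegree < d := eventually_gt_atTop _
  have ev3' : ∀ᶠ d : ℕ in atTop, α.natDegree < d := eventually_gt_atTop _
  have tn : Tendsto (fun d : ℕ => (d : ℝ)) atTop atTop := tendsto_natCast_atTop_atTop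
  have ev4 : ∀ᶠ d : ℕ in atTop, (M.natDegree + 2) / η ≤ (d : ℝ) := tn.eventually_ge_atTop _
  have ev6 : ∀ᶠ d : ℕ in atTop, (d : ℝ) ^ (2 * κ) * ρ ^ d < p / (16 * C ^ (2 * κ)) := by
    have h := tendsto_pow_const_mul_const_pow_of_abs_lt_one (2 * κ)
      (r := ρ) (by rw [abs_of_pos hρ0]; exact hρ1)
    exact h.eventually_lt_const (by positivity)
  have hfin : ∀ᶠ d : ℕ in atTop, η / (24 * m₀) * (Fintype.card K : ℝ) ^ d * Sh.dn F d ≤
      (((Mn K d).filter (fun a => Irreducible (α * a ^ e + β) ∧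
        ∀ P : K[X], Irreducible P → P ∣ G.eval a → η * d ≤ P.natDegree)).card : ℝ) := by
    filter_upwards [ev1, ev3, ev3', ev4, ev6] with d e1 e3 e3' e4 e6
    rw [div_le_iff₀ hη0] at e4
    have hMnn : (0 : ℝ) ≤ (M.natDegree : ℝ) := Nat.cast_nonneg _
    have hd0 : (0 : ℝ) < d := by
      have : (0 : ℝ) < d * η := by linarith
      exact (pos_iff_pos_of_mul_pos this).2 hη0
    obtain ⟨z, hz⟩ : ∃ z : ℕ, z = ⌊η₁ * d⌋₊ := ⟨_, rfl⟩
    have hz1 : (z : ℝ) ≤ η₁ * d := by rw [hz]; exact Nat.floor_le (by positivity)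
    have hz2 : η * d ≤ z := by
      have h1 : η₁ * d < (z : ℝ) + 1 := by rw [hz]; exact Nat.lt_floor_add_one _
      have h2 : η₁ = 2 * η := by rw [hη]; ring
      rw [h2] at h1
      linarith
    have hzM : M.natDegree ≤ z := by
      have : (M.natDegree : ℝ) ≤ z := by linarith
      exact_mod_cast this
    have hz01 : (1 : ℝ) ≤ z := by linarith
    have hz0 : 1 ≤ z := by exact_mod_cast hz01
    have hzd : (z : ℝ) ≤ θ' / 16 * d := hz1.trans (mul_le_mul_of_nonneg_right hη₁c hd0.le)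
    have hzd2 : z < d := by
      have h1 : (z : ℝ) < d := by
        have : θ' / 16 * d ≤ 1 / 16 * d := by
          apply mul_le_mul_of_nonneg_right _ hd0.le
          linarith
        linarith
      exact_mod_cast h1
    have hAz : (A : ℝ) * z ≤ θ' / 16 * d := by
      calc (A : ℝ) * z ≤ A * (η₁ * d) := mul_le_mul_of_nonneg_left hz1 hA0.le
        _ = A * η₁ * d := by ring
        _ = θ' / 16 * d := by rw [hη₁a]
    have hlev : ((A * z + 0 : ℕ) : ℝ) ≤ θ * d := by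
      push_cast
      have h1 : θ' * d ≤ θ * d := mul_le_mul_of_nonneg_right hθ'θ hd0.le
      have h2 : 0 ≤ θ' * d := by positivity
      linarith
    obtain ⟨Vm, Vp, hBH⟩ := HB z hz0
    have hRW : RW (K := K) z 0 1 ({()} : Finset Unit) (fun _ => (1 : K[X])) (fun _ => 0)
        (fun _ => 1) := by
      refine ⟨fun _ _ => monic_one, fun _ _ => squarefree_one, ?_, ?_, ?_, ?_, ?_⟩
      · intro _ _ P hP
        exact absurd (isUnit_of_dvd_one hP.2.2) hP.2.1.not_isUnit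
      · intro _ _
        simp
      · simp
      · simp
      · intro a
        simp [rwt]
    have key := H1 a₀ d z A 0 1 Vm Vp Unit {()} (fun _ => 1) (fun _ => 0) (fun _ => 1)
      (by have := ha₀ 0; rwa [hα'j, hβ'j, he'j] at this) e1 hA hBH hz2
      hlev hRW (fun _ _ => isCoprime_one_right)
    have hQQ : QQ (K := K) ({()} : Finset Unit) (fun _ => (1 : K[X])) (fun _ => 1) = 1 := by
      simp [QQ]
    have hrw : ∀ a : K[X], rwt ({()} : Finset Unit) (fun _ => (1 : K[X])) (fun _ => 0)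
        (fun _ => 1) a = 1 := by
      intro a
      simp [rwt]
    rw [hQQ] at key
    simp only [hrw, Finset.sum_const, nsmul_eq_mul, mul_one] at key
    obtain ⟨S, hS⟩ : ∃ S : ℝ, S = (((Ac K d M a₀).filter (fun a => Irreducible (α * a ^ e + β) ∧
      ∀ P ∈ PS K M z, ¬ bxi e' α' β' G 0 P a)).card : ℝ) := ⟨_, rfl⟩
    rw [← hS, ← hm₀, ← hp] at key
    have hsub : S ≤ (((Mn K d).filter (fun a => Irreducible (α * a ^ e + β) ∧
        ∀ P : K[X], Irreducible P → P ∣ G.eval a → η * d ≤ P.natDegree)).card : ℝ) := by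
      rw [hS]
      have h1 : (Ac K d M a₀).filter (fun a => Irreducible (α * a ^ e + β) ∧
          ∀ P ∈ PS K M z, ¬ bxi e' α' β' G 0 P a) ⊆ (Mn K d).filter (fun a =>
          Irreducible (α * a ^ e + β) ∧
          ∀ P : K[X], Irreducible P → P ∣ G.eval a → η * d ≤ P.natDegree) := by
        intro a ha
        have hRx : a ∈ Rx K e' α' β' G M a₀ d z := by
          refine mem_Rx_of (i := 0) he'' (fun j => by rw [hα'j]; exact hα0)
            (fun j => by rw [hβ'j]; exact e3) hzd2 ?_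
          rw [Finset.mem_filter] at ha ⊢
          refine ⟨ha.1, ?_, ha.2.2⟩
          rw [hα'j, hβ'j, he'j]
          exact ha.2.1
        rw [Finset.mem_filter] at ha ⊢
        refine ⟨(Finset.mem_filter.1 ha.1).1, ha.2.1, fun P hI hP => ?_⟩
        have h2 := Rx_good hG₀ ha₀ hRx hI (Or.inr hP)
        have h3 : (z : ℝ) < P.natDegree := by exact_mod_cast h2
        linarith
      exact_mod_cast Finset.card_le_card h1
    refine le_trans ?_ hsub
    obtain ⟨V, hV⟩ : ∃ V : ℝ, V = VR M z (rx e' α' β' G) := ⟨_, rfl⟩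
    obtain ⟨V', hV'⟩ : ∃ V' : ℝ, V' = VR M z (fun P => rx e' α' β' G P - 1) := ⟨_, rfl⟩
    rw [← hV'] at key
    have hMP' : ∀ P : K[X], P.Monic → Irreducible P → ¬ P ∣ M →
        16 * (κ + 2) ≤ Fintype.card K ^ P.natDegree := hLg.big
    have hprod0 : 0 < ∏ P ∈ PU K z, (1 - 1 / (Fintype.card K : ℝ) ^ P.natDegree) := by
      refine Finset.prod_pos fun P hP => ?_
      have h1 := one_lt_x (K := K) (mem_PU.1 hP).2.1
      rw [sub_pos, div_lt_one (by linarith)]
      exact h1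
    have hVlow : (1 / (C * d)) ^ (2 * κ) ≤ V := by
      rw [hV]
      refine le_trans ?_ (VRg_lower hLg.bd hMP')
      refine pow_le_pow_left₀ (by positivity) ?_ _
      have h1 := (HMe1 z hz0).2
      rw [Finset.prod_inv_distrib] at h1
      rw [div_le_iff₀ (by positivity)]
      have h2 : C * z ≤ C * d := by
        have : (z : ℝ) ≤ d := by exact_mod_cast hzd2.le
        gcongr
      have h3 : (∏ P ∈ PU K z, (1 - 1 / (Fintype.card K : ℝ) ^ P.natDegree)) *
          (∏ P ∈ PU K z, (1 - 1 / (Fintype.card K : ℝ) ^ P.natDegree))⁻¹ = 1 :=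
        mul_inv_cancel₀ hprod0.ne'
      exact le_of_eq_of_le h3.symm (mul_le_mul_of_nonneg_left (h1.trans h2) hprod0.le)
    have hV0 : 0 < V := lt_of_lt_of_le (by positivity) hVlow
    have hcomp : (z : ℝ) * p * V ≤ V' := by
      rw [hV, hV', hp]
      exact VRg_comp hLg.bd hMm hzM (fun P h1 h2 h3 => rx_pos he'' hMC 0 h1 h2 h3) hMP'
        (HMe1 z hz0).1
    have her0 : 0 ≤ er K z := by unfold er; positivity
    have herρ : er K z ≤ ρ ^ d := by rw [hρ]; exact er_le hz2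
    have h8 : 16 * er K z ≤ V' := by
      have h1 : 16 * ρ ^ d ≤ p * (1 / (C * d)) ^ (2 * κ) := by
        rw [lt_div_iff₀ (by positivity)] at e6
        rw [div_pow, one_pow, mul_one_div, le_div_iff₀ (by positivity), mul_pow]
        linarith
      have h2 : p * (1 / (C * d)) ^ (2 * κ) ≤ p * V := mul_le_mul_of_nonneg_left hVlow hp'.le
      have h3 : p * V ≤ z * p * V := by nlinarith [mul_pos hp' hV0]
      linarith
    have hS0 : 0 ≤ S := by rw [hS]; exact Nat.cast_nonneg _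
    have key2 : (Fintype.card K : ℝ) ^ d / (m₀ * p) * (V' / 8) ≤ 3 * d * S := by
      have h1 : (Fintype.card K : ℝ) ^ d / (m₀ * p) * (V' / 8) ≤
          (Fintype.card K : ℝ) ^ d / (m₀ * p) * (V' / 4 - (1 + 1) * er K z) := by
        refine mul_le_mul_of_nonneg_left ?_ (by positivity)
        linarith
      have h2 : ((e : ℝ) * d + α.natDegree) * S ≤ 3 * d * S := by
        refine mul_le_mul_of_nonneg_right ?_ hS0
        have h4 : (α.natDegree : ℝ) ≤ d := by exact_mod_cast e3'.le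
        have h5 : (e : ℝ) ≤ 2 := by exact_mod_cast he2
        have h6 : (e : ℝ) * d ≤ 2 * d := mul_le_mul_of_nonneg_right h5 hd0.le
        linarith
      exact (h1.trans key).trans h2
    have hdn : Sh.dn F d ≤ V := by
      rw [hV]
      exact Sh.dn_le hzd2.le fun P _ hI _ => Sh.rx_om hF' hI
    obtain ⟨Q, hQ⟩ : ∃ Q : ℝ, Q = (Fintype.card K : ℝ) ^ d := ⟨_, rfl⟩
    have hQ0 : 0 < Q := by rw [hQ]; exact pow_pos hq0 d
    rw [← hQ] at key2 ⊢
    have k1 : Q * (η * V) ≤ 24 * m₀ * S := by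
      have h1 : Q / (m₀ * p) * (V' / 8) = Q * V' / (8 * (m₀ * p)) := by field_simp
      rw [h1, div_le_iff₀ (by positivity)] at key2
      have h2 : Q * (η * d * p * V) ≤ Q * V' := by
        refine mul_le_mul_of_nonneg_left ?_ hQ0.le
        refine le_trans ?_ hcomp
        gcongr
      have h3 : Q * (η * V) * (d * p) ≤ 24 * m₀ * S * (d * p) := by
        calc Q * (η * V) * (d * p) = Q * (η * d * p * V) := by ring
          _ ≤ Q * V' := h2
          _ ≤ 3 * d * S * (8 * (m₀ * p)) := key2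
          _ = 24 * m₀ * S * (d * p) := by ring
      exact le_of_mul_le_mul_right h3 (by positivity)
    calc η / (24 * m₀) * Q * Sh.dn F d ≤ η / (24 * m₀) * Q * V :=
          mul_le_mul_of_nonneg_left hdn (by positivity)
      _ = Q * (η * V) / (24 * m₀) := by field_simp
      _ ≤ S := by
          rw [div_le_iff₀ (by positivity)]
          refine k1.trans (le_of_eq ?_)
          ring
  obtain ⟨d₀, hd₀⟩ := eventually_atTop.1 hfin
  exact ⟨η, η / (24 * m₀), d₀, hη0, by positivity, hd₀⟩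

end Pool.Agent.H524.MT
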