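import Pool.Agent.H524.MT.Conv
import Pool.Agent.H524.MT.MxS
import Pool.Agent.H524.MT.ApS

/-!
# The theorems in terms of irreducible polynomials in `T`
-/

set_option autoImplicit false

namespace Pool.Agent.H524.MT

open Polynomial
open scoped Classical
open Pool.Agent.H694.Typ (Mn mem_Mn)
open Conv

/-- The theorem in terms of the irreducible polynomials. -/
theorem mayf (hM : S_mays) (K : Type) [Field K] [Fintype K] [CharP K 2] (m : ℕ) :
    ∃ k : ℕ, ∀ f : Fin k → K[X][X],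
      (∀ j, Irreducible (f j) ∧ ((f j).natDegree = 1 ∨ (f j).natDegree = 2 ∧ derivative (f j) = 0)) →
      (∀ i j, i ≠ j → ¬ Associated (f i) (f j)) → ∀ G : K[X][X],
      (∀ P : K[X], Irreducible P → ∃ a : K[X], ¬ P ∣ (G * ∏ j, f j).eval a) →
      ∃ (δ c : ℝ) (d₀ : ℕ), 0 < δ ∧ 0 < c ∧ ∀ d : ℕ, d₀ ≤ d →
        c * (Fintype.card K : ℝ) ^ d * Sh.dn (G * ∏ j, f j) d ≤
          ({a : K[X] | a.Monic ∧ a.natDegree = d ∧ m ≤ {j | Irreducible ((f j).eval a)}.ncard ∧
            ∀ P : K[X], Irreducible P → P ∣ (G * ∏ j, f j).eval a →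
              δ * d ≤ P.natDegree}.ncard : ℝ) := by
  obtain ⟨k, -, H⟩ := hM K m
  refine ⟨k, fun f hf hne G hadm => ?_⟩
  have hex : ∀ j, ∃ (e : ℕ) (α β : K[X]), f j = C α * X ^ e + C β ∧ AF e α β := by
    intro j
    rcases (hf j).2 with h | ⟨h, h'⟩
    · exact ⟨1, _, _, lin (hf j).1 h⟩
    · exact ⟨2, _, _, quad (hf j).1 h h'⟩
  choose e α β hform hAF using hex
  have hev : ∀ j a, (f j).eval a = α j * a ^ e j + β j := by
    intro j a
    rw [hform j]
    simp
  obtain ⟨δ, c, d₀, hδ, hc, H1⟩ := H e α β G (G * ∏ j, f j) hAF (fun i j hij hee h => by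
      apply hne i j hij
      rw [hform i, hform j, hee]
      exact assoc (hAF i).1 (hAF j).1 (hAF i).2.1 (hAF j).2.1 h)
    (fun a => by
      rw [eval_mul, eval_prod]
      simp only [hev]) hadm
  refine ⟨δ, c, d₀, hδ, hc, fun d hd => (H1 d hd).trans ?_⟩
  rw [← Set.ncard_coe_finset]
  have hfin : {a : K[X] | a.Monic ∧ a.natDegree = d ∧ m ≤ {j | Irreducible ((f j).eval a)}.ncard ∧
      ∀ P : K[X], Irreducible P → P ∣ (G * ∏ j, f j).eval a → δ * d ≤ P.natDegree}.Finite := by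
    refine (Mn K d).finite_toSet.subset fun a ha => ?_
    exact Finset.mem_coe.2 (mem_Mn.2 ⟨ha.1, ha.2.1⟩)
  have h1 := Set.ncard_le_ncard (s := (((Mn K d).filter (fun a =>
            m ≤ (Finset.univ.filter (fun j => Irreducible (α j * a ^ e j + β j))).card ∧
            ∀ P : K[X], Irreducible P → P ∣ (G * ∏ j, f j).eval a →
              δ * d ≤ P.natDegree) : Finset K[X]) : Set K[X])) (t := {a : K[X] | a.Monic ∧
      a.natDegree = d ∧ m ≤ {j | Irreducible ((f j).eval a)}.ncard ∧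
      ∀ P : K[X], Irreducible P → P ∣ (G * ∏ j, f j).eval a →
        δ * d ≤ P.natDegree}) (fun a ha => by
    rw [Finset.mem_coe, Finset.mem_filter, mem_Mn] at ha
    obtain ⟨⟨h1, h2⟩, h3, h4⟩ := ha
    refine ⟨h1, h2, ?_, h4⟩
    refine h3.trans (le_of_eq ?_)
    rw [← Set.ncard_coe_finset]
    congr 1
    ext j
    simp [hev]) hfin
  exact_mod_cast h1

/-- Prime and almost primes in terms of the irreducible polynomial. -/
theorem aprf (hM : S_aprs) (K : Type) [Field K] [Fintype K] [CharP K 2] (f G : K[X][X])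
    (hf : Irreducible f) (hd : f.natDegree = 1 ∨ f.natDegree = 2 ∧ derivative f = 0)
    (hadm : ∀ P : K[X], Irreducible P → ∃ a : K[X], ¬ P ∣ (f * G).eval a) :
    ∃ (δ c : ℝ) (d₀ : ℕ), 0 < δ ∧ 0 < c ∧ ∀ d : ℕ, d₀ ≤ d →
      c * (Fintype.card K : ℝ) ^ d * Sh.dn (f * G) d ≤
        ({a : K[X] | a.Monic ∧ a.natDegree = d ∧ Irreducible (f.eval a) ∧
          ∀ P : K[X], Irreducible P → P ∣ G.eval a → δ * d ≤ P.natDegree}.ncard : ℝ) := by
  have hex : ∃ (e : ℕ) (α β : K[X]), f = C α * X ^ e + C β ∧ AF e α β := by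
    rcases hd with h | ⟨h, h'⟩
    · exact ⟨1, _, _, lin hf h⟩
    · exact ⟨2, _, _, quad hf h h'⟩
  obtain ⟨e, α, β, hform, hAF⟩ := hex
  have hev : ∀ a, f.eval a = α * a ^ e + β := by
    intro a
    rw [hform]
    simp
  obtain ⟨δ, c, d₀, hδ, hc, H1⟩ := hM K e α β G (f * G) hAF (fun a => by
    rw [eval_mul, hev, mul_comm]) hadm
  refine ⟨δ, c, d₀, hδ, hc, fun d hd => (H1 d hd).trans ?_⟩
  rw [← Set.ncard_coe_finset]
  have hfin : {a : K[X] | a.Monic ∧ a.natDegree = d ∧ Irreducible (f.eval a) ∧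
      ∀ P : K[X], Irreducible P → P ∣ G.eval a → δ * d ≤ P.natDegree}.Finite := by
    refine (Mn K d).finite_toSet.subset fun a ha => ?_
    exact Finset.mem_coe.2 (mem_Mn.2 ⟨ha.1, ha.2.1⟩)
  have h1 := Set.ncard_le_ncard (s := (((Mn K d).filter (fun a =>
        Irreducible (α * a ^ e + β) ∧
          ∀ P : K[X], Irreducible P → P ∣ G.eval a → δ * d ≤ P.natDegree) : Finset K[X]) :
      Set K[X])) (t := {a : K[X] | a.Monic ∧ a.natDegree = d ∧ Irreducible (f.eval a) ∧
      ∀ P : K[X], Irreducible P → P ∣ G.eval a → δ * d ≤ P.natDegree}) (fun a ha => by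
    rw [Finset.mem_coe, Finset.mem_filter, mem_Mn] at ha
    exact ⟨ha.1.1, ha.1.2, by rw [hev]; exact ha.2.1, ha.2.2⟩) hfin
  exact_mod_cast h1

/-! ### The number of the prime factors -/

theorem few {K : Type} [Field K] {F : K[X]} (hF : F ≠ 0) {x : ℝ}
    (h : ∀ P : K[X], Irreducible P → P ∣ F → x ≤ P.natDegree) :
    ((UniqueFactorizationMonoid.normalizedFactors F).card : ℝ) * x ≤ F.natDegree := by
  have h1 : F.natDegree = ((UniqueFactorizationMonoid.normalizedFactors F).map natDegree).sum := by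
    rw [← natDegree_multiset_prod _ (UniqueFactorizationMonoid.zero_notMem_normalizedFactors F)]
    exact (natDegree_eq_of_degree_eq (degree_eq_degree_of_associated
      (UniqueFactorizationMonoid.prod_normalizedFactors hF))).symm
  have h2 : ∀ s : Multiset K[X], (∀ P ∈ s, x ≤ P.natDegree) →
      (s.card : ℝ) * x ≤ ((s.map natDegree).sum : ℝ) := by
    intro s
    induction s using Multiset.induction_on with
    | empty => simp
    | cons P s ih =>
      intro hs
      have h3 := ih fun Q hQ => hs Q (Multiset.mem_cons_of_mem hQ)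
      have h4 := hs P (Multiset.mem_cons_self _ _)
      rw [Multiset.card_cons, Multiset.map_cons, Multiset.sum_cons]
      push_cast
      push_cast at h3
      linarith
  rw [h1]
  exact h2 _ fun P hP => h P (UniqueFactorizationMonoid.irreducible_of_normalized_factor P hP)
    (UniqueFactorizationMonoid.dvd_of_mem_normalizedFactors hP)

theorem deg_eval {K : Type} [Field K] (G : K[X][X]) : ∃ B : ℕ, ∀ a : K[X],
    (G.eval a).natDegree ≤ G.natDegree * a.natDegree + B := by
  refine ⟨∑ i ∈ Finset.range (G.natDegree + 1), (G.coeff i).natDegree, fun a => ?_⟩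
  rw [eval_eq_sum_range]
  refine natDegree_sum_le_of_forall_le _ _ fun i hi => ?_
  refine natDegree_mul_le.trans ?_
  have h1 : (G.coeff i).natDegree ≤ ∑ i ∈ Finset.range (G.natDegree + 1), (G.coeff i).natDegree :=
    Finset.single_le_sum (f := fun i => (G.coeff i).natDegree) (fun _ _ => Nat.zero_le _) hi
  have h2 : (a ^ i).natDegree ≤ G.natDegree * a.natDegree := by
    refine natDegree_pow_le.trans (Nat.mul_le_mul_right _ ?_)
    rw [Finset.mem_range] at hi
    omega
  omega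

/-- Prime and almost primes, with the number of the prime factors. -/
theorem aprr (hM : S_aprs) (K : Type) [Field K] [Fintype K] [CharP K 2] (f G : K[X][X])
    (hf : Irreducible f) (hd : f.natDegree = 1 ∨ f.natDegree = 2 ∧ derivative f = 0)
    (hadm : ∀ P : K[X], Irreducible P → ∃ a : K[X], ¬ P ∣ (f * G).eval a) :
    ∃ (δ c : ℝ) (r d₀ : ℕ), 0 < δ ∧ 0 < c ∧ ∀ d : ℕ, d₀ ≤ d →
      c * (Fintype.card K : ℝ) ^ d * Sh.dn (f * G) d ≤
        ({a : K[X] | a.Monic ∧ a.natDegree = d ∧ Irreducible (f.eval a) ∧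
          (UniqueFactorizationMonoid.normalizedFactors (G.eval a)).card ≤ r ∧ G.eval a ≠ 0 ∧
          ∀ P : K[X], Irreducible P → P ∣ G.eval a → δ * d ≤ P.natDegree}.ncard : ℝ) := by
  obtain ⟨δ, c, d₀, hδ, hc, H⟩ := aprf hM K f G hf hd hadm
  obtain ⟨B, hB⟩ := deg_eval G
  refine ⟨δ, c, ⌊((G.natDegree : ℝ) + 1) / δ⌋₊, max d₀ (max (B + 1) (⌈1 / δ⌉₊ + 1)), hδ, hc,
    fun d hdd => (H d ((le_max_left _ _).trans hdd)).trans ?_⟩
  have hdB : B + 1 ≤ d := ((le_max_left _ _).trans (le_max_right _ _)).trans hdd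
  have hd1 : 1 < δ * d := by
    have h1 : ⌈1 / δ⌉₊ + 1 ≤ d := ((le_max_right _ _).trans (le_max_right _ _)).trans hdd
    have h2 : 1 / δ ≤ (⌈1 / δ⌉₊ : ℝ) := Nat.le_ceil _
    have h3 : ((⌈1 / δ⌉₊ : ℕ) : ℝ) + 1 ≤ d := by exact_mod_cast h1
    have h4 : 1 / δ < d := by linarith
    rw [div_lt_iff₀ hδ] at h4
    linarith
  have hfin : {a : K[X] | a.Monic ∧ a.natDegree = d ∧ Irreducible (f.eval a) ∧
      (UniqueFactorizationMonoid.normalizedFactors (G.eval a)).card ≤
        ⌊((G.natDegree : ℝ) + 1) / δ⌋₊ ∧ G.eval a ≠ 0 ∧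
      ∀ P : K[X], Irreducible P → P ∣ G.eval a → δ * d ≤ P.natDegree}.Finite := by
    refine (Mn K d).finite_toSet.subset fun a ha => ?_
    exact Finset.mem_coe.2 (mem_Mn.2 ⟨ha.1, ha.2.1⟩)
  have h1 := Set.ncard_le_ncard (s := {a : K[X] | a.Monic ∧ a.natDegree = d ∧
      Irreducible (f.eval a) ∧
      ∀ P : K[X], Irreducible P → P ∣ G.eval a → δ * d ≤ P.natDegree}) (t := {a : K[X] | a.Monic ∧
      a.natDegree = d ∧ Irreducible (f.eval a) ∧
      (UniqueFactorizationMonoid.normalizedFactors (G.eval a)).card ≤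
        ⌊((G.natDegree : ℝ) + 1) / δ⌋₊ ∧ G.eval a ≠ 0 ∧
      ∀ P : K[X], Irreducible P → P ∣ G.eval a → δ * d ≤ P.natDegree}) (fun a ha => by
    obtain ⟨h1, h2, h3, h4⟩ := ha
    have h0 : G.eval a ≠ 0 := by
      intro h0
      have h5 := h4 X irreducible_X (by rw [h0]; exact dvd_zero _)
      rw [natDegree_X, Nat.cast_one] at h5
      linarith
    refine ⟨h1, h2, h3, ?_, h0, h4⟩
    apply Nat.le_floor
    rw [le_div_iff₀ hδ]
    have h5 := few h0 h4
    have h6 := hB a
    rw [h2] at h6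
    have h7 : ((G.eval a).natDegree : ℝ) ≤ G.natDegree * d + B := by exact_mod_cast h6
    have h8 : (B : ℝ) ≤ d := by exact_mod_cast (by omega : B ≤ d)
    have hdpos : (0 : ℝ) < d := by exact_mod_cast (by omega : 0 < d)
    have h9 : ((UniqueFactorizationMonoid.normalizedFactors (G.eval a)).card : ℝ) * δ * d ≤
        ((G.natDegree : ℝ) + 1) * d := by
      calc ((UniqueFactorizationMonoid.normalizedFactors (G.eval a)).card : ℝ) * δ * d =
            ((UniqueFactorizationMonoid.normalizedFactors (G.eval a)).card : ℝ) * (δ * d) := by ring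
        _ ≤ _ := h5
        _ ≤ _ := h7
        _ ≤ _ := by linarith
    exact le_of_mul_le_mul_right h9 hdpos) hfin
  exact_mod_cast h1

end Pool.Agent.H524.MT
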