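import Mathlib
import Pool.Agent.H524.MT.MxA
import Pool.Agent.H524.MT.ShA
import Pool.Agent.H524.MT.OptQ

/-!
# Maynard-Tao for `α T ^ e + β`, `e = 1, 2`: the theorem with the sharp lower bound and every
`k ≥ exp (A (m + 1))`

The proof is that of `mays` (module MxS) with OPTQ in place of OPT.
-/

namespace Pool.Agent.H524.MT

open Polynomial Filter
open scoped Classical
open Pool.Agent.H985.KP (PA)
open Pool.Agent.H694.Typ (Mn PU mem_PU mem_Mn)
open May MayX
open MayG (VRg_lower VRg_le_one VRg_comp fin_ineqg wV_nonneg ex_Mg)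

/-- **Maynard-Tao for linear and inseparable quadratic polynomials**, with the lower bound of the
right order of magnitude, for all `k ≥ exp (A (m + 1))`. -/
def S_maysq : Prop :=
  ∀ (K : Type) [Field K] [Fintype K] [CharP K 2], ∃ A₀ : ℝ, 0 < A₀ ∧ ∀ m k : ℕ,
    Real.exp (A₀ * (m + 1)) ≤ k →
    ∀ (e : Fin k → ℕ) (α β : Fin k → K[X]) (G F : K[X][X]), (∀ j, AF (e j) (α j) (β j)) →
      (∀ i j, i ≠ j → e i = e j → α i * β j ≠ α j * β i) →
      (∀ a, F.eval a = G.eval a * ∏ j, (α j * a ^ e j + β j)) →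
      (∀ P : K[X], Irreducible P → ∃ a : K[X], ¬ P ∣ F.eval a) →
      ∃ (δ c : ℝ) (d₀ : ℕ), 0 < δ ∧ 0 < c ∧ ∀ d : ℕ, d₀ ≤ d →
        c * (Fintype.card K : ℝ) ^ d * Sh.dn F d ≤
          (((Mn K d).filter (fun a =>
            m ≤ (Finset.univ.filter (fun j => Irreducible (α j * a ^ e j + β j))).card ∧
            ∀ P : K[X], Irreducible P → P ∣ F.eval a → δ * d ≤ P.natDegree)).card : ℝ)

set_option maxHeartbeats 4000000 in
theorem maysq (hM : S_masterx) (hO : S_one) (hB : S_bhk) (hR : S_resg) (hW : S_rwmx)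
    (hMe : S_mert) (hOp : S_optq) : S_maysq := by
  intro K _ _ _
  obtain ⟨θ, hθ, HM⟩ := hM K
  obtain ⟨C, hC, HMe1, HMe2⟩ := hMe K
  obtain ⟨θ', hθ'⟩ : ∃ θ' : ℝ, θ' = min θ 1 := ⟨_, rfl⟩
  have hθ'0 : 0 < θ' := by rw [hθ']; exact lt_min hθ one_pos
  have hθ'θ : θ' ≤ θ := by rw [hθ']; exact min_le_left _ _
  have hθ'1 : θ' ≤ 1 := by rw [hθ']; exact min_le_right _ _
  obtain ⟨A₁, hA₁, hOpA⟩ := hOp K
  refine ⟨A₁ * (384 / θ' + 1), by positivity, fun m k hkA => ?_⟩
  obtain ⟨Λ, hΛ⟩ : ∃ Λ : ℝ, Λ = 64 * (6 * m + 1) / θ' := ⟨_, rfl⟩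
  have hk1' : (1 : ℝ) ≤ k := by
    refine le_trans ?_ hkA
    rw [← Real.exp_zero]
    exact Real.exp_le_exp.2 (by positivity)
  have hk : 1 ≤ k := by exact_mod_cast hk1'
  obtain ⟨η₀, hη₀, HO⟩ := hOpA Λ k (by rw [hΛ]; positivity) (by
    refine le_trans (Real.exp_le_exp.2 ?_) hkA
    rw [mul_assoc]
    apply mul_le_mul_of_nonneg_left _ hA₁.le
    have hm0 : (0 : ℝ) ≤ m := Nat.cast_nonneg m
    have h1 : Λ ≤ 384 / θ' * (m + 1) := by
      rw [hΛ, div_mul_eq_mul_div]
      apply div_le_div_of_nonneg_right _ hθ'0.le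
      linarith
    have h2 : (384 / θ' + 1) * ((m : ℝ) + 1) = 384 / θ' * (m + 1) + (m + 1) := by ring
    rw [h2]
    linarith)
  intro e α β G F hAF hne hF hadmF
  have hadm : ∀ P : K[X], Irreducible P → ∃ a : K[X], ¬ P ∣ G.eval a ∧
      ∀ j, ¬ P ∣ α j * a ^ e j + β j := by
    intro P hP
    obtain ⟨a, ha⟩ := hadmF P hP
    rw [hF] at ha
    exact ⟨a, fun h => ha (Dvd.dvd.mul_right h _), fun j h => ha (Dvd.dvd.mul_left
      (h.trans (Finset.dvd_prod_of_mem (fun j => α j * a ^ e j + β j) (Finset.mem_univ j))) _)⟩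
  have hα : ∀ j, α j ≠ 0 := fun j => (hAF j).1
  have he : ∀ j, e j = 1 ∨ e j = 2 := fun j => (hAF j).2.2.imp id fun h => h.1
  have he1 : ∀ j, 1 ≤ e j := fun j => by rcases he j with h | h <;> omega
  have he2 : ∀ j, e j ≤ 2 := fun j => by rcases he j with h | h <;> omega
  have hres := ex_N hAF hne
  have hG : G ≠ 0 := by
    rintro rfl
    obtain ⟨a, ha, -⟩ := hadm X irreducible_X
    apply ha
    rw [eval_zero]
    exact dvd_zero _
  obtain ⟨M, hMm, hαM, hMC⟩ := ex_Mg α hα G hG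
  obtain ⟨a₀, hG₀, ha₀⟩ := ex_a0x e α β G hMm hadm
  obtain ⟨κ, hκ⟩ : ∃ κ : ℕ, κ = k + G.natDegree := ⟨_, rfl⟩
  have hLg : Loc M (bx e α β G) (rx e α β G) κ := by rw [hκ]; exact loc_bx he hMC
  have hLi : ∀ i, Loc M (bxi e α β G i) (fun P => rx e α β G P - 1) κ := fun i => by
    rw [hκ]; exact loc_bxi he hMC i
  obtain ⟨A, hA, HB⟩ := hB K (κ + 2)
  have hA0 : (0 : ℝ) < A := by exact_mod_cast hA
  obtain ⟨η₁, hη₁0, hη₁a, hη₁b, hη₁c⟩ : ∃ η₁ : ℝ, 0 < η₁ ∧ A * η₁ ≤ θ' / 16 ∧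
      η₁ ≤ η₀ * θ' / 16 ∧ η₁ ≤ θ' / 16 := by
    refine ⟨min (θ' / 16 / A) (min (η₀ * θ' / 16) (θ' / 16)), by positivity, ?_, ?_, ?_⟩
    · calc (A : ℝ) * min (θ' / 16 / A) (min (η₀ * θ' / 16) (θ' / 16)) ≤ A * (θ' / 16 / A) :=
          mul_le_mul_of_nonneg_left (min_le_left _ _) hA0.le
        _ = θ' / 16 := by field_simp
    · exact (min_le_right _ _).trans (min_le_left _ _)
    · exact (min_le_right _ _).trans (min_le_right _ _)
  obtain ⟨η, hη⟩ : ∃ η : ℝ, η = η₁ / 2 := ⟨_, rfl⟩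
  have hη0 : 0 < η := by rw [hη]; positivity
  choose d₁ H1 using fun i => HM (e i) (α i) (β i) (hAF i) κ η M (bxi e α β G i)
    (fun P => rx e α β G P - 1) hη0 hMm (hαM i) (hLi i) (fun P _ _ _ a h => h.2)
  obtain ⟨d₂, H2⟩ := hW K k e α β hα he hres η hη0
  obtain ⟨m₀, hm₀⟩ : ∃ m₀ : ℝ, m₀ = (Fintype.card K : ℝ) ^ M.natDegree := ⟨_, rfl⟩
  have hq0 : (0 : ℝ) < (Fintype.card K : ℝ) := by
    exact_mod_cast (Fintype.card_pos (α := K))
  have hm₀0 : 0 < m₀ := by rw [hm₀]; exact pow_pos hq0 _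
  obtain ⟨p, hp⟩ : ∃ p : ℝ, p = Pm M := ⟨_, rfl⟩
  have hp0 : 0 < p ∧ p ≤ 1 := by rw [hp]; exact Pm_bd hMm
  have hC0 : 0 < C := by linarith
  obtain ⟨c₄, hc₄⟩ : ∃ c₄ : ℝ, c₄ = (6 * m + 3 * k / p) * 2 * C ^ (2 * κ) := ⟨_, rfl⟩
  have hc₄0 : 0 ≤ c₄ := by
    have := hp0.1
    rw [hc₄]
    positivity
  obtain ⟨ρ, hρ⟩ : ∃ ρ : ℝ, ρ = (2 : ℝ) ^ (-η / 2) := ⟨_, rfl⟩
  have hρ0 : 0 < ρ := by rw [hρ]; positivity
  have hρ1 : ρ < 1 := by
    rw [hρ]
    exact Real.rpow_lt_one_of_one_lt_of_neg (by norm_num) (by linarith)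
  -- large degrees
  have ev1 : ∀ᶠ d : ℕ in atTop, ∀ i, d₁ i ≤ d := eventually_all.2 fun i => eventually_ge_atTop _
  have ev2 : ∀ᶠ d : ℕ in atTop, d₂ ≤ d := eventually_ge_atTop _
  have ev3 : ∀ᶠ d : ℕ in atTop, ∀ j, (β j).natDegree < d :=
    eventually_all.2 fun i => eventually_gt_atTop _
  have ev3' : ∀ᶠ d : ℕ in atTop, ∀ j, (α j).natDegree < d :=
    eventually_all.2 fun i => eventually_gt_atTop _
  have tn : Tendsto (fun d : ℕ => (d : ℝ)) atTop atTop := tendsto_natCast_atTop_atTop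
  have ev4 : ∀ᶠ d : ℕ in atTop, (M.natDegree + C + 2) / η ≤ (d : ℝ) := tn.eventually_ge_atTop _
  have ev5 : ∀ᶠ d : ℕ in atTop, 16 / θ' ≤ (d : ℝ) := tn.eventually_ge_atTop _
  have ev6 : ∀ᶠ d : ℕ in atTop, (d : ℝ) ^ (5 * k + 5 + 2 * κ) * ρ ^ d < 1 / (c₄ + 1) := by
    have h := tendsto_pow_const_mul_const_pow_of_abs_lt_one (5 * k + 5 + 2 * κ)
      (r := ρ) (by rw [abs_of_pos hρ0]; exact hρ1)
    exact h.eventually_lt_const (by positivity)
  have ev7 : ∀ᶠ d : ℕ in atTop, 2 * (d : ℝ) * ρ ^ d < 1 := by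
    have h := (tendsto_pow_const_mul_const_pow_of_abs_lt_one 1
      (r := ρ) (by rw [abs_of_pos hρ0]; exact hρ1)).const_mul 2
    rw [mul_zero] at h
    filter_upwards [h.eventually_lt_const (by norm_num : (0 : ℝ) < 1)] with d hd
    rw [pow_one, ← mul_assoc] at hd
    exact hd
  obtain ⟨N, hN⟩ : ∃ N : ℕ, N = ⌈3 / η⌉₊ := ⟨_, rfl⟩
  obtain ⟨S₀, hS₀⟩ : ∃ S₀ : ℝ, S₀ = C * θ' / (8 * η) := ⟨_, rfl⟩
  have hS₀0 : 0 < S₀ := by rw [hS₀]; positivity
  obtain ⟨W₀, hW₀⟩ : ∃ W₀ : ℝ, W₀ = (((2 : ℝ) ^ N) ^ k * (2 * S₀) ^ k) ^ 2 := ⟨_, rfl⟩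
  have hW₀0 : 0 < W₀ := by rw [hW₀]; positivity
  have hkr : (0 : ℝ) < (k : ℝ) := by exact_mod_cast hk
  have hfin : ∀ᶠ d : ℕ in atTop, 1 / (6 * m₀ * k * W₀) * (Fintype.card K : ℝ) ^ d * Sh.dn F d ≤
      (((Mn K d).filter (fun a =>
        m ≤ (Finset.univ.filter (fun j => Irreducible (α j * a ^ e j + β j))).card ∧
        ∀ P : K[X], Irreducible P → P ∣ F.eval a → η * d ≤ P.natDegree)).card : ℝ) := by
    filter_upwards [ev1, ev2, ev3, ev3', ev4, ev5, ev6, ev7] with d e1 e2 e3 e3' e4 e5 e6 e7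
    rw [div_le_iff₀ hη0] at e4
    rw [div_le_iff₀ hθ'0] at e5
    have hMnn : (0 : ℝ) ≤ (M.natDegree : ℝ) := Nat.cast_nonneg _
    have hd0 : (0 : ℝ) < d := by
      have : (0 : ℝ) < d * θ' := by linarith
      exact (pos_iff_pos_of_mul_pos this).2 hθ'0
    have hd1 : (1 : ℝ) ≤ d := by
      have : 0 < d := by exact_mod_cast hd0
      exact_mod_cast this
    obtain ⟨z, hz⟩ : ∃ z : ℕ, z = ⌊η₁ * d⌋₊ := ⟨_, rfl⟩
    have hz1 : (z : ℝ) ≤ η₁ * d := by rw [hz]; exact Nat.floor_le (by positivity)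
    have hz2 : η * d ≤ z := by
      have h1 : η₁ * d < (z : ℝ) + 1 := by rw [hz]; exact Nat.lt_floor_add_one _
      have h2 : η₁ = 2 * η := by rw [hη]; ring
      rw [h2] at h1
      linarith
    have hzM : M.natDegree ≤ z := by
      have : (M.natDegree : ℝ) ≤ z := by linarith
      exact_mod_cast this
    have hzC : C ≤ z := by linarith
    have hz01 : (1 : ℝ) ≤ z := by linarith
    have hz0 : 1 ≤ z := by exact_mod_cast hz01
    obtain ⟨T, hT⟩ : ∃ T : ℕ, T = ⌊θ' * d / 8⌋₊ := ⟨_, rfl⟩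
    have hT1 : (T : ℝ) ≤ θ' * d / 8 := by rw [hT]; exact Nat.floor_le (by positivity)
    have hT2 : θ' * d / 16 ≤ T := by
      have h1 : θ' * d / 8 < (T : ℝ) + 1 := by rw [hT]; exact Nat.lt_floor_add_one _
      linarith
    have hzd : (z : ℝ) ≤ θ' / 16 * d := hz1.trans (mul_le_mul_of_nonneg_right hη₁c hd0.le)
    have hzT : z ≤ T := by
      have : (z : ℝ) ≤ T := by linarith
      exact_mod_cast this
    have hθd : θ' * d ≤ d := by
      have h1 := mul_le_mul_of_nonneg_right hθ'1 hd0.le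
      rwa [one_mul] at h1
    have hTd : T ≤ d := by
      have : (T : ℝ) ≤ d := by linarith
      exact_mod_cast this
    have hzη : (z : ℝ) ≤ η₀ * T := by
      calc (z : ℝ) ≤ η₁ * d := hz1
        _ ≤ η₀ * θ' / 16 * d := mul_le_mul_of_nonneg_right hη₁b hd0.le
        _ = η₀ * (θ' * d / 16) := by ring
        _ ≤ η₀ * T := mul_le_mul_of_nonneg_left hT2 hη₀.le
    have hAz : (A : ℝ) * z ≤ θ' / 16 * d := by
      calc (A : ℝ) * z ≤ A * (η₁ * d) := mul_le_mul_of_nonneg_left hz1 hA0.le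
        _ = A * η₁ * d := by ring
        _ ≤ θ' / 16 * d := mul_le_mul_of_nonneg_right hη₁a hd0.le
    have hlev : ((A * z + 3 * T : ℕ) : ℝ) ≤ θ * d := by
      push_cast
      have : θ' * d ≤ θ * d := mul_le_mul_of_nonneg_right hθ'θ hd0.le
      linarith
    have hlev2 : A * z + 3 * T + M.natDegree ≤ d := by
      have h1 : ((A * z + 3 * T + M.natDegree : ℕ) : ℝ) ≤ d := by
        push_cast
        have : (M.natDegree : ℝ) ≤ z := by exact_mod_cast hzM
        linarith
      exact_mod_cast h1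
    have hz2d : z < d := by
      have h1 : (z : ℝ) < d := by
        have : θ' / 16 * d ≤ 1 / 16 * d := by
          apply mul_le_mul_of_nonneg_right _ hd0.le
          linarith
        linarith
      exact_mod_cast h1
    have hTd2 : T < d := by
      have h1 : (T : ℝ) < d := by linarith
      exact_mod_cast h1
    have hcd : ∀ j, (β j).natDegree < d := e3
    obtain ⟨y, hy01, hysup, hy1, hyopt⟩ := HO z T hz0 hzη
    obtain ⟨R, hRdef⟩ : ∃ R : Fin k → Finset K[X], R = fun _ => Rz K z T := ⟨_, rfl⟩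
    rw [← hRdef] at hyopt
    have hRj : ∀ j, R j = Rz K z T := fun j => by rw [hRdef]
    obtain ⟨Vm, Vp, hBH⟩ := HB z hz0
    have hsumC : ∑ r ∈ Rz K z T, 1 / ph r ≤ 2 * ((T : ℝ) + 1) := by
      refine (HMe2 z T hz0 hzT).2.trans ?_
      rw [div_le_iff₀ (by linarith)]
      have hT0 : (0 : ℝ) ≤ T := Nat.cast_nonneg T
      have h1 : C * (T : ℝ) ≤ z * T := mul_le_mul_of_nonneg_right hzC hT0
      have h2 : (0 : ℝ) ≤ z * T := mul_nonneg (Nat.cast_nonneg z) hT0
      have h3 : 2 * ((T : ℝ) + 1) * z = 2 * (z * T) + 2 * z := by ring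
      rw [h3]
      linarith
    obtain ⟨w, hw⟩ : ∃ w : K[X] → ℝ, w = fun a => wV R y (fun j => α j * a ^ e j + β j) := ⟨_, rfl⟩
    have hw' : ∀ a, w a = wV R y (fun j => α j * a ^ e j + β j) := fun a => by rw [hw]
    -- the pointwise bound
    have hρz : 2 * (T : ℝ) ≤ (Fintype.card K : ℝ) ^ z := by
      have hq2 : (2 : ℝ) ≤ (Fintype.card K : ℝ) := by
        exact_mod_cast (Fintype.one_lt_card (α := K))
      have h1 : (1 : ℝ) ≤ ρ ^ d * (Fintype.card K : ℝ) ^ z := by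
        have h2 : (2 : ℝ) ^ (η * d) ≤ (Fintype.card K : ℝ) ^ z := by
          calc (2 : ℝ) ^ (η * d) ≤ (2 : ℝ) ^ (z : ℝ) :=
                Real.rpow_le_rpow_of_exponent_le (by norm_num) hz2
            _ = (2 : ℝ) ^ z := Real.rpow_natCast _ _
            _ ≤ (Fintype.card K : ℝ) ^ z := pow_le_pow_left₀ (by norm_num) hq2 _
        have h3 : ρ ^ d * (2 : ℝ) ^ (η * d) = (2 : ℝ) ^ (η / 2 * d) := by
          rw [hρ, ← Real.rpow_natCast, ← Real.rpow_mul (by norm_num), ← Real.rpow_add (by norm_num)]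
          congr 1
          ring
        have h4 : (1 : ℝ) ≤ (2 : ℝ) ^ (η / 2 * d) :=
          Real.one_le_rpow (by norm_num) (by positivity)
        calc (1 : ℝ) ≤ ρ ^ d * (2 : ℝ) ^ (η * d) := by rw [h3]; exact h4
          _ ≤ ρ ^ d * (Fintype.card K : ℝ) ^ z := mul_le_mul_of_nonneg_left h2 (pow_pos hρ0 d).le
      have h2 : (T : ℝ) ≤ d := by exact_mod_cast hTd
      have h3 : 2 * (T : ℝ) * ρ ^ d ≤ ρ ^ d * (Fintype.card K : ℝ) ^ z := by
        have h4 : 2 * (T : ℝ) * ρ ^ d ≤ 2 * (d : ℝ) * ρ ^ d := by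
          have := (pow_pos hρ0 d).le
          gcongr
        linarith
      have h5 : ρ ^ d * (2 * (T : ℝ)) ≤ ρ ^ d * (Fintype.card K : ℝ) ^ z := by linarith
      exact le_of_mul_le_mul_left h5 (pow_pos hρ0 d)
    have hsumS : ∑ r ∈ Rz K z T, 1 / ph r ≤ S₀ := by
      refine (HMe2 z T hz0 hzT).2.trans ?_
      rw [hS₀, div_le_div_iff₀ (by linarith) (by positivity)]
      have h1 : C * (T : ℝ) * (8 * η) ≤ C * (θ' * d / 8) * (8 * η) := by gcongr
      have h2 : C * (θ' * d / 8) * (8 * η) = C * θ' * (η * d) := by ring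
      have h3 : C * θ' * (η * d) ≤ C * θ' * z := mul_le_mul_of_nonneg_left hz2 (by positivity)
      linarith
    have hWs : ∀ a ∈ Mn K d, w a ≤ W₀ := by
      intro a ha
      rw [hw', hW₀, hRdef]
      refine Sh.wV_leS hρz hS₀0.le hsumS (fun r => ?_) (by omega) (fun j h => ?_) fun j => ?_
      · rw [abs_of_nonneg (hy01 r).1]
        exact (hy01 r).2
      · have h1 := deg_x (he1 j) (hα j) ha (hcd j)
        have h2 : (α j * a ^ e j + β j).natDegree = 0 := by
          rw [show α j * a ^ e j + β j = 0 from h, natDegree_zero]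
        have h3 : d ≤ e j * d := Nat.le_mul_of_pos_left d (he1 j)
        have : 0 < d := by exact_mod_cast hd0
        omega
      · show (α j * a ^ e j + β j).natDegree ≤ N * z
        rw [deg_x (he1 j) (hα j) ha (hcd j)]
        have h1 : ((e j * d + (α j).natDegree : ℕ) : ℝ) ≤ ((N * z : ℕ) : ℝ) := by
          push_cast
          have h2 : ((α j).natDegree : ℝ) ≤ d := by exact_mod_cast (e3' j).le
          have h3 : (e j : ℝ) ≤ 2 := by exact_mod_cast he2 j
          have h4 : (e j : ℝ) * d ≤ 2 * d := mul_le_mul_of_nonneg_right h3 hd0.le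
          have h5 : 3 / η ≤ (N : ℝ) := by rw [hN]; exact Nat.le_ceil _
          have h6 : 3 / η * (η * d) ≤ N * z :=
            mul_le_mul h5 hz2 (by positivity) (Nat.cast_nonneg _)
          have h7 : 3 / η * (η * d) = 3 * d := by field_simp
          linarith
        exact_mod_cast h1
    -- the full weights
    obtain ⟨ι, I, E, cc, φ, hRW, -, hrwt, -, hQf⟩ := H2 d z T R y e2 hz2 hzT hTd
      (fun j => Or.inl (hRj j))
      (fun r _ => by
        rw [abs_of_nonneg (hy01 r).1]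
        have : (0 : ℝ) ≤ T := Nat.cast_nonneg T
        linarith [(hy01 r).2])
      (fun r _ h => hysup r h)
    have hone := (hO K κ M (bx e α β G) (rx e α β G) a₀ d z
      A (3 * T) _ Vm Vp ι I E cc φ hMm hLg hzM hBH hlev2 hRW).2
    have hone' : ∑ a ∈ Rx K e α β G M a₀ d z, w a ≤
        (Fintype.card K : ℝ) ^ d / m₀ * (2 * VR M z (rx e α β G) * QQ I E φ) := by
      rw [← hm₀] at hone
      refine le_trans (le_of_eq ?_) hone
      unfold Rx
      exact Finset.sum_congr rfl fun a _ => by rw [hw', hrwt a]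
    have hQf' : QQ I E φ ≤ dia R y + er K z := by
      have := (abs_le.1 hQf).2
      linarith
    -- the weights for the primes
    have hper : ∀ i : Fin k, ∃ qi : ℝ, |qi - dia (Function.update R i {1}) (yr i R y)| ≤ er K z ∧
        (Fintype.card K : ℝ) ^ d / (m₀ * p) * (VR M z (fun P => rx e α β G P - 1) * qi / 4 -
          ((d : ℝ) ^ (5 * k + 5) + 1) * er K z) ≤ 3 * (d : ℝ) *
          ∑ a ∈ (Ac K d M a₀).filter (fun a => Irreducible (α i * a ^ e i + β i) ∧
            ∀ P ∈ PS K M z, ¬ bxi e α β G i P a), w a := by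
      intro i
      have hyr : ∀ r, |yr i R y r| ≤ 2 * ((T : ℝ) + 1) := by
        intro r
        unfold yr
        refine (Finset.abs_sum_le_sum_abs _ _).trans ?_
        refine le_trans (Finset.sum_le_sum fun s _ => ?_) (by rw [hRj i]; exact hsumC)
        rw [abs_div, abs_of_pos (ph_pos (r := s)), abs_of_nonneg (hy01 _).1]
        have := ph_pos (r := s)
        gcongr
        exact (hy01 _).2
      have hRi : Function.update R i {1} i = {1} := by rw [Function.update_self]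
      obtain ⟨ι', I', E', cc', φ', hRW', hcop', hrwt', -, hQ'⟩ := H2 d z T
        (Function.update R i {1}) (yr i R y) e2 hz2 hzT hTd
        (fun j => by
          by_cases hij : j = i
          · subst hij
            right
            exact hRi
          · left
            rw [Function.update_of_ne hij]
            exact hRj j)
        (fun r _ => hyr r)
        (fun r hr h => by
          unfold yr
          refine Finset.sum_eq_zero fun s _ => ?_
          rw [hysup, zero_div]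
          have hri : r i = 1 := by
            have h1 := Fintype.mem_piFinset.1 hr i
            rw [hRi, Finset.mem_singleton] at h1
            exact h1
          refine lt_of_lt_of_le h ?_
          refine Finset.sum_le_sum fun j _ => ?_
          by_cases hij : j = i
          · subst hij
            rw [hri, natDegree_one]
            exact Nat.zero_le _
          · rw [Function.update_of_ne hij])
      refine ⟨QQ I' E' φ', hQ', ?_⟩
      have h1 := H1 i a₀ d z A (3 * T) _ Vm Vp ι' I' E' cc' φ' (ha₀ i) (e1 i) hA hBH hz2 hlev hRW'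
        (hcop' i hRi)
      rw [← hm₀, ← hp] at h1
      refine h1.trans ?_
      have h3 : ∑ a ∈ (Ac K d M a₀).filter (fun a => Irreducible (α i * a ^ e i + β i) ∧
            ∀ P ∈ PS K M z, ¬ bxi e α β G i P a), rwt I' E' cc' φ' a =
          ∑ a ∈ (Ac K d M a₀).filter (fun a => Irreducible (α i * a ^ e i + β i) ∧
            ∀ P ∈ PS K M z, ¬ bxi e α β G i P a), w a := by
        refine Finset.sum_congr rfl fun a ha => ?_
        rw [Finset.mem_filter] at ha
        rw [hrwt' a, hw']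
        refine (hR K k i R y (fun j => α j * a ^ e j + β j) T
          (fun j => by rw [hRj j]; exact dc_Rz z T) (fun j r hr => ?_)
          ha.2.1 ?_ (by rw [hRj i]; exact one_mem_Rz z T)).symm
        · rw [hRj j, mem_Rz] at hr
          exact hr.2.1
        · show T < (α i * a ^ e i + β i).natDegree
          rw [deg_x (he1 i) (hα i) (Finset.mem_filter.1 ha.1).1 (hcd i)]
          have : d ≤ e i * d := Nat.le_mul_of_pos_left d (he1 i)
          omega
      rw [h3]
      refine mul_le_mul_of_nonneg_right ?_ (Finset.sum_nonneg fun a _ => ?_)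
      · have h4 : ((α i).natDegree : ℝ) ≤ d := by exact_mod_cast (e3' i).le
        have h5 : (e i : ℝ) ≤ 2 := by exact_mod_cast he2 i
        have h6 : (e i : ℝ) * d ≤ 2 * d := mul_le_mul_of_nonneg_right h5 hd0.le
        linarith
      · rw [hw']
        exact wV_nonneg _ _ _
    choose qi hqi1 hqi2 using hper
    obtain ⟨V, hV⟩ : ∃ V : ℝ, V = VR M z (rx e α β G) := ⟨_, rfl⟩
    obtain ⟨V', hV'⟩ : ∃ V' : ℝ, V' = VR M z (fun P => rx e α β G P - 1) := ⟨_, rfl⟩
    have hMP' : ∀ P : K[X], P.Monic → Irreducible P → ¬ P ∣ M →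
        16 * (κ + 2) ≤ Fintype.card K ^ P.natDegree := hLg.big
    have hprod0 : 0 < ∏ P ∈ PU K z, (1 - 1 / (Fintype.card K : ℝ) ^ P.natDegree) := by
      refine Finset.prod_pos fun P hP => ?_
      have h1 := one_lt_x (K := K) (mem_PU.1 hP).2.1
      rw [sub_pos, div_lt_one (by linarith)]
      exact h1
    have hVlow : (1 / (C * d)) ^ (2 * κ) ≤ V := by
      rw [hV]
      refine le_trans ?_ (VRg_lower hLg.bd hMP')
      refine pow_le_pow_left₀ (by positivity) ?_ _
      have h1 := (HMe1 z hz0).2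
      rw [Finset.prod_inv_distrib] at h1
      rw [div_le_iff₀ (by positivity)]
      have h2 : C * z ≤ C * d := by
        have : (z : ℝ) ≤ d := by exact_mod_cast hzT.trans hTd
        gcongr
      have h3 : (∏ P ∈ PU K z, (1 - 1 / (Fintype.card K : ℝ) ^ P.natDegree)) *
          (∏ P ∈ PU K z, (1 - 1 / (Fintype.card K : ℝ) ^ P.natDegree))⁻¹ = 1 :=
        mul_inv_cancel₀ hprod0.ne'
      exact le_of_eq_of_le h3.symm (mul_le_mul_of_nonneg_left (h1.trans h2) hprod0.le)
    have hV0 : 0 < V := lt_of_lt_of_le (by positivity) hVlow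
    have hV1 : V ≤ 1 := by rw [hV]; exact VRg_le_one hLg.bd hMP'
    have hV'1 : V' ≤ 1 := by
      rw [hV']
      exact VRg_le_one (κ := κ) (fun P => (Nat.sub_le _ _).trans (hLg.bd P)) hMP'
    have hcomp : (z : ℝ) * p * V ≤ V' := by
      rw [hV, hV', hp]
      exact VRg_comp hLg.bd hMm hzM (fun P h1 h2 h3 => rx_pos he hMC ⟨0, hk⟩ h1 h2 h3) hMP'
        (HMe1 z hz0).1
    have hV'0 : 0 ≤ V' := by
      refine le_trans ?_ hcomp
      have := hp0.1
      positivity
    have her0 : 0 ≤ er K z := by unfold er; positivity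
    have herρ : er K z ≤ ρ ^ d := by rw [hρ]; exact er_le hz2
    obtain ⟨X₀, hX₀⟩ : ∃ X₀ : ℝ, X₀ = (d : ℝ) ^ (5 * k + 5) := ⟨_, rfl⟩
    have hX₀1 : (d : ℝ) ≤ X₀ := by
      rw [hX₀]
      exact le_self_pow₀ hd1 (by omega)
    have hk0 : (0 : ℝ) ≤ k := Nat.cast_nonneg k
    have hmm : (0 : ℝ) ≤ m := Nat.cast_nonneg m
    have hX₁ : (1 : ℝ) ≤ X₀ := hd1.trans hX₀1
    have h8 : (6 * (d : ℝ) * m + k * (X₀ + 2) / p) * er K z ≤ V * d / 2 := by
      have hp' := hp0.1
      have g1 : 6 * (d : ℝ) * m + k * (X₀ + 2) / p ≤ (6 * m + 3 * k / p) * X₀ := by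
        have h1 : 6 * (d : ℝ) * m ≤ 6 * m * X₀ := by
          have h := mul_le_mul_of_nonneg_left hX₀1 hmm
          linarith
        have h2 : (k : ℝ) * (X₀ + 2) / p ≤ 3 * k / p * X₀ := by
          rw [div_mul_eq_mul_div]
          refine div_le_div_of_nonneg_right ?_ hp'.le
          have h := mul_le_mul_of_nonneg_left hX₁ hk0
          linarith
        have h3 : (6 * (m : ℝ) + 3 * k / p) * X₀ = 6 * m * X₀ + 3 * k / p * X₀ := by ring
        rw [h3]
        linarith
      have g2 : (6 * m + 3 * k / p) * X₀ * ρ ^ d ≤ (1 / (C * d)) ^ (2 * κ) * d / 2 := by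
        rw [div_pow, one_pow, mul_pow]
        have hCd : 0 < C ^ (2 * κ) * (d : ℝ) ^ (2 * κ) := by positivity
        have e : 1 / (C ^ (2 * κ) * (d : ℝ) ^ (2 * κ)) * d / 2 =
            d / (2 * (C ^ (2 * κ) * (d : ℝ) ^ (2 * κ))) := by field_simp
        rw [e, le_div_iff₀ (by positivity)]
        have e' : (6 * m + 3 * k / p) * X₀ * ρ ^ d * (2 * (C ^ (2 * κ) * (d : ℝ) ^ (2 * κ))) =
            c₄ * ((d : ℝ) ^ (5 * k + 5 + 2 * κ) * ρ ^ d) := by
          rw [hc₄, hX₀, pow_add (d : ℝ) (5 * k + 5)]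
          ring
        rw [e']
        have h3 : c₄ * ((d : ℝ) ^ (5 * k + 5 + 2 * κ) * ρ ^ d) ≤ c₄ * (1 / (c₄ + 1)) :=
          mul_le_mul_of_nonneg_left e6.le hc₄0
        have h4 : c₄ * (1 / (c₄ + 1)) ≤ 1 := by
          rw [mul_one_div, div_le_one (by positivity)]
          linarith
        linarith
      have hpos : 0 ≤ (6 * (m : ℝ) + 3 * k / p) * X₀ := by positivity
      calc (6 * (d : ℝ) * m + k * (X₀ + 2) / p) * er K z ≤
            ((6 * m + 3 * k / p) * X₀) * er K z := mul_le_mul_of_nonneg_right g1 her0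
        _ ≤ ((6 * m + 3 * k / p) * X₀) * ρ ^ d := mul_le_mul_of_nonneg_left herρ hpos
        _ ≤ (1 / (C * d)) ^ (2 * κ) * d / 2 := g2
        _ ≤ V * d / 2 := by gcongr
    have h7 : (6 * (m : ℝ) + 1) * d ≤ Λ * T / 4 := by
      rw [hΛ]
      have h1 : (6 * (m : ℝ) + 1) * d = 64 * (6 * m + 1) / θ' * (θ' * d / 16) / 4 := by
        field_simp
        ring
      rw [h1]
      gcongr
    have key := fin_ineqg (Q := (Fintype.card K : ℝ) ^ d) (m₀ := m₀) (P := p) (V := V) (V' := V')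
      (e := er K z) (B := X₀) (Wm := W₀) (Ds := dia R y) (Λ := Λ) (T := (T : ℝ)) (z := (z : ℝ))
      (d := (d : ℝ)) (m := (m : ℝ)) (k := (k : ℝ)) (W := ∑ a ∈ Rx K e α β G M a₀ d z, w a)
      (Nn := (((Rx K e α β G M a₀ d z).filter (fun a => m ≤ nx e α β a)).card : ℝ))
      (SS := ∑ i : Fin k, ∑ a ∈ (Ac K d M a₀).filter (fun a => Irreducible (α i * a ^ e i + β i) ∧
            ∀ P ∈ PS K M z, ¬ bxi e α β G i P a), w a)
      (sQ := ∑ i, qi i) (qf := QQ I E φ)
      (pow_pos hq0 d) hm₀0 hp0.1 hV0.le hV1 hV'0 hV'1 her0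
      (by rw [hRdef]; exact one_le_dia z T y hy1) (by linarith) hd0 hmm hk0
      (by
        have h1 := Finset.sum_le_sum fun (i : Fin k) (_ : i ∈ Finset.univ) => hqi2 i
        rw [← Finset.mul_sum, ← Finset.mul_sum, Finset.sum_sub_distrib, Finset.sum_const,
          Finset.card_univ, Fintype.card_fin, nsmul_eq_mul, ← hV', ← hX₀, ← Finset.sum_div,
          ← Finset.mul_sum] at h1
        refine le_trans (le_of_eq ?_) h1
        ring)
      (by
        refine le_trans (sub_le_sub_right hyopt _) ?_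
        have h1 : ∑ i : Fin k, (dia (Function.update R i {1}) (yr i R y) - er K z) ≤ ∑ i, qi i :=
          Finset.sum_le_sum fun i _ => by
            have := (abs_le.1 (hqi1 i)).1
            linarith
        rw [Finset.sum_sub_distrib, Finset.sum_const, Finset.card_univ, Fintype.card_fin,
          nsmul_eq_mul] at h1
        exact h1)
      (sum_bdx he hα hcd hz2d w (fun a => by rw [hw']; exact wV_nonneg _ _ _)
        hWs)
      (by rw [hV]; exact hone') hQf' hcomp h7 h8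
    obtain ⟨Nn, hNn⟩ : ∃ Nn : ℝ, Nn = (((Rx K e α β G M a₀ d z).filter
      (fun a => m ≤ nx e α β a)).card : ℝ) := ⟨_, rfl⟩
    rw [← hNn] at key
    have hsub : Nn ≤ (((Mn K d).filter (fun a =>
        m ≤ (Finset.univ.filter (fun j => Irreducible (α j * a ^ e j + β j))).card ∧
        ∀ P : K[X], Irreducible P → P ∣ F.eval a → η * d ≤ P.natDegree)).card : ℝ) := by
      rw [hNn]
      have h1 : (Rx K e α β G M a₀ d z).filter (fun a => m ≤ nx e α β a) ⊆ (Mn K d).filter (fun a =>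
          m ≤ (Finset.univ.filter (fun j => Irreducible (α j * a ^ e j + β j))).card ∧
          ∀ P : K[X], Irreducible P → P ∣ F.eval a → η * d ≤ P.natDegree) := by
        intro a ha
        rw [Finset.mem_filter] at ha ⊢
        refine ⟨(Finset.mem_filter.1 (Finset.mem_filter.1 ha.1).1).1, ha.2, fun P hI hP => ?_⟩
        have hb : bx e α β G P a := by
          rw [hF] at hP
          rcases hI.prime.dvd_or_dvd hP with h | h
          · exact Or.inr h
          · obtain ⟨j, -, hj⟩ := (Prime.dvd_finsetProd_iff hI.prime _).1 h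
            exact Or.inl ⟨j, hj⟩
        have h2 := Rx_good hG₀ ha₀ ha.1 hI hb
        have h3 : (z : ℝ) < P.natDegree := by exact_mod_cast h2
        linarith
      exact_mod_cast Finset.card_le_card h1
    refine le_trans ?_ hsub
    have hdn : Sh.dn F d ≤ V := by
      rw [hV]
      exact Sh.dn_le (hzT.trans hTd) fun P _ hI _ => Sh.rx_om hF hI
    obtain ⟨Q, hQ⟩ : ∃ Q : ℝ, Q = (Fintype.card K : ℝ) ^ d := ⟨_, rfl⟩
    have hQ0 : 0 < Q := by rw [hQ]; exact pow_pos hq0 d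
    rw [← hQ] at key ⊢
    have k1 : Q * V ≤ 6 * m₀ * k * W₀ * Nn := by
      have h1 : Q / m₀ * (V * d / 2) = Q * V * d / (2 * m₀) := by field_simp
      rw [h1, div_le_iff₀ (by positivity)] at key
      have h2 : Q * V * d ≤ (6 * m₀ * k * W₀ * Nn) * d := by
        refine key.trans (le_of_eq ?_)
        ring
      exact le_of_mul_le_mul_right h2 hd0
    calc 1 / (6 * m₀ * k * W₀) * Q * Sh.dn F d ≤ 1 / (6 * m₀ * k * W₀) * Q * V :=
          mul_le_mul_of_nonneg_left hdn (by positivity)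
      _ = Q * V / (6 * m₀ * k * W₀) := by field_simp
      _ ≤ Nn := by
          rw [div_le_iff₀ (by positivity)]
          refine k1.trans (le_of_eq ?_)
          ring
  obtain ⟨d₀, hd₀⟩ := eventually_atTop.1 hfin
  exact ⟨η, 1 / (6 * m₀ * k * W₀), d₀, hη0, by positivity, hd₀⟩

end Pool.Agent.H524.MT
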