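import Mathlib
import Pool.Agent.H524.MT.ConvM
import Pool.Agent.H524.MT.MxQ

/-!
# The quantitative theorem in terms of irreducible polynomials, and bounded gaps `q ^ (B m)`
-/

set_option autoImplicit false

namespace Pool.Agent.H524.MT

open Polynomial
open scoped Classical
open Pool.Agent.H694.Typ (Mn PU mem_Mn mem_PU card_Mn)
open Conv

/-- The theorem in terms of the irreducible polynomials, for all `k ≥ exp (A (m + 1))`. -/
theorem mayfq (hM : S_maysq) (K : Type) [Field K] [Fintype K] [CharP K 2] :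
    ∃ A : ℝ, ∀ m k : ℕ, Real.exp (A * (m + 1)) ≤ k → ∀ f : Fin k → K[X][X],
      (∀ j, Irreducible (f j) ∧ ((f j).natDegree = 1 ∨ (f j).natDegree = 2 ∧ derivative (f j) = 0)) →
      (∀ i j, i ≠ j → ¬ Associated (f i) (f j)) → ∀ G : K[X][X],
      (∀ P : K[X], Irreducible P → ∃ a : K[X], ¬ P ∣ (G * ∏ j, f j).eval a) →
      ∃ (δ c : ℝ) (d₀ : ℕ), 0 < δ ∧ 0 < c ∧ ∀ d : ℕ, d₀ ≤ d →
        c * (Fintype.card K : ℝ) ^ d * Sh.dn (G * ∏ j, f j) d ≤
          ({a : K[X] | a.Monic ∧ a.natDegree = d ∧ m ≤ {j | Irreducible ((f j).eval a)}.ncard ∧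
            ∀ P : K[X], Irreducible P → P ∣ (G * ∏ j, f j).eval a →
              δ * d ≤ P.natDegree}.ncard : ℝ) := by
  obtain ⟨A, -, HA⟩ := hM K
  refine ⟨A, fun m k hk f hf hne G hadm => ?_⟩
  have H := HA m k hk
  have hex : ∀ j, ∃ (e : ℕ) (α β : K[X]), f j = C α * X ^ e + C β ∧ AF e α β := by
    intro j
    rcases (hf j).2 with h | ⟨h, h'⟩
    · exact ⟨1, _, _, lin (hf j).1 h⟩
    · exact ⟨2, _, _, quad (hf j).1 h h'⟩
  choose e α β hform hAF using hex
  have hev : ∀ j a, (f j).eval a = α j * a ^ e j + β j := by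
    intro j a
    rw [hform j]
    simp
  obtain ⟨δ, c, d₀, hδ, hc, H1⟩ := H e α β G (G * ∏ j, f j) hAF (fun i j hij hee h => by
      apply hne i j hij
      rw [hform i, hform j, hee]
      exact assoc (hAF i).1 (hAF j).1 (hAF i).2.1 (hAF j).2.1 h)
    (fun a => by
      rw [eval_mul, eval_prod]
      simp only [hev]) hadm
  refine ⟨δ, c, d₀, hδ, hc, fun d hd => (H1 d hd).trans ?_⟩
  rw [← Set.ncard_coe_finset]
  have hfin : {a : K[X] | a.Monic ∧ a.natDegree = d ∧ m ≤ {j | Irreducible ((f j).eval a)}.ncard ∧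
      ∀ P : K[X], Irreducible P → P ∣ (G * ∏ j, f j).eval a → δ * d ≤ P.natDegree}.Finite := by
    refine (Mn K d).finite_toSet.subset fun a ha => ?_
    exact Finset.mem_coe.2 (mem_Mn.2 ⟨ha.1, ha.2.1⟩)
  have h1 := Set.ncard_le_ncard (s := (((Mn K d).filter (fun a =>
            m ≤ (Finset.univ.filter (fun j => Irreducible (α j * a ^ e j + β j))).card ∧
            ∀ P : K[X], Irreducible P → P ∣ (G * ∏ j, f j).eval a →
              δ * d ≤ P.natDegree) : Finset K[X]) : Set K[X])) (t := {a : K[X] | a.Monic ∧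
      a.natDegree = d ∧ m ≤ {j | Irreducible ((f j).eval a)}.ncard ∧
      ∀ P : K[X], Irreducible P → P ∣ (G * ∏ j, f j).eval a →
        δ * d ≤ P.natDegree}) (fun a ha => by
    rw [Finset.mem_coe, Finset.mem_filter, mem_Mn] at ha
    obtain ⟨⟨h1, h2⟩, h3, h4⟩ := ha
    refine ⟨h1, h2, ?_, h4⟩
    refine h3.trans (le_of_eq ?_)
    rw [← Set.ncard_coe_finset]
    congr 1
    ext j
    simp [hev]) hfin
  exact_mod_cast h1

namespace GapQ

variable {K : Type} [Field K] [Fintype K]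

/-- The monic representative of the class of `h` modulo `P`. -/
noncomputable def rep (P h : K[X]) : K[X] := P + h %ₘ P

theorem rep_mem {P : K[X]} (hP : P.Monic) (h : K[X]) : rep P h ∈ Mn K P.natDegree := by
  have h1 : (h %ₘ P).degree < P.degree := degree_modByMonic_lt h hP
  rw [mem_Mn]
  unfold rep
  exact ⟨hP.add_of_left h1, natDegree_add_eq_left_of_degree_lt h1⟩

theorem rep_eq {P : K[X]} (hP : P.Monic) {h u : K[X]} (hu : u ∈ Mn K P.natDegree)
    (hd : P ∣ h - u) : rep P h = u := by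
  rw [mem_Mn] at hu
  have h1 : (u - P).degree < P.degree := by
    have h2 : (u - P).degree < u.degree := by
      apply degree_sub_lt
      · rw [degree_eq_natDegree hu.1.ne_zero, degree_eq_natDegree hP.ne_zero, hu.2]
      · exact hu.1.ne_zero
      · rw [hu.1.leadingCoeff, hP.leadingCoeff]
    rwa [degree_eq_natDegree hu.1.ne_zero, hu.2, ← degree_eq_natDegree hP.ne_zero] at h2
  obtain ⟨g, hg⟩ := hd
  have h2 : h %ₘ P = u - P := by
    have h3 : h = (u - P) + P * (g + 1) := by linear_combination hg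
    exact (div_modByMonic_unique (g + 1) (u - P) hP ⟨h3.symm, h1⟩).2
  unfold rep
  rw [h2]
  ring

/-- Removing one residue class for every prime. -/
theorem greedy (s : Finset K[X]) (hs : ∀ P ∈ s, P.Monic ∧ 0 < P.natDegree) (H₀ : Finset K[X]) :
    ∃ H ⊆ H₀, (∀ P ∈ s, ∃ u : K[X], ∀ h ∈ H, ¬ P ∣ h - u) ∧
      (H₀.card : ℝ) * ∏ P ∈ s, (1 - 1 / (Fintype.card K : ℝ) ^ P.natDegree) ≤ H.card := by
  induction s using Finset.induction_on with
  | empty => exact ⟨H₀, subset_rfl, by simp, by simp⟩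
  | insert P s hPs ih =>
    obtain ⟨H, hH, h1, h2⟩ := ih fun Q hQ => hs Q (Finset.mem_insert_of_mem hQ)
    obtain ⟨hP, hP0⟩ := hs P (Finset.mem_insert_self _ _)
    have hq : (0 : ℝ) < (Fintype.card K : ℝ) ^ P.natDegree :=
      pow_pos (by exact_mod_cast Fintype.card_pos (α := K)) _
    have hcard : ((Mn K P.natDegree).card : ℝ) = (Fintype.card K : ℝ) ^ P.natDegree := by
      rw [card_Mn]; push_cast; rfl
    obtain ⟨y, hy, hy1⟩ := Finset.exists_card_fiber_le_of_card_le_nsmul (s := H)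
      (t := Mn K P.natDegree) (f := rep P)
      (b := (H.card : ℝ) / (Fintype.card K : ℝ) ^ P.natDegree)
      ⟨P, mem_Mn.2 ⟨hP, rfl⟩⟩ (by
        rw [nsmul_eq_mul, hcard, mul_div_cancel₀ _ hq.ne'])
    refine ⟨H.filter (fun h => rep P h ≠ y), (Finset.filter_subset _ _).trans hH, ?_, ?_⟩
    · intro Q hQ
      rcases Finset.mem_insert.1 hQ with rfl | hQ
      · refine ⟨y, fun h hh hd => ?_⟩
        exact (Finset.mem_filter.1 hh).2 (rep_eq hP hy hd)
      · obtain ⟨u, hu⟩ := h1 Q hQ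
        exact ⟨u, fun h hh => hu h (Finset.mem_filter.1 hh).1⟩
    · rw [Finset.prod_insert hPs]
      have h3 := Finset.card_filter_add_card_filter_not (s := H) (fun h => rep P h = y)
      have h4 : ((H.filter (fun h => rep P h = y)).card : ℝ) +
          (H.filter (fun h => rep P h ≠ y)).card = H.card := by exact_mod_cast h3
      have h5 : (0 : ℝ) ≤ 1 - 1 / (Fintype.card K : ℝ) ^ P.natDegree := by
        rw [sub_nonneg, div_le_one hq]
        exact one_le_pow₀ (by exact_mod_cast Fintype.card_pos (α := K))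
      calc (H₀.card : ℝ) * ((1 - 1 / (Fintype.card K : ℝ) ^ P.natDegree) *
            ∏ P ∈ s, (1 - 1 / (Fintype.card K : ℝ) ^ P.natDegree))
          = (1 - 1 / (Fintype.card K : ℝ) ^ P.natDegree) * ((H₀.card : ℝ) *
            ∏ P ∈ s, (1 - 1 / (Fintype.card K : ℝ) ^ P.natDegree)) := by ring
        _ ≤ (1 - 1 / (Fintype.card K : ℝ) ^ P.natDegree) * H.card :=
            mul_le_mul_of_nonneg_left h2 h5
        _ = H.card - H.card / (Fintype.card K : ℝ) ^ P.natDegree := by ring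
        _ ≤ _ := by linarith

/-- A class which contains none of the `k` given polynomials, for a large prime. -/
theorem large {k : ℕ} (h : Fin k → K[X]) {P : K[X]} (hP : P.Monic)
    (hk : k < Fintype.card K ^ P.natDegree) : ∃ u : K[X], ∀ j, ¬ P ∣ h j - u := by
  by_contra hcon
  push Not at hcon
  choose j hj using hcon
  have h1 : Set.InjOn j (Mn K P.natDegree : Finset K[X]) := by
    intro u hu v hv huv
    have h2 := rep_eq hP hu (hj u)
    have h3 := rep_eq hP hv (hj v)
    rw [← h2, ← h3, huv]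
  have h2 := Finset.card_le_card_of_injOn j (fun u _ => Finset.mem_coe.2 (Finset.mem_univ (j u))) h1
  rw [card_Mn, Finset.card_univ, Fintype.card_fin] at h2
  omega

/-- An admissible tuple of small degree. -/
theorem tuple (C : ℝ) (k w D : ℕ) (hw : 1 ≤ w) (hkw : k < 2 ^ w)
    (hC : ∏ P ∈ PU K w, (1 - 1 / (Fintype.card K : ℝ) ^ P.natDegree)⁻¹ ≤ C * w)
    (hD : (k : ℝ) * (C * w) ≤ (Fintype.card K : ℝ) ^ D) :
    ∃ h : Fin k → K[X], Function.Injective h ∧ (∀ j, (h j).Monic ∧ (h j).natDegree = D) ∧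
      ∀ P : K[X], Irreducible P → ∃ u : K[X], ∀ j, ¬ P ∣ h j - u := by
  obtain ⟨H, hH, h1, h2⟩ := greedy (PU K w) (fun P hP => ⟨(mem_PU.1 hP).1,
    (mem_PU.1 hP).2.1.natDegree_pos⟩) (Mn K D)
  have hpos : 0 < ∏ P ∈ PU K w, (1 - 1 / (Fintype.card K : ℝ) ^ P.natDegree) := by
    refine Finset.prod_pos fun P hP => ?_
    have h3 : (1 : ℝ) < (Fintype.card K : ℝ) ^ P.natDegree :=
      one_lt_pow₀ (by exact_mod_cast Fintype.one_lt_card) (mem_PU.1 hP).2.1.natDegree_pos.ne'
    rw [sub_pos, div_lt_one (by linarith)]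
    exact h3
  have hkH : k ≤ H.card := by
    have h3 : (k : ℝ) ≤ H.card := by
      refine le_trans ?_ h2
      rw [card_Mn]
      push_cast
      rw [Finset.prod_inv_distrib] at hC
      have h4 : 1 ≤ (C * w) * ∏ P ∈ PU K w, (1 - 1 / (Fintype.card K : ℝ) ^ P.natDegree) := by
        calc (1 : ℝ) = (∏ P ∈ PU K w, (1 - 1 / (Fintype.card K : ℝ) ^ P.natDegree))⁻¹ *
              ∏ P ∈ PU K w, (1 - 1 / (Fintype.card K : ℝ) ^ P.natDegree) :=
            (inv_mul_cancel₀ hpos.ne').symm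
          _ ≤ _ := mul_le_mul_of_nonneg_right hC hpos.le
      calc (k : ℝ) = k * 1 := by ring
        _ ≤ k * ((C * w) * ∏ P ∈ PU K w, (1 - 1 / (Fintype.card K : ℝ) ^ P.natDegree)) :=
            mul_le_mul_of_nonneg_left h4 (Nat.cast_nonneg k)
        _ = (k * (C * w)) * ∏ P ∈ PU K w, (1 - 1 / (Fintype.card K : ℝ) ^ P.natDegree) := by ring
        _ ≤ _ := mul_le_mul_of_nonneg_right hD hpos.le
    exact_mod_cast h3
  obtain ⟨H', hH', hcard⟩ := Finset.exists_subset_card_eq hkH
  have e := (Finset.equivFinOfCardEq hcard).symm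
  have hmem : ∀ j, ((e j : H') : K[X]) ∈ H := fun j => hH' (e j).2
  refine ⟨fun j => ((e j : H') : K[X]), fun i j hij => e.injective (Subtype.ext hij), fun j => ?_,
    fun P hI => ?_⟩
  · exact mem_Mn.1 (hH (hmem j))
  · have g1 : (normalize P).Monic := monic_normalize hI.ne_zero
    have g2 : Irreducible (normalize P) := (normalize_associated P).symm.irreducible hI
    have g3 : ∀ a : K[X], P ∣ a → normalize P ∣ a := fun a ha => normalize_dvd_iff.2 ha
    have key : ∃ u : K[X], ∀ j, ¬ normalize P ∣ ((e j : H') : K[X]) - u := by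
      by_cases hd : (normalize P).natDegree ≤ w
      · obtain ⟨u, hu⟩ := h1 _ (mem_PU.2 ⟨g1, g2, hd⟩)
        exact ⟨u, fun j => hu _ (hmem j)⟩
      · refine large _ g1 (hkw.trans_le ?_)
        rw [not_le] at hd
        calc 2 ^ w ≤ 2 ^ (normalize P).natDegree := Nat.pow_le_pow_right (by norm_num) hd.le
          _ ≤ Fintype.card K ^ (normalize P).natDegree :=
            Nat.pow_le_pow_left Fintype.one_lt_card _
    obtain ⟨u, hu⟩ := key
    exact ⟨u, fun j hj => hu j (g3 _ hj)⟩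

end GapQ

end Pool.Agent.H524.MT
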