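import Mathlib
import Pool.Agent.H524.MT.GapQ
import Pool.Agent.H524.MT.Gap

/-!
# Bounded gaps `q ^ (B m)` for the prime values of linear and inseparable quadratic polynomials
-/

set_option autoImplicit false

namespace Pool.Agent.H524.MT

open Polynomial
open scoped Classical
open Pool.Agent.H694.Typ (Mn PU mem_Mn mem_PU card_Mn)
open Conv

namespace GapQ

/-- The sizes of the parameters. -/
theorem sizes (A C : ℝ) (hA : 0 < A) (hC : 1 ≤ C) : ∃ B : ℕ, ∀ m : ℕ, 1 ≤ m → ∀ q : ℝ, 2 ≤ q →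
    ∃ k w D : ℕ, Real.exp (A * (m + 1)) ≤ k ∧ 1 ≤ w ∧ k < 2 ^ w ∧ (k : ℝ) * (C * w) ≤ q ^ D ∧
      D ≤ B * m := by
  obtain ⟨c₁, hc₁⟩ : ∃ c₁ : ℕ, c₁ = ⌈C⌉₊ := ⟨_, rfl⟩
  obtain ⟨a, ha⟩ : ∃ a : ℕ, a = ⌈A⌉₊ := ⟨_, rfl⟩
  have hCc : C ≤ c₁ := by rw [hc₁]; exact Nat.le_ceil _
  have hAa : A ≤ a := by rw [ha]; exact Nat.le_ceil _
  refine ⟨6 + c₁ + 8 * a, fun m hm q hq => ?_⟩
  obtain ⟨k, hk⟩ : ∃ k : ℕ, k = ⌈Real.exp (A * (m + 1))⌉₊ := ⟨_, rfl⟩
  have hk1 : Real.exp (A * (m + 1)) ≤ k := by rw [hk]; exact Nat.le_ceil _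
  have hm0 : (1 : ℝ) ≤ m := by exact_mod_cast hm
  have he1 : (1 : ℝ) ≤ Real.exp (A * (m + 1)) := by
    rw [← Real.exp_zero]
    exact Real.exp_le_exp.2 (by positivity)
  have hk2 : (k : ℝ) ≤ 2 * Real.exp (A * (m + 1)) := by
    have h1 : (k : ℝ) < Real.exp (A * (m + 1)) + 1 := by
      rw [hk]; exact Nat.ceil_lt_add_one (Real.exp_pos _).le
    linarith
  have hk0 : k ≠ 0 := by
    rintro rfl
    rw [Nat.cast_zero] at hk1
    linarith
  obtain ⟨x, hx⟩ : ∃ x : ℕ, x = Nat.log 2 k := ⟨_, rfl⟩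
  have hx1 : 2 ^ x ≤ k := by rw [hx]; exact Nat.pow_log_le_self 2 hk0
  have hx2 : k < 2 ^ (x + 1) := by rw [hx]; exact Nat.lt_pow_succ_log_self (by norm_num) k
  have hhalf : Real.exp (1 / 2) ≤ 2 := by
    by_contra hcon
    rw [not_le] at hcon
    have h1 : Real.exp (1 / 2) ^ 2 = Real.exp 1 := by
      rw [← Real.exp_nat_mul]
      norm_num
    have h2 := Real.exp_one_lt_d9
    nlinarith
  have hx3 : (x : ℝ) ≤ 2 + 2 * (A * (m + 1)) := by
    have h1 : Real.exp ((x : ℝ) * (1 / 2)) ≤ Real.exp (1 + A * (m + 1)) := by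
      calc Real.exp ((x : ℝ) * (1 / 2)) = Real.exp (1 / 2) ^ x := Real.exp_nat_mul _ _
        _ ≤ 2 ^ x := pow_le_pow_left₀ (Real.exp_pos _).le hhalf _
        _ ≤ k := by exact_mod_cast hx1
        _ ≤ 2 * Real.exp (A * (m + 1)) := hk2
        _ ≤ Real.exp 1 * Real.exp (A * (m + 1)) := by
            apply mul_le_mul_of_nonneg_right _ (Real.exp_pos _).le
            have := Real.add_one_le_exp (1 : ℝ)
            linarith
        _ = Real.exp (1 + A * (m + 1)) := (Real.exp_add _ _).symm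
    have h2 := Real.exp_le_exp.1 h1
    linarith
  have hw2 : ∀ w : ℕ, (w : ℝ) ≤ 2 ^ w := fun w => by exact_mod_cast Nat.lt_two_pow_self.le
  refine ⟨k, x + 1, 2 * (x + 1) + c₁, hk1, by omega, hx2, ?_, ?_⟩
  · have h1 : (k : ℝ) ≤ 2 ^ (x + 1) := by exact_mod_cast hx2.le
    have h2 : C * ((x + 1 : ℕ) : ℝ) ≤ 2 ^ c₁ * 2 ^ (x + 1) :=
      mul_le_mul (hCc.trans (hw2 c₁)) (hw2 (x + 1)) (Nat.cast_nonneg _) (by positivity)
    calc (k : ℝ) * (C * ((x + 1 : ℕ) : ℝ)) ≤ 2 ^ (x + 1) * (2 ^ c₁ * 2 ^ (x + 1)) :=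
          mul_le_mul h1 h2 (by positivity) (by positivity)
      _ = (2 : ℝ) ^ (2 * (x + 1) + c₁) := by
          rw [pow_add (2 : ℝ) (2 * (x + 1)) c₁, two_mul, pow_add]
          ring
      _ ≤ q ^ (2 * (x + 1) + c₁) := pow_le_pow_left₀ (by norm_num) hq _
  · have h1 : ((2 * (x + 1) + c₁ : ℕ) : ℝ) ≤ (((6 + c₁ + 8 * a) * m : ℕ) : ℝ) := by
      push_cast
      have h2 : A * (m + 1) ≤ a * (2 * m) :=
        mul_le_mul hAa (by linarith) (by linarith) (Nat.cast_nonneg _)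
      have h3 : (c₁ : ℝ) ≤ c₁ * m := le_mul_of_one_le_right (Nat.cast_nonneg _) hm0
      nlinarith
    exact_mod_cast h1

variable {K : Type} [Field K] [Fintype K]

/-- Without fixed prime divisor the local densities are positive. -/
theorem om_lt (F : K[X][X]) {P : K[X]} (hP : P.Monic) (h : ∃ a : K[X], ¬ P ∣ F.eval a) :
    (Sh.om F P : ℝ) < (Fintype.card K : ℝ) ^ P.natDegree := by
  obtain ⟨a, ha⟩ := h
  have hr : ¬ P ∣ F.eval (a %ₘ P) := by
    intro h1
    apply ha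
    have h2 : P ∣ a - a %ₘ P := by
      refine ⟨a /ₘ P, ?_⟩
      have := modByMonic_add_div a P
      linear_combination -this
    have h3 := (h2.trans (sub_dvd_eval_sub a (a %ₘ P) F))
    have h4 : F.eval a = (F.eval a - F.eval (a %ₘ P)) + F.eval (a %ₘ P) := by ring
    rw [h4]
    exact dvd_add h3 h1
  have h1 : Sh.om F P ≤ (((Mn K P.natDegree).erase (rep P a) : Finset K[X]) : Set K[X]).ncard := by
    unfold Sh.om
    refine Set.ncard_le_ncard_of_injOn (fun u => P + u) ?_ ?_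
    · intro u hu
      rw [Finset.mem_coe, Finset.mem_erase, mem_Mn]
      refine ⟨fun h2 => hr ?_, hP.add_of_left hu.1, natDegree_add_eq_left_of_degree_lt hu.1⟩
      have h3 : u = a %ₘ P := by
        have h2' : P + u = P + a %ₘ P := h2
        exact add_left_cancel h2'
      rw [← h3]
      exact hu.2
    · intro u _ u' _ h
      exact add_left_cancel h
  rw [Set.ncard_coe_finset, Finset.card_erase_of_mem (rep_mem hP a), card_Mn] at h1
  have h2 : 0 < Fintype.card K ^ P.natDegree := pow_pos Fintype.card_pos _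
  have h3 : Sh.om F P < Fintype.card K ^ P.natDegree := by omega
  exact_mod_cast h3

theorem dn_pos (F : K[X][X]) (d : ℕ)
    (h : ∀ P : K[X], Irreducible P → ∃ a : K[X], ¬ P ∣ F.eval a) : 0 < Sh.dn F d := by
  unfold Sh.dn
  refine Finset.prod_pos fun P hP => ?_
  have h1 := om_lt F (mem_PU.1 hP).1 (h P (mem_PU.1 hP).2.1)
  rw [sub_pos, div_lt_one (lt_of_le_of_lt (Nat.cast_nonneg _) h1)]
  exact h1

end GapQ

open GapQ May in
/-- **Bounded gaps.** -/
theorem gapfq (hM : S_maysq) (hMe : S_mert) (K : Type) [Field K] [Fintype K] [CharP K 2] :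
    ∃ B : ℕ, ∀ f : K[X][X],
      Irreducible f ∧ (f.natDegree = 1 ∨ f.natDegree = 2 ∧ derivative f = 0) →
      ∀ m : ℕ, 1 ≤ m → ∃ n₀ : ℕ, ∀ n : ℕ, n₀ ≤ n → ∃ a : K[X], a.Monic ∧ a.natDegree = n ∧
        m ≤ {h : K[X] | h.natDegree ≤ B * m ∧ Irreducible (f.eval (a + h))}.ncard := by
  obtain ⟨A, hA, HA⟩ := hM K
  obtain ⟨C₀, hC₀, H1, -⟩ := hMe K
  obtain ⟨B, hB⟩ := sizes A C₀ hA hC₀
  refine ⟨B, fun f hf m hm => ?_⟩
  have hq2 : (2 : ℝ) ≤ (Fintype.card K : ℝ) := by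
    exact_mod_cast (Fintype.one_lt_card (α := K))
  have hq0 : (0 : ℝ) < (Fintype.card K : ℝ) := by linarith
  obtain ⟨k, w, D, hk, hw, hkw, hkD, hDB⟩ := hB m hm _ hq2
  obtain ⟨h, hinj, hh, hav⟩ := tuple (K := K) C₀ k w D hw hkw (H1 w hw).2 hkD
  have h2 : (2 : K[X]) = 0 := by exact_mod_cast CharP.cast_eq_zero K[X] 2
  have hex : ∃ (e : ℕ) (α β : K[X]), f = C α * X ^ e + C β ∧ AF e α β := by
    rcases hf.2 with h | ⟨h, h'⟩
    · exact ⟨1, _, _, lin hf.1 h⟩
    · exact ⟨2, _, _, quad hf.1 h h'⟩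
  obtain ⟨e, α, β, hform, hα, hcop, he⟩ := hex
  have hev : ∀ a, f.eval a = α * a ^ e + β := by
    intro a
    rw [hform]
    simp
  have hpow : ∀ a b : K[X], (a + b) ^ e = a ^ e + b ^ e := by
    intro a b
    rcases he with rfl | ⟨rfl, -⟩
    · ring
    · linear_combination (a * b) * h2
  have hpow' : ∀ a b : K[X], (a - b) ^ e = a ^ e - b ^ e := by
    intro a b
    rcases he with rfl | ⟨rfl, -⟩
    · ring
    · linear_combination (b ^ 2 - a * b) * h2
  have he0 : e ≠ 0 := by rcases he with rfl | ⟨rfl, -⟩ <;> norm_num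
  have hadd : ∀ a j, α * (a + h j) ^ e + β = α * a ^ e + (α * h j ^ e + β) := by
    intro a j
    rw [hpow]
    ring
  obtain ⟨F, hF⟩ : ∃ F : K[X][X], F = ∏ j, (C α * X ^ e + C (α * h j ^ e + β)) := ⟨_, rfl⟩
  have hFe : ∀ a, F.eval a = (1 : K[X][X]).eval a * ∏ j, (α * a ^ e + (α * h j ^ e + β)) := by
    intro a
    rw [hF, eval_prod]
    simp
  have hadm : ∀ P : K[X], Irreducible P → ∃ a : K[X], ¬ P ∣ F.eval a := by
    intro P hI
    obtain ⟨u, hu⟩ := hav P hI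
    suffices hs : ∃ a : K[X], ∀ j, ¬ P ∣ α * (a + h j) ^ e + β by
      obtain ⟨a, ha⟩ := hs
      refine ⟨a, fun hd => ?_⟩
      rw [hFe, eval_one, one_mul, Prime.dvd_finsetProd_iff hI.prime] at hd
      obtain ⟨j, -, hj⟩ := hd
      rw [← hadd] at hj
      exact ha j hj
    by_cases hPα : P ∣ α
    · refine ⟨0, fun j hj => hI.not_isUnit ?_⟩
      have h3 : P ∣ β := by
        have h4 := dvd_sub hj (Dvd.dvd.mul_right hPα ((0 + h j) ^ e))
        rwa [add_sub_cancel_left] at h4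
      exact hcop.isUnit_of_dvd' hPα h3
    · by_cases hroot : ∃ ρ : K[X], P ∣ α * ρ ^ e + β
      · obtain ⟨ρ, hρ⟩ := hroot
        refine ⟨ρ - u, fun j hj => hu j ?_⟩
        have h3 := dvd_sub hj hρ
        have h4 : α * (ρ - u + h j) ^ e + β - (α * ρ ^ e + β) = α * (h j - u) ^ e := by
          have h5 : (ρ - u + h j) ^ e = ρ ^ e + (h j - u) ^ e := by
            rw [← hpow]
            congr 1
            ring
          rw [h5]
          ring
        rw [h4] at h3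
        rcases hI.prime.dvd_or_dvd h3 with h5 | h5
        · exact absurd h5 hPα
        · exact hI.prime.dvd_of_dvd_pow h5
      · push Not at hroot
        exact ⟨0, fun j => hroot _⟩
  obtain ⟨δ, c, d₀, -, hc, H2⟩ := HA m k hk (fun _ => e) (fun _ => α)
    (fun j => α * h j ^ e + β) 1 F
    (fun j => by
      refine ⟨hα, ?_, ?_⟩
      · have h3 := hcop.add_mul_left_right (h j ^ e)
        rwa [add_comm] at h3
      · rcases he with he | ⟨he, hsq⟩
        · exact Or.inl he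
        · refine Or.inr ⟨he, ?_⟩
          rintro ⟨r, hr⟩
          apply hsq
          rw [he] at hr
          exact ⟨r + α * h j, by
            linear_combination hr - (α ^ 2 * h j ^ 2 + r * α * h j) * h2⟩)
    (fun i j hij _ heq => by
      apply hij
      apply hinj
      have h3 : α * (α * (h j - h i) ^ e) = 0 := by
        rw [hpow']
        linear_combination heq
      have h4 : (h j - h i) ^ e = 0 := by
        rcases mul_eq_zero.1 h3 with h5 | h5
        · exact absurd h5 hα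
        · rcases mul_eq_zero.1 h5 with h6 | h6
          · exact absurd h6 hα
          · exact h6
      exact (sub_eq_zero.1 (pow_eq_zero_iff he0 |>.1 h4)).symm)
    hFe hadm
  refine ⟨d₀, fun n hn => ?_⟩
  have h3 : (0 : ℝ) < c * (Fintype.card K : ℝ) ^ n * Sh.dn F n :=
    mul_pos (mul_pos hc (pow_pos hq0 n)) (dn_pos F n hadm)
  have h4 := h3.trans_le (H2 n hn)
  obtain ⟨a, ha⟩ := Finset.card_pos.1 (by exact_mod_cast h4)
  rw [Finset.mem_filter, mem_Mn] at ha
  refine ⟨a, ha.1.1, ha.1.2, ha.2.1.trans ?_⟩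
  have hfin : {g : K[X] | g.natDegree ≤ B * m ∧ Irreducible (f.eval (a + g))}.Finite := by
    refine (fin_deg (K := K) (B * m + 1)).subset fun g hg => ?_
    refine lt_of_le_of_lt degree_le_natDegree ?_
    have := hg.1
    exact_mod_cast Nat.lt_succ_of_le this
  rw [← Finset.card_image_of_injective _ hinj, ← Set.ncard_coe_finset]
  refine Set.ncard_le_ncard ?_ hfin
  intro g hg
  rw [Finset.mem_coe, Finset.mem_image] at hg
  obtain ⟨j, hj, rfl⟩ := hg
  refine ⟨by rw [(hh j).2]; exact hDB, ?_⟩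
  have h5 := (Finset.mem_filter.1 hj).2
  rw [hev, hadd]
  exact h5

end Pool.Agent.H524.MT
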