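import Mathlib
import Pool.Agent.H524.MT.StmX
import Pool.Agent.H524.MT.MayA

/-!
# From irreducible polynomials to the pairs `(α, β)`
-/

set_option autoImplicit false

namespace Pool.Agent.H524.MT.Conv

open Polynomial
open scoped Classical
open Pool.Agent.H524.MT

variable {K : Type} [Field K]

theorem prim {f : K[X][X]} (hf : Irreducible f) (hd : 1 ≤ f.natDegree) {g : K[X]}
    (hg : ∀ i, g ∣ f.coeff i) : IsUnit g := by
  have h1 : C g ∣ f := (C_dvd_iff_dvd_coeff g f).2 hg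
  obtain ⟨h, hh⟩ := h1
  rcases hf.isUnit_or_isUnit hh with h2 | h2
  · exact isUnit_C.1 h2
  · exfalso
    have h3 := natDegree_eq_zero_of_isUnit h2
    have h4 : f.natDegree ≤ 0 := by
      rw [hh]
      refine (natDegree_C_mul_le _ _).trans h3.le
    omega

theorem lin {f : K[X][X]} (hf : Irreducible f) (hd : f.natDegree = 1) :
    f = C (f.coeff 1) * X ^ 1 + C (f.coeff 0) ∧ AF 1 (f.coeff 1) (f.coeff 0) := by
  have h1 : f = C (f.coeff 1) * X ^ 1 + C (f.coeff 0) := by
    rw [pow_one]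
    exact eq_X_add_C_of_natDegree_le_one hd.le
  have h0 : f.coeff 1 ≠ 0 := by
    rw [← hd]
    exact leadingCoeff_ne_zero.2 hf.ne_zero
  refine ⟨h1, h0, ?_, Or.inl rfl⟩
  refine isCoprime_of_prime_dvd (fun h => h0 h.1) fun g hg h2 h3 => hg.not_isUnit ?_
  refine prim hf hd.ge fun i => ?_
  rcases Nat.lt_or_ge i 2 with hi | hi
  · interval_cases i
    · exact h3
    · exact h2
  · rw [coeff_eq_zero_of_natDegree_lt (by omega)]
    exact dvd_zero _

theorem isSquare_unit [Finite K] [CharP K 2] (u : K[X]) (hu : IsUnit u) : ∃ v : K[X], u = v ^ 2 := by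
  obtain ⟨r, -, rfl⟩ := isUnit_iff.1 hu
  obtain ⟨s, hs⟩ : ∃ s : K, s ^ 2 = r := by
    obtain ⟨s, hs⟩ := surjective_frobenius K 2 r
    exact ⟨s, by rwa [frobenius_def] at hs⟩
  exact ⟨C s, by rw [← C_pow, hs]⟩

theorem sq_of_mul [Finite K] [CharP K 2] {a b s : K[X]} (h : IsCoprime a b) (hs : a * b = s ^ 2) :
    ∃ t : K[X], a = t ^ 2 := by
  obtain ⟨d, hd⟩ := exists_associated_pow_of_mul_eq_pow' h hs
  obtain ⟨u, hu⟩ := hd
  obtain ⟨v, hv⟩ := isSquare_unit (u : K[X]) u.isUnit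
  exact ⟨d * v, by rw [← hu, hv]; ring⟩

theorem quad [Finite K] [CharP K 2] {f : K[X][X]} (hf : Irreducible f) (hd : f.natDegree = 2)
    (hder : derivative f = 0) :
    f = C (f.coeff 2) * X ^ 2 + C (f.coeff 0) ∧ AF 2 (f.coeff 2) (f.coeff 0) := by
  have hc1 : f.coeff 1 = 0 := by
    have h1 := coeff_derivative f 0
    rw [hder, coeff_zero, Nat.cast_zero, zero_add, zero_add, mul_one] at h1
    exact h1.symm
  have h1 : f = C (f.coeff 2) * X ^ 2 + C (f.coeff 0) := by
    ext1 i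
    rw [coeff_add, coeff_C_mul, coeff_X_pow, coeff_C]
    rcases Nat.lt_or_ge i 3 with hi | hi
    · interval_cases i
      · simp
      · simp [hc1]
      · simp
    · rw [coeff_eq_zero_of_natDegree_lt (by omega), if_neg (by omega), if_neg (by omega)]
      simp
  have h0 : f.coeff 2 ≠ 0 := by
    rw [← hd]
    exact leadingCoeff_ne_zero.2 hf.ne_zero
  have hcop : IsCoprime (f.coeff 2) (f.coeff 0) := by
    refine isCoprime_of_prime_dvd (fun h => h0 h.1) fun g hg h2 h3 => hg.not_isUnit ?_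
    refine prim hf (by omega) fun i => ?_
    rcases Nat.lt_or_ge i 3 with hi | hi
    · interval_cases i
      · exact h3
      · rw [hc1]
        exact dvd_zero _
      · exact h2
    · rw [coeff_eq_zero_of_natDegree_lt (by omega)]
      exact dvd_zero _
  refine ⟨h1, h0, hcop, Or.inr ⟨rfl, ?_⟩⟩
  rintro ⟨s, hs⟩
  obtain ⟨t, ht⟩ := sq_of_mul hcop (by rw [hs]; ring : _ = s ^ 2)
  obtain ⟨r, hr⟩ := sq_of_mul hcop.symm (by rw [mul_comm, hs]; ring : _ = s ^ 2)
  have h2 : (2 : K[X][X]) = 0 := by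
    have : (2 : K[X]) = 0 := by exact_mod_cast CharP.cast_eq_zero K[X] 2
    rw [show (2 : K[X][X]) = C (2 : K[X]) by rw [C_ofNat], this, C_0]
  have h3 : f = (C t * X + C r) * (C t * X + C r) := by
    rw [h1, ht, hr, C_pow, C_pow]
    linear_combination -(C t * C r * X) * h2
  rcases hf.isUnit_or_isUnit h3 with h4 | h4 <;>
  · have h5 := natDegree_eq_zero_of_isUnit h4
    have h6 : f.natDegree ≤ 0 + 0 := by
      rw [h3]
      exact natDegree_mul_le.trans (by rw [h5])
    omega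

theorem assoc {e : ℕ} {α β γ δ : K[X]} (h1 : α ≠ 0) (h2 : γ ≠ 0) (hc1 : IsCoprime α β)
    (hc2 : IsCoprime γ δ) (h : α * δ = γ * β) :
    Associated (C α * X ^ e + C β : K[X][X]) (C γ * X ^ e + C δ) := by
  have h3 : α ∣ γ := hc1.dvd_of_dvd_mul_right (Dvd.intro _ h)
  have h4 : γ ∣ α := hc2.dvd_of_dvd_mul_right (Dvd.intro _ h.symm)
  obtain ⟨u, hu⟩ := associated_of_dvd_dvd h3 h4
  have h5 : δ = β * u := by
    have h6 : α * δ = α * (β * u) := by rw [h, ← hu]; ring
    exact mul_left_cancel₀ h1 h6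
  refine ⟨Units.map (C : K[X] →+* K[X][X]).toMonoidHom u, ?_⟩
  rw [Units.coe_map, ← hu, h5]
  simp only [RingHom.toMonoidHom_eq_coe, MonoidHom.coe_coe, C_mul]
  ring

end Pool.Agent.H524.MT.Conv
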