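import Pool.Agent.H524.MT.FinS
import Pool.Agent.H524.MT.GapR

/-!
# Maynard-Tao for linear and inseparable quadratic polynomials: final assembly, quantitative
version (helper524)
-/

set_option autoImplicit false

namespace Pool.Agent.H524.MT

/-- **Maynard-Tao for linear and inseparable quadratic polynomials**, `k ≥ exp (A (m + 1))`. -/
theorem s_maysq : S_maysq :=
  maysq s_masterx (One.tone Exp.expw) bhk resg (rwmx selb) mert (optq mert)

end Pool.Agent.H524.MT
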