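import Mathlib
import Pool.Agent.H524.MT.Gap

/-!
# A positive proportion of the tuples, from `S_mayg`
-/

set_option autoImplicit false

namespace Pool.Agent.H524.MT

open Polynomial
open scoped Classical
open Pool.Agent.H985.KP (PA)
open Pool.Agent.H694.Typ (Mn PU mem_Mn mem_PU card_Mn)

namespace PropA

open May GapA

variable {K : Type} [Field K] [Fintype K] [CharP K 2]

omit [Fintype K] in
theorem nonsq {W : K[X]} (hW : ¬ IsUnit W) (g : K[X]) : ¬ IsSquare (X + W ^ 2 * g) := by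
  rintro ⟨r, hr⟩
  have h2 : (2 : K[X]) = 0 := by exact_mod_cast CharP.cast_eq_zero K[X] 2
  have h1 := congrArg derivative hr
  rw [derivative_add, derivative_X, derivative_mul, derivative_pow, derivative_mul] at h1
  apply hW
  apply isUnit_of_dvd_one
  refine ⟨W * derivative g, ?_⟩
  have h3 : (C ((2 : ℕ) : K) : K[X]) = 0 := by
    rw [show ((2 : ℕ) : K) = 0 from CharP.cast_eq_zero K 2, C_0]
  rw [h3] at h1
  linear_combination h1 + (r * derivative r - W ^ 2 * derivative g) * h2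

omit [CharP K 2] in
theorem WW_unit {k : ℕ} (hk : 1 ≤ k) : ¬ IsUnit (WW K k) := by
  intro h
  have h1 : (X : K[X]) ∣ WW K k :=
    Finset.dvd_prod_of_mem (fun P => P) (mem_PU.2 ⟨monic_X, irreducible_X, by rw [natDegree_X]; exact hk⟩)
  exact irreducible_X.not_isUnit (isUnit_of_dvd_unit h1 h)

/-- The constant terms. -/
noncomputable def SS (K : Type) [Field K] [Fintype K] (k e : ℕ) : Finset K[X] :=
  (Mn K e).image (fun g => X + WW K k ^ 2 * g)

omit [CharP K 2] in
theorem card_SS (k e : ℕ) : (SS K k e).card = Fintype.card K ^ e := by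
  unfold SS
  rw [Finset.card_image_of_injective, card_Mn]
  intro g g' h
  exact mul_left_cancel₀ (pow_ne_zero 2 (WW_monic (K := K) k).ne_zero) (add_left_cancel h)

/-- Pigeonhole over the arguments. -/
theorem ex_sub (hM : S_mayg) {k m e : ℕ} (hk : 1 ≤ k)
    (H : ∀ (α β : Fin k → K[X]) (G : K[X][X]), (∀ j, α j ≠ 0) → (∀ j, IsCoprime (α j) (β j)) →
      (∀ j, ¬ IsSquare (α j * β j)) → (∀ i j, i ≠ j → α i * β j ≠ α j * β i) →
      (∀ P : K[X], Irreducible P → ∃ a : K[X], ¬ P ∣ G.eval a ∧ ∀ j, ¬ P ∣ α j * a ^ 2 + β j) →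
      ∃ (δ : ℝ) (C d₀ : ℕ), 0 < δ ∧ ∀ d : ℕ, d₀ ≤ d →
        (Fintype.card K : ℝ) ^ d / (d : ℝ) ^ C ≤
          (((Mn K d).filter (fun a =>
            m ≤ (Finset.univ.filter (fun j => Irreducible (α j * a ^ 2 + β j))).card ∧
            (∀ P : K[X], Irreducible P → P ∣ G.eval a → δ * d ≤ P.natDegree) ∧
            ∀ j, ∀ P : K[X], Irreducible P → P ∣ α j * a ^ 2 + β j →
              δ * d ≤ P.natDegree)).card : ℝ))
    (c : Fin k → K[X]) (hc : Function.Injective c) (hS : ∀ j, c j ∈ SS K k e) :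
    ∃ σ : Fin m → Fin k, Function.Injective σ ∧
      {a : K[X] | ∀ i, Irreducible (a ^ 2 + c (σ i))}.Infinite := by
  have h2 : (2 : K[X]) = 0 := by exact_mod_cast CharP.cast_eq_zero K[X] 2
  have hform : ∀ j, ∃ g, c j = X + WW K k ^ 2 * g := fun j => by
    have h1 := hS j
    unfold SS at h1
    rw [Finset.mem_image] at h1
    obtain ⟨g, -, hg⟩ := h1
    exact ⟨g, hg.symm⟩
  obtain ⟨δ, C, d₀, hδ, H1⟩ := H (fun _ => 1) c 1 (fun _ => one_ne_zero)
    (fun _ => isCoprime_one_left) (fun j => by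
      rw [one_mul]
      obtain ⟨g, hg⟩ := hform j
      rw [hg]
      exact nonsq (WW_unit hk) g)
    (fun i j hij he => by
      rw [one_mul, one_mul] at he
      exact hij (hc he).symm)
    (fun P hP => by
      obtain ⟨a, ha⟩ := adm c X (fun j => by
        obtain ⟨g, hg⟩ := hform j
        have e1 : c j - X = WW K k * (WW K k * g) := by rw [hg]; ring
        rw [e1]
        exact dvd_mul_right _ _) P hP
      refine ⟨a, ?_, fun j => ?_⟩
      · rw [eval_one]
        exact fun h1 => hP.not_isUnit (isUnit_of_dvd_one h1)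
      · rw [one_mul]
        exact ha j)
  have hex : ∀ n : ℕ, ∃ a : K[X], a.natDegree = d₀ + 1 + n ∧
      ∃ σ : Fin m → Fin k, Function.Injective σ ∧ ∀ i, Irreducible (a ^ 2 + c (σ i)) := by
    intro n
    have h1 := H1 (d₀ + 1 + n) (by omega)
    have hn0 : (0 : ℝ) < ((d₀ + 1 + n : ℕ) : ℝ) := by
      exact_mod_cast (by omega : 0 < d₀ + 1 + n)
    have hq0 : (0 : ℝ) < (Fintype.card K : ℝ) := by
      exact_mod_cast (Fintype.card_pos (α := K))
    have h3 : (0 : ℝ) < (Fintype.card K : ℝ) ^ (d₀ + 1 + n) / ((d₀ + 1 + n : ℕ) : ℝ) ^ C := by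
      positivity
    have h4 := Finset.card_pos.1 (by exact_mod_cast h3.trans_le h1)
    obtain ⟨a, ha⟩ := h4
    rw [Finset.mem_filter, mem_Mn] at ha
    refine ⟨a, ha.1.2, ?_⟩
    obtain ⟨T, hT, hTc⟩ := Finset.exists_subset_card_eq ha.2.1
    let f := T.orderEmbOfFin hTc
    refine ⟨fun i => f i, fun i j hij => f.injective hij, fun i => ?_⟩
    have h5 := (Finset.mem_filter.1 (hT (T.orderEmbOfFin_mem hTc i))).2
    rw [one_mul] at h5
    exact h5
  choose a ha σ hσ hirr using hex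
  obtain ⟨τ, hτ⟩ := Finite.exists_infinite_fiber σ
  have hne : (σ ⁻¹' {τ}).Nonempty := by
    have := hτ
    exact Set.nonempty_coe_sort.1 inferInstance
  obtain ⟨n₀, hn₀⟩ := hne
  refine ⟨τ, ?_, ?_⟩
  · have h1 : σ n₀ = τ := hn₀
    rw [← h1]
    exact hσ n₀
  · have h1 : (σ ⁻¹' {τ}).Infinite := Set.infinite_coe_iff.1 hτ
    have h3 : Set.InjOn a (σ ⁻¹' {τ}) := by
      intro n _ n' _ h
      have h4 := ha n
      rw [h, ha n'] at h4
      omega
    refine (h1.image h3).mono ?_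
    rintro _ ⟨n, hn, rfl⟩ i
    have h4 : σ n = τ := hn
    rw [← h4]
    exact hirr n i

end PropA

open PropA May GapA in
/-- **Task PROP.** -/
theorem prop : S_tprop := by
  intro hM K _ _ _ m
  obtain ⟨k, hk, H⟩ := hM K m
  obtain ⟨w, hw⟩ : ∃ w, w = (WW K k).natDegree := ⟨_, rfl⟩
  obtain ⟨q, hq⟩ : ∃ q, q = Fintype.card K := ⟨_, rfl⟩
  have hq2 : 2 ≤ q := by rw [hq]; exact Fintype.one_lt_card
  have hqr : (0 : ℝ) < (q : ℝ) := by exact_mod_cast (by omega : 0 < q)
  have hkr : (0 : ℝ) < (k : ℝ) := by exact_mod_cast hk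
  refine ⟨1 / (2 ^ k * (k : ℝ) ^ m * ((q : ℝ) ^ (2 * w + 1)) ^ m), by positivity,
    2 * w + 1 + 2 * k, fun n hn => ?_⟩
  rw [← hq]
  obtain ⟨e, he⟩ : ∃ e, n = e + (2 * w + 1) := ⟨n - (2 * w + 1), by omega⟩
  obtain ⟨N, hN⟩ : ∃ N, N = (SS K k e).card := ⟨_, rfl⟩
  have hNq : N = q ^ e := by rw [hN, card_SS, hq]
  have hNk : 2 * k ≤ N := by
    rw [hNq]
    have h1 : 2 * k ≤ e := by omega
    exact (h1.trans (Nat.lt_pow_self hq2).le)
  obtain ⟨Gd, hGd⟩ : ∃ Gd : Set (Fin m → K[X]), Gd = {c : Fin m → K[X] |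
      (∀ i, (c i).degree < (n : WithBot ℕ)) ∧ Function.Injective c ∧
        {a : K[X] | ∀ i, Irreducible (a ^ 2 + c i)}.Infinite} := ⟨_, rfl⟩
  rw [← hGd]
  have hfin : Gd.Finite := by
    have h1 : (Set.pi Set.univ (fun _ : Fin m => {f : K[X] | f.degree < (n : WithBot ℕ)})).Finite :=
      Set.Finite.pi fun _ => fin_deg n
    refine h1.subset fun c hc i _ => ?_
    rw [hGd] at hc
    exact hc.1 i
  have hdegS : ∀ f ∈ SS K k e, f.degree < (n : WithBot ℕ) := by
    intro f hf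
    unfold SS at hf
    rw [Finset.mem_image] at hf
    obtain ⟨g, hg, rfl⟩ := hf
    rw [mem_Mn] at hg
    refine (degree_add_le _ _).trans_lt (max_lt ?_ ?_)
    · rw [degree_X]
      exact_mod_cast (by omega : 1 < n)
    · refine degree_le_natDegree.trans_lt ?_
      have h1 : (WW K k ^ 2 * g).natDegree = 2 * w + e := by
        rw [((WW_monic k).pow 2).natDegree_mul hg.1, (WW_monic k).natDegree_pow, hg.2, ← hw]
      rw [h1]
      exact_mod_cast (by omega : 2 * w + e < n)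
  -- the choice
  have hex : ∀ c : Fin k ↪ (SS K k e), ∃ σ : Fin m → Fin k, Function.Injective σ ∧
      {a : K[X] | ∀ i, Irreducible (a ^ 2 + (c (σ i) : K[X]))}.Infinite := fun c =>
    ex_sub hM hk H (fun j => (c j : K[X])) (fun i j h => c.injective (Subtype.ext h))
      (fun j => (c j).2)
  choose σ hσ hinf using hex
  obtain ⟨Ψ, hΨ⟩ : ∃ Ψ : (Fin k ↪ (SS K k e)) → (Fin m → Fin k) × (Fin m → K[X]),
      ∀ c, Ψ c = (σ c, fun i => (c (σ c i) : K[X])) := ⟨fun c => (σ c, fun i => (c (σ c i) : K[X])),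
        fun _ => rfl⟩
  have hfib : ∀ p ∈ Finset.univ.image Ψ, (Finset.univ.filter (fun c => Ψ c = p)).card ≤
      N ^ (k - m) := by
    intro p hp
    rw [Finset.mem_image] at hp
    obtain ⟨c₀, -, hc₀⟩ := hp
    have hinj0 := hσ c₀
    have hcard : Fintype.card {j : Fin k // j ∉ Set.range (σ c₀)} = k - m := by
      have h1 := Set.card_range_of_injective hinj0
      rw [Fintype.card_fin] at h1
      have h2 : Fintype.card {j : Fin k // j ∈ Set.range (σ c₀)} = m :=
        (Fintype.card_congr (Equiv.refl _)).trans h1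
      rw [Fintype.card_subtype_compl, Fintype.card_fin, h2]
    have h2 : Fintype.card ({j : Fin k // j ∉ Set.range (σ c₀)} → (SS K k e)) = N ^ (k - m) := by
      rw [Fintype.card_fun, hcard, Fintype.card_coe, ← hN]
    rw [← h2, ← Finset.card_univ]
    refine Finset.card_le_card_of_injOn (fun c j => c j.1) (fun _ _ => Finset.mem_coe.2 (Finset.mem_univ _)) ?_
    intro c hc c' hc' h
    rw [Finset.mem_coe, Finset.mem_filter, hΨ, ← hc₀, hΨ, Prod.mk.injEq] at hc hc'
    ext1 j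
    by_cases hj : j ∈ Set.range (σ c₀)
    · obtain ⟨i, rfl⟩ := hj
      have h3 := congrFun hc.2.2 i
      have h4 := congrFun hc'.2.2 i
      simp only [hc.2.1] at h3
      simp only [hc'.2.1] at h4
      exact Subtype.ext (h3.trans h4.symm)
    · exact congrFun h ⟨j, hj⟩
  have hmul := Finset.card_le_mul_card_image Finset.univ (N ^ (k - m)) hfib
  have himg : (Finset.univ.image Ψ).card ≤ k ^ m * Gd.ncard := by
    have h1 : Finset.univ.image Ψ ⊆ (Finset.univ : Finset (Fin m → Fin k)) ×ˢ hfin.toFinset := by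
      intro p hp
      rw [Finset.mem_image] at hp
      obtain ⟨c, -, rfl⟩ := hp
      rw [hΨ, Finset.mem_product]
      refine ⟨Finset.mem_univ _, ?_⟩
      rw [Set.Finite.mem_toFinset, hGd]
      refine ⟨fun i => hdegS _ (c (σ c i)).2, fun i j h => ?_, hinf c⟩
      exact hσ c (c.injective (Subtype.ext h))
    refine (Finset.card_le_card h1).trans ?_
    rw [Finset.card_product, Finset.card_univ, Fintype.card_fun, Fintype.card_fin, Fintype.card_fin,
      Set.ncard_eq_toFinset_card _ hfin]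
  have hE : (N + 1 - k) ^ k ≤ N ^ (k - m) * (k ^ m * Gd.ncard) := by
    have h1 : (Finset.univ : Finset (Fin k ↪ (SS K k e))).card = N.descFactorial k := by
      rw [Finset.card_univ, Fintype.card_embedding_eq, Fintype.card_fin, Fintype.card_coe, ← hN]
    rw [h1] at hmul
    exact (Nat.pow_sub_le_descFactorial N k).trans (hmul.trans (Nat.mul_le_mul_left _ himg))
  have hmk : m ≤ k := by
    have h1 : 0 < N.descFactorial k := Nat.descFactorial_pos.2 (by omega)
    have h3 : 0 < Fintype.card (Fin k ↪ (SS K k e)) := by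
      rw [Fintype.card_embedding_eq, Fintype.card_fin, Fintype.card_coe, ← hN]
      exact h1
    obtain ⟨c⟩ := Fintype.card_pos_iff.1 h3
    have h4 := Fintype.card_le_of_injective _ (hσ c)
    rwa [Fintype.card_fin, Fintype.card_fin] at h4
  have hNr : (0 : ℝ) < (N : ℝ) := by
    have : 0 < N := by omega
    exact_mod_cast this
  have hE' : ((N : ℝ) / 2) ^ k ≤ (N : ℝ) ^ (k - m) * ((k : ℝ) ^ m * (Gd.ncard : ℝ)) := by
    have h1 : (N : ℝ) / 2 ≤ ((N + 1 - k : ℕ) : ℝ) := by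
      rw [Nat.cast_sub (by omega)]
      push_cast
      have : (2 * k : ℝ) ≤ N := by exact_mod_cast hNk
      linarith
    refine (pow_le_pow_left₀ (by positivity) h1 k).trans ?_
    exact_mod_cast hE
  have hsplit : ((N : ℝ) / 2) ^ k = (N : ℝ) ^ (k - m) * ((N : ℝ) ^ m / 2 ^ k) := by
    rw [div_pow, ← mul_div_assoc, ← pow_add, Nat.sub_add_cancel hmk]
  rw [hsplit] at hE'
  have h3 := le_of_mul_le_mul_left hE' (pow_pos hNr (k - m))
  have h4 : 1 / (2 ^ k * (k : ℝ) ^ m * ((q : ℝ) ^ (2 * w + 1)) ^ m) * ((q : ℝ) ^ n) ^ m =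
      (N : ℝ) ^ m / 2 ^ k / (k : ℝ) ^ m := by
    have h5 : (N : ℝ) = (q : ℝ) ^ e := by rw [hNq]; push_cast; rfl
    obtain ⟨Q, hQ⟩ : ∃ Q : ℝ, Q = (q : ℝ) ^ (2 * w + 1) := ⟨_, rfl⟩
    have hQ0 : Q ≠ 0 := by rw [hQ]; positivity
    rw [he, pow_add (q : ℝ) e (2 * w + 1), ← h5, ← hQ, mul_pow]
    field_simp
  rw [h4, div_le_iff₀ (by positivity)]
  linarith

end Pool.Agent.H524.MT
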