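import Pool.Agent.H524.MT.FinX
import Pool.Agent.H524.MT.ConvM
import Pool.Agent.H524.MT.MxC
import Pool.Agent.H524.MT.Prop

/-!
# Maynard-Tao for linear and inseparable quadratic polynomials: final assembly (helper524)
-/

set_option autoImplicit false

namespace Pool.Agent.H524.MT

/-- **Maynard-Tao for linear and inseparable quadratic polynomials.** -/
theorem s_mays : S_mays :=
  mays s_masterx (One.tone Exp.expw) bhk resg (rwmx selb) mert (opt mert)

/-- **Prime and almost primes.** -/
theorem s_aprs : S_aprs := aprs s_masterx bhk mert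

/-- The version with the weaker lower bound. -/
theorem s_mayx : S_mayx :=
  mayx s_masterx (One.tone Exp.expw) bhk resg (rwmx selb) mert (opt mert)

/-- The case of the inseparable quadratic polynomials. -/
theorem s_mayg : S_mayg := by
  intro K _ _ _ m
  obtain ⟨k, hk, H⟩ := s_mayx K m
  exact ⟨k, hk, fun α β G hα hc hsq hne hadm => H (fun _ => 2) α β G
    (fun j => ⟨hα j, hc j, Or.inr ⟨rfl, hsq j⟩⟩) (fun i j hij _ => hne i j hij) hadm⟩

/-- A positive proportion of the tuples. -/
theorem s_prop : S_prop := prop s_mayg

/-- Bounded gaps. -/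
theorem s_gap : S_gap := gap s_mayg

end Pool.Agent.H524.MT
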