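import Mathlib
import Pool.Agent.H524.MT.StmG
import Pool.Agent.H604.LD.StmP

/-!
# The primes `α a ^ 2 + β` in residue classes, from `S_bhqp`
-/

set_option autoImplicit false

namespace Pool.Agent.H524.MT

open Polynomial
open scoped Classical
open Pool.Agent.H985.KP (PA)
open Pool.Agent.H694.Typ (Mn PU mem_Mn)
open Pool.Agent.H604.LD (PiM S_bhqp)

namespace LCGa

variable {K : Type} [Field K]

theorem not_sq [CharP K 2] {α β M a : K[X]} (hM : M ≠ 0) (h : ¬ IsSquare (α * β)) :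
    ¬ IsSquare (α * M ^ 2 * (α * a ^ 2 + β)) := by
  rintro ⟨r, hr⟩
  apply h
  have h2 : (2 : K[X]) = 0 := by exact_mod_cast CharP.cast_eq_zero K[X] 2
  have h1 : M ^ 2 ∣ r ^ 2 := ⟨α * (α * a ^ 2 + β), by linear_combination -hr⟩
  obtain ⟨t, rfl⟩ := (UniqueFactorizationMonoid.pow_dvd_pow_iff_dvd two_ne_zero).1 h1
  have h3 : M ^ 2 * (α * (α * a ^ 2 + β)) = M ^ 2 * (t * t) := by linear_combination hr
  have h4 := mul_left_cancel₀ (pow_ne_zero 2 hM) h3
  refine ⟨t + α * a, ?_⟩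
  linear_combination h4 - (α * a * t + α ^ 2 * a ^ 2) * h2

theorem cop {α β M a : K[X]} (hα : α ∣ M) (h : IsCoprime (α * a ^ 2 + β) M) :
    IsCoprime (α * M ^ 2) (α * a ^ 2 + β) :=
  IsCoprime.mul_left (h.of_isCoprime_of_dvd_right hα).symm h.symm.pow_left

theorem PA_eq {α M : K[X]} (hα : α ∣ M) : PA (α * M ^ 2) = PA M := by
  ext P
  constructor
  · rintro ⟨h1, h2, h3⟩
    refine ⟨h1, h2, ?_⟩
    rcases h2.prime.dvd_or_dvd h3 with h | h
    · exact h.trans hα
    · exact h2.prime.dvd_of_dvd_pow h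
  · rintro ⟨h1, h2, h3⟩
    exact ⟨h1, h2, Dvd.dvd.mul_left (dvd_pow h3 two_ne_zero) _⟩

end LCGa

open LCGa in
theorem lcg : S_bhqp → S_lcg := by
  intro hB K _ _ _
  obtain ⟨c, θ, hc, hθ, d₁, H⟩ := hB K
  refine ⟨min c 1, min (θ / 12) (1 / 4), lt_min hc one_pos, lt_min (by positivity) (by norm_num), ?_⟩
  intro α β hα hcop hsq
  refine ⟨max (2 * d₁) ⌈6 * (2 * α.natDegree + β.natDegree : ℝ) / θ⌉₊, ?_⟩
  intro M a₀ d hM hαM hc0 hd hMd
  have h2 : (2 : K[X]) = 0 := by exact_mod_cast CharP.cast_eq_zero K[X] 2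
  have hd1 : 2 * d₁ ≤ d := (le_max_left _ _).trans hd
  have hd2 : 6 * (2 * α.natDegree + β.natDegree : ℝ) ≤ θ * d := by
    have h1 := Nat.ceil_le.1 ((le_max_right _ _).trans hd)
    rw [div_le_iff₀ hθ] at h1
    linarith
  obtain ⟨m, hm⟩ : ∃ m, m = M.natDegree := ⟨_, rfl⟩
  rw [← hm] at hMd ⊢
  have hdr : (0 : ℝ) ≤ d := Nat.cast_nonneg d
  have hm1 : (m : ℝ) ≤ θ / 12 * d := hMd.trans (mul_le_mul_of_nonneg_right (min_le_left _ _) hdr)
  have hm2 : (m : ℝ) ≤ 1 / 4 * d := hMd.trans (mul_le_mul_of_nonneg_right (min_le_right _ _) hdr)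
  have hmd : 4 * m ≤ d := by
    have : (4 * m : ℝ) ≤ d := by linarith
    exact_mod_cast this
  obtain ⟨a₁, ha₁⟩ : ∃ a₁, a₁ = a₀ %ₘ M := ⟨_, rfl⟩
  have hdiv : a₀ = a₁ + M * (a₀ /ₘ M) := by rw [ha₁, modByMonic_add_div]
  have ha₁d : a₁.degree < M.degree := by rw [ha₁]; exact degree_modByMonic_lt _ hM
  have hM0 : M ≠ 0 := hM.ne_zero
  have hc1 : IsCoprime (α * a₁ ^ 2 + β) M := by
    have e1 : α * a₀ ^ 2 + β = α * a₁ ^ 2 + β + M * (α * (M * (a₀ /ₘ M) ^ 2 + 2 * a₁ * (a₀ /ₘ M))) := by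
      obtain ⟨u, hu⟩ : ∃ u, u = a₀ /ₘ M := ⟨_, rfl⟩
      rw [← hu] at hdiv ⊢
      rw [hdiv]
      ring
    rw [e1] at hc0
    exact (IsCoprime.add_mul_left_left_iff).1 hc0
  have hdegα : (α * M ^ 2).natDegree = α.natDegree + 2 * m := by
    rw [natDegree_mul hα (pow_ne_zero _ hM0), hM.natDegree_pow, hm]
  have ha₁n : a₁.natDegree ≤ m := by
    rw [hm]
    exact natDegree_le_natDegree ha₁d.le
  have hdegβ : (α * a₁ ^ 2 + β).natDegree ≤ α.natDegree + 2 * m + β.natDegree := by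
    refine (natDegree_add_le _ _).trans (max_le ?_ (by omega))
    refine natDegree_mul_le.trans ?_
    have := natDegree_pow_le (p := a₁) (n := 2)
    omega
  have hdm : ((d - m : ℕ) : ℝ) = (d : ℝ) - m := Nat.cast_sub (by omega)
  have key := H (α * M ^ 2) (α * a₁ ^ 2 + β) (X ^ (d - m)) 0 (d - m)
    (mul_ne_zero hα (pow_ne_zero _ hM0)) (cop hαM hc1) (not_sq hM0 hsq) (by omega)
    (monic_X_pow _) (natDegree_X_pow _) (by
      have e1 : (((α * M ^ 2).natDegree + (α * a₁ ^ 2 + β).natDegree + 0 : ℕ) : ℝ) ≤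
          (2 * α.natDegree + β.natDegree : ℝ) + 4 * m := by
        have e2 : (α * M ^ 2).natDegree + (α * a₁ ^ 2 + β).natDegree + 0 ≤
            2 * α.natDegree + β.natDegree + 4 * m := by omega
        exact_mod_cast e2
      refine e1.trans ?_
      rw [hdm]
      have e3 : θ * m ≤ θ * (1 / 4 * d) := mul_le_mul_of_nonneg_left hm2 hθ.le
      have e4 : 0 ≤ θ * d := by positivity
      nlinarith)
  have hPi : PiM (α * M ^ 2) = Pm M := by
    unfold PiM Pm
    rw [PA_eq hαM]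
  have hcard : ((Mn K (d - m)).filter (fun T => (T - X ^ (d - m)).degree <
      ((d - m - 0 : ℕ) : WithBot ℕ) ∧ Irreducible (α * M ^ 2 * T ^ 2 + (α * a₁ ^ 2 + β)))).card =
      ((Ac K d M a₀).filter (fun a => Irreducible (α * a ^ 2 + β))).card := by
    have hval : ∀ T : K[X], α * M ^ 2 * T ^ 2 + (α * a₁ ^ 2 + β) = α * (a₁ + M * T) ^ 2 + β := by
      intro T
      linear_combination -(α * a₁ * M * T) * h2
    have hmonic : ∀ T : K[X], T ∈ Mn K (d - m) → a₁ + M * T ∈ Mn K d := by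
      intro T hT
      rw [mem_Mn] at hT ⊢
      have h1 : (M * T).Monic := hM.mul hT.1
      have h3 : (M * T).natDegree = d := by
        rw [hM.natDegree_mul hT.1, hT.2, ← hm]
        omega
      have h4 : a₁.degree < (M * T).degree := by
        refine ha₁d.trans_le ?_
        exact degree_le_mul_left _ hT.1.ne_zero
      refine ⟨h1.add_of_right h4, ?_⟩
      rw [natDegree_add_eq_right_of_degree_lt h4, h3]
    refine Finset.card_bij (fun T _ => a₁ + M * T) ?_ ?_ ?_
    · intro T hT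
      rw [Finset.mem_filter] at hT ⊢
      refine ⟨?_, ?_⟩
      · unfold Ac
        rw [Finset.mem_filter]
        refine ⟨hmonic T hT.1, ?_⟩
        have e1 : a₁ + M * T - a₀ = M * (T - a₀ /ₘ M) := by
          linear_combination -hdiv
        rw [e1]
        exact dvd_mul_right _ _
      · rw [← hval]
        exact hT.2.2
    · intro T _ T' _ h
      exact mul_left_cancel₀ hM0 (add_left_cancel h)
    · intro a ha
      rw [Finset.mem_filter] at ha
      unfold Ac at ha
      rw [Finset.mem_filter, mem_Mn] at ha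
      obtain ⟨⟨⟨h1, h3⟩, h4⟩, h5⟩ := ha
      have h6 : M ∣ a - a₁ := by
        have e1 : a - a₁ = a - a₀ + M * (a₀ /ₘ M) := by linear_combination hdiv
        rw [e1]
        exact dvd_add h4 (dvd_mul_right _ _)
      obtain ⟨T, hT⟩ := h6
      have h7 : a = a₁ + M * T := by linear_combination hT
      have h8 : a₁.degree < a.degree := by
        refine ha₁d.trans_le ?_
        rw [degree_eq_natDegree hM0, degree_eq_natDegree h1.ne_zero, h3, ← hm]
        exact_mod_cast (by omega : m ≤ d)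
      have h9 : (a - a₁).Monic := h1.sub_of_left h8
      have h10 : (a - a₁).natDegree = d := by
        rw [natDegree_eq_of_degree_eq (degree_sub_eq_left_of_degree_lt h8), h3]
      rw [hT] at h9 h10
      have h11 : T.Monic := hM.of_mul_monic_left h9
      have h12 : T.natDegree = d - m := by
        rw [hM.natDegree_mul h11, ← hm] at h10
        omega
      refine ⟨T, ?_, h7.symm⟩
      rw [Finset.mem_filter, mem_Mn]
      refine ⟨⟨h11, h12⟩, ?_, ?_⟩
      · rw [Nat.sub_zero]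
        have h13 : T.degree = (X ^ (d - m) : K[X]).degree := by
          rw [degree_eq_natDegree h11.ne_zero, h12, degree_X_pow]
        have h14 := degree_sub_lt_left h13 h11.ne_zero (by
          rw [h11.leadingCoeff, (monic_X_pow (d - m)).leadingCoeff])
        rwa [degree_eq_natDegree h11.ne_zero, h12] at h14
      · rw [hval, ← h7]
        exact h5
  rw [hcard, hPi, hdegα, Nat.sub_zero, hdm] at key
  have e5 : 2 * ((d : ℝ) - m) + ((α.natDegree + 2 * m : ℕ) : ℝ) = 2 * (d : ℝ) + α.natDegree := by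
    push_cast
    ring
  rw [e5] at key
  refine key.trans ?_
  have hq : (1 : ℝ) ≤ (Fintype.card K : ℝ) := by
    exact_mod_cast (Fintype.card_pos (α := K))
  refine Real.rpow_le_rpow_of_exponent_le hq ?_
  have e6 : 0 ≤ (1 : ℝ) - min c 1 := sub_nonneg.2 (min_le_right _ _)
  have e7 : (1 : ℝ) - c ≤ 1 - min c 1 := by linarith [min_le_left c 1]
  have e8 : (0 : ℝ) ≤ (d : ℝ) - m := by
    have : (m : ℝ) ≤ d := by exact_mod_cast (by omega : m ≤ d)
    linarith
  have e9 : (0 : ℝ) ≤ m := Nat.cast_nonneg m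
  calc (1 - c) * ((d : ℝ) - m) ≤ (1 - min c 1) * ((d : ℝ) - m) := mul_le_mul_of_nonneg_right e7 e8
    _ ≤ (1 - min c 1) * d := mul_le_mul_of_nonneg_left (by linarith) e6

end Pool.Agent.H524.MT
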