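import Pool.Agent.H524.MT.StmV

/-!
# SELB: Selberg's diagonalization in several variables (helper734 for helper524)
-/

set_option autoImplicit false
set_option linter.unusedSectionVars false

namespace Pool.Agent.H524.MT

open Polynomial Finset
open scoped Classical
open Pool.Agent.H985.Chow (mob)
open Pool.Agent.H985.KP (PA)
open Pool.Agent.H694.Typ (Mn PU q_ge)

namespace SelbL

section one

variable {K : Type} [Field K]

/-- The product of a finite set of polynomials. -/
noncomputable def pr (T : Finset K[X]) : K[X] := ∏ P ∈ T, P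

/-- Monic irreducible polynomials. -/
def MI (T : Finset K[X]) : Prop := ∀ P ∈ T, P.Monic ∧ Irreducible P

theorem MI.mono {S T : Finset K[X]} (hT : MI T) (h : S ⊆ T) : MI S := fun P hP => hT P (h hP)

theorem pr_monic {T : Finset K[X]} (hT : MI T) : (pr T).Monic :=
  monic_prod_of_monic _ _ fun P hP => (hT P hP).1

theorem dvd_pr_iff {T : Finset K[X]} (hT : MI T) {P : K[X]} (hP : P.Monic) (hi : Irreducible P) :
    P ∣ pr T ↔ P ∈ T := by
  constructor
  · intro h
    obtain ⟨Q, hQ, hd⟩ := (Prime.dvd_finsetProd_iff hi.prime _).1 h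
    have h1 := hT Q hQ
    have h2 := eq_of_monic_of_associated hP h1.1 (hi.associated_of_dvd h1.2 hd)
    rwa [h2]
  · exact fun h => dvd_prod_of_mem (fun P => P) h

theorem PA_pr {T : Finset K[X]} (hT : MI T) : PA (pr T) = (T : Set K[X]) := by
  ext P
  constructor
  · rintro ⟨h1, h2, h3⟩
    exact (dvd_pr_iff hT h1 h2).1 h3
  · intro hP
    have h := hT P hP
    exact ⟨h.1, h.2, (dvd_pr_iff hT h.1 h.2).2 hP⟩

theorem pr_sqf {T : Finset K[X]} (hT : MI T) : Squarefree (pr T) := by
  refine Finset.squarefree_prod_of_pairwise_isCoprime ?_ fun P hP => (hT P hP).2.squarefree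
  intro P hP Q hQ hne
  change IsRelPrime P Q
  refine IsCoprime.isRelPrime ?_
  rw [(hT P hP).2.coprime_iff_not_dvd]
  intro hd
  exact hne (eq_of_monic_of_associated (hT P hP).1 (hT Q hQ).1
    ((hT P hP).2.associated_of_dvd (hT Q hQ).2 hd))

theorem exists_pr {r : K[X]} (hm : r.Monic) (hs : Squarefree r) : ∃ T, MI T ∧ pr T = r := by
  have h0 : r ≠ 0 := hm.ne_zero
  have hnd : (UniqueFactorizationMonoid.normalizedFactors r).Nodup :=
    (UniqueFactorizationMonoid.squarefree_iff_nodup_normalizedFactors h0).1 hs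
  have hT : MI (UniqueFactorizationMonoid.normalizedFactors r).toFinset := by
    intro P hP
    rw [Multiset.mem_toFinset, UniqueFactorizationMonoid.mem_normalizedFactors_iff' h0] at hP
    obtain ⟨a, b, -⟩ := hP
    refine ⟨?_, a⟩
    rw [← b]
    exact monic_normalize a.ne_zero
  refine ⟨_, hT, ?_⟩
  refine eq_of_monic_of_associated (pr_monic hT) hm ?_
  have e1 : pr (UniqueFactorizationMonoid.normalizedFactors r).toFinset =
      (UniqueFactorizationMonoid.normalizedFactors r).prod := by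
    rw [pr, Finset.prod, Multiset.toFinset_val, Multiset.dedup_eq_self.2 hnd, Multiset.map_id']
  rw [e1]
  exact UniqueFactorizationMonoid.prod_normalizedFactors h0

theorem pr_dvd_pr {S T : Finset K[X]} (hS : MI S) (hT : MI T) : pr S ∣ pr T ↔ S ⊆ T := by
  constructor
  · intro h P hP
    have h1 := hS P hP
    exact (dvd_pr_iff hT h1.1 h1.2).1 (((dvd_pr_iff hS h1.1 h1.2).2 hP).trans h)
  · exact fun h => prod_dvd_prod_of_subset _ _ _ h

theorem pr_inj {S T : Finset K[X]} (hS : MI S) (hT : MI T) (h : pr S = pr T) : S = T :=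
  Subset.antisymm ((pr_dvd_pr hS hT).1 (h ▸ dvd_rfl)) ((pr_dvd_pr hT hS).1 (h ▸ dvd_rfl))

theorem natDegree_pr {T : Finset K[X]} (hT : MI T) : (pr T).natDegree = ∑ P ∈ T, P.natDegree :=
  natDegree_prod_of_monic _ _ fun P hP => (hT P hP).1

theorem mob_pr {T : Finset K[X]} (hT : MI T) : mob (pr T) = (-1) ^ T.card := by
  unfold mob
  rw [if_pos (pr_sqf hT)]
  congr 1
  have h1 : Multiset.Rel Associated (UniqueFactorizationMonoid.factors (pr T)) T.val := by
    refine UniqueFactorizationMonoid.factors_unique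
      (fun x hx => UniqueFactorizationMonoid.irreducible_of_factor x hx)
      (fun x hx => (hT x hx).2) ?_
    have e1 : T.val.prod = pr T := by
      rw [pr, Finset.prod, Multiset.map_id']
    rw [e1]
    exact UniqueFactorizationMonoid.factors_prod (pr_monic hT).ne_zero
  exact Multiset.card_eq_card_of_rel h1

theorem rd_pr {D E : Finset K[X]} (hD : MI D) (hE : MI E) : rd (pr D * pr E) = pr (D ∪ E) := by
  have h1 : PA (pr D * pr E) = ((D ∪ E : Finset K[X]) : Set K[X]) := by
    ext P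
    constructor
    · rintro ⟨h1, h2, h3⟩
      rw [mem_coe, mem_union]
      rcases h2.prime.dvd_or_dvd h3 with h | h
      · exact Or.inl ((dvd_pr_iff hD h1 h2).1 h)
      · exact Or.inr ((dvd_pr_iff hE h1 h2).1 h)
    · intro hP
      rw [mem_coe, mem_union] at hP
      rcases hP with h | h
      · exact ⟨(hD P h).1, (hD P h).2, ((dvd_pr_iff hD (hD P h).1 (hD P h).2).2 h).mul_right _⟩
      · exact ⟨(hE P h).1, (hE P h).2, ((dvd_pr_iff hE (hE P h).1 (hE P h).2).2 h).mul_left _⟩
  unfold rd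
  rw [h1, finprod_mem_coe_finset]
  rfl

variable [Fintype K]

theorem ph_pr {T : Finset K[X]} (hT : MI T) :
    ph (pr T) = ∏ P ∈ T, ((Fintype.card K : ℝ) ^ P.natDegree - 1) := by
  unfold ph
  rw [PA_pr hT, finprod_mem_coe_finset]

theorem ph_pos {r : K[X]} (hm : r.Monic) (hs : Squarefree r) : 0 < ph r := by
  obtain ⟨T, hT, rfl⟩ := exists_pr hm hs
  rw [ph_pr hT]
  refine prod_pos fun P hP => ?_
  have h1 : (1 : ℝ) < (Fintype.card K : ℝ) ^ P.natDegree :=
    one_lt_pow₀ (by have := q_ge (k := K); linarith) (hT P hP).2.natDegree_pos.ne'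
  linarith

/-- The common divisors. -/
theorem sum_ph {R : Finset K[X]} (hR : Dc R) {d e : K[X]} (hd : d ∈ R) (he : e ∈ R) :
    ∑ s ∈ R, (if s ∣ d ∧ s ∣ e then ph s else 0) =
      (Fintype.card K : ℝ) ^ d.natDegree * (Fintype.card K : ℝ) ^ e.natDegree /
        (Fintype.card K : ℝ) ^ (rd (d * e)).natDegree := by
  obtain ⟨D, hD, rfl⟩ := exists_pr (hR.1 d hd).1 (hR.1 d hd).2
  obtain ⟨E, hE, rfl⟩ := exists_pr (hR.1 e he).1 (hR.1 e he).2
  have hDE : MI (D ∩ E) := hD.mono inter_subset_left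
  have hDU : MI (D ∪ E) := by
    intro P hP
    rcases mem_union.1 hP with h | h
    · exact hD P h
    · exact hE P h
  have hset : R.filter (fun s => s ∣ pr D ∧ s ∣ pr E) = (D ∩ E).powerset.image pr := by
    ext s
    rw [mem_filter, mem_image]
    constructor
    · rintro ⟨hs, h1, h2⟩
      obtain ⟨S, hS, rfl⟩ := exists_pr (hR.1 s hs).1 (hR.1 s hs).2
      exact ⟨S, mem_powerset.2 (subset_inter ((pr_dvd_pr hS hD).1 h1) ((pr_dvd_pr hS hE).1 h2)), rfl⟩
    · rintro ⟨S, hS, rfl⟩
      rw [mem_powerset] at hS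
      have hS' : MI S := hDE.mono hS
      have h1 : pr S ∣ pr D := (pr_dvd_pr hS' hD).2 (hS.trans inter_subset_left)
      exact ⟨hR.2 _ hd _ (pr_monic hS') h1, h1, (pr_dvd_pr hS' hE).2 (hS.trans inter_subset_right)⟩
  have hinj : Set.InjOn pr ((D ∩ E).powerset : Set (Finset K[X])) := by
    intro S hS S' hS' h
    rw [mem_coe, mem_powerset] at hS hS'
    exact pr_inj (hDE.mono hS) (hDE.mono hS') h
  rw [← sum_filter, hset, sum_image hinj]
  have h1 : ∑ S ∈ (D ∩ E).powerset, ph (pr S) =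
      ∏ P ∈ D ∩ E, (Fintype.card K : ℝ) ^ P.natDegree := by
    rw [sum_congr rfl fun S hS => ph_pr (hDE.mono (mem_powerset.1 hS)), ← prod_add_one]
    refine prod_congr rfl fun P _ => ?_
    ring
  have hq : (Fintype.card K : ℝ) ≠ 0 := by have := q_ge (k := K); positivity
  rw [h1, rd_pr hD hE, natDegree_pr hD, natDegree_pr hE, natDegree_pr hDU, prod_pow_eq_pow_sum,
    eq_div_iff (pow_ne_zero _ hq), ← pow_add, ← pow_add, add_comm, sum_union_inter]

/-- Moebius inversion. -/
theorem sum_mob {R : Finset K[X]} (hR : Dc R) {s r : K[X]} (hs : s ∈ R) (hr : r ∈ R) :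
    ∑ d ∈ R, (if s ∣ d ∧ d ∣ r then (mob d : ℝ) else 0) = if s = r then (mob s : ℝ) else 0 := by
  obtain ⟨S, hS, rfl⟩ := exists_pr (hR.1 s hs).1 (hR.1 s hs).2
  obtain ⟨T, hT, rfl⟩ := exists_pr (hR.1 r hr).1 (hR.1 r hr).2
  by_cases hST : S ⊆ T
  · have hset : R.filter (fun d => pr S ∣ d ∧ d ∣ pr T) =
        (T \ S).powerset.image (fun D => pr (S ∪ D)) := by
      ext d
      rw [mem_filter, mem_image]
      constructor
      · rintro ⟨hd, h1, h2⟩
        obtain ⟨D, hD, rfl⟩ := exists_pr (hR.1 d hd).1 (hR.1 d hd).2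
        have h3 := (pr_dvd_pr hS hD).1 h1
        have h4 := (pr_dvd_pr hD hT).1 h2
        refine ⟨D \ S, mem_powerset.2 (sdiff_subset_sdiff h4 le_rfl), ?_⟩
        rw [union_sdiff_of_subset h3]
      · rintro ⟨D, hD, rfl⟩
        rw [mem_powerset] at hD
        have hsub : S ∪ D ⊆ T := union_subset hST (hD.trans sdiff_subset)
        have hM : MI (S ∪ D) := hT.mono hsub
        have h1 : pr (S ∪ D) ∣ pr T := (pr_dvd_pr hM hT).2 hsub
        exact ⟨hR.2 _ hr _ (pr_monic hM) h1, (pr_dvd_pr hS hM).2 subset_union_left, h1⟩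
    have hMI : ∀ D ∈ (T \ S).powerset, MI (S ∪ D) := fun D hD =>
      hT.mono (union_subset hST ((mem_powerset.1 hD).trans sdiff_subset))
    have hdis : ∀ D ∈ (T \ S).powerset, Disjoint S D := fun D hD =>
      (disjoint_sdiff (s := S) (t := T)).mono_right (mem_powerset.1 hD)
    have hinj : Set.InjOn (fun D => pr (S ∪ D)) ((T \ S).powerset : Set (Finset K[X])) := by
      intro D hD D' hD' h
      have h1 := pr_inj (hMI D hD) (hMI D' hD') h
      have h2 : (S ∪ D) \ S = (S ∪ D') \ S := by rw [h1]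
      rwa [union_sdiff_cancel_left (hdis D hD), union_sdiff_cancel_left (hdis D' hD')] at h2
    rw [← sum_filter, hset, sum_image hinj]
    have h1 : ∑ D ∈ (T \ S).powerset, (mob (pr (S ∪ D)) : ℝ) =
        (((-1) ^ S.card * ∑ D ∈ (T \ S).powerset, (-1) ^ D.card : ℤ) : ℝ) := by
      rw [mul_sum]
      push_cast
      refine sum_congr rfl fun D hD => ?_
      rw [mob_pr (hMI D hD), card_union_of_disjoint (hdis D hD), pow_add]
      push_cast
      rfl
    rw [h1, sum_powerset_neg_one_pow_card]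
    by_cases he : T \ S = ∅
    · have h2 : S = T := Subset.antisymm hST (sdiff_eq_empty_iff_subset.1 he)
      rw [if_pos he, if_pos (by rw [h2]), mob_pr hS, mul_one]
    · have h2 : pr S ≠ pr T := by
        intro h
        apply he
        rw [pr_inj hS hT h, sdiff_self]
        rfl
      rw [if_neg he, if_neg h2, mul_zero, Int.cast_zero]
  · have h0 : pr S ≠ pr T := fun h => hST ((pr_dvd_pr hS hT).1 (h ▸ dvd_rfl))
    rw [if_neg h0]
    refine sum_eq_zero fun d _ => if_neg fun h => hST ((pr_dvd_pr hS hT).1 (h.1.trans h.2))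

end one

theorem ite_prod {k : ℕ} (p : Fin k → Prop) [DecidablePred p] (f : Fin k → ℝ) :
    (∏ j, if p j then f j else 0) = if ∀ j, p j then ∏ j, f j else 0 := by
  by_cases h : ∀ j, p j
  · rw [if_pos h]
    exact prod_congr rfl fun j _ => if_pos (h j)
  · rw [if_neg h]
    push Not at h
    obtain ⟨j, hj⟩ := h
    exact prod_eq_zero (mem_univ j) (if_neg hj)

end SelbL

open SelbL

theorem selb : S_selb := by
  intro K _ _ k R y hR
  have hq : (Fintype.card K : ℝ) ≠ 0 := by have := q_ge (k := K); positivity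
  -- the normalised weights
  let Y : (Fin k → K[X]) → ℝ := fun r => y r / ∏ j, ph (r j)
  let a : (Fin k → K[X]) → ℝ := fun d => (∏ j, (mob (d j) : ℝ)) *
    ∑ r ∈ Fintype.piFinset R, if ∀ j, d j ∣ r j then Y r else 0
  have hlam : ∀ d, lam R y d = a d * ∏ j, (Fintype.card K : ℝ) ^ (d j).natDegree := by
    intro d
    unfold lam
    rw [prod_mul_distrib, sum_filter]
    change _ = ((∏ j, (mob (d j) : ℝ)) *
      ∑ r ∈ Fintype.piFinset R, if ∀ j, d j ∣ r j then Y r else 0) *
        ∏ j, (Fintype.card K : ℝ) ^ (d j).natDegree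
    ring
  -- the sums of the normalised weights
  have hsum : ∀ s ∈ Fintype.piFinset R,
      ∑ d ∈ Fintype.piFinset R, (if ∀ j, s j ∣ d j then a d else 0) =
        (∏ j, (mob (s j) : ℝ)) * Y s := by
    intro s hs
    rw [Fintype.mem_piFinset] at hs
    have h1 : ∀ d, (if ∀ j, s j ∣ d j then a d else 0) = ∑ r ∈ Fintype.piFinset R,
        Y r * ∏ j, (if s j ∣ d j ∧ d j ∣ r j then (mob (d j) : ℝ) else 0) := by
      intro d
      by_cases hsd : ∀ j, s j ∣ d j
      · rw [if_pos hsd]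
        change (∏ j, (mob (d j) : ℝ)) *
          ∑ r ∈ Fintype.piFinset R, (if ∀ j, d j ∣ r j then Y r else 0) = _
        rw [mul_sum]
        refine sum_congr rfl fun r _ => ?_
        rw [ite_prod]
        by_cases hdr : ∀ j, d j ∣ r j
        · rw [if_pos hdr, if_pos fun j => ⟨hsd j, hdr j⟩, mul_comm]
        · rw [if_neg hdr, if_neg fun h => hdr fun j => (h j).2, mul_zero, mul_zero]
      · rw [if_neg hsd]
        symm
        refine sum_eq_zero fun r _ => ?_
        rw [ite_prod, if_neg fun h => hsd fun j => (h j).1, mul_zero]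
    simp only [h1]
    rw [sum_comm]
    have h2 : ∀ r ∈ Fintype.piFinset R, ∑ d ∈ Fintype.piFinset R,
        Y r * ∏ j, (if s j ∣ d j ∧ d j ∣ r j then (mob (d j) : ℝ) else 0) =
        if s = r then (∏ j, (mob (s j) : ℝ)) * Y s else 0 := by
      intro r hr
      rw [Fintype.mem_piFinset] at hr
      rw [← mul_sum, ← prod_univ_sum R (fun j x => if s j ∣ x ∧ x ∣ r j then (mob x : ℝ) else 0),
        prod_congr rfl fun j _ => sum_mob (hR j) (hs j) (hr j), ite_prod]
      by_cases hsr : s = r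
      · rw [if_pos hsr, if_pos fun j => by rw [hsr], hsr, mul_comm]
      · rw [if_neg hsr, if_neg fun h => hsr (funext h), mul_zero]
    rw [sum_congr rfl h2, sum_ite_eq, if_pos (Fintype.mem_piFinset.2 hs)]
  -- the quadratic form
  have hterm : ∀ d ∈ Fintype.piFinset R, ∀ e ∈ Fintype.piFinset R,
      lam R y d * lam R y e / ∏ j, (Fintype.card K : ℝ) ^ (rd (d j * e j)).natDegree =
        ∑ s ∈ Fintype.piFinset R, (∏ j, ph (s j)) *
          ((if ∀ j, s j ∣ d j then a d else 0) * (if ∀ j, s j ∣ e j then a e else 0)) := by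
    intro d hd e he
    rw [Fintype.mem_piFinset] at hd he
    have h1 : (∏ j, (Fintype.card K : ℝ) ^ (d j).natDegree) *
        (∏ j, (Fintype.card K : ℝ) ^ (e j).natDegree) /
          ∏ j, (Fintype.card K : ℝ) ^ (rd (d j * e j)).natDegree =
        ∑ s ∈ Fintype.piFinset R, ∏ j, (if s j ∣ d j ∧ s j ∣ e j then ph (s j) else 0) := by
      rw [← prod_univ_sum R (fun j x => if x ∣ d j ∧ x ∣ e j then ph x else 0),
        prod_congr rfl fun j _ => sum_ph (hR j) (hd j) (he j), prod_div_distrib, prod_mul_distrib]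
    rw [hlam, hlam]
    have h2 : a d * (∏ j, (Fintype.card K : ℝ) ^ (d j).natDegree) *
        (a e * ∏ j, (Fintype.card K : ℝ) ^ (e j).natDegree) /
          ∏ j, (Fintype.card K : ℝ) ^ (rd (d j * e j)).natDegree =
        (a d * a e) * ((∏ j, (Fintype.card K : ℝ) ^ (d j).natDegree) *
        (∏ j, (Fintype.card K : ℝ) ^ (e j).natDegree) /
          ∏ j, (Fintype.card K : ℝ) ^ (rd (d j * e j)).natDegree) := by ring
    rw [h2, h1, mul_sum]
    refine sum_congr rfl fun s _ => ?_
    rw [ite_prod]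
    by_cases h3 : ∀ j, s j ∣ d j
    · by_cases h4 : ∀ j, s j ∣ e j
      · rw [if_pos h3, if_pos h4, if_pos fun j => ⟨h3 j, h4 j⟩]
        ring
      · rw [if_neg h4, if_neg fun h => h4 fun j => (h j).2]
        ring
    · rw [if_neg h3, if_neg fun h => h3 fun j => (h j).1]
      ring
  rw [sum_congr rfl fun d hd => sum_congr rfl fun e he => hterm d hd e he]
  rw [show ∑ d ∈ Fintype.piFinset R, ∑ e ∈ Fintype.piFinset R, ∑ s ∈ Fintype.piFinset R,
      (∏ j, ph (s j)) *
        ((if ∀ j, s j ∣ d j then a d else 0) * (if ∀ j, s j ∣ e j then a e else 0)) =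
      ∑ d ∈ Fintype.piFinset R, ∑ s ∈ Fintype.piFinset R, ∑ e ∈ Fintype.piFinset R,
      (∏ j, ph (s j)) *
        ((if ∀ j, s j ∣ d j then a d else 0) * (if ∀ j, s j ∣ e j then a e else 0)) from
    sum_congr rfl fun d _ => sum_comm, sum_comm]
  unfold dia
  refine sum_congr rfl fun s hs => ?_
  have h5 : ∑ d ∈ Fintype.piFinset R, ∑ e ∈ Fintype.piFinset R, (∏ j, ph (s j)) *
      ((if ∀ j, s j ∣ d j then a d else 0) * (if ∀ j, s j ∣ e j then a e else 0)) =
      (∏ j, ph (s j)) * ((∏ j, (mob (s j) : ℝ)) * Y s) ^ 2 := by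
    rw [← hsum s hs, sq, Finset.sum_mul_sum, mul_sum]
    refine sum_congr rfl fun d _ => ?_
    rw [mul_sum]
  rw [h5]
  rw [Fintype.mem_piFinset] at hs
  have h6 : (∏ j, (mob (s j) : ℝ)) ^ 2 = 1 := by
    rw [← prod_pow]
    refine prod_eq_one fun j _ => ?_
    obtain ⟨T, hT, hTs⟩ := exists_pr ((hR j).1 _ (hs j)).1 ((hR j).1 _ (hs j)).2
    rw [← hTs, mob_pr hT]
    push_cast
    rw [← pow_mul, mul_comm, pow_mul]
    norm_num
  have h7 : (∏ j, ph (s j)) ≠ 0 :=
    prod_ne_zero_iff.2 fun j _ => (ph_pos ((hR j).1 _ (hs j)).1 ((hR j).1 _ (hs j)).2).ne'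
  rw [mul_pow, h6, one_mul]
  change (∏ j, ph (s j)) * (y s / ∏ j, ph (s j)) ^ 2 = _
  field_simp

end Pool.Agent.H524.MT
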