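import Pool.Agent.H604.LD.FinalP
import Pool.Agent.H524.MT.LCG
import Pool.Agent.H524.MT.LCX
import Pool.Agent.H524.MT.MasterX
import Pool.Agent.H524.MT.RwmX
import Pool.Agent.H524.MT.ResG
import Pool.Agent.H524.MT.Exp
import Pool.Agent.H524.MT.One
import Pool.Agent.H524.MT.Bhk
import Pool.Agent.H524.MT.Selb
import Pool.Agent.H524.MT.Mert
import Pool.Agent.H524.MT.Opt

/-!
# Maynard-Tao for linear and inseparable quadratic polynomials: final assembly (helper524)
-/

set_option autoImplicit false

namespace Pool.Agent.H524.MT

/-- Primes `α a ^ 2 + β` in residue classes. -/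
theorem s_lcg : S_lcg := lcg Pool.Agent.H604.LD.s_bhqp

/-- Primes `α a ^ e + β` in residue classes. -/
theorem s_lcx : S_lcx := lcx s_lcg

/-- The main estimate, linear and quadratic polynomials. -/
theorem s_masterx : S_masterx := masterx s_lcx Exp.expw

end Pool.Agent.H524.MT
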